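import Pool.Agent.Lib.MP_c0533c_co.Defs

namespace Pool.Agent.Lib.MP_c0533c_co
open Classical

variable {V : Type}

/-- increasing path for an adjacency relation `A` and a weight `d` -/
def IP (A : V → V → Prop) (d : V → ℕ) (l : List V) : Prop :=
  l.Nodup ∧ l.IsChain (fun a b => A a b ∧ d a ≤ d b)

theorem chain_and {R S : V → V → Prop} : ∀ {l : List V}, l.IsChain R → l.IsChain S →
    l.IsChain (fun a b => R a b ∧ S a b)
  | [], _, _ => List.isChain_nil
  | [_], _, _ => List.isChain_singleton _
  | _ :: _ :: _, h1, h2 => by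
    rw [List.isChain_cons_cons] at h1 h2 ⊢
    exact ⟨⟨h1.1, h2.1⟩, chain_and h1.2 h2.2⟩

theorem le_mp_iff [Fintype V] (G : SimpleGraph V) (k : ℕ) :
    k ≤ mp G ↔ ∃ l, IP G.Adj (dg G) l ∧ k ≤ l.length := by
  have hb : BddAbove {m | ∃ l, MonoPath G l ∧ l.length = m} := by
    refine ⟨Fintype.card V, ?_⟩
    rintro m ⟨l, hl, rfl⟩
    exact hl.1.length_le_card
  have hne : {m | ∃ l, MonoPath G l ∧ l.length = m}.Nonempty :=
    ⟨0, [], ⟨List.nodup_nil, List.isChain_nil, Or.inl List.isChain_nil⟩, rfl⟩
  constructor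
  · intro hk
    obtain ⟨l, ⟨h1, h2, h3⟩, hl⟩ := Nat.sSup_mem hne hb
    have hk' : k ≤ l.length := by rw [hl]; exact hk
    rcases h3 with h3 | h3
    · exact ⟨l, ⟨h1, chain_and h2 h3⟩, hk'⟩
    · refine ⟨l.reverse, ⟨List.nodup_reverse.mpr h1, ?_⟩, by simpa using hk'⟩
      rw [List.isChain_reverse]
      exact (chain_and h2 h3).imp (fun _ _ h => ⟨h.1.symm, h.2⟩)
  · rintro ⟨l, ⟨h1, h2⟩, hk⟩
    refine le_trans hk (le_csSup hb ⟨l, ⟨h1, h2.imp (fun _ _ h => h.1),
      Or.inl (h2.imp (fun _ _ h => h.2))⟩, rfl⟩)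

theorem dg_eq_card [Fintype V] (G : SimpleGraph V) (v : V) :
    dg G v = (Finset.univ.filter (fun z => G.Adj v z)).card := by
  unfold dg
  rw [← Set.ncard_coe_finset]
  congr 1
  ext z; simp

theorem dg_sup_edge [Fintype V] (G : SimpleGraph V) {u v : V} (huv : u ≠ v) (hn : ¬ G.Adj u v)
    (w : V) : dg (G ⊔ SimpleGraph.edge u v) w = dg G w + if w = u ∨ w = v then 1 else 0 := by
  unfold dg
  by_cases h1 : w = u
  · subst h1
    have : (G ⊔ SimpleGraph.edge w v).neighborSet w = insert v (G.neighborSet w) := by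
      ext z
      simp only [SimpleGraph.mem_neighborSet, SimpleGraph.sup_adj, SimpleGraph.edge_adj,
        true_and, Set.mem_insert_iff]
      constructor
      · rintro (h | ⟨h | h, _⟩)
        · exact Or.inr h
        · exact Or.inl h
        · exact absurd h.1 huv
      · rintro (h | h)
        · exact Or.inr ⟨Or.inl h, h ▸ huv⟩
        · exact Or.inl h
    rw [this, Set.ncard_insert_of_notMem (by simpa using hn)]; simp
  · by_cases h2 : w = v
    · subst h2
      have : (G ⊔ SimpleGraph.edge u w).neighborSet w = insert u (G.neighborSet w) := by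
        ext z
        simp only [SimpleGraph.mem_neighborSet, SimpleGraph.sup_adj, SimpleGraph.edge_adj,
          true_and, Set.mem_insert_iff]
        constructor
        · rintro (h | ⟨h | h, _⟩)
          · exact Or.inr h
          · exact absurd h.1 h1
          · exact Or.inl h
        · rintro (h | h)
          · exact Or.inr ⟨Or.inr h, h ▸ h1⟩
          · exact Or.inl h
      rw [this, Set.ncard_insert_of_notMem (by simpa using fun h => hn h.symm)]; simp
    · have : (G ⊔ SimpleGraph.edge u v).neighborSet w = G.neighborSet w := by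
        ext z
        simp [SimpleGraph.edge_adj, h1, h2]
      rw [this]; simp [h1, h2]

/-- adjacency after adding the edge `u v` -/
def AdjP (G : SimpleGraph V) (u v : V) (a b : V) : Prop :=
  G.Adj a b ∨ (a = u ∧ b = v) ∨ (a = v ∧ b = u)

/-- degrees after adding the edge `u v` -/
noncomputable def dgP (G : SimpleGraph V) (u v : V) (w : V) : ℕ :=
  dg G w + if w = u ∨ w = v then 1 else 0

theorem sat_iff [Fintype V] (G : SimpleGraph V) (M : ℕ) :
    Sat G (M + 1) ↔ (∀ l, IP G.Adj (dg G) l → l.length ≤ M) ∧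
      ∀ u v, u ≠ v → ¬ G.Adj u v → ∃ l, IP (AdjP G u v) (dgP G u v) l ∧ M + 1 ≤ l.length := by
  unfold Sat
  refine and_congr ?_ ?_
  · rw [← not_le, le_mp_iff]
    constructor
    · intro h l hl
      by_contra hc
      exact h ⟨l, hl, by omega⟩
    · rintro h ⟨l, hl, hk⟩
      have := h l hl; omega
  · refine forall_congr' fun u => forall_congr' fun v => forall_congr' fun huv =>
      forall_congr' fun hn => ?_
    rw [le_mp_iff]
    have e1 : dg (G ⊔ SimpleGraph.edge u v) = dgP G u v := funext (dg_sup_edge G huv hn)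
    have e2 : (G ⊔ SimpleGraph.edge u v).Adj = AdjP G u v := by
      funext a b
      simp only [SimpleGraph.sup_adj, SimpleGraph.edge_adj, AdjP, eq_iff_iff]
      constructor
      · rintro (h | ⟨h, _⟩)
        · exact Or.inl h
        · exact Or.inr h
      · rintro (h | h)
        · exact Or.inl h
        · refine Or.inr ⟨h, ?_⟩
          rcases h with ⟨rfl, rfl⟩ | ⟨rfl, rfl⟩
          · exact huv
          · exact huv.symm
    rw [e1, e2]

end Pool.Agent.Lib.MP_c0533c_co
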