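import Pool.Agent.Lib.MP_c0533c_co.Level

namespace Pool.Agent.Lib.MP_c0533c_co
open Classical

variable {V : Type}

/-- first element of `l ++ [z]` -/
def hd : List V → V → V
  | [], z => z
  | x :: _, _ => x

@[simp] theorem hd_nil (z : V) : hd [] z = z := rfl
@[simp] theorem hd_cons (x z : V) (l : List V) : hd (x :: l) z = x := rfl
theorem exists_hd (l : List V) (z : V) : ∃ q, l ++ [z] = hd l z :: q := by
  cases l with
  | nil => exact ⟨[], rfl⟩
  | cons x l => exact ⟨l ++ [z], rfl⟩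
theorem hd_mem (l : List V) (z : V) : hd l z ∈ l ++ [z] := by cases l <;> simp
theorem hd_reverse (l : List V) (z : V) : hd l.reverse z = lst z l := by
  rcases List.eq_nil_or_concat l with rfl | ⟨q, p, rfl⟩ <;> simp
theorem lst_reverse (l : List V) (z : V) : lst z l.reverse = hd l z := by
  cases l <;> simp

namespace Ctx
variable (c : Ctx V)

def S1 (t a : V) : Prop := c.SA t a ∧ ∀ z, c.SA t z → z = a
def S2 (t a b : V) : Prop := c.SA t a ∧ c.SA t b ∧ a ≠ b ∧ ∀ z, c.SA t z → z = a ∨ z = b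
def S3 (t a b e : V) : Prop := c.SA t a ∧ c.SA t b ∧ c.SA t e ∧ a ≠ b ∧ a ≠ e ∧ b ≠ e ∧
  ∀ z, c.SA t z → z = a ∨ z = b ∨ z = e
/-- the core: vertices in a set of minimum level degree two -/
def K (v : V) : Prop :=
  ∃ S : Set V, v ∈ S ∧ ∀ y ∈ S, ∃ a b, a ∈ S ∧ b ∈ S ∧ a ≠ b ∧ c.SA y a ∧ c.SA y b
def K2 (y p q : V) : Prop := c.K p ∧ c.K q ∧ p ≠ q ∧ c.SA y p ∧ c.SA y q ∧
  ∀ z, c.SA y z → c.K z → z = p ∨ z = q
def link (y : V) : Prop := c.K y ∧ ¬ c.loc y ∧ ∃ p q, c.K2 y p q
def Ch (t : V) (L : List V) (z : V) : Prop :=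
  (t :: L ++ [z]).IsChain c.SA ∧ (t :: L).Nodup ∧ z ∉ L ∧ (∀ y ∈ L, c.link y) ∧ c.K z ∧
    ¬ c.link z ∧ (L.length = 1 → z ≠ t)

variable {c}

theorem S2.symm {t a b : V} (h : c.S2 t a b) : c.S2 t b a :=
  ⟨h.2.1, h.1, h.2.2.1.symm, fun z hz => (h.2.2.2 z hz).symm⟩

theorem K.nbrs {v : V} (h : c.K v) : ∃ a b, c.K a ∧ c.K b ∧ a ≠ b ∧ c.SA v a ∧ c.SA v b := by
  obtain ⟨S, hv, hS⟩ := h
  obtain ⟨a, b, h1, h2, h3⟩ := hS v hv
  exact ⟨a, b, ⟨S, h1, hS⟩, ⟨S, h2, hS⟩, h3⟩

theorem K.other {v : V} (h : c.K v) (p : V) : ∃ a, c.K a ∧ c.SA v a ∧ a ≠ p := by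
  obtain ⟨a, b, h1, h2, h3, h4, h5⟩ := h.nbrs
  by_cases e : a = p
  · exact ⟨b, h2, h5, fun e' => h3 (e.trans e'.symm)⟩
  · exact ⟨a, h1, h4, e⟩

theorem mid_nbrs {p q y : V} {m : List V} (h : c.LP (p :: m ++ [q])) (hy : y ∈ m) :
    ∃ a b, a ∈ p :: m ++ [q] ∧ b ∈ p :: m ++ [q] ∧ a ≠ b ∧ c.SA y a ∧ c.SA y b := by
  obtain ⟨m1, m2, rfl⟩ := List.append_of_mem hy
  obtain ⟨u, hu, -⟩ := exists_lst p m1
  obtain ⟨w, hw⟩ := exists_hd m2 q
  have e : p :: (m1 ++ y :: m2) ++ [q] = u ++ lst p m1 :: y :: hd m2 q :: w := by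
    have : p :: (m1 ++ y :: m2) ++ [q] = (p :: m1) ++ y :: (m2 ++ [q]) := by simp
    rw [this, hu, hw]; simp
  rw [e] at h ⊢
  have h2 : c.LP ((u ++ [lst p m1]) ++ y :: hd m2 q :: w) := by simpa using h
  have hn := h.1
  exact ⟨lst p m1, hd m2 q, by simp, by simp, by grind, h.rel.symm, h2.rel⟩

theorem core_path {p q : V} {m : List V} (h : c.LP (p :: m ++ [q])) (hp : c.K p) (hq : c.K q) :
    ∀ x ∈ m, c.K x := by
  intro x hx
  refine ⟨{y | c.K y ∨ y ∈ m}, Or.inr hx, ?_⟩
  rintro y (hy | hy)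
  · obtain ⟨a, b, h1, h2, h3⟩ := hy.nbrs
    exact ⟨a, b, Or.inl h1, Or.inl h2, h3⟩
  · obtain ⟨a, b, h1, h2, h3⟩ := mid_nbrs h hy
    have : ∀ a, a ∈ p :: m ++ [q] → c.K a ∨ a ∈ m := by
      intro a ha
      simp only [List.cons_append, List.mem_cons, List.mem_append, List.not_mem_nil,
        or_false] at ha
      rcases ha with rfl | ha | rfl
      · exact Or.inl hp
      · exact Or.inr ha
      · exact Or.inl hq
    exact ⟨a, b, this a h1, this b h2, h3⟩

theorem core_cycle {p q z : V} {m : List V} (h : c.LP (p :: m ++ [q])) (hp : c.SA z p)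
    (hq : c.SA z q) (hz : z ∉ p :: m ++ [q]) : ∀ x ∈ z :: (p :: m ++ [q]), c.K x := by
  intro x hx
  refine ⟨{y | y ∈ z :: (p :: m ++ [q])}, hx, ?_⟩
  intro y hy
  have hn := h.1
  simp only [List.cons_append, List.mem_cons, List.mem_append, List.not_mem_nil,
    or_false, Set.mem_ofPred_eq] at hy
  rcases hy with rfl | rfl | hy | rfl
  · exact ⟨p, q, by simp, by simp, by grind, hp, hq⟩
  · obtain ⟨w, hw⟩ := exists_hd m q
    have hm := hd_mem m q
    have h2 : c.LP (y :: hd m q :: w) := by rw [← hw]; simpa using h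
    exact ⟨z, hd m q, by simp, by simp only [Set.mem_ofPred_eq]; grind, by grind, hp.symm, h2.rel0⟩
  · obtain ⟨a, b, h1, h2, h3⟩ := mid_nbrs h hy
    exact ⟨a, b, List.mem_cons_of_mem _ h1, List.mem_cons_of_mem _ h2, h3⟩
  · obtain ⟨u, hu, -⟩ := exists_lst p m
    have hm := lst_mem p m
    have h2 : c.LP (u ++ lst p m :: y :: []) := by
      have : u ++ lst p m :: y :: [] = (p :: m) ++ [y] := by rw [hu]; simp
      rw [this]; exact h
    exact ⟨z, lst p m, by simp, by simp only [Set.mem_ofPred_eq]; grind, by grind, hq.symm,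
      h2.rel.symm⟩

/-- two level neighbours lying on a level path starting at `z` close a cycle -/
theorem core_of_mem {z p q : V} {r : List V} (h : c.LP (z :: r)) (hp : c.SA z p) (hq : c.SA z q)
    (hne : p ≠ q) (hpr : p ∈ r) (hqr : q ∈ r) :
    c.K z ∧ c.K p ∧ c.K q ∧ ∃ m, c.LP (p :: m ++ [q]) ∧ ∀ x ∈ m, x ∈ r ∧ c.K x := by
  obtain ⟨m, h1, h2⟩ := h.tail.between hpr hqr hne
  have hn := h.1
  have := core_cycle h1 hp hq (by grind)
  exact ⟨this z (by simp), this p (by simp), this q (by simp), m, h1,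
    fun x hx => ⟨h2 x hx, this x (by simp [hx])⟩⟩

theorem MP.core {z p q : V} {r : List V} {n : ℕ} (h : c.MP z r n) (hp : c.SA z p) (hq : c.SA z q)
    (hne : p ≠ q) : c.K z ∧ c.K p ∧ c.K q :=
  let H := core_of_mem h.1 hp hq hne (h.mem hp) (h.mem hq)
  ⟨H.1, H.2.1, H.2.2.1⟩

theorem sepOne {z u p q : V} {r : List V} {n : ℕ} (h : c.MP z r n) (hu : u ∉ r) {S : V → Prop}
    (cl : ∀ y, S y → ∀ w, c.SA y w → c.K w → w ≠ z → w ≠ u → S w)
    (hp : c.SA z p) (hq : c.SA z q) (hSp : S p) (hSq : ¬ S q) : False := by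
  have hne : p ≠ q := by rintro rfl; exact hSq hSp
  obtain ⟨-, -, h3, m, h4, h5⟩ := core_of_mem h.1 hp hq hne (h.mem hp) (h.mem hq)
  have hn := h.1.1
  have hqr := h.mem hq
  refine hSq (confine (S := S) (Q := fun w => c.K w ∧ w ≠ z ∧ w ≠ u)
    (fun y hy w a b => cl y hy w a b.1 b.2.1 b.2.2) (p := p) (r := m ++ [q]) h4 hSp ?_ q (by simp))
  intro w hw
  rcases List.mem_append.mp hw with hw | hw
  · have := h5 w hw; grind
  · grind

theorem sepOne' {z p q : V} {r : List V} {n : ℕ} (h : c.MP z r n) {S : V → Prop}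
    (cl : ∀ y, S y → ∀ w, c.SA y w → c.K w → w ≠ z → S w)
    (hp : c.SA z p) (hq : c.SA z q) (hSp : S p) (hSq : ¬ S q) : False :=
  sepOne h (u := z) (List.nodup_cons.mp h.1.1).1 (fun y hy w a b e _ => cl y hy w a b e)
    hp hq hSp hSq

theorem sepPair {u z p q p' q' : V} (hu : c.loc u) (hz : c.loc z) (hne : u ≠ z)
    (hn : ¬ c.G.Adj u z) {S : V → Prop}
    (cl : ∀ y, S y → ∀ w, c.SA y w → c.K w → w ≠ z → w ≠ u → S w)
    (hp : c.SA u p) (hq : c.SA u q) (hSp : S p) (hSq : ¬ S q)
    (hp' : c.SA z p') (hq' : c.SA z q') (hSp' : S p') (hSq' : ¬ S q') : False := by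
  rcases pairMP hu hz hne hn with ⟨r, n, h, h'⟩ | ⟨r, n, h, h'⟩
  · exact sepOne h h' (fun y hy w a b e f => cl y hy w a b f e) hp hq hSp hSq
  · exact sepOne h h' cl hp' hq' hSp' hSq'

/-- position of a vertex of level degree two on a level path starting at one of its neighbours -/
theorem pos2 {z t t' : V} {r : List V} (h : c.LP (z :: r)) (ht : t ∈ r) (h2 : c.S2 t z t') :
    (∃ r', r = t :: r') ∨ ∃ r', r = r' ++ [t', t] := by
  rcases split_mem ht with h1 | ⟨r1, p, r2, rfl⟩
  · exact Or.inl h1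
  right
  have hn := h.1
  have a1 : c.SA p t := LP.rel (l1 := z :: r1) h
  have e1 : p = t' := by
    rcases h2.2.2.2 p a1.symm with rfl | rfl
    · grind
    · rfl
  subst e1
  cases r2 with
  | nil => exact ⟨r1, rfl⟩
  | cons q r2 =>
    exfalso
    have a2 : c.SA t q := LP.rel (l1 := z :: r1 ++ [p]) (l2 := r2) (by simpa using h)
    rcases h2.2.2.2 q a2 with rfl | rfl <;> grind

theorem L1 {t a b : V} (h : c.S2 t a b) (ha : c.loc a) (hb : c.loc b) (hn : ¬ c.G.Adj a b) :
    ∃ n, c.Pre t n ∧ c.M ≤ n + 2 := by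
  have key : ∀ {a b : V}, c.S2 t a b → ∀ r n, c.MP a r n → b ∉ r → ∃ n, c.Pre t n ∧ c.M ≤ n + 2 := by
    intro a b h r n hm hb
    rcases pos2 hm.1 (hm.mem h.1.symm) h with ⟨r', rfl⟩ | ⟨r', rfl⟩
    · cases r' with
      | nil => exact ⟨n, hm.2.1, by have := hm.2.2; simp at this; omega⟩
      | cons q r' =>
        exfalso
        have hn := hm.1.1
        rcases h.2.2.2 q hm.1.tail.rel0 with rfl | rfl <;> grind
    · exact absurd (by simp) hb
  rcases pairMP ha hb h.2.2.1 hn with ⟨r, n, h1, h2⟩ | ⟨r, n, h1, h2⟩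
  · exact key h r n h1 h2
  · exact key h.symm r n h1 h2

theorem K2.unique {y p q a b : V} (h : c.K2 y p q) (ha : c.K a) (hb : c.K b) (hab : a ≠ b)
    (h1 : c.SA y a) (h2 : c.SA y b) : c.K2 y a b := by
  refine ⟨ha, hb, hab, h1, h2, fun z hz hk => ?_⟩
  have e1 := h.2.2.2.2.2 a h1 ha
  have e2 := h.2.2.2.2.2 b h2 hb
  have e3 := h.2.2.2.2.2 z hz hk
  grind

namespace Ch
variable {t z : V} {L : List V}

theorem tail {y : V} (h : c.Ch t (y :: L) z) : c.Ch y L z := by
  obtain ⟨h1, h2, h3, h4, h5, h6, -⟩ := h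
  refine ⟨h1.tail, (List.nodup_cons.mp h2).2, by grind, by grind, h5, h6, by grind⟩

theorem sa_hd (h : c.Ch t L z) : c.SA t (hd L z) := by
  obtain ⟨w, hw⟩ := exists_hd L z
  have := h.1
  rw [List.cons_append, hw] at this
  exact (List.isChain_cons_cons.mp this).1

theorem k_hd (h : c.Ch t L z) : c.K (hd L z) := by
  cases L with
  | nil => exact h.2.2.2.2.1
  | cons y L => exact (h.2.2.2.1 y (by simp)).1

theorem k2_head {y : V} (ht : c.K t) (h : c.Ch t (y :: L) z) : c.K2 y t (hd L z) := by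
  obtain ⟨-, -, p, q, hk⟩ := h.2.2.2.1 y (by simp)
  refine hk.unique ht h.tail.k_hd ?_ h.sa_hd.symm h.tail.sa_hd
  cases L with
  | nil => exact (h.2.2.2.2.2.2 rfl).symm
  | cons x L => have := h.2.1; simp only [hd_cons]; grind

theorem k2 {L1 L2 : List V} {y : V} (ht : c.K t) (h : c.Ch t (L1 ++ y :: L2) z) :
    c.K2 y (lst t L1) (hd L2 z) := by
  induction L1 generalizing t with
  | nil => exact k2_head ht h
  | cons x L1 ih => exact ih (h.2.2.2.1 x (by simp)).1 (tail h)

theorem closed (ht : c.K t) (h : c.Ch t L z) :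
    ∀ y ∈ L, ∀ w, c.SA y w → c.K w → w = t ∨ w ∈ L ∨ w = z := by
  intro y hy w hw hk
  obtain ⟨L1, L2, rfl⟩ := List.append_of_mem hy
  have h1 := lst_mem t L1
  have h2 := hd_mem L2 z
  rcases (k2 ht h).2.2.2.2.2 w hw hk with rfl | rfl <;> grind

theorem adj_start (ht : c.K t) (h : c.Ch t L z) {y : V} (hy : y ∈ L) (ha : c.SA y t) :
    y = hd L z ∨ (z = t ∧ y = lst t L) := by
  obtain ⟨L1, L2, rfl⟩ := List.append_of_mem hy
  have hn := h.2.1
  rcases (k2 ht h).2.2.2.2.2 t ha ht with e | e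
  · cases L1 with
    | nil => exact Or.inl rfl
    | cons x L1 => have := lst_mem x L1; simp only [lst_cons] at e; grind
  · cases L2 with
    | nil => exact Or.inr ⟨e.symm, by simp⟩
    | cons x L2 => simp only [hd_cons] at e; grind

theorem rev (ht : c.K t) (hl : ¬ c.link t) (h : c.Ch t L z) : c.Ch z L.reverse t := by
  obtain ⟨h1, h2, h3, h4, h5, h6, h7⟩ := h
  refine ⟨?_, by grind, by grind, by grind, ht, hl, by simpa using fun e => (h7 e).symm⟩
  have : z :: L.reverse ++ [t] = (t :: L ++ [z]).reverse := by simp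
  rw [this, List.isChain_reverse]
  exact h1.imp fun _ _ h => h.symm

theorem sa_lst (h : c.Ch t L z) : c.SA (lst t L) z := by
  induction L generalizing t with
  | nil => exact h.sa_hd
  | cons y L ih => exact ih h.tail

theorem lp (h : c.Ch t L z) : c.LP (t :: L) :=
  ⟨h.2.1, List.IsChain.left_of_append (l₂ := [z]) h.1⟩

theorem unique {L' : List V} {z' : V} (ht : c.K t) (h : c.Ch t L z) (h' : c.Ch t L' z')
    (e : hd L z = hd L' z') : L = L' ∧ z = z' := by
  induction L generalizing t L' with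
  | nil =>
    cases L' with
    | nil => exact ⟨rfl, e⟩
    | cons y L' =>
      simp only [hd_nil, hd_cons] at e
      exact absurd (e ▸ h'.2.2.2.1 y (by simp)) h.2.2.2.2.2.1
  | cons y L ih =>
    cases L' with
    | nil =>
      simp only [hd_nil, hd_cons] at e
      exact absurd (e ▸ h.2.2.2.1 y (by simp)) h'.2.2.2.2.2.1
    | cons y' L' =>
      simp only [hd_cons] at e
      subst e
      have a1 := k2_head ht h
      have a2 := k2_head ht h'
      have : hd L z = hd L' z' := by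
        rcases a2.2.2.2.2.2 _ a1.2.2.2.2.1 a1.2.1 with e | e
        · exact absurd e.symm a1.2.2.1
        · exact e
      obtain ⟨rfl, rfl⟩ := ih (h.2.2.2.1 y (by simp)).1 h.tail h'.tail this
      exact ⟨rfl, rfl⟩

end Ch

theorem exists_chain [Fintype V] {t a : V} (ht : c.K t) (hl : ¬ c.link t) (ha : c.K a)
    (hs : c.SA t a) : ∃ L z, c.Ch t L z ∧ hd L z = a := by
  have key : ∀ k (L : List V) (e : V), Fintype.card V ≤ L.length + k → c.LP (t :: L) →
      (∀ y ∈ L, c.link y) → c.K e → c.SA (lst t L) e → e ∉ L → (L.length = 1 → e ≠ t) →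
      ∃ L' z, c.Ch t L' z ∧ hd L' z = hd L e := by
    intro k
    induction k with
    | zero =>
      intro L e h1 h2
      have := h2.1.length_le_card
      simp at this; omega
    | succ k ih =>
      intro L e h1 h2 h3 h4 h5 h6 h7
      obtain ⟨q, hq, -⟩ := exists_lst t L
      have hc : (t :: L ++ [e]).IsChain c.SA := by
        rw [hq, List.append_assoc]
        exact List.isChain_split.mpr ⟨hq ▸ h2.2, List.isChain_pair.mpr h5⟩
      by_cases he : c.link e
      swap
      · exact ⟨L, e, ⟨hc, h2.1, h6, h3, h4, he, h7⟩, rfl⟩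
      have het : e ≠ t := by rintro rfl; exact hl he
      have hkl : c.K (lst t L) := by
        rcases List.mem_cons.mp (lst_mem t L) with h | h
        · rw [h]; exact ht
        · exact (h3 _ h).1
      obtain ⟨f, f1, f2, f3⟩ := h4.other (lst t L)
      have hlp : c.LP (t :: (L ++ [e])) := ⟨by have := h2.1; grind, hc⟩
      obtain ⟨L', z, a1, a2⟩ := ih (L ++ [e]) f (by simp; omega) hlp (by grind) f1
        (by simpa using f2) (by
          intro hf
          rcases List.mem_append.mp hf with hf | hf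
          · obtain ⟨x, y, x1, x2, x3, x4, x5⟩ := mid_nbrs (q := e) (by simpa using hlp) hf
            obtain ⟨-, -, p', q', hk⟩ := h3 f hf
            obtain ⟨L1, L2, rfl⟩ := List.append_of_mem hf
            cases L2 with
            | nil => simp at f3
            | cons g L2 =>
              have b1 : c.SA f g := LP.rel (l1 := t :: L1) h2
              obtain ⟨u, hu, -⟩ := exists_lst t L1
              have b2 : c.SA (lst t L1) f := by
                refine LP.rel (l1 := u) (l2 := g :: L2) ?_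
                have : u ++ lst t L1 :: f :: g :: L2 = (t :: L1) ++ f :: g :: L2 := by
                  rw [hu]; simp
                rw [this]; exact h2
              have b3 := lst_mem t L1
              have b4 : c.K (lst t L1) := by
                rcases List.mem_cons.mp b3 with h | h
                · rw [h]; exact ht
                · exact (h3 _ (by simp [h])).1
              have e1 := hk.2.2.2.2.2 _ b1 (h3 g (by simp)).1
              have e2 := hk.2.2.2.2.2 _ b2.symm b4
              have e3 := hk.2.2.2.2.2 _ f2.symm h4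
              have hn := h2.1
              have n1 : g ≠ lst t L1 := by clear ih; intro e'; rw [← e'] at b3; grind
              have n2 : e ≠ g := by rintro rfl; exact h6 (by simp)
              have n3 : e ≠ lst t L1 := by
                intro e'; rw [← e'] at b3
                rcases List.mem_cons.mp b3 with h | h
                · exact het h
                · exact h6 (by simp [h])
              rcases e1 with e1 | e1 <;> rcases e2 with e2 | e2 <;> rcases e3 with e3 | e3 <;>
                first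
                | exact n1 (e1.trans e2.symm)
                | exact n2 (e3.trans e1.symm)
                | exact n3 (e3.trans e2.symm)
          · exact f2.ne (List.mem_singleton.mp hf).symm)
        (by
          intro h
          have : L = [] := by simpa using h
          subst this; simpa using f3)
      refine ⟨L', z, a1, a2.trans ?_⟩
      cases L <;> simp
  exact key (Fintype.card V) [] a (by simp) (LP.single t) (by simp) ha hs (by simp) (by simp)

end Ctx

end Pool.Agent.Lib.MP_c0533c_co
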