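import Pool.Agent.Lib.MP_c0533c_co.TreeC

namespace Pool.Agent.Lib.MP_c0533c_co
open Classical Finset

variable {V : Type} [Fintype V]
namespace St
open Ctx
variable {s : St V}

def br (s : St V) (a : V) : Prop := s.K a ∧ ¬ s.loc a ∧ ¬ s.link a
def TT (s : St V) (z : V) : Prop :=
  s.loc z ∧ s.ns z = 2 ∧ ∃ y, s.SA z y ∧ s.loc y ∧ s.ns y = 2
def full (s : St V) (t : V) : Prop := ∀ v ∈ s.Lo t, s.thin v

theorem T4.core {t a : V} (h : s.T4 t) (lt : s.loc t) (kt : s.K t) (ha : s.SA t a) : s.K a := by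
  obtain ⟨r, n, hm⟩ := h.mp lt
  obtain ⟨b, hb, hne⟩ := other_sd kt.ns a
  exact (hm.core ha hb hne.symm).2.1

theorem br_s3 {a : V} (h : s.T4 a) (hb : s.br a) :
    s.ns a = 3 ∧ s.nl a = 0 ∧ ∀ z, s.SA a z → s.K z := by
  obtain ⟨p, q, a1, a2, a3, a4, a5⟩ := hb.1.nbrs
  have := h.cnt
  have : s.nu a ≠ 0 := fun h => hb.2.1 (loc_iff.mpr h)
  obtain ⟨e, e1, e2, e3, e4⟩ : ∃ e, s.SA a e ∧ s.K e ∧ e ≠ p ∧ e ≠ q := by
    by_contra hc; push Not at hc
    exact hb.2.2 ⟨hb.1, hb.2.1, p, q, a1, a2, a3, a4, a5, fun z hz hk => by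
      have := hc z hz hk; grind⟩
  have := ns_three a4 a5 e1 a3 e3.symm e4.symm
  refine ⟨by omega, by omega, fun z hz => ?_⟩
  rcases (s3_of (by omega) a4 a5 e1 a3 e3.symm e4.symm).2.2.2.2.2.2 z hz with rfl | rfl | rfl <;>
    assumption

theorem tt_head {t y a : V} {r : List V} {n : ℕ} (h2 : s.S2 t y a) (hy : s.ns y = 2)
    (la : ¬ s.loc a) (hm : s.MP t r n) : ∃ r', r = y :: r' := by
  obtain ⟨r', rfl | rfl⟩ := h2.mp_head hm
  · exact ⟨r', rfl⟩
  exfalso
  obtain ⟨p, p1, -, p3, p4, -⟩ := pred' hm h2.1 h2.2.2.1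
  refine both_loc (s2_of hy.le h2.1.symm p3 p4.symm) (hm.core h2.1 h2.2.1 h2.2.2.1).1 hm.loc p1
    fun h => ?_
  rcases h2.2.2.2 p ⟨h, h2.1.2.trans p3.2⟩ with e | e
  exacts [p3.ne e.symm, la (e ▸ p1)]

theorem tt_direct {a z : V} {L : List V} (hb : s.br a) (hc : s.Ch a L z) (h : s.T4 z)
    (hz : s.TT z) : L = [] := by
  by_contra hL
  obtain ⟨lz, z2, y, y1, y2, y3⟩ := hz
  have m1 := lst_mem_of_ne (e := a) hL
  have nl : ∀ p, s.loc p → p ∉ L := fun p hp h => (hc.2.2.2.1 _ h).2.1 hp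
  have hne : y ≠ lst a L := fun e => nl y y2 (e ▸ m1)
  obtain ⟨r, n, hm⟩ := h.mp lz
  obtain ⟨r', rfl⟩ := tt_head (s2_of z2.le y1 hc.sa_lst.symm hne) y3 (fun h => nl _ h m1) hm
  obtain ⟨p, p1, p2, p3, p4, -⟩ := pred' hm hc.sa_lst.symm hne.symm
  rcases hc.closed hb.1 _ m1 p p3 p2 with e | e | e
  exacts [hb.2.1 (e ▸ p1), nl p p1 e, p4 e]

theorem tt_both {a t q : V} {r : List V} {n : ℕ} (h : s.T4 a) (hb : s.br a) (ht : s.SA a t)
    (tt : s.TT t) (hm : s.MP t r n) (hq : s.SA a q) (hne : q ≠ t) : q ∈ r := by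
  obtain ⟨lt, t2, y, y1, y2, y3⟩ := tt
  obtain ⟨a3, a0, -⟩ := br_s3 h hb
  have hya : y ≠ a := by rintro rfl; exact hb.2.1 y2
  obtain ⟨r', rfl⟩ := tt_head (s2_of t2.le y1 ht.symm hya) y3 hb.2.1 hm
  obtain ⟨m, r2, rfl, h1, -, h3, -⟩ := pred hm ht.symm hya.symm
  have hn := hm.1.1
  have m1 := lst_mem y m
  cases r2 with
  | nil =>
    have := pre_nl (by simpa using hm.2.1) a0
    have c := (h.sa ht).cnt
    have := loc_iff.mp lt
    have := master' hm.1 (pre_of_nl (by omega)) (post_zero _)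
    have := hm.2.2; omega
  | cons x r2 =>
    have hx : s.SA a x := LP.rel (l1 := t :: y :: m) hm.1
    have := (s3_of a3.le ht h3.symm hx (by grind) (by grind) (by grind)).2.2.2.2.2.2 q hq
    grind

theorem tt_adj {a x y : V} (hb : s.br a) (h : s.T4 a) (hx : s.SA a x) (hy : s.SA a y)
    (hne : x ≠ y) (tx : s.TT x) (ty : s.TT y) : s.SA x y := by
  refine ⟨?_, hx.2.symm.trans hy.2⟩
  by_contra hn
  rcases pairMP tx.1 ty.1 hne hn with ⟨r, n, a, b⟩ | ⟨r, n, a, b⟩
  · exact b (tt_both h hb hx tx a hy hne.symm)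
  · exact b (tt_both h hb hy ty a hx hne)

theorem ch_t4 {a z : V} {L : List V} (h : s.T4 a) (hc : s.Ch a L z) : s.T4 z :=
  ((Cmp.of_mem hc.lp (lst_mem a L)).step hc.sa_lst).ind T4.cl h

theorem tt_third {a x y w z : V} {L : List V} (h : s.T4 a) (hb : s.br a) (h3 : s.S3 a x y w)
    (tx : s.TT x) (ty : s.TT y) (hc : s.Ch a L z) (e : hd L z = w) : ¬ s.loc z := by
  intro lz
  have xy := tt_adj hb h h3.1 h3.2.1 h3.2.2.2.1 tx ty
  have sx := s2_of tx.2.1.le xy h3.1.symm h3.2.1.ne.symm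
  have sy := s2_of ty.2.1.le xy.symm h3.2.1.symm h3.1.ne.symm
  have nl : ∀ p, s.loc p → p ∉ L := fun p hp h => (hc.2.2.2.1 _ h).2.1 hp
  have za : z ≠ a := by rintro rfl; exact hb.2.1 lz
  have m1 := lst_mem a L
  have s1 := hc.sa_lst.symm
  have l0 : lst a L = a → L = [] := fun e => by
    by_contra hL
    have := lst_mem_of_ne (e := a) hL; have := hc.2.1; grind
  have zx : z ≠ x := by
    rintro rfl
    rcases sx.2.2.2 _ s1 with e' | e'
    · have := nl y ty.1; have := h3.2.1.ne; grind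
    · obtain rfl := l0 e'; exact h3.2.2.2.2.1 e
  have zy : z ≠ y := by
    rintro rfl
    rcases sy.2.2.2 _ s1 with e' | e'
    · have := nl x tx.1; have := h3.1.ne; grind
    · obtain rfl := l0 e'; exact h3.2.2.2.2.2.1 e
  have hw := hd_mem L z
  obtain ⟨r, n, hm⟩ := (ch_t4 h hc).mp lz
  obtain ⟨q, q1, q2, q3⟩ := hc.2.2.2.2.1.other (lst a L)
  refine sepOne' hm (S := fun v => v = x ∨ v = y ∨ v ∈ a :: L) ?_ s1 q2 (Or.inr (Or.inr m1)) ?_
  · rintro v (rfl | rfl | hv) u u1 u2 u3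
    · have := sx.2.2.2 u u1; grind
    · have := sy.2.2.2 u u1; grind
    · rcases List.mem_cons.mp hv with rfl | hv
      · have := h3.2.2.2.2.2.2 u u1; grind
      · have := hc.closed hb.1 v hv u u1 u2; grind
  · rintro (rfl | rfl | hq)
    · have := sx.2.2.2 z q2.symm; grind
    · have := sy.2.2.2 z q2.symm; grind
    · rcases List.mem_cons.mp hq with rfl | hq
      · have h4 : z = w := by have := h3.2.2.2.2.2.2 z q2.symm; grind
        rcases link_chain hc e with ⟨h5, -⟩ | ⟨-, rfl, -⟩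
        · exact h5.2.1 (h4 ▸ lz)
        · exact q3 rfl
      · rcases (hc.rev hb.1 hb.2.2).adj_start hc.2.2.2.2.1 (List.mem_reverse.mpr hq) q2.symm
          with h | h
        · exact q3 (h.trans (hd_reverse _ _))
        · exact za h.1.symm

theorem pos_ns2 {z t : V} {r : List V} {n : ℕ} (hm : s.MP z r n) (ht : s.SA z t) (h2 : s.ns t = 2) :
    (∃ r', r = t :: r') ∨ ∃ r' t', s.S2 t z t' ∧ r = r' ++ [t', t] := by
  obtain ⟨t', a, b⟩ := other_sd h2.ge z
  have := s2_of h2.le ht.symm a b.symm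
  exact (pos2 hm.1 (hm.mem ht) this).imp_right fun ⟨r', e⟩ => ⟨r', t', this, e⟩

omit [Fintype V] in
theorem last_eq {r1 r2 : List V} {a b x y : V} (e : r1 ++ [a, x] = r2 ++ [b, y]) : x = y := by
  simpa using congrArg List.getLast? e

theorem tau2_le {z : V} (h : s.T4 z) (lz : s.loc z) :
    ((s.Sd z).filter (fun x => s.ns x = 2)).card ≤ 2 := by
  by_contra hc
  obtain ⟨a, ha, b, hb, e, he, h1, h2, h3⟩ := two_lt_card.mp (not_le.mp hc)
  simp only [mem_filter, mem_Sd] at ha hb he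
  obtain ⟨r, n, hm⟩ := h.mp lz
  rcases pos_ns2 hm ha.1 ha.2 with ⟨r1, e1⟩ | ⟨r1, x1, -, e1⟩ <;>
    rcases pos_ns2 hm hb.1 hb.2 with ⟨r2, e2⟩ | ⟨r2, x2, -, e2⟩ <;>
    rcases pos_ns2 hm he.1 he.2 with ⟨r3, e3⟩ | ⟨r3, x3, -, e3⟩ <;>
    first
    | exact h1 (last_eq (e1.symm.trans e2))
    | exact h2 (last_eq (e1.symm.trans e3))
    | exact h3 (last_eq (e2.symm.trans e3))
    | exact h1 (List.cons.inj (e1.symm.trans e2)).1
    | exact h2 (List.cons.inj (e1.symm.trans e3)).1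
    | exact h3 (List.cons.inj (e2.symm.trans e3)).1

theorem full_pre (hM : 5 ≤ s.M) {t : V} (h : s.T4 t) (lt : s.loc t) (h2 : s.ns t = 2)
    (hf : s.full t) : (∃ m, 2 ≤ m ∧ s.Pre t m) ∧ ∀ n, s.Pre t n → n ≤ 2 := by
  constructor
  · have c := h.cnt
    have := loc_iff.mp lt
    obtain ⟨v, hv⟩ := exists_lo (c := s.toCtx) (v := t) (by omega)
    exact pre_of_av (mem_Lo.mp hv).1 (mem_Lo.mp hv).2 (av_of_lp (LP.single v)
      (pre_of_nl (by have := (hf v hv).2.2; simp only [lst_nil]; omega)))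
  · intro n hn
    rcases hn.cases with h | ⟨x, a, b, e⟩
    · omega
    · exact av_thin hM (hf x (mem_Lo.mpr ⟨a, b⟩)) n e

theorem type2 (hM : 7 ≤ s.M) {z a b : V} (h : s.T4 z) (lz : s.loc z) (h3 : s.ns z = 3)
    (ha : s.SA z a) (hb : s.SA z b) (la : s.loc a) (lb : s.loc b) (a2 : s.ns a = 2)
    (b2 : s.ns b = 2) (fa : s.full a) (fb : s.full b) : a = b := by
  by_contra hne
  obtain ⟨r, n, hm⟩ := h.mp lz
  have key : ∀ a b r1 r2 b', s.SA z a → s.SA z b → s.loc a → s.loc b → s.ns a = 2 → s.ns b = 2 →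
      s.full a → s.full b → a ≠ b → r = a :: r1 → s.S2 b z b' → r = r2 ++ [b', b] → False := by
    intro a b r1 r2 b' ha hb la lb a2 b2 fa fb hne e1 sb e2
    obtain ⟨⟨m1, a3, a4⟩, -⟩ := full_pre (by omega) (h.sa ha) la a2 fa
    obtain ⟨⟨m2, b3, b4⟩, b5⟩ := full_pre (by omega) (h.sa hb) lb b2 fb
    have hn : n ≤ 2 := b5 n (by have := hm.2.1; rw [e2] at this; simpa using this)
    have hl := hm.2.2
    have kz := (hm.core ha hb hne).1
    have l2 := congrArg List.length e2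
    cases r2 with
    | nil => simp at l2; omega
    | cons x r2 =>
    rw [e2] at e1
    simp only [List.cons_append, List.cons.injEq] at e1
    obtain ⟨rfl, rfl⟩ := e1
    subst e2
    obtain ⟨u, hu⟩ := exists_hd r2 b'
    have hnd := hm.1.1
    have p1 : s.LP (x :: (r2 ++ [b', b])) := hm.1.tail
    have e3 : r2 ++ [b', b] = hd r2 b' :: (u ++ [b]) := by
      rw [← List.cons_append, ← hu]; simp
    have sa' : s.SA x (hd r2 b') := (e3 ▸ p1).rel0
    have m3 := hd_mem r2 b'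
    have lb' : s.loc b' := by
      by_contra hc
      have q1 : s.LP ((z :: x :: r2 ++ [b']) ++ [b]) := by simpa using hm.1
      have q0 : s.LP (z :: x :: (r2 ++ [b'])) := q1.left
      have q2 : s.LP (b :: z :: x :: (r2 ++ [b'])) := q0.cons hb.symm
        fun hc => (List.nodup_append.mp q1.1).2.2 b hc b (by simp) rfl
      have := master' q2 b4 (by simpa using post_of_not_loc hc)
      simp at this hl; omega
    have la' : s.loc (hd r2 b') := by
      by_contra hc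
      have q1 : s.LP (hd r2 b' :: (u ++ [b])) := e3 ▸ p1.tail
      have q2 : s.LP ((hd r2 b' :: u) ++ [b, z]) := LP.snoc q1 hb.symm (by
        rw [List.cons_append, ← e3]; grind)
      have q3 : s.LP ((hd r2 b' :: u ++ [b]) ++ [z, x]) := LP.snoc (by simpa using q2) ha (by
        rw [List.cons_append, ← e3]; grind)
      have := master (e := hd r2 b') (r := u ++ [b, z, x]) (by simpa using q3) (by simpa using a4)
        (post_of_not_loc hc)
      have l3 := congrArg List.length e3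
      simp at this hl l3; omega
    have z1 : s.SA z b' := by
      refine ⟨?_, hb.2.trans sb.2.1.2⟩
      by_contra hn; exact both_loc sb kz lz lb' hn
    have z2 : s.SA z (hd r2 b') := by
      refine ⟨?_, ha.2.trans sa'.2⟩
      by_contra hn; exact both_loc (s2_of a2.le ha.symm sa' (by grind)) kz lz la' hn
    have := (s3_of h3.le ha hb z1 hne (by grind) (by grind)).2.2.2.2.2.2 _ z2
    cases r2 with
    | nil => simp at hl; omega
    | cons y r2 => simp only [hd_cons] at this; grind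
  rcases pos_ns2 hm ha a2 with ⟨r1, e1⟩ | ⟨r1, x1, s1, e1⟩ <;>
    rcases pos_ns2 hm hb b2 with ⟨r2, e2⟩ | ⟨r2, x2, s2, e2⟩
  · exact hne (List.cons.inj (e1.symm.trans e2)).1
  · exact key a b r1 r2 x2 ha hb la lb a2 b2 fa fb hne e1 s2 e2
  · exact key b a r2 r1 x1 hb ha lb la b2 a2 fb fa (Ne.symm hne) e2 s1 e1
  · exact hne (last_eq (e1.symm.trans e2))

theorem tri_tg {t a b z : V} {L : List V} (kt : s.K t) (hc : s.Ch t L z) (e : hd L z = b)
    (hb : s.link b) (hs : s.SA b a) (ka : s.K a) (hne : a ≠ t) (ha : ¬ s.link a) : z = a := by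
  cases L with
  | nil => obtain rfl : z = b := e; exact absurd hb hc.2.2.2.2.2.1
  | cons y L =>
    obtain rfl : y = b := e
    rcases (hc.k2_head kt).2.2.2.2.2 a hs ka with e | e
    · exact absurd e hne
    · rcases link_chain hc.tail e.symm with h | h
      exacts [absurd h.1 ha, h.2.2]

end St

end Pool.Agent.Lib.MP_c0533c_co
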