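import Pool.Agent.Lib.MP_c0533c_co.CoreA

namespace Pool.Agent.Lib.MP_c0533c_co
open Classical Finset

variable {V : Type} [Fintype V]
namespace St
open Ctx
variable {s : St V} {P : Par}

noncomputable def nK (s : St V) (P : Par) (y : V) : ℝ :=
  s.nt P y + ∑ x ∈ (s.Sd y).filter (fun x => ¬ s.K x), ∑ z ∈ s.Ds y x, s.nt P z

theorem nK_all {y : V} (h : ∀ z, s.SA y z → s.K z) : s.nK P y = s.nt P y := by
  unfold nK
  rw [filter_eq_empty_iff.mpr fun z hz => not_not.mpr (h z (mem_Sd.mp hz)), sum_empty, add_zero]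

theorem link_cases (H : P.OK s.M) {c p q : V} (h : s.T4 c) (hl : ¬ s.loc c) (hk : s.K2 c p q) :
    (s.S2 c p q ∧ s.nK P c = s.nt P c) ∨
      ∃ x, s.S3 c p q x ∧ ¬ s.K x ∧ s.nl c = 0 ∧ s.W P.k0 (s.nt P) c x ≤ s.nK P c := by
  obtain ⟨k1, k2, k3, k4, k5, k6⟩ := hk
  by_cases h2 : s.ns c ≤ 2
  · have := s2_of h2 k4 k5 k3
    exact Or.inl ⟨this, nK_all fun z hz => by rcases this.2.2.2 z hz with rfl | rfl <;> assumption⟩
  have c1 := h.cnt
  have : s.nu c ≠ 0 := fun h => hl (loc_iff.mpr h)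
  obtain ⟨x, x1, x2, x3⟩ := other_sd2 (c := s.toCtx) (v := c) (by omega) p q
  have s3 := s3_of (by omega) k4 k5 x1 k3 x2.symm x3.symm
  have kx : ¬ s.K x := fun h => by have := k6 x x1 h; grind
  refine Or.inr ⟨x, s3, kx, by omega, ?_⟩
  have e : (s.Sd c).filter (fun x => ¬ s.K x) = {x} := by
    ext z; simp only [mem_filter, mem_Sd, mem_singleton]
    exact ⟨fun h => by have := s3.2.2.2.2.2.2 z h.1; grind, fun h => h ▸ ⟨x1, kx⟩⟩
  have := nt_sig H h hl le_rfl fun v hv => by have := nl_pos hv; omega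
  unfold nK W; rw [e, sum_singleton]; linarith

theorem nt_s2 (H : P.OK s.M) {c : V} (h : s.T4 c) (hl : ¬ s.loc c) (h2 : s.ns c = 2) :
    P.k0 - P.sg ≤ s.nt P c := by
  obtain ⟨e1, e2, e3, e4, e5, -⟩ := P.eqs
  obtain ⟨o1, o2, o3, -⟩ := H.ord
  have := nt_sig H h hl (by linarith) fun v hv => (pr_all H h hv).1
  rw [h2] at this; push_cast at this; linarith

theorem link_nonneg (H : P.OK s.M) {c : V} (h : s.T4 c) (hl : s.link c) : 0 ≤ s.nK P c := by
  obtain ⟨kc, lc, p, q, hk⟩ := hl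
  obtain ⟨g1, g2, g3, -⟩ := H.big
  rcases link_cases H h lc hk with ⟨a, b⟩ | ⟨x, a, b, -, e⟩
  · have := nt_s2 H h lc a.ns; linarith
  · have := W_g H (vb_nt H) (out_core kc a.2.2.1 b) (h.sa a.2.2.1); linarith

theorem nt_t2 (H : P.OK s.M) {t : V} (h : s.T4 t) (lt : s.loc t) (h2 : s.ns t = 2) :
    - P.NF ≤ s.nt P t ∧ (¬ s.full t → 1 + P.μ - P.sz - P.sm ≤ s.nt P t) ∧
      (¬ s.deep t → - P.N0 ≤ s.nt P t) := by
  obtain ⟨e1, e2, e3, e4, e5, e6, e7, e8, e9, e10, e11, e12, e13⟩ := P.eqs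
  refine ⟨?_, fun hf => ?_, fun hd => ?_⟩
  · have := nt_tau H h lt fun v hv => (pr_all H h hv).2.1 lt
    rw [h2] at this; push_cast at this; linarith
  · unfold full at hf; push Not at hf
    obtain ⟨v, a, b⟩ := hf
    have := nt_tau1 H h lt a ((pr_all H h a).2.2.2.1 b) fun v hv => (pr_all H h hv).2.1 lt
    rw [h2] at this; push_cast at this; linarith
  · have := nt_tau H h lt fun v hv => (pr_all H h hv).2.2.1 hd
    rw [h2] at this; push_cast at this; linarith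

theorem nt_t3 (H : P.OK s.M) {t : V} (h : s.T4 t) (lt : s.loc t) :
    (s.ns t = 3 → 3 * P.μ ≤ s.nt P t) ∧ (s.ns t = 4 → 1 + P.μ ≤ s.nt P t) := by
  obtain ⟨e1, e2, e3, e4, -⟩ := P.eqs
  have := nt_tau H h lt fun v hv => (pr_all H h hv).2.1 lt
  constructor <;> intro h2 <;> rw [h2] at this <;> push_cast at this <;> linarith

theorem nd_closed {t c : V} {S : List V} {D : ℕ} (hS : ∀ y ∈ S, s.loc y)
    (ht : t ∈ S) (ha : s.Av c (s.M - S.length)) (hD : 2 * (S.length + 1) ≤ D) (hM : S.length ≤ s.M)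
    {r : List V} {m : ℕ} (h1 : s.LP (t :: r)) (h2 : s.Post (lst t r) m)
    (h3 : D ≤ 1 + r.length + m) (h4 : ∀ z ∈ r, z ∈ c :: S) : False := by
  have h5 : ∀ z ∈ t :: r, z ∈ c :: S := by grind
  have := (h1.1.subperm h5).length_le
  rcases List.mem_cons.mp (h5 _ (lst_mem t r)) with e | e
  · have := av_post ha (e ▸ h2); simp at *; omega
  · have := post_loc (hS _ e) h2; simp at *; omega

theorem far (H : P.OK s.M) {t c x : V} {S : List V} {D : ℕ} (h : s.T4 c) (kc : s.K c)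
    (hS : ∀ y ∈ S, s.loc y) (kS : ∀ y ∈ S, s.K y) (cl : ∀ y ∈ S, ∀ z, s.SA y z → z ∈ c :: S)
    (cc : ∀ z, s.SA c z → z = x ∨ z ∈ S) (hx : s.SA c x) (kx : ¬ s.K x) (hp : s.LP (S ++ [c]))
    (ht : t ∈ S) (ha : s.Av c (s.M - S.length)) (hD : 2 * (S.length + 1) ≤ D) (hb : s.Bv t D) :
    P.G ((D + 1) / 2 - 1) ≤ s.W P.k0 (s.nt P) c x := by
  obtain ⟨r, m, h1, h2, h3⟩ := hb.lp
  have hM : S.length ≤ s.M := by have := s.le _ hp.dp; simp at this; omega
  have conf : ∀ r, s.LP (t :: r) → x ∉ r → ∀ z ∈ r, z ∈ c :: S := fun r hr hx =>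
    confine (S := fun y => y ∈ c :: S) (Q := fun y => y ≠ x) (by grind) hr (by simp [ht]) (by grind)
  by_cases hr : x ∈ r
  swap
  · exact (nd_closed hS ht ha hD hM h1 h2 h3 (conf r h1 hr)).elim
  obtain ⟨r1, r4, rfl⟩ := List.append_of_mem hr
  have hn := h1.1
  have a1 : s.LP ((t :: r1) ++ x :: r4) := h1
  have a2 := conf r1 a1.left (by grind)
  have a3 : ∀ z ∈ t :: r1, z ∈ c :: S := by grind
  have a4 := (a1.left.1.subperm a3).length_le
  obtain ⟨q, hq, -⟩ := exists_lst t r1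
  have a5 : s.LP (q ++ lst t r1 :: x :: r4) := by
    have : q ++ lst t r1 :: x :: r4 = (t :: r1) ++ x :: r4 := by rw [hq]; simp
    rw [this]; exact a1
  have a6 : lst t r1 = c := by
    rcases List.mem_cons.mp (a3 _ (lst_mem t r1)) with e | e
    · exact e
    · have := cl _ e x a5.rel; grind
  rw [a6] at a5
  have ho := out_core kc hx kx
  have nk := ho.2 r4 a5.right
  obtain ⟨r2, u, v, r3, e, b1, -⟩ := centre (D := D) (m := m) (x :: r4) c (S.length + 1) a5.right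
    (by simpa using h2) (by simp at h3 a4 ⊢; omega)
    ⟨S, hp.dp, fun y hy hy' => nk y hy (kS y hy'), le_rfl⟩ (ha.mono (by omega)) nk (by omega)
    (by omega)
  obtain ⟨c1, c2, c3⟩ := W_mono (k := P.k0) (f := s.nt P) T4.cl ((vb_nt H).nonneg H) r2 ho
    (h.sa hx) a5.right e
  exact (W_G H (vb_nt H) _ c1 c2 b1).trans c3

theorem W_dl (H : P.OK s.M) {c x z : V} {n : ℕ} (ho : s.Out c x) (h : s.T4 x) (hz : s.Dn c x z)
    (hp : s.Pre z n) (hn : 3 ≤ n) : P.g + P.dl ≤ s.W P.k0 (s.nt P) c x := by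
  have := W_g H (vb_dl H (pre_key hp hn (by omega))) ho h
  unfold W at *
  rw [sum_dl (mem_Ds.mpr hz)] at this; linarith

theorem tri_sum (H : P.OK s.M) {t a b : V} (h : s.T4 t) (st : s.S2 t a b) (sa : s.S2 a t b)
    (sb : s.S2 b t a) (lt : s.loc t) (la : s.loc a) (lb : s.loc b) :
    0 ≤ s.nt P t + s.nt P a + s.nt P b := by
  have hM := H.hM
  obtain ⟨-, -, -, -, -, -, -, -, -, -, -, -, g, -⟩ := H.cor
  obtain ⟨o1, o2, o3, o4, o5, o6, o7, o8, o9, o10, o11, o12, -⟩ := H.ord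
  have nd : ∀ t a b, s.S2 t a b → s.S2 a t b → s.S2 b t a → s.loc t → s.loc a → s.loc b →
      ¬ s.deep t := by
    intro t a b st sa sb lt la lb hd
    obtain ⟨r, m, a1, a2, a3⟩ := Bv.lp hd
    obtain ⟨c1, c2⟩ := closed_len a1 [a, b] (by
      have := st.2.2.2; have := sa.2.2.2; have := sb.2.2.2; grind)
    have := lst_mem t r
    have := post_loc (by grind) a2
    simp at c1; omega
  have key : ∀ t a b, s.T4 t → s.S2 t a b → s.S2 a t b → s.S2 b t a → s.loc t → s.loc a → s.loc b →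
      1 + P.μ - 2 * P.s ≤ s.nt P t ∧
      (1 + P.μ - P.semi - P.s ≤ s.nt P a ∨ 1 + P.μ - P.semi - P.s ≤ s.nt P b) := by
    intro t a b h st sa sb lt la lb
    constructor
    · have := nt_tau H h lt fun v hv => (pr_all H h hv).2.2.1 (nd t a b st sa sb lt la lb)
      rw [st.ns] at this; push_cast at this; linarith
    obtain ⟨r, n, hm⟩ := h.mp lt
    obtain ⟨c1, c2⟩ := closed_len hm.1 [a, b] (by
      have := st.2.2.2; have := sa.2.2.2; have := sb.2.2.2; grind)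
    have c3 := c2 _ (lst_mem_of_ne (e := t) (List.ne_nil_of_mem (hm.mem st.1)))
    obtain ⟨v, v1, v2⟩ := pre_key (k := s.M - 3) hm.2.1 (by have := hm.2.2; simp at c1; omega)
      (by omega)
    have fin : ∀ y, s.T4 y → s.loc y → s.ns y = 2 → ¬ s.deep y → v ∈ s.Lo y →
        1 + P.μ - P.semi - P.s ≤ s.nt P y := by
      intro y h ly y2 hd v1
      have := nt_tau1 H h ly v1 ((pr_key H h v1 (by omega) v2).2.2.1 le_rfl)
        fun v hv => (pr_all H h hv).2.2.1 hd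
      rw [y2] at this; push_cast at this; linarith
    simp only [List.mem_cons, List.not_mem_nil, or_false] at c3
    rcases c3 with e | e <;> rw [e] at v1
    · exact Or.inl (fin a (h.sa st.1) la sa.ns (nd a t b sa st sb.symm la lt lb) v1)
    · exact Or.inr (fin b (h.sa st.2.1) lb sb.ns (nd b t a sb st.symm sa.symm lb lt la) v1)
  obtain ⟨a1, a2⟩ := key t a b h st sa sb lt la lb
  obtain ⟨b1, b2⟩ := key a t b (h.sa st.1) sa st sb.symm la lt lb
  obtain ⟨c1, c2⟩ := key b t a (h.sa st.2.1) sb st.symm sa.symm lb lt la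
  rcases a2 with a2 | a2 <;> rcases b2 with b2 | b2 <;> rcases c2 with c2 | c2 <;> linarith

theorem g1_sum (H : P.OK s.M) {t a c : V} (h : s.T4 t) (st : s.S2 t a c) (sa : s.S2 a t c)
    (lt : s.loc t) (la : s.loc a) (hc : s.link c) :
    0 ≤ s.nt P t + s.nt P a + s.nK P c := by
  have hM := H.hM
  obtain ⟨-, -, -, -, -, -, -, -, -, -, -, -, -, -, g, -⟩ := H.cor
  obtain ⟨o1, o2, o3, o4, o5, o6, o7, o8, o9, o10, o11, o12, o13, o14, o15, o16, -⟩ := H.ord
  obtain ⟨r, n, hm⟩ := h.mp lt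
  obtain ⟨kt, ka, kc⟩ := hm.core st.1 st.2.1 st.2.2.1
  obtain ⟨-, lc, p, q, hk⟩ := hc
  have hk := hk.unique kt ka st.1.ne st.2.1.symm sa.2.1.symm
  obtain ⟨r', rfl⟩ := tt_head st sa.ns lc hm
  obtain ⟨r2, rfl, -⟩ := pred_eq hm st.2.1 st.2.2.1.symm (by
    intro p _ p2 p3 p4 _; have := hk.2.2.2.2.2 p p3 p2; grind)
  have tc := h.sa st.2.1
  have ta := h.sa st.1
  have sg0 : 0 ≤ P.sg := by obtain ⟨e1, e2, e3, e4, e5, -⟩ := P.eqs; linarith
  have hl := hm.2.2
  have hn := hm.1.1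
  have av : s.Av c (s.M - [t, a].length) :=
    (av_of_lp hm.1.tail.tail hm.2.1).mono (by simp at hl ⊢; omega)
  obtain ⟨t1, -, t2⟩ := nt_t2 H h lt st.ns
  obtain ⟨a1, -, a2⟩ := nt_t2 H ta la sa.ns
  have lp : s.LP ([t, a] ++ [c]) := LP.left (l2 := r2) hm.1
  have cl : ∀ y ∈ [t, a], ∀ z, s.SA y z → z ∈ [c, t, a] := by
    have := st.2.2.2; have := sa.2.2.2; grind
  rcases link_cases H tc lc hk with ⟨sc, e⟩ | ⟨x, sc, kx, c0, e⟩
  · have : r2 = [] := by
      cases r2 with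
      | nil => rfl
      | cons y r2 => have := sc.2.2.2 y hm.1.tail.tail.rel0; grind
    subst this
    obtain ⟨v, v1, v2⟩ := pre_key (t := c) (k := s.M - 3) hm.2.1 (by simp at hl; omega) (by omega)
    have := nt_sig1 H tc lc sg0 v1 ((pr_key H tc v1 (by omega) v2).2.2.1 le_rfl)
      fun v hv => (pr_all H tc hv).1
    rw [sc.ns] at this; push_cast at this
    rcases g with ⟨g1, -⟩ | ⟨g0, g1, -⟩
    · linarith
    have nd : ∀ y ∈ [t, a], ¬ s.deep y := fun y hy hd => by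
      obtain ⟨r, m, b1, b2, b3⟩ := Bv.lp hd
      exact nd_closed (S := [t, a]) (by grind) hy av (by simp; omega) (by simp; omega) b1 b2 b3
        (confine (S := fun y => y ∈ [c, t, a]) (Q := fun _ => True)
          (by have := sc.2.2.2; grind) b1 (by grind) (by simp))
    linarith [t2 (nd t (by simp)), a2 (nd a (by simp))]
  have ho := out_core kc sc.2.2.1 kx
  have tx := tc.sa sc.2.2.1
  obtain ⟨r3, rfl⟩ : ∃ r3, r2 = x :: r3 := by
    cases r2 with
    | nil => have := pre_nl (v := c) hm.2.1 c0; simp at hl; omega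
    | cons y r2 => have := sc.2.2.2.2.2.2 y hm.1.tail.tail.rel0; exact ⟨r2, by grind⟩
  have dn : s.Dn c x (lst x r3) := ⟨r3, hm.1.tail.tail, rfl⟩
  simp only [List.length_cons] at hl
  rcases g with ⟨-, g1, g2⟩ | ⟨g0, -, g1, g2⟩
  · by_cases lx : s.loc x
    · have : r3 = [] := by
        cases r3 with
        | nil => rfl
        | cons y r3 =>
          exact absurd lx (tx.nloc kx (ns_two sc.2.2.1.symm hm.1.tail.tail.tail.rel0 (by grind)))
      subst this
      have := W_dl H ho tx dn hm.2.1 (by simp at hl; omega)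
      linarith
    · have b1 := W_ge (k := P.k0) (f := s.nt P) ho fun y hy hne =>
        W_g H (vb_nt H) (ho.child hy hne) (tx.sa hy)
      have b2 := ((vb_nt H x tx kx (ns_pos sc.2.2.1.symm)).2 lx).1
      linarith
  by_cases hd : ∃ y ∈ [t, a], s.deep y
  · obtain ⟨y, y1, y2⟩ := hd
    have := far H (S := [t, a]) tc kc (by grind) (by grind) cl (by have := sc.2.2.2.2.2.2; grind)
      sc.2.2.1 kx lp y1 av (by simp; omega) y2
    rw [show s.M - 3 + 1 = s.M - 2 by omega] at this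
    linarith
  · push Not at hd
    have b : 1 + (r3.length + 3) + 0 < s.M - 3 := by
      by_contra hc
      exact hd t (by simp) ((bv_of_lp hm.1 (post_zero _)).mono (by simp; omega))
    have := W_dl H ho tx dn hm.2.1 (by omega)
    linarith [t2 (hd t (by simp)), a2 (hd a (by simp))]

theorem g2_sum (H : P.OK s.M) {t a b c : V} (h : s.T4 t) (st : s.S2 t a b) (sa : s.S3 a t b c)
    (sb : s.S3 b t a c) (lt : s.loc t) (la : s.loc a) (lb : s.loc b) (hc : s.link c) :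
    0 ≤ s.nt P t + 6 * P.μ + s.nK P c := by
  have hM := H.hM
  obtain ⟨-, -, -, -, -, -, -, -, -, -, -, -, -, g1, -, g⟩ := H.cor
  obtain ⟨t1, -, t2⟩ := nt_t2 H h lt st.ns
  have tc := (h.sa st.1).sa sa.2.2.1
  have c0 := link_nonneg H tc hc
  obtain ⟨r, n, hm⟩ := h.mp lt
  obtain ⟨kt, ka, kb⟩ := hm.core st.1 st.2.1 st.2.2.1
  obtain ⟨kc, lc, p, q, hk⟩ := hc
  have hk := hk.unique ka kb st.2.2.1 sa.2.2.1.symm sb.2.2.1.symm
  rcases link_cases H tc lc hk with ⟨sc, e⟩ | ⟨x, sc, kx, -, e⟩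
  · have := nt_s2 H tc lc sc.ns; linarith
  rcases g with g | ⟨g0, g2, g3⟩
  · linarith
  by_cases hd : s.deep t
  swap
  · linarith [t2 hd]
  have key : ∀ a b r, s.S2 t a b → s.S3 a t b c → s.S3 b t a c → s.MP t (a :: r) n →
      s.Av c (s.M - 3) := by
    intro a b r st sa sb hm
    obtain ⟨r2, rfl, h2⟩ := pred_eq hm st.2.1 st.2.2.1.symm (by
      intro p p1 _ p3 p4 _; have := sb.2.2.2.2.2.2 p p3; grind)
    have hn := hm.1.1
    have h3 := h2.mem sa.2.2.1
    have := sa.2.2.2.2.1; have := sa.2.2.2.2.2.1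
    cases r2 with
    | nil => grind
    | cons y r2 =>
      obtain rfl : y = c := by have := sb.2.2.2.2.2.2 y hm.1.tail.tail.rel0; grind
      exact (av_of_lp hm.1.tail.tail.tail hm.2.1).mono (by have := hm.2.2; simp at this; omega)
  have av : s.Av c (s.M - [t, a, b].length) := by
    obtain ⟨r', rfl | rfl⟩ := st.mp_head hm
    exacts [key a b r' st sa sb hm, key b a r' st.symm sb sa hm]
  have lp : s.LP ([t, a, b] ++ [c]) := ((lp2 sb.2.2.1).cons sa.2.1
    (by simpa using ⟨st.2.2.1, sa.2.2.1.ne⟩)).cons st.1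
    (by simpa using ⟨st.1.ne, st.2.1.ne, sa.2.2.2.2.1⟩)
  have := far H (S := [t, a, b]) tc kc (by grind) (by grind)
    (by have := st.2.2.2; have := sa.2.2.2.2.2.2; have := sb.2.2.2.2.2.2; grind)
    (by have := sc.2.2.2.2.2.2; grind) sc.2.2.1 kx lp (by simp) av (by simp; omega) hd
  rw [show s.M - 3 + 1 = s.M - 2 by omega] at this
  linarith

end St

end Pool.Agent.Lib.MP_c0533c_co
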