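import Pool.Agent.Lib.MP_c0533c_co.CoreB

namespace Pool.Agent.Lib.MP_c0533c_co
open Classical Finset

variable {V : Type} [Fintype V]
namespace St
open Ctx
variable (s : St V) (P : Par)

noncomputable def chn (a q : V) : List V × V :=
  if h : ∃ p : List V × V, s.Ch a p.1 p.2 ∧ hd p.1 p.2 = q then h.choose else ([], a)
noncomputable def tg (a q : V) : V := (s.chn a q).2
noncomputable def bk (a q : V) : V := lst a (s.chn a q).1
def Dart (a q : V) : Prop := s.T4 a ∧ s.K a ∧ ¬ s.link a ∧ s.SA a q ∧ s.K q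
noncomputable def phi (a z : V) : ℝ :=
  if s.br a ∧ s.loc z then (if s.TT z then P.NB else P.ss) else 0
noncomputable def KS (y : V) : Finset V := (s.Sd y).filter s.K
noncomputable def snd (y : V) : ℝ := ∑ q ∈ s.KS y, s.phi P y (s.tg y q)
noncomputable def rcv (y : V) : ℝ := ∑ q ∈ s.KS y, s.phi P (s.tg y q) y
def ch (z t : V) : Prop := s.full t ∨ ∀ y, s.SA z y → s.loc y → s.ns y = 2 → y = t
noncomputable def psi (z t : V) : ℝ :=
  if s.loc z ∧ s.loc t ∧ s.ns t = 2 then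
    (if s.ns z = 4 then (1 + P.μ) / 2 else if s.ns z = 3 ∧ s.ch z t then 3 * P.μ + s.rcv P z else 0)
  else 0
noncomputable def n2 (y : V) : ℝ := s.nK P y + (if s.link y then 0 else s.rcv P y - s.snd P y) +
  ∑ x ∈ s.KS y, (s.psi P x y - s.psi P y x)

variable {s P}

theorem mem_KS {y x : V} : x ∈ s.KS y ↔ s.SA y x ∧ s.K x := by simp [KS, mem_Sd]

theorem tg_eq {a z : V} {L : List V} (ka : s.K a) (hc : s.Ch a L z) :
    s.tg a (hd L z) = z ∧ s.bk a (hd L z) = lst a L := by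
  have h : ∃ p : List V × V, s.Ch a p.1 p.2 ∧ hd p.1 p.2 = hd L z := ⟨(L, z), hc, rfl⟩
  obtain ⟨e1, e2⟩ := Ch.unique ka h.choose_spec.1 hc h.choose_spec.2
  unfold tg bk chn
  rw [dif_pos h, e1, e2]
  exact ⟨rfl, rfl⟩

theorem Dart.ch {a q : V} (h : s.Dart a q) :
    ∃ L, s.Ch a L (s.tg a q) ∧ hd L (s.tg a q) = q ∧ s.bk a q = lst a L := by
  obtain ⟨L, z, hc, rfl⟩ := exists_chain h.2.1 h.2.2.1 h.2.2.2.2 h.2.2.2.1
  obtain ⟨e1, e2⟩ := tg_eq h.2.1 hc
  exact ⟨L, by rw [e1]; exact hc, by rw [e1], e2⟩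

theorem Dart.inv {a q : V} (h : s.Dart a q) : s.Dart (s.tg a q) (s.bk a q) ∧
    s.tg (s.tg a q) (s.bk a q) = a ∧ s.bk (s.tg a q) (s.bk a q) = q := by
  obtain ⟨L, hc, e1, e2⟩ := h.ch
  obtain ⟨e3, e4⟩ := tg_eq hc.2.2.2.2.1 (hc.rev h.2.1 h.2.2.1)
  rw [hd_reverse] at e3 e4
  rw [lst_reverse, e1] at e4
  rw [e2]
  refine ⟨⟨ch_t4 h.1 hc, hc.2.2.2.2.1, hc.2.2.2.2.2.1, hc.sa_lst.symm, ?_⟩, e3, e4⟩
  rcases List.mem_cons.mp (lst_mem a L) with e | e
  · rw [e]; exact h.2.1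
  · exact (hc.2.2.2.1 _ e).1

theorem sum_n2 : ∑ y ∈ univ.filter (fun y => s.T4 y ∧ s.K y), s.n2 P y =
    ∑ y ∈ univ.filter (fun y => s.T4 y ∧ s.K y), s.nK P y := by
  unfold n2
  rw [sum_add_distrib, sum_add_distrib]
  have e1 : ∑ y ∈ univ.filter (fun y => s.T4 y ∧ s.K y),
      (if s.link y then 0 else s.rcv P y - s.snd P y) = 0 := by
    rw [sum_ite, sum_const_zero, zero_add, sum_sub_distrib, sub_eq_zero]
    unfold rcv snd
    have h : ∀ p : V × V, p ∈ univ.filter (fun p : V × V => s.Dart p.1 p.2) ↔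
        p.1 ∈ (univ.filter (fun y => s.T4 y ∧ s.K y)).filter (fun y => ¬ s.link y) ∧
          p.2 ∈ s.KS p.1 := by
      intro p; simp only [mem_filter, mem_univ, true_and, mem_KS, Dart]; tauto
    rw [← sum_finset_product' _ _ _ h, ← sum_finset_product' _ _ _ h]
    refine sum_nbij' (fun p => (s.tg p.1 p.2, s.bk p.1 p.2)) (fun p => (s.tg p.1 p.2, s.bk p.1 p.2))
      ?_ ?_ ?_ ?_ ?_ <;> simp only [mem_filter, mem_univ, true_and]
    · exact fun p hp => hp.inv.1
    · exact fun p hp => hp.inv.1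
    · exact fun p hp => Prod.ext hp.inv.2.1 hp.inv.2.2
    · exact fun p hp => Prod.ext hp.inv.2.1 hp.inv.2.2
    · exact fun p hp => by rw [hp.inv.2.1]
  have e2 : ∑ y ∈ univ.filter (fun y => s.T4 y ∧ s.K y),
      ∑ x ∈ s.KS y, (s.psi P x y - s.psi P y x) = 0 := by
    simp only [sum_sub_distrib]
    rw [sub_eq_zero]
    refine sum_comm' fun x y => ?_
    simp only [mem_filter, mem_univ, true_and, mem_KS]
    exact ⟨fun h => ⟨⟨h.2.1.symm, h.1.2⟩, h.1.1.sa h.2.1, h.2.2⟩,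
      fun h => ⟨⟨h.2.1.sa h.1.1, h.1.2⟩, h.1.1.symm, h.2.2⟩⟩
  rw [e1, e2]; simp

theorem phi_nonneg (H : P.OK s.M) (a z : V) : 0 ≤ s.phi P a z := by
  obtain ⟨g1, g2, g3, -⟩ := H.cor
  unfold phi; split_ifs <;> linarith
theorem rcv_nonneg (H : P.OK s.M) (y : V) : 0 ≤ s.rcv P y := sum_nonneg fun _ _ => phi_nonneg H _ _
theorem psi_nonneg (H : P.OK s.M) (a z : V) : 0 ≤ s.psi P a z := by
  have := rcv_nonneg H a
  obtain ⟨o1, -⟩ := H.ord
  unfold psi; split_ifs <;> linarith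

theorem psi_nloc {y : V} (h : ¬ s.loc y) : ∑ x ∈ s.KS y, (s.psi P x y - s.psi P y x) = 0 :=
  sum_eq_zero fun x _ => by
    unfold psi; rw [if_neg fun h' => h h'.2.1, if_neg fun h' => h h'.1, sub_zero]

theorem n2_link {y : V} (h : s.link y) : s.n2 P y = s.nK P y := by
  unfold n2; rw [if_pos h, psi_nloc h.2.1]; simp

theorem n2_br (H : P.OK s.M) {a : V} (h : s.T4 a) (hb : s.br a) : 0 ≤ s.n2 P a := by
  obtain ⟨g1, g2, g3, g4, g5, g6, -⟩ := H.cor
  obtain ⟨a3, a0, ak⟩ := br_s3 h hb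
  have b := nt_sig H h hb.2.1 le_rfl fun v hv => by have := nl_pos hv; omega
  have c := rcv_nonneg H a
  unfold n2; rw [if_neg hb.2.2, psi_nloc hb.2.1, nK_all ak]
  suffices s.snd P a ≤ P.k0 by linarith
  obtain ⟨x, sx⟩ := exists_sd (c := s.toCtx) (v := a) (by omega)
  obtain ⟨y, sy, yx⟩ := other_sd (c := s.toCtx) (v := a) (by omega) x
  obtain ⟨w, sw, wx, wy⟩ := other_sd2 a3.ge x y
  have s3 := s3_of a3.le sx sy sw yx.symm wx.symm wy.symm
  have e : s.KS a = {x, y, w} := by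
    rw [← s3.sd]; exact filter_true_of_mem fun z hz => ak z (mem_Sd.mp hz)
  unfold snd
  rw [e, sum_insert (by simp [yx.symm, wx.symm]), sum_pair wy.symm]
  have dt : ∀ q, s.SA a q → s.Dart a q := fun q hq => ⟨h, hb.1, hb.2.2, hq, ak q hq⟩
  have dir : ∀ q, s.SA a q → s.TT (s.tg a q) → s.TT q := fun q hq ht => by
    obtain ⟨L, hc, e1, -⟩ := (dt q hq).ch
    obtain rfl := tt_direct hb hc (ch_t4 h hc) ht
    exact e1 ▸ ht
  have third : ∀ x y w, s.S3 a x y w → s.TT (s.tg a x) → s.TT (s.tg a y) →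
      s.phi P a (s.tg a w) = 0 := by
    intro x y w s3 tx ty
    obtain ⟨L, hc, e1, -⟩ := (dt w s3.2.2.1).ch
    exact if_neg fun h' => tt_third h hb s3 (dir x s3.1 tx) (dir y s3.2.1 ty) hc e1 h'.2
  have b1 : ∀ z, s.TT z → s.phi P a z ≤ P.NB := fun z hz => by
    unfold phi; rw [if_pos hz]; split_ifs <;> linarith
  have b2 : ∀ z, ¬ s.TT z → s.phi P a z ≤ P.ss := fun z hz => by
    unfold phi; rw [if_neg hz]; split_ifs <;> linarith
  have s4 := s3_of a3.le sx sw sy wx.symm yx.symm wy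
  have s5 := s3_of a3.le sy sw sx wy.symm yx wx
  by_cases tx : s.TT (s.tg a x) <;> by_cases ty : s.TT (s.tg a y) <;> by_cases tw : s.TT (s.tg a w)
  · linarith [b1 _ tx, b1 _ ty, third x y w s3 tx ty]
  · linarith [b1 _ tx, b1 _ ty, third x y w s3 tx ty]
  · linarith [b1 _ tx, b1 _ tw, third x w y s4 tx tw]
  · linarith [b1 _ tx, b2 _ ty, b2 _ tw]
  · linarith [b1 _ ty, b1 _ tw, third y w x s5 ty tw]
  · linarith [b2 _ tx, b1 _ ty, b2 _ tw]
  · linarith [b2 _ tx, b2 _ ty, b1 _ tw]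
  · linarith [b2 _ tx, b2 _ ty, b2 _ tw]

theorem n2_loc {y : V} (h : s.T4 y) (ly : s.loc y) (ky : s.K y) : s.n2 P y =
    s.nt P y + s.rcv P y + ∑ x ∈ s.Sd y, s.psi P x y - ∑ x ∈ s.Sd y, s.psi P y x := by
  have e : s.KS y = s.Sd y := filter_true_of_mem fun z hz => h.core ly ky (mem_Sd.mp hz)
  have e2 : s.snd P y = 0 := sum_eq_zero fun q _ => if_neg fun h' => h'.1.2.1 ly
  unfold n2
  rw [if_neg (not_link ly), e, e2, nK_all fun z hz => h.core ly ky hz, sum_sub_distrib]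
  ring

theorem n2_t34 (H : P.OK s.M) {z : V} (h : s.T4 z) (lz : s.loc z) (kz : s.K z) (h2 : s.ns z ≠ 2) :
    0 ≤ s.n2 P z := by
  obtain ⟨o1, -⟩ := H.ord
  obtain ⟨a3, a4⟩ := nt_t3 H h lz
  have c := h.cnt
  have := kz.ns
  have b := rcv_nonneg H z
  have b2 : 0 ≤ ∑ x ∈ s.Sd z, s.psi P x z := sum_nonneg fun x _ => psi_nonneg H x z
  rw [n2_loc h lz kz]
  by_cases h4 : s.ns z = 4
  · have e : ∑ x ∈ s.Sd z, s.psi P z x = ∑ x ∈ (s.Sd z).filter (fun x => s.ns x = 2), s.psi P z x :=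
      (sum_filter_of_ne fun x _ hx => by by_contra hc; exact hx (if_neg fun h' => hc h'.2.2)).symm
    have e1 := sum_le_c (S := (s.Sd z).filter (fun x => s.ns x = 2)) (f := s.psi P z)
      (B := (1 + P.μ) / 2) fun x _ => by unfold psi; rw [if_pos h4]; split_ifs <;> linarith
    have e2 : (((s.Sd z).filter (fun x => s.ns x = 2)).card : ℝ) ≤ 2 := by
      exact_mod_cast tau2_le h lz
    have := mul_le_mul_of_nonneg_right e2 (by linarith : 0 ≤ (1 + P.μ) / 2)
    linarith [a4 h4]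
  · have h3 : s.ns z = 3 := by omega
    have e : ∑ x ∈ s.Sd z, s.psi P z x =
        ∑ x ∈ (s.Sd z).filter (fun x => s.loc x ∧ s.ns x = 2 ∧ s.ch z x), s.psi P z x :=
      (sum_filter_of_ne fun x _ hx => by
        by_contra hc; apply hx; unfold psi; rw [if_neg h4]
        split_ifs with h5 h6
        exacts [absurd ⟨h5.2.1, h5.2.2, h6.2⟩ hc, rfl, rfl]).symm
    have e1 := sum_le_c (S := (s.Sd z).filter (fun x => s.loc x ∧ s.ns x = 2 ∧ s.ch z x))
      (f := s.psi P z) (B := 3 * P.μ + s.rcv P z) fun x _ => by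
        unfold psi; rw [if_neg h4]; split_ifs <;> linarith
    have e2 : (((s.Sd z).filter (fun x => s.loc x ∧ s.ns x = 2 ∧ s.ch z x)).card : ℝ) ≤ 1 := by
      norm_cast
      refine card_le_one.mpr fun a ha b hb => ?_
      simp only [mem_filter, mem_Sd] at ha hb
      rcases ha.2.2.2 with c1 | c1
      · rcases hb.2.2.2 with c2 | c2
        · exact type2 H.hM h lz h3 ha.1 hb.1 ha.2.1 hb.2.1 ha.2.2.1 hb.2.2.1 c1 c2
        · exact c2 a ha.1 ha.2.1 ha.2.2.1
      · exact (c1 b hb.1 hb.2.1 hb.2.2.1).symm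
    have := mul_le_mul_of_nonneg_right e2 (by linarith : 0 ≤ 3 * P.μ + s.rcv P z)
    linarith [a3 h3]

/-- what a level degree two local maximum receives through one neighbour -/
noncomputable def inc (s : St V) (P : Par) (t a : V) : ℝ := s.phi P (s.tg t a) t + s.psi P a t

theorem n2_t2 {t a b : V} (h : s.T4 t) (lt : s.loc t) (kt : s.K t) (st : s.S2 t a b) :
    s.n2 P t = s.nt P t + s.inc P t a + s.inc P t b := by
  have e : s.KS t = s.Sd t := filter_true_of_mem fun z hz => h.core lt kt (mem_Sd.mp hz)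
  have e2 : ∑ x ∈ s.Sd t, s.psi P t x = 0 := sum_eq_zero fun x _ => by
    have := st.ns
    unfold psi; rw [if_neg (c := s.ns t = 4) (by omega), if_neg (c := s.ns t = 3 ∧ _) (by omega)]
    simp
  rw [n2_loc h lt kt, e2]
  unfold rcv inc
  rw [e, st.sd, sum_pair st.2.2.1, sum_pair st.2.2.1]
  ring

theorem inc_nonneg (H : P.OK s.M) (t a : V) : 0 ≤ s.inc P t a :=
  add_nonneg (phi_nonneg H _ _) (psi_nonneg H _ _)

theorem inc_br (H : P.OK s.M) {t a : V} (lt : s.loc t) (hb : s.br (s.tg t a)) :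
    (s.TT t → P.NB ≤ s.inc P t a) ∧ (¬ s.TT t → P.ss ≤ s.inc P t a) := by
  have := psi_nonneg H a t
  unfold inc phi; rw [if_pos ⟨hb, lt⟩]
  exact ⟨fun h => by rw [if_pos h]; linarith, fun h => by rw [if_neg h]; linarith⟩

theorem inc_loc (H : P.OK s.M) {t a : V} (lt : s.loc t) (t2 : s.ns t = 2) (la : s.loc a) :
    (s.ns a = 4 → (1 + P.μ) / 2 ≤ s.inc P t a) ∧
      (s.ns a = 3 → s.ch a t → 3 * P.μ + s.rcv P a ≤ s.inc P t a) := by
  have := phi_nonneg H (s.tg t a) t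
  unfold inc psi; rw [if_pos ⟨la, lt, t2⟩]
  exact ⟨fun h => by rw [if_pos h]; linarith,
    fun h h' => by rw [if_neg (by omega), if_pos ⟨h, h'⟩]; linarith⟩

theorem half (H : P.OK s.M) {t a b : V} (h : s.T4 t) (lt : s.loc t) (kt : s.K t)
    (st : s.S2 t a b) (ha : s.br (s.tg t a)) (hb : s.br (s.tg t b) ∨ s.loc b) : 0 ≤ s.n2 P t := by
  obtain ⟨g1, g2, g3, g4, g5, g6, g7, g8, g9, g10, g11, -⟩ := H.cor
  obtain ⟨t1, t2, -⟩ := nt_t2 H h lt st.ns
  obtain ⟨a1, a2⟩ := inc_br H lt ha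
  have b0 := inc_nonneg H t b
  rw [n2_t2 h lt kt st]
  by_cases tt : s.TT t
  · linarith [a1 tt]
  have a2 := a2 tt
  rcases hb with hb | lb
  · linarith [(inc_br H lt hb).2 tt]
  obtain ⟨b1, b2⟩ := inc_loc H lt st.ns lb
  have c := (h.sa st.2.1).cnt
  have := (h.core lt kt st.2.1).ns
  have : s.ns b ≠ 2 := fun e => tt ⟨lt, st.ns, b, st.2.1, lb, e⟩
  by_cases h4 : s.ns b = 4
  · linarith [b1 h4]
  by_cases hf : s.full t
  · linarith [b2 (by omega) (Or.inl hf), rcv_nonneg H b]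
  · linarith [t2 hf]

theorem core_cl {t : V} {S : Finset V} (f : V → ℝ) (ht : t ∈ S) (hk : ∀ y ∈ S, s.K y)
    (hc : ∀ y ∈ S, s.Cmp t y) (cl : ∀ y ∈ S, ∀ z, s.SA y z → s.K z → z ∈ S) :
    ∑ y ∈ univ.filter (s.Cmp t), (if s.K y then f y else 0) = ∑ y ∈ S, f y := by
  rw [← sum_filter]
  refine sum_congr ?_ fun _ _ => rfl
  ext y
  simp only [mem_filter, mem_univ, true_and]
  refine ⟨?_, fun h => ⟨hc y h, hk y h⟩⟩
  rintro ⟨⟨r, h1, rfl⟩, h2⟩
  rcases List.eq_nil_or_concat r with rfl | ⟨m, q, rfl⟩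
  · exact ht
  rw [List.concat_eq_append] at *
  simp only [lst_append_cons, lst_nil] at *
  have := core_path h1 (hk t ht) h2
  exact confine (S := fun y => y ∈ S) (Q := s.K) cl h1 ht (by grind) q (by simp)

theorem tg_br {t a : V} (h : s.Dart t a) (hl : ¬ s.loc (s.tg t a)) : s.br (s.tg t a) :=
  ⟨h.inv.1.2.1, hl, h.inv.1.2.2.1⟩

theorem tg_self {t a : V} (h : s.Dart t a) (hl : ¬ s.link a) : s.tg t a = a := by
  obtain ⟨L, hc, e1, -⟩ := h.ch
  rcases link_chain hc e1 with h | h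
  exacts [absurd h.1 hl, h.2.2]

theorem t2_main (H : P.OK s.M) {t a b : V} (h : s.T4 t) (lt : s.loc t) (st : s.S2 t a b) :
    0 ≤ s.n2 P t ∨ 0 ≤ ∑ y ∈ univ.filter (s.Cmp t), (if s.K y then s.n2 P y else 0) := by
  obtain ⟨r, n, hm⟩ := h.mp lt
  obtain ⟨kt, ka, kb⟩ := hm.core st.1 st.2.1 st.2.2.1
  have dt : ∀ q, s.SA t q → s.Dart t q := fun q hq =>
    ⟨h, kt, not_link lt, hq, h.core lt kt hq⟩
  have ct : ∀ q, s.SA t q → s.Cmp t q := fun q hq => (Cmp.refl t).step hq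
  by_cases hab : s.G.Adj a b
  swap
  · have key : ∀ a b, s.S2 t a b → ¬ s.G.Adj a b → s.br (s.tg t a) ∨ s.loc a := by
      intro a b st hab
      obtain ⟨L, hc, e1, -⟩ := (dt a st.1).ch
      by_cases hl : s.loc (s.tg t a)
      · rcases link_chain hc e1 with ⟨-, h1⟩ | ⟨-, -, h1⟩
        · exact absurd hl (t2_chain st hm hab hc h1 e1)
        · exact Or.inr (h1 ▸ hl)
      · exact Or.inl (tg_br (dt a st.1) hl)
    have k1 := key a b st hab
    have k2 := key b a st.symm fun e => hab e.symm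
    left
    rcases k1 with k1 | k1
    · exact half H h lt kt st k1 k2
    · rcases k2 with k2 | k2
      · exact half H h lt kt st.symm k2 (Or.inr k1)
      · exact (both_loc st ka k1 k2 hab).elim
  have sab : s.SA a b := ⟨hab, st.1.2.symm.trans st.2.1.2⟩
  have k1 : ∀ a b, s.S2 t a b → s.SA a b → s.br a → 0 ≤ s.n2 P t := by
    intro a b st sab ba
    have e := tg_self (dt a st.1) ba.2.2
    refine half H h lt kt st (e.symm ▸ ba) ?_
    by_cases lb : s.loc b
    · exact Or.inr lb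
    left
    by_cases kb : s.link b
    · obtain ⟨L, hc, e1, -⟩ := (dt b st.2.1).ch
      rw [tri_tg kt hc e1 kb sab.symm ba.1 st.1.ne.symm ba.2.2]; exact ba
    · rw [tg_self (dt b st.2.1) kb]; exact ⟨h.core lt kt st.2.1, lb, kb⟩
  by_cases ba : s.br a
  · exact Or.inl (k1 a b st sab ba)
  by_cases bb : s.br b
  · exact Or.inl (k1 b a st.symm sab.symm bb)
  have ap : ∀ a b, s.S2 t a b → (∀ z, s.SA b z → s.K z → z = t ∨ z = a) → s.loc a →
      s.ns a ≤ 2 := by
    intro a b st hb la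
    by_contra hc
    obtain ⟨r, n, hm⟩ := (h.sa st.1).mp la
    obtain ⟨e, e1, e2, e3⟩ := other_sd2 (c := s.toCtx) (v := a) (by omega) t b
    exact tri_apex (fun z hz _ => st.symm.2.2.2 z hz) hb hm st.1.symm e1 e2 e3
  have lk : ∀ a b, s.S2 t a b → s.SA a b → s.link b → ∀ z, s.SA b z → s.K z → z = t ∨ z = a := by
    intro a b st sab hb
    obtain ⟨-, -, p, q, hk⟩ := hb
    exact (hk.unique kt (h.core lt kt st.1) st.1.ne st.2.1.symm sab.symm).2.2.2.2.2
  have ge2 : ∀ t a b, s.T4 t → s.loc t → s.K t → s.S2 t a b → s.nt P t ≤ s.n2 P t := by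
    intro t a b h lt kt st
    rw [n2_t2 h lt kt st]; linarith [inc_nonneg H t a, inc_nonneg H t b]
  have k2 : ∀ a b, s.S2 t a b → s.SA a b → s.loc a → s.link b →
      0 ≤ ∑ y ∈ univ.filter (s.Cmp t), (if s.K y then s.n2 P y else 0) := by
    intro a b st sab la lb
    have ka := h.core lt kt st.1
    have sa := s2_of (ap a b st (lk a b st sab lb) la) st.1.symm sab st.2.1.ne
    rw [core_cl (S := {t, a, b}) _ (by simp) (by simp [kt, ka, lb.1])
      (by simp [Cmp.refl, ct a st.1, ct b st.2.1])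
      (by have := st.2.2.2; have := sa.2.2.2; have := lk a b st sab lb; grind),
      sum_insert (by simp [st.1.ne, st.2.1.ne]), sum_pair st.2.2.1, n2_link lb]
    linarith [g1_sum H h st sa lt la lb, ge2 t a b h lt kt st, ge2 a t b (h.sa st.1) la ka sa]
  by_cases la : s.loc a
  swap
  · have la' : s.link a := by by_contra hc; exact ba ⟨ka, la, hc⟩
    by_cases lb : s.loc b
    · exact Or.inr (k2 b a st.symm sab.symm lb la')
    have lb' : s.link b := by by_contra hc; exact bb ⟨kb, lb, hc⟩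
    exfalso
    obtain ⟨r', rfl | rfl⟩ := st.mp_head hm
    · obtain ⟨p, p1, p2, p3, p4, -⟩ := pred' hm st.2.1 st.2.2.1.symm
      have := lk a b st sab lb' p p3 p2; grind
    · obtain ⟨p, p1, p2, p3, p4, -⟩ := pred' hm st.1 st.2.2.1
      have := lk b a st.symm sab.symm la' p p3 p2; grind
  by_cases lb : s.loc b
  swap
  · exact Or.inr (k2 a b st sab la (by by_contra hc; exact bb ⟨kb, lb, hc⟩))
  have ta := h.sa st.1
  have tb := h.sa st.2.1
  by_cases a2 : s.ns a ≤ 2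
  · have sa := s2_of a2 st.1.symm sab st.2.1.ne
    have sb := s2_of (ap b a st.symm (fun z hz _ => sa.2.2.2 z hz) lb) st.2.1.symm sab.symm st.1.ne
    right
    rw [core_cl (S := {t, a, b}) _ (by simp) (by simp [kt, ka, kb])
      (by simp [Cmp.refl, ct a st.1, ct b st.2.1])
      (by have := st.2.2.2; have := sa.2.2.2; have := sb.2.2.2; grind),
      sum_insert (by simp [st.1.ne, st.2.1.ne]), sum_pair st.2.2.1]
    linarith [tri_sum H h st sa sb lt la lb, ge2 t a b h lt kt st, ge2 a t b ta la ka sa,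
      ge2 b t a tb lb kb sb]
  have b2 : ¬ s.ns b ≤ 2 := fun b2 => a2 (ap a b st
    (fun z hz _ => (s2_of b2 st.2.1.symm sab.symm st.1.ne).2.2.2 z hz) la)
  obtain ⟨g1, g2, g3, g4, g5, g6, g7, g8, g9, g10, g11, g12, -⟩ := H.cor
  obtain ⟨o1, -⟩ := H.ord
  obtain ⟨t1, t2, -⟩ := nt_t2 H h lt st.ns
  obtain ⟨a4, a3⟩ := inc_loc H lt st.ns la
  obtain ⟨b4, b3⟩ := inc_loc H lt st.ns lb
  have ca := ta.cnt
  have cb := tb.cnt
  have ra := rcv_nonneg H a
  have rb := rcv_nonneg H b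
  have e := n2_t2 (P := P) h lt kt st
  by_cases h4 : s.ns a = 4 ∨ s.ns b = 4
  · left
    by_cases hf : s.full t
    · have x1 : 3 * P.μ ≤ s.inc P t a ∨ (1 + P.μ) / 2 ≤ s.inc P t a := by
        by_cases h : s.ns a = 4
        exacts [Or.inr (a4 h), Or.inl (by linarith [a3 (by omega) (Or.inl hf)])]
      have x2 : 3 * P.μ ≤ s.inc P t b ∨ (1 + P.μ) / 2 ≤ s.inc P t b := by
        by_cases h : s.ns b = 4
        exacts [Or.inr (b4 h), Or.inl (by linarith [b3 (by omega) (Or.inl hf)])]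
      obtain ⟨-, -, -, -, -, -, -, -, -, -, -, e12, -⟩ := P.eqs
      rcases h4 with h4 | h4
      · have := a4 h4; rcases x2 with x | x <;> linarith
      · have := b4 h4; rcases x1 with x | x <;> linarith
    · rcases h4 with h4 | h4
      · linarith [a4 h4, t2 hf, inc_nonneg H t b]
      · linarith [b4 h4, t2 hf, inc_nonneg H t a]
  obtain ⟨a', a5, a6, a7⟩ := other_sd2 (c := s.toCtx) (v := a) (by omega) t b
  obtain ⟨b', b5, b6, b7⟩ := other_sd2 (c := s.toCtx) (v := b) (by omega) t a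
  have sa := s3_of (by omega) st.1.symm sab a5 st.2.1.ne a6.symm a7.symm
  have sb := s3_of (by omega) st.2.1.symm sab.symm b5 st.1.ne b6.symm b7.symm
  have na := tri33 st.symm sb sa lt
  have nb := tri33 st sa sb lt
  have a3 := a3 sa.ns (Or.inr fun y y1 y2 y3 => by have := sa.2.2.2.2.2.2 y y1; grind)
  have b3 := b3 sb.ns (Or.inr fun y y1 y2 y3 => by have := sb.2.2.2.2.2.2 y y1; grind)
  have db : s.Dart b b' := ⟨tb, kb, not_link lb, b5, tb.core lb kb b5⟩
  by_cases hb : s.br (s.tg b b')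
  · left
    have : P.ss ≤ s.rcv P b := by
      refine le_trans ?_ (single_le_sum (f := fun q => s.phi P (s.tg b q) b)
        (fun q _ => phi_nonneg H _ _) (mem_KS.mpr ⟨b5, db.2.2.2.2⟩))
      unfold phi; rw [if_pos ⟨hb, lb⟩, if_neg fun h' => b2 h'.2.1.le]
    linarith
  have lb' : s.link b' := by
    by_contra hc
    exact hb (by rw [tg_self db hc]; exact ⟨db.2.2.2.2, nb, hc⟩)
  have eq : a' = b' := by
    by_contra hne
    obtain ⟨L, hc, e1, -⟩ := db.ch
    rcases link_chain hc e1 with ⟨-, h1⟩ | ⟨h1, -⟩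
    · exact hb (tg_br db (tri33_chain st sa sb hm la lb hne hc h1))
    · exact h1 lb'
  subst eq
  right
  have kc : ∀ z, s.SA a' z → s.K z → z = a ∨ z = b := by
    obtain ⟨-, -, p, q, hk⟩ := lb'
    exact (hk.unique ka kb st.2.2.1 a5.symm b5.symm).2.2.2.2.2
  rw [core_cl (S := {t, a, b, a'}) _ (by simp) (by simp [kt, ka, kb, lb'.1])
    (by simp [Cmp.refl, ct a st.1, ct b st.2.1, (ct a st.1).step a5])
    (by have := st.2.2.2; have := sa.2.2.2.2.2.2; have := sb.2.2.2.2.2.2; grind),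
    sum_insert (by simp [st.1.ne, st.2.1.ne, a6.symm]), sum_insert (by simp [st.2.2.1, a5.ne]),
    sum_pair b5.ne, n2_link lb']
  linarith [g2_sum H h st sa sb lt la lb lb', n2_t34 H ta la ka (by omega),
    n2_t34 H tb lb kb (by omega)]

theorem lev4 (H : P.OK s.M) : 0 ≤ ∑ v ∈ univ.filter s.T4, s.nt P v := by
  rw [← sum_filter_add_sum_filter_not _ (fun v => ∃ y, s.Cmp v y ∧ s.K y), filter_filter,
    filter_filter]
  refine add_nonneg ?_ (sum_cmp (c := s.toCtx) _ _ ?_ ?_)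
  · rw [core_sum _ T4.cl]
    change 0 ≤ ∑ y ∈ _, s.nK P y
    rw [← sum_n2, ← filter_filter, sum_filter]
    refine sum_cmp (c := s.toCtx) _ _ (by simpa using T4.cl) fun v hv => ?_
    have hv : s.T4 v := by simpa using hv
    by_cases hc : ∃ t, s.Cmp v t ∧ s.K t ∧ s.n2 P t < 0
    · obtain ⟨t, a, b, c⟩ := hc
      have h := a.ind T4.cl hv
      by_cases lt : s.loc t
      · by_cases h2 : s.ns t = 2
        · obtain ⟨x, y, st⟩ := exists_s2 h2
          rw [cmp_congr a]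
          exact (t2_main H h lt st).resolve_left c.not_ge
        · exact absurd (n2_t34 H h lt b h2) c.not_ge
      · by_cases hl : s.link t
        · rw [n2_link hl] at c; exact absurd (link_nonneg H h hl) c.not_ge
        · exact absurd (n2_br H h ⟨b, lt, hl⟩) c.not_ge
    · push Not at hc
      refine sum_nonneg fun y hy => ?_
      split_ifs with hk
      exacts [hc y (by simpa using hy) hk, le_rfl]
  · intro v hv y hy
    simp only [mem_filter, mem_univ, true_and, not_exists, not_and] at hv ⊢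
    exact ⟨hv.1.sa hy, fun z hz => hv.2 z (((Cmp.refl v).step hy).trans hz)⟩
  · intro v hv
    simp only [mem_filter, mem_univ, true_and, not_exists, not_and] at hv
    exact tree_sum H hv.1 hv.2

theorem lb_main (H : P.OK s.M) :
    (3 - P.μ) * Fintype.card V - 11 * 5 ^ s.M ≤ ∑ v, (s.d v : ℝ) := by
  have hM := H.hM
  refine lb_of (pay := s.pay P) (sf := s.sf P) (by omega) H.ord.1 (sf_R H.five) ?_
  change 0 ≤ ∑ v ∈ _, s.nt P v
  rw [← sum_filter_add_sum_filter_not _ (fun v => s.d v = 3), filter_filter,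
    ← sum_filter_add_sum_filter_not ((univ.filter _).filter _) (fun v => s.d v = 4)]
  refine add_nonneg (lev3 H) (add_nonneg ?_ (sum_nonneg fun v hv => ?_))
  · refine (lev4 H).trans_eq (sum_congr ?_ fun _ _ => rfl)
    ext v
    simp only [mem_filter, mem_univ, true_and, T4]
    exact ⟨fun h => ⟨⟨h.1, by omega⟩, h.2⟩, fun h => ⟨h.1.1, h.2⟩⟩
  · simp only [mem_filter, mem_univ, true_and] at hv
    obtain ⟨⟨a, b⟩, c⟩ := hv
    by_cases h1 : s.d v ≤ 1
    · exact leaf_net (by omega) H.ord.1 h1 a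
    by_cases h2 : s.d v = 2
    · exact nt2 H h2 a
    · exact nt5 H (by omega) a

end St

end Pool.Agent.Lib.MP_c0533c_co
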