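import Mathlib

namespace Pool.Agent.Lib.MP_c0533c_co

variable {V : Type}

/-- degree of a vertex -/
noncomputable def dg (G : SimpleGraph V) (v : V) : ℕ := (G.neighborSet v).ncard

/-- degree monotone path, given as the list of its vertices -/
def MonoPath (G : SimpleGraph V) (l : List V) : Prop :=
  l.Nodup ∧ l.IsChain G.Adj ∧
    (l.IsChain (fun a b => dg G a ≤ dg G b) ∨ l.IsChain (fun a b => dg G b ≤ dg G a))

/-- largest number of vertices of a degree monotone path -/
noncomputable def mp (G : SimpleGraph V) : ℕ := sSup {m | ∃ l, MonoPath G l ∧ l.length = m}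

/-- `k`-saturated graphs -/
def Sat (G : SimpleGraph V) (k : ℕ) : Prop :=
  mp G < k ∧ ∀ u v, u ≠ v → ¬ G.Adj u v → k ≤ mp (G ⊔ SimpleGraph.edge u v)

/-- the saturation number -/
noncomputable def h (n k : ℕ) : ℕ :=
  sInf {m | ∃ G : SimpleGraph (Fin n), Sat G k ∧ G.edgeSet.ncard = m}

end Pool.Agent.Lib.MP_c0533c_co
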