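import Pool.Agent.Lib.MP_c0533c_co.Low

namespace Pool.Agent.Lib.MP_c0533c_co
open Classical Finset

variable {V : Type} [Fintype V]

namespace St
open Ctx
variable {s : St V}

theorem step3 {p q : V} (h : s.SA p q) (hk : ¬ s.K p) (hR : ¬ s.R p) (h3 : s.d p = 3) :
    ¬ s.K q ∧ (2 ≤ s.ns q → s.nu q = 1 ∧ s.ns q = 2 ∧ s.nl q = 0) := by
  have h2 := h.2
  have key : 2 ≤ s.ns q → s.nu q = 1 ∧ s.ns q = 2 ∧ s.nl q = 0 := by
    intro hs
    have := cnt (c := s.toCtx) q
    have : s.nu q ≠ 0 := by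
      intro h0
      obtain ⟨r, n, hm⟩ := mp (loc_iff.mpr h0) (by omega) (nR_sa hR h (by omega))
      obtain ⟨b, b1, b2⟩ := other_sd hs p
      exact hk (hm.core h.symm b1 b2.symm).2.1
    omega
  refine ⟨fun hq => ?_, key⟩
  obtain ⟨a, b, a1, a2, a3, a4, a5⟩ := hq.nbrs
  rcases (s2_of (key hq.ns).2.1.le a4 a5 a3).2.2.2 p h.symm with rfl | rfl
  exacts [hk a1, hk a2]

theorem path3 {p : V} {r : List V} (h : s.LP (p :: r)) (hk : ¬ s.K p) (hR : ¬ s.R p)
    (h3 : s.d p = 3) : ∀ x ∈ r, ¬ s.K x ∧ (2 ≤ s.ns x → s.nu x = 1 ∧ s.ns x = 2 ∧ s.nl x = 0) := by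
  induction r generalizing p with
  | nil => simp
  | cons q r ih =>
    have h1 := step3 h.rel0 hk hR h3
    intro x hx
    rcases List.mem_cons.mp hx with rfl | hx
    · exact h1
    · exact ih h.tail h1.1 (nR_sa hR h.rel0 (by omega)) (h.rel0.2 ▸ h3) x hx

theorem pc_of {p q : V} {m : List V} (h : s.LP (p :: m ++ [q])) (hp : s.ns p ≤ 1)
    (hq : s.ns q ≤ 1) (hR : ¬ s.R p) (h3 : s.d p = 3) : s.PC p m q :=
  ⟨h, hp, hq, fun x hx => (path3 (r := m ++ [q]) h (fun hk => by have := hk.ns; omega) hR h3 x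
    (by simp [hx])).2 (mid_ns h hx)⟩

theorem exists_pc {p : V} (hp : s.ns p = 1) (hR : ¬ s.R p) (h3 : s.d p = 3) :
    ∃ m q, s.PC p m q := by
  obtain ⟨r, h1, h2⟩ := exists_maxLP (c := s.toCtx) p
  rcases List.eq_nil_or_concat r with rfl | ⟨m, q, rfl⟩
  · obtain ⟨a, ha⟩ := exists_sd hp.ge
    have := h2 a ha; have := ha.ne; grind
  · rw [List.concat_eq_append] at h1 h2
    simp only [lst_append_cons, lst_nil] at h2
    refine ⟨m, q, pc_of h1 hp.le ?_ hR h3⟩
    by_contra hc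
    obtain ⟨a, ha⟩ := exists_sd (c := s.toCtx) (v := q) (by omega)
    obtain ⟨b, hb, hne⟩ := other_sd (c := s.toCtx) (v := q) (by omega) a
    have h4 : s.LP (q :: (m.reverse ++ [p])) := by simpa using h1.rev
    have := h2 a ha; have := h2 b hb; have := ha.ne; have := hb.ne
    exact (path3 h1 (fun hk => by have := hk.ns; omega) hR h3 q (by simp)).1
      (core_of_mem h4 ha hb hne.symm (by grind) (by grind)).1

theorem tau01 (hM : 5 ≤ s.M) {t : V} (h3 : s.d t = 3) (lt : s.loc t) (hR : ¬ s.R t) :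
    2 ≤ s.ns t := by
  by_contra hs
  obtain ⟨r, n, hm⟩ := mp lt (by omega) hR
  have hdd := hm.1.d_eq' _ (lst_mem t r)
  obtain ⟨hn, hn2⟩ := pre3 (by omega) (hdd.trans h3) hm.2.1
  have hl := hm.2.2
  have c1 := cnt (c := s.toCtx) t
  have := loc_iff.mp lt
  have p1 : s.Pre t 1 := pre_of_nl (by omega)
  have := master' hm.1 p1 (post_zero _)
  rcases List.eq_nil_or_concat r with rfl | ⟨m, e, rfl⟩
  · simp at hl; omega
  rw [List.concat_eq_append] at *
  simp only [lst_append_cons, lst_nil, List.length_append, List.length_singleton] at *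
  have pe : s.Pre e n := by simpa using hm.2.1
  have hl0 : s.nl e ≠ 0 := fun h => by have := pre_nl pe h; omega
  have hs1 : s.ns e ≤ 1 := by
    by_contra h
    exact hl0 ((path3 hm.1 (fun hk => by have := hk.ns; omega) hR h3 e (by simp)).2 (by omega)).2.2
  have pc := pc_of hm.1 (by omega) hs1 hR h3
  have hnd := hm.1.1
  have av : ∀ {a b : V} {m r : List V} {n : ℕ}, s.PC a m b → s.d a = 3 → s.MP a r n → b ∉ r →
      m.length + 3 ≤ s.M → False := by
    intro a b m r n pc h3 hm hb hl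
    have := hm.2.2
    cases r with
    | nil => have := (pre3 (by omega) h3 hm.2.1).1; simp at *; omega
    | cons z r => have := pc.avoid hm.1 hm.2.1 hb; simp at *; omega
  by_cases le : s.loc e
  · have hna : ¬ s.G.Adj t e := by
      intro h
      cases m with
      | nil => simp at hl; omega
      | cons a m => have := ns_two ⟨h, hdd.symm⟩ hm.1.rel0 (by grind); omega
    rcases pairMP lt le (by grind) hna with ⟨r, n, a, b⟩ | ⟨r, n, a, b⟩
    · exact av pc h3 a b (by omega)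
    · exact av pc.rev (by omega) a b (by simp; omega)
  · have := pc.master p1 (post_of_not_loc le)
    obtain ⟨x, hx, hx2⟩ := hn2 (by omega)
    obtain ⟨x1, x2, -⟩ := th2_nu hx (by omega) hx2
    obtain ⟨-, l, a1, a2, a3, a4⟩ := single_top' x1 (up_lo.mpr hx) lt (by omega) (by grind)
    obtain ⟨r, pre, rfl, b1, b2, b3⟩ := decomp a1
    have c2 := cnt (c := s.toCtx) e
    have c3 : s.nu e ≠ 0 := fun h => le (loc_iff.mpr h)
    have c4 : 1 ≤ s.ns e := by
      obtain ⟨q, hq⟩ := exists_hd m.reverse t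
      have h2 : s.LP (e :: hd m.reverse t :: q) := by rw [← hq]; simpa using pc.rev.1
      exact ns_pos h2.rel0
    cases r with
    | nil =>
      cases pre with
      | nil => simp at a4; omega
      | cons y pre =>
        have := nl_two hx (mem_Lo.mpr ⟨b2.rel0.1, b3 y (by simp)⟩) (by grind); omega
    | cons z r =>
      have := pc.rev.avoid b1 (n := pre.length) ⟨pre, b2, fun x hx => by
        rw [b1.d_eq _ (lst_mem z r)]; exact b3 x hx, rfl⟩ (by grind)
      simp only [List.length_reverse, List.cons_append, List.length_cons, List.length_append] at this a4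
      omega

theorem link3 {a : V} (h3 : s.d a = 3) (ka : s.K a) (hl : ¬ s.loc a) : s.link a := by
  obtain ⟨p, q, a1, a2, a3, a4, a5⟩ := ka.nbrs
  have := cnt (c := s.toCtx) a
  have : s.nu a ≠ 0 := fun h => hl (loc_iff.mpr h)
  exact ⟨ka, hl, p, q, a1, a2, a3, a4, a5, fun z hz _ =>
    (s2_of (by omega) a4 a5 a3).2.2.2 z hz⟩

theorem chain_loc3 {t z : V} {L : List V} (h3 : s.d t = 3) (hc : s.Ch t L z) : s.loc z := by
  by_contra h
  refine hc.2.2.2.2.2.1 (link3 ?_ hc.2.2.2.2.1 h)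
  rw [← hc.sa_lst.2, hc.lp.d_eq' _ (lst_mem t L), h3]

theorem claim1 (hM : 6 ≤ s.M) {t : V} (h3 : s.d t = 3) (lt : s.loc t) (hR : ¬ s.R t) :
    s.ns t = 3 := by
  have c1 := cnt (c := s.toCtx) t
  have := tau01 (by omega) h3 lt hR
  by_contra hs
  obtain ⟨r, n, hm⟩ := mp lt (by omega) hR
  obtain ⟨a, b, h⟩ := exists_s2 (c := s.toCtx) (v := t) (by omega)
  obtain ⟨kt, ka, kb⟩ := hm.core h.1 h.2.1 h.2.2.1
  have hn := (pre3 (by omega) ((hm.1.d_eq' _ (lst_mem t r)).trans h3) hm.2.1).1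
  have hl := hm.2.2
  have da := h.1.2
  have db := h.2.1.2
  by_cases hab : s.G.Adj a b
  swap
  · have key : ∀ {a b : V}, s.S2 t a b → s.K a → ¬ s.G.Adj a b → s.loc a := by
      intro a b h ka hab
      obtain ⟨L, z, hc, e⟩ := exists_chain kt (not_link lt) ka h.1
      rcases link_chain hc e with ⟨-, h1⟩ | ⟨-, -, rfl⟩
      · exact absurd (chain_loc3 h3 hc) (t2_chain h hm hab hc h1 e)
      · exact chain_loc3 h3 hc
    exact both_loc h ka (key h ka hab) (key h.symm kb fun e => hab e.symm) hab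
  have sab : s.SA a b := ⟨hab, by omega⟩
  have ca := cnt (c := s.toCtx) a
  have cb := cnt (c := s.toCtx) b
  have one : ∀ {a b : V}, s.S2 t a b → s.SA a b → s.ns a ≤ 2 → 3 ≤ s.ns b → False := by
    intro a b h sab h1 h2
    have cb := cnt (c := s.toCtx) b
    have db := h.2.1.2
    obtain ⟨r, n, hm⟩ := mp (loc_iff.mpr (by omega : s.nu b = 0)) (by omega)
      (nR_sa hR h.2.1 (by omega))
    obtain ⟨e, e1, e2, e3⟩ := other_sd2 h2 t a
    exact tri_apex (fun z hz _ => h.2.2.2 z hz)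
      (fun z hz _ => (s2_of h1 h.1.symm sab h.2.1.ne).2.2.2 z hz) hm h.2.1.symm e1 e2 e3
  by_cases h1 : s.ns a ≤ 2 <;> by_cases h2 : s.ns b ≤ 2
  · have a2 := s2_of h1 h.1.symm sab h.2.1.ne
    have b2 := s2_of h2 h.2.1.symm sab.symm h.1.ne
    have := (closed_len hm.1 [a, b] (by
      have := h.2.2.2; have := a2.2.2.2; have := b2.2.2.2; grind)).1
    simp at this; omega
  · exact one h sab h1 (by omega)
  · exact one h.symm sab.symm h2 (by omega)
  obtain ⟨a', a1, a2, a3⟩ := other_sd2 (c := s.toCtx) (v := a) (by omega) t b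
  obtain ⟨b', b1, b2, b3⟩ := other_sd2 (c := s.toCtx) (v := b) (by omega) t a
  have sa := s3_of (by omega) h.1.symm sab a1 h.2.1.ne a2.symm a3.symm
  have sb := s3_of (by omega) h.2.1.symm sab.symm b1 h.1.ne b2.symm b3.symm
  have la : s.loc a := loc_iff.mpr (by omega)
  have lb : s.loc b := loc_iff.mpr (by omega)
  have nb := tri33 h sa sb lt
  obtain ⟨r', n', hm'⟩ := mp lb (by omega) (nR_sa hR h.2.1 (by omega))
  have kb' := (hm'.core b1 h.2.1.symm b2).2.1
  have db' := b1.2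
  by_cases e : a' = b'
  · subst e
    have cc := cnt (c := s.toCtx) a'
    have : s.nu a' ≠ 0 := fun h => nb (loc_iff.mpr h)
    have c2 := s2_of (by omega) a1.symm b1.symm sab.ne
    obtain ⟨d1, d2⟩ := closed_len hm.1 [a, b, a'] (by
      have := h.2.2.2; have := sa.2.2.2.2.2.2; have := sb.2.2.2.2.2.2; have := c2.2.2.2; grind)
    have := d2 _ (lst_mem_of_ne (e := t) (List.ne_nil_of_mem (hm.mem h.1)))
    have := c2.ns
    have := pre_nl hm.2.1 (by grind)
    simp at d1; omega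
  · obtain ⟨L, z, hc, e'⟩ := exists_chain kb (not_link lb) kb' b1
    rcases link_chain hc e' with ⟨-, h1⟩ | ⟨h1, -⟩
    · exact tri33_chain h sa sb hm la lb e hc h1 (chain_loc3 (by omega) hc)
    · exact h1 (link3 (by omega) kb' nb)

theorem t2_side (hM : 5 ≤ s.M) {p : V} (h3 : s.d p = 3) (hR : ¬ s.R p) (h : s.hasT2 p) :
    1 ≤ s.ns p := by
  obtain ⟨x, hx, hx2⟩ := h
  obtain ⟨x1, x2, -⟩ := th2_nu hx h3 hx2
  obtain ⟨-, l, a1, a2, a4⟩ := single x1 (up_lo.mpr hx) hR
  by_contra hs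
  cases l with
  | nil => simp at a4; omega
  | cons y l =>
    rcases adj_cases a1.rel0.1 with h | h | h
    · have := (mem_Up.mp h).2; have := a1.rel0.2; omega
    · have := ns_pos h; omega
    · have := av_two (by omega) h (by have := (mem_Lo.mp h).2; omega) ⟨l, a1.tail, le_rfl⟩
      simp at a4; omega

theorem t2_cnt (hM : 6 ≤ s.M) {p : V} (h3 : s.d p = 3) (hR : ¬ s.R p) (h : s.hasT2 p) :
    s.nu p = 1 ∧ s.ns p = 1 ∧ s.nl p = 1 := by
  have := t2_side (by omega) h3 hR h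
  obtain ⟨x, hx, -⟩ := h
  have := nl_pos hx
  have := cnt (c := s.toCtx) p
  have : s.nu p ≠ 0 := fun h => by have := claim1 hM h3 (loc_iff.mpr h) hR; omega
  omega

theorem pc_top (hM : 6 ≤ s.M) {p q : V} {m : List V} (h : s.PC p m q) (h3 : s.d p = 3)
    (hR : ¬ s.R p) : s.d q = 3 ∧ ¬ s.R q ∧ 1 ≤ s.nu q := by
  have dq : s.d q = 3 := (LP.d_eq (l := m ++ [q]) h.1 q (by simp)).trans h3
  have : ¬ s.R q := confine (S := fun y => ¬ s.R y) (Q := fun y => s.d y = 3)
    (fun y hy z a b => nR_sa hy a (by have := a.2; omega)) (r := m ++ [q]) h.1 hR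
    (fun z hz => (LP.d_eq (l := m ++ [q]) h.1 z hz).trans h3) q (by simp)
  refine ⟨dq, this, ?_⟩
  by_contra hc
  have := claim1 hM dq (loc_iff.mpr (by omega)) this
  have := h.2.2.1; omega

theorem t2_pc (hM : 6 ≤ s.M) {p q : V} {m : List V} (h3 : s.d p = 3) (hR : ¬ s.R p)
    (h : s.hasT2 p) (pc : s.PC p m q) : m.length + 5 = s.M ∧ s.hasT2 q := by
  have c1 := t2_cnt hM h3 hR h
  obtain ⟨x, hx, hx2⟩ := h
  obtain ⟨x1, x2, x3⟩ := th2_nu hx h3 hx2
  obtain ⟨-, l, a1, a2, a4⟩ := single x1 (up_lo.mpr hx) hR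
  obtain ⟨dq, -, uq⟩ := pc_top hM pc h3 hR
  have := pc.master x3 (post_of_not_loc fun h => by have := loc_iff.mp h; omega)
  obtain ⟨r, pre, rfl, b1, b2, b3⟩ := decomp a1
  cases r with
  | nil =>
    cases pre with
    | nil => simp at a4; omega
    | cons y pre =>
      have := nl_two hx (mem_Lo.mpr ⟨b2.rel0.1, b3 y (by simp)⟩) (by grind); omega
  | cons z r =>
    have hp : s.Pre (lst z r) pre.length := ⟨pre, b2, fun x hx => by
        rw [b1.d_eq _ (lst_mem z r)]; exact b3 x hx, rfl⟩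
    simp only [List.cons_append, List.length_cons, List.length_append] at a4
    rcases pc.lp (l1 := []) rfl b1 hp with ⟨h1, -⟩ | ⟨h1, h2⟩
    · simp at h1
    have h4 : r.length ≤ m.length := by simpa using h1
    rcases h2 with h2 | h2
    · omega
    · have := pre3 (by omega) dq (h2 ▸ hp)
      exact ⟨by omega, this.2 (by omega)⟩

end St

end Pool.Agent.Lib.MP_c0533c_co
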