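import Pool.Agent.Lib.MP_c0533c_co.UbC

namespace Pool.Agent.Lib.MP_c0533c_co
namespace U
open Classical

variable {D : ℕ} {B : BT D}

/-- vertices of the tree family -/
inductive Vx (E : Des B) : Type
  | C : E.J → B.t → Vx E
  | T : E.J → B.L → Bool → Vx E
  | Z : E.J → B.L → Bool → Fin 3 → Vx E
  | X : E.J → B.L → Bool → Fin 3 → Vx E
  | S : E.S → Vx E

namespace Vx
variable {E : Des B}

/-- the vertices as a sum of products -/
def eqv (E : Des B) : ((E.J × B.t) ⊕ (E.J × B.L × Bool) ⊕ (E.J × B.L × Bool × Fin 3) ⊕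
    (E.J × B.L × Bool × Fin 3) ⊕ E.S) ≃ Vx E where
  toFun
    | .inl p => C p.1 p.2
    | .inr (.inl p) => T p.1 p.2.1 p.2.2
    | .inr (.inr (.inl p)) => Z p.1 p.2.1 p.2.2.1 p.2.2.2
    | .inr (.inr (.inr (.inl p))) => X p.1 p.2.1 p.2.2.1 p.2.2.2
    | .inr (.inr (.inr (.inr x))) => S x
  invFun
    | C j y => .inl (j, y)
    | T j s b => .inr (.inl (j, s, b))
    | Z j s b c => .inr (.inr (.inl (j, s, b, c)))
    | X j s b c => .inr (.inr (.inr (.inl (j, s, b, c))))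
    | S x => .inr (.inr (.inr (.inr x)))
  left_inv := by rintro (_ | _ | _ | _ | _) <;> rfl
  right_inv := by rintro (_ | _ | _ | _ | _) <;> rfl

noncomputable instance : Fintype (Vx E) := Fintype.ofEquiv _ (eqv E)

/-- adjacency -/
def adj : Vx E → Vx E → Prop
  | C j a, C j' b => j' = j ∧ B.T.Adj a b
  | C j a, T j' s _ => j' = j ∧ a = B.lf s
  | T j' s _, C j a => j = j' ∧ a = B.lf s
  | T j s b, Z j' s' b' _ => j' = j ∧ s' = s ∧ b' = b
  | Z j' s' b' _, T j s b => j = j' ∧ s = s' ∧ b = b'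
  | Z j s b c, X j' s' b' c' => (j = j' ∨ j = E.nx j') ∧ s' = s ∧ b' = b ∧ c' = c
  | X j' s' b' c', Z j s b c => (j = j' ∨ j = E.nx j') ∧ s = s' ∧ b = b' ∧ c = c'
  | C j a, S x => x = E.sv j a
  | S x, C j a => x = E.sv j a
  | _, _ => False

end Vx

open Vx

/-- the graph of the tree family -/
def fam (E : Des B) : SimpleGraph (Vx E) where
  Adj := adj
  symm := ⟨fun u v h => by
    cases u <;> cases v <;> simp only [adj] at h ⊢ <;>
      first
        | exact ⟨h.1.symm, h.2.symm⟩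
        | exact ⟨h.1.symm, h.2⟩
        | exact ⟨h.1.symm, h.2.1.symm, h.2.2.symm⟩
        | exact ⟨h.1, h.2.1.symm, h.2.2.1.symm, h.2.2.2.symm⟩
        | exact h⟩
  loopless := ⟨fun u h => by
    cases u <;> simp [adj] at h⟩

variable {E : Des B}

lemma dX (j s b c) : dg (fam E) (X j s b c) = 2 := by
  refine dg_of_list _ _ [Z j s b c, Z (E.nx j) s b c] (by simp [(E.hnx j).symm]) fun z => ?_
  cases z <;> simp [fam, adj, or_and_right]

lemma dZ (j s b c) : dg (fam E) (Z j s b c) = 3 := by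
  have h : E.nx.symm j ≠ j := fun h => E.hnx j (by simpa using (congrArg E.nx h).symm)
  refine dg_of_list _ _ [T j s b, X j s b c, X (E.nx.symm j) s b c] (by simp [h.symm]) fun z => ?_
  cases z <;> simp [fam, adj, or_and_right, Equiv.eq_symm_apply, eq_comm (a := j)]

lemma dT (j s b) : dg (fam E) (T j s b) = 4 := by
  refine dg_of_list _ _ [C j (B.lf s), Z j s b 0, Z j s b 1, Z j s b 2] (by simp) fun z => ?_
  cases z with
  | Z j' s' b' c => fin_cases c <;> simp [fam, adj]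
  | _ => simp [fam, adj]

lemma dS (x) : dg (fam E) (S x) = 5 := by
  rw [← E.five x]
  unfold dg
  rw [← Set.ncard_image_of_injective {p : E.J × B.t | E.sv p.1 p.2 = x}
    (f := fun p => (C p.1 p.2 : Vx E)) (fun p q h => by simpa [Prod.ext_iff] using h)]
  congr 1
  ext z
  cases z <;> simp [fam, adj, eq_comm (a := x)]

lemma dC (j y) : dg (fam E) (C j y) = 4 := by
  by_cases hy : ∃ s, B.lf s = y
  · obtain ⟨s, rfl⟩ := hy
    obtain ⟨a, ha⟩ := B.leaf_nb s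
    refine dg_of_list _ _ [S (E.sv j (B.lf s)), C j a, T j s false, T j s true] (by simp)
      fun z => ?_
    cases z with
    | T j' s' b => cases b <;> simp [fam, adj, B.inj.eq_iff, eq_comm (a := s)]
    | _ => simp [fam, adj, ha]
  · push Not at hy
    have h1 : (fam E).neighborSet (C j y) =
        insert (S (E.sv j y)) ((fun a => (C j a : Vx E)) '' B.T.neighborSet y) := by
      ext z
      cases z with
      | C j' a =>
        simp only [fam, SimpleGraph.mem_neighborSet, adj, Set.mem_insert_iff, reduceCtorEq,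
          Set.mem_image, C.injEq, false_or]
        exact ⟨fun h => ⟨a, h.2, h.1.symm, rfl⟩, fun ⟨_, h1, h2, h3⟩ => ⟨h2.symm, h3 ▸ h1⟩⟩
      | _ => simp [fam, adj, (hy _).symm]
    have h3 := B.d3 y hy
    unfold dg at h3 ⊢
    rw [h1, Set.ncard_insert_of_notMem (by simp), Set.ncard_image_of_injective _
      (fun a b h => by simpa using h), h3]

/-- degrees -/
def dv : Vx E → ℕ
  | C _ _ => 4
  | T _ _ _ => 4
  | Z _ _ _ _ => 3
  | X _ _ _ _ => 2
  | S _ => 5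

lemma dg_fam : dg (fam E) = dv := by
  funext v
  cases v
  · exact dC _ _
  · exact dT _ _ _
  · exact dZ _ _ _ _
  · exact dX _ _ _ _
  · exact dS _

lemma start_C (j : E.J) : ∀ (l : List (Vx E)) (y : B.t), IP adj dv (C j y :: l) →
    ∃ p : List B.t, (y :: p).Nodup ∧ (y :: p).IsChain B.T.Adj ∧ l.length ≤ p.length + 1 ∧
      ∀ z ∈ p, C j z ∈ l
  | [], y, _ => ⟨[], by simp, by simp, by simp, by simp⟩
  | C j' a :: l, y, ⟨h1, h2⟩ => by
    rw [List.isChain_cons_cons] at h2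
    rw [List.nodup_cons] at h1
    obtain ⟨⟨⟨rfl, h3⟩, -⟩, h4⟩ := h2
    obtain ⟨p, e1, e2, e3, e4⟩ := start_C j' l a ⟨h1.2, h4⟩
    refine ⟨a :: p, List.nodup_cons.2 ⟨fun hm => h1.1 ?_, e1⟩,
      List.isChain_cons_cons.2 ⟨h3, e2⟩, by simpa using e3, fun z hz => ?_⟩
    · rcases List.mem_cons.1 hm with rfl | hm
      · simp
      · exact List.mem_cons_of_mem _ (e4 _ hm)
    · rcases List.mem_cons.1 hz with rfl | hz
      · simp
      · exact List.mem_cons_of_mem _ (e4 _ hz)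
  | [T _ _ _], y, _ => ⟨[], by simp, by simp, by simp, by simp⟩
  | [S _], y, _ => ⟨[], by simp, by simp, by simp, by simp⟩
  | T _ _ _ :: w :: l, y, ⟨h1, h2⟩ => by
    exfalso
    cases w <;> simp only [List.isChain_cons_cons, adj, dv, false_and, and_false] at h2
    · obtain ⟨⟨⟨rfl, rfl⟩, -⟩, ⟨⟨rfl, rfl⟩, -⟩, -⟩ := h2
      simp at h1
    · omega
  | S _ :: w :: l, y, ⟨_, h2⟩ => by
    exfalso
    cases w <;> simp only [List.isChain_cons_cons, adj, dv, false_and, and_false] at h2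
    omega
  | Z _ _ _ _ :: l, y, ⟨_, h2⟩ => by simp [List.isChain_cons_cons, adj] at h2
  | X _ _ _ _ :: l, y, ⟨_, h2⟩ => by simp [List.isChain_cons_cons, adj] at h2

/-- bound for the number of vertices after a given first vertex -/
def ht (D : ℕ) : Vx E → ℕ
  | C _ _ => D
  | T _ _ _ => D + 1
  | Z _ _ _ _ => D + 2
  | X _ _ _ _ => D + 3
  | S _ => 0

lemma ht_bound : ∀ (l : List (Vx E)) (v : Vx E), IP adj dv (v :: l) → l.length ≤ ht D v
  | [], _, _ => by simp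
  | w :: l, v, h => by
    have ih := ht_bound l w ⟨(List.nodup_cons.1 h.1).2, (List.isChain_cons_cons.1 h.2).2⟩
    have h1 := (List.isChain_cons_cons.1 h.2).1
    cases v with
    | C j y =>
      obtain ⟨p, f1, f2, f3, -⟩ := start_C j _ y h
      have := B.bd _ f1 f2
      simp only [List.length_cons, ht] at this f3 ⊢
      omega
    | _ =>
      cases w <;> simp only [adj, dv, false_and, ht, List.length_cons] at h1 ih ⊢ <;> omega

lemma fam_bound (l : List (Vx E)) (h : IP (fam E).Adj (dg (fam E)) l) : l.length ≤ D + 4 := by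
  rcases l with _ | ⟨v, l⟩
  · simp
  · rw [dg_fam] at h
    have := ht_bound l v h
    cases v <;> simp only [ht, List.length_cons] at this ⊢ <;> omega

/-- a path inside one tree whose vertices other than the last one keep their degree -/
lemma ip_tree (r : Vx E → ℕ) (j : E.J) (p : List B.t) (z : B.t) (h1 : (p ++ [z]).Nodup)
    (h2 : (p ++ [z]).IsChain B.T.Adj) (h3 : ∀ a ∈ p, r (C j a) = 0) :
    IP adj (fun w => dv w + r w) (p.map (C j) ++ [C j z]) := by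
  rw [← List.map_singleton, ← List.map_append]
  refine ⟨h1.map fun a b h => by simpa using h, ?_⟩
  rw [List.isChain_map]
  induction p with
  | nil => simp
  | cons a p ih =>
    rw [List.cons_append, List.isChain_cons] at h2 ⊢
    refine ⟨fun y hy => ⟨⟨rfl, h2.1 y hy⟩, ?_⟩, ih (List.nodup_cons.1 h1).2 h2.2
      fun b hb => h3 b (List.mem_cons_of_mem _ hb)⟩
    simp [dv, h3 a]

lemma ip_cons {V : Type} {A : V → V → Prop} {d : V → ℕ} {l : List V} {u w : V}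
    (h : IP A d (w :: l)) (hu : u ∉ w :: l) (h1 : A u w) (h2 : d u ≤ d w) :
    IP A d (u :: w :: l) :=
  ⟨List.nodup_cons.2 ⟨hu, h.1⟩, List.isChain_cons_cons.2 ⟨⟨h1, h2⟩, h.2⟩⟩

/-- the first part of the standard witness -/
def lg (j : E.J) (s : B.L) (b : Bool) (m : List B.t) : List (Vx E) :=
  X j s b 0 :: Z j s b 0 :: T j s b :: C j (B.lf s) :: m.map (C j)

lemma ip_lg (r : Vx E → ℕ) (hr : ∀ w, r w ≤ 1) (j : E.J) (s : B.L) (b : Bool) (m : List B.t)
    (z : B.t) (h1 : (B.lf s :: m ++ [z]).Nodup) (h2 : (B.lf s :: m ++ [z]).IsChain B.T.Adj)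
    (h3 : ∀ a, a ≠ z → r (C j a) = 0) (h4 : r (T j s b) = 0) :
    IP adj (fun w => dv w + r w) (lg j s b m ++ [C j z]) := by
  have h5 := ip_tree r j (B.lf s :: m) z h1 h2 fun a ha => h3 a (by
    rintro rfl
    exact (List.nodup_append.1 h1).2.2 a ha a (by simp) rfl)
  refine ip_cons (ip_cons (ip_cons h5 (by simp) ⟨rfl, rfl⟩ ?_) (by simp) ⟨rfl, rfl, rfl⟩ ?_)
    (by simp) ⟨Or.inl rfl, rfl, rfl, rfl⟩ ?_
  · simp [dv, h4]
  · have := hr (Z j s b 0)
    simp only [dv]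
    omega
  · have := hr (X j s b 0)
    simp only [dv]
    omega

lemma witT (r : Vx E → ℕ) (hr : ∀ w, r w ≤ 1) (j : E.J) (s : B.L) (b : Bool)
    (h3 : ∀ a, r (C j a) = 0) (h4 : ∀ s', s' ≠ s → ∃ b', r (T j s' b') = 0) :
    ∃ l, IP adj (fun w => dv w + r w) (l ++ [T j s b]) ∧ l.length = D + 3 ∧
      (∀ c, Z j s b c ∉ l) ∧ (∀ x, S x ∉ l) ∧ ∀ j' s' b', T j' s' b' ∈ l → r (T j' s' b') = 0 := by
  obtain ⟨s', m, h1, h2, h5⟩ := B.wit s
  have hs : s' ≠ s := by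
    rintro rfl
    simp at h1
  obtain ⟨b', hb'⟩ := h4 s' hs
  refine ⟨lg j s' b' m ++ [C j (B.lf s)], ip_snoc
    (ip_lg r hr j s' b' m _ h1 h2 (fun a _ => h3 a) hb') (by simp [lg, hs.symm]) ⟨rfl, rfl⟩
    (by simp [dv, h3]), by simp [lg]; omega, by simp [lg, hs.symm], by simp [lg], ?_⟩
  intro j' s'' b'' h
  simp only [lg, List.cons_append, List.mem_cons, reduceCtorEq, T.injEq, List.mem_append,
    List.mem_map, and_false, exists_false, List.not_mem_nil, or_self, or_false, false_or] at h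
  obtain ⟨rfl, rfl, rfl⟩ := h
  exact hb'

lemma witS (r : Vx E → ℕ) (hr : ∀ w, r w ≤ 1) (j : E.J) (s : B.L)
    (h3 : ∀ a, a ≠ B.lf s → r (C j a) = 0) (h4 : ∀ s', ∃ b', r (T j s' b') = 0) :
    ∃ l, IP adj (fun w => dv w + r w) (l ++ [S (E.sv j (B.lf s))]) ∧ l.length = D + 3 ∧
      (∀ x, S x ∉ l) ∧ ∀ j' a, j' ≠ j → C j' a ∉ l := by
  obtain ⟨s', m, h1, h2, h5⟩ := B.wit s
  obtain ⟨b', hb'⟩ := h4 s'
  refine ⟨lg j s' b' m ++ [C j (B.lf s)], ip_snoc
    (ip_lg r hr j s' b' m _ h1 h2 h3 hb') (by simp [lg]) rfl ?_, by simp [lg]; omega,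
    by simp [lg], fun j' a h => by simp [lg, h, h.symm]⟩
  have := hr (C j (B.lf s))
  simp only [dv]
  omega

lemma witZ (r : Vx E → ℕ) (hr : ∀ w, r w ≤ 1) (j : E.J) (s : B.L) (b : Bool) (c : Fin 3)
    (h3 : ∀ a, r (C j a) = 0) (h4 : ∀ s', s' ≠ s → ∃ b', r (T j s' b') = 0)
    (h5 : r (T j s b) = 0) (h6 : r (Z j s b c) = 1) :
    ∃ l, IP adj (fun w => dv w + r w) l ∧ D + 4 + 1 ≤ l.length := by
  obtain ⟨l, e1, e2, e3, -⟩ := witT r hr j s b h3 h4
  exact ⟨_, ip_snoc (w := Z j s b c) e1 (by simp [e3]) ⟨rfl, rfl, rfl⟩ (by simp [dv, h5, h6]),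
    by simp [e2]⟩

lemma witC (r : Vx E → ℕ) (hr : ∀ w, r w ≤ 1) (j j' : E.J) (y : B.t) (s : B.L) (hj : j' ≠ j)
    (hs : E.sv j' (B.lf s) = E.sv j y)
    (h3 : ∀ a, a ≠ B.lf s → r (C j' a) = 0) (h4 : ∀ s', ∃ b', r (T j' s' b') = 0)
    (h5 : r (S (E.sv j y)) = 0) (h6 : r (C j y) = 1) :
    ∃ l, IP adj (fun w => dv w + r w) l ∧ D + 4 + 1 ≤ l.length := by
  obtain ⟨l, e1, e2, -, e3⟩ := witS r hr j' s h3 h4
  rw [hs] at e1
  exact ⟨_, ip_snoc (w := C j y) e1 (by simp [e3 j y hj.symm]) rfl (by simp [dv, h5, h6]),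
    by simp [e2]⟩

lemma witX (r : Vx E → ℕ) (hr : ∀ w, r w ≤ 1) (j j1 j2 : E.J) (s : B.L) (b : Bool) (c : Fin 3)
    (hj : (j1 = j ∧ j2 = E.nx j) ∨ (j1 = E.nx j ∧ j2 = j))
    (h3 : ∀ a, r (C j2 a) = 0) (h4 : r (T j2 s b) = 0) (h5 : r (Z j1 s b c) = 0)
    (h6 : r (X j s b c) = 1) :
    ∃ l, IP adj (fun w => dv w + r w) l ∧ D + 4 + 1 ≤ l.length := by
  obtain ⟨s', m, h1, h2, h7⟩ := B.wit s
  have e : (B.lf s' :: m ++ [B.lf s]).reverse = (B.lf s :: m.reverse) ++ [B.lf s'] := by simp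
  have g1 := List.nodup_reverse.2 h1
  have g2 : (B.lf s' :: m ++ [B.lf s]).reverse.IsChain B.T.Adj :=
    List.isChain_reverse.2 (h2.imp fun _ _ h => h.symm)
  rw [e] at g1 g2
  have g3 := ip_tree r j2 _ _ g1 g2 fun a _ => h3 a
  obtain ⟨j0, k1, k2⟩ : ∃ j0, j0 ≠ j ∧ (j1 = j0 ∨ j1 = E.nx j0) := by
    rcases hj with ⟨rfl, -⟩ | ⟨rfl, -⟩
    · exact ⟨E.nx.symm j1, fun h => E.hnx j1 (by simpa using (congrArg E.nx h).symm),
        Or.inr (by simp)⟩
    · exact ⟨_, E.hnx j, Or.inl rfl⟩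
  have k3 : j1 ≠ j2 := by
    rcases hj with ⟨rfl, rfl⟩ | ⟨rfl, rfl⟩
    · exact (E.hnx _).symm
    · exact E.hnx _
  have k4 : j1 = j ∨ j1 = E.nx j := hj.imp And.left And.left
  have k5 : j2 = j ∨ j2 = E.nx j := (hj.imp And.right And.right).symm
  refine ⟨X j0 s b c :: Z j1 s b c :: X j s b c :: Z j2 s b c :: T j2 s b :: _,
    ip_cons (ip_cons (ip_cons (ip_cons (ip_cons g3 (by simp) ⟨rfl, rfl⟩ ?_) (by simp)
      ⟨rfl, rfl, rfl⟩ ?_) (by simp) ⟨k5, rfl, rfl, rfl⟩ ?_) (by simp [k3]) ⟨k4, rfl, rfl, rfl⟩ ?_)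
      (by simp [k1]) ⟨k2, rfl, rfl, rfl⟩ ?_, by simp; omega⟩
  · simp [dv, h4]
  · have := hr (Z j2 s b c)
    simp only [dv]
    omega
  · simp [dv, h6]
  · simp [dv, h5, h6]
  · have := hr (X j0 s b c)
    simp only [dv]
    omega

end U
end Pool.Agent.Lib.MP_c0533c_co
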