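import Pool.Agent.Lib.MP_c0533c_co.UbB
import Pool.Agent.Lib.MP_c0533c_co.UbD

namespace Pool.Agent.Lib.MP_c0533c_co
namespace U
open Classical Vx

variable {D : ℕ} {B : BT D} {E : Des B}

/-- indicator of the two ends of the new edge -/
noncomputable def rr (u y : Vx E) (w : Vx E) : ℕ := if w = u ∨ w = y then 1 else 0

lemma rr_le (u y w : Vx E) : rr u y w ≤ 1 := by
  unfold rr
  split_ifs <;> simp

lemma rr_zero {u y w : Vx E} (h1 : w ≠ u) (h2 : w ≠ y) : rr u y w = 0 := by simp [rr, h1, h2]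

lemma rr_one (u y : Vx E) : rr u y u = 1 := by simp [rr]

lemma dgP_fam (u y : Vx E) : dgP (fam E) u y = fun w => dv w + rr u y w := by
  funext w
  unfold dgP rr
  rw [dg_fam]

lemma long_of_wit {u y : Vx E}
    (h : ∃ l, IP adj (fun w => dv w + rr u y w) l ∧ D + 4 + 1 ≤ l.length) :
    Long (fam E) (D + 4) u y := by
  obtain ⟨l, h1, h2⟩ := h
  exact ⟨l, ip_adjP (by rw [dgP_fam]; exact h1), h2⟩

lemma avoidT (y : Vx E) (j : E.J) (s : B.L) : ∃ b, T j s b ≠ y := by
  by_cases h : T j s false = y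
  · exact ⟨true, by rw [← h]; simp⟩
  · exact ⟨false, h⟩

lemma pairX (j s b c) (y : Vx E) (hn : ¬ adj (X j s b c) y) :
    ∃ l, IP adj (fun w => dv w + rr (X j s b c) y w) l ∧ D + 4 + 1 ≤ l.length := by
  by_cases hy : (∃ a, y = C j a) ∨ y = T j s b
  · refine witX _ (rr_le _ _) j j (E.nx j) s b c (Or.inl ⟨rfl, rfl⟩)
      (fun a => rr_zero (by simp) ?_) (rr_zero (by simp) ?_) (rr_zero (by simp) ?_) (rr_one _ _)
    · rcases hy with ⟨a, rfl⟩ | rfl <;> simp [E.hnx j]
    · rcases hy with ⟨a, rfl⟩ | rfl <;> simp [E.hnx j]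
    · rcases hy with ⟨a, rfl⟩ | rfl <;> simp
  · push Not at hy
    refine witX _ (rr_le _ _) j (E.nx j) j s b c (Or.inr ⟨rfl, rfl⟩)
      (fun a => rr_zero (by simp) (hy.1 a).symm) (rr_zero (by simp) hy.2.symm)
      (rr_zero (by simp) ?_) (rr_one _ _)
    rintro rfl
    exact hn ⟨Or.inr rfl, rfl, rfl, rfl⟩

lemma pairZ (j s b c) (y : Vx E) (hn : ¬ adj (Z j s b c) y) (hy : ∀ a, y ≠ C j a) :
    ∃ l, IP adj (fun w => dv w + rr (Z j s b c) y w) l ∧ D + 4 + 1 ≤ l.length := by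
  refine witZ _ (rr_le _ _) j s b c (fun a => rr_zero (by simp) (hy a).symm)
    (fun s' _ => (avoidT y j s').imp fun b' h => rr_zero (by simp) h) (rr_zero (by simp) ?_)
    (rr_one _ _)
  rintro rfl
  exact hn ⟨rfl, rfl, rfl⟩

lemma pairC (j a) (y : Vx E) (hn : ¬ adj (C j a) y) (j' s) (hj : j' ≠ j)
    (hs : E.sv j' (B.lf s) = E.sv j a) (hy : ∀ a', a' ≠ B.lf s → y ≠ C j' a') :
    ∃ l, IP adj (fun w => dv w + rr (C j a) y w) l ∧ D + 4 + 1 ≤ l.length := by
  refine witC _ (rr_le _ _) j j' a s hj hs (fun a' h => rr_zero (by simp [hj]) (hy a' h).symm)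
    (fun s' => (avoidT y j' s').imp fun b' h => rr_zero (by simp) h) (rr_zero (by simp) ?_)
    (rr_one _ _)
  rintro rfl
  exact hn rfl

lemma pairC' (j a) (y : Vx E) (hn : ¬ adj (C j a) y) (hy : ∀ j' a', y ≠ C j' a') :
    Long (fam E) (D + 4) (C j a) y := by
  obtain ⟨j', s, hj, hs⟩ := E.key (E.sv j a) j
  exact long_of_wit (pairC j a y hn j' s hj hs fun a' _ => hy j' a')

lemma pairCC (j a j2 a2) (hn : ¬ adj (C j a : Vx E) (C j2 a2)) :
    Long (fam E) (D + 4) (C j a) (C j2 a2) := by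
  obtain ⟨j', s, hj, hs⟩ := E.key (E.sv j a) j
  obtain ⟨j'', s2, hj2, hs2⟩ := E.key (E.sv j2 a2) j2
  by_cases h1 : ∀ a', a' ≠ B.lf s → (C j2 a2 : Vx E) ≠ C j' a'
  · exact long_of_wit (pairC j a _ hn j' s hj hs h1)
  · refine (long_of_wit (pairC j2 a2 (C j a) 
      (fun h => hn ((fam E).adj_symm (u := C j2 a2) (v := C j a) h)) j'' s2 hj2 hs2
      fun a' _ h => ?_)).symm
    push Not at h1
    obtain ⟨a'', g1, g2⟩ := h1
    simp only [C.injEq] at g2 h
    obtain ⟨rfl, rfl⟩ := g2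
    obtain ⟨rfl, rfl⟩ := h
    exact g1 (E.one _ _ _ _ _ _ hj hs hs2.symm).symm

lemma endT (j s b) (y : Vx E) (hy : ∀ a, y ≠ C j a) :
    ∃ l, IP adj (fun w => dv w + rr (T j s b) y w) (l ++ [T j s b]) ∧ l.length = D + 3 ∧
      (∀ x, S x ∉ l) ∧ ∀ j' s' b', T j' s' b' ∈ l → T j' s' b' ≠ y := by
  obtain ⟨l, e1, e2, -, e3, e4⟩ := witT _ (rr_le (T j s b) y) j s b
    (fun a => rr_zero (by simp) (hy a).symm)
    (fun s' h => (avoidT y j s').imp fun b' h' => rr_zero (by simp [h]) h')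
  refine ⟨l, e1, e2, e3, fun j' s' b' h h' => ?_⟩
  have := e4 j' s' b' h
  simp [rr, h'] at this

lemma endS (x) (y : Vx E) (hy : ∀ j a, y ≠ C j a) :
    ∃ l, IP adj (fun w => dv w + rr (S x) y w) (l ++ [S x]) ∧ l.length = D + 3 ∧
      ∀ x', S x' ∉ l := by
  obtain ⟨j, s, -, rfl⟩ := E.key x (Classical.arbitrary _)
  obtain ⟨l, e1, e2, e3, -⟩ := witS _ (rr_le (S (E.sv j (B.lf s))) y) j s
    (fun a _ => rr_zero (by simp) (hy j a).symm)
    (fun s' => (avoidT y j s').imp fun b' h' => rr_zero (by simp) h')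
  exact ⟨l, e1, e2, e3⟩

lemma pairTT (j s b j' s' b') (h : (T j s b : Vx E) ≠ T j' s' b') :
    Long (fam E) (D + 4) (T j s b) (T j' s' b') := by
  obtain ⟨l, e1, e2, -, e4⟩ := endT j s b (T j' s' b') (by simp)
  refine long_of_end (l := l) (by rw [dgP_fam]; exact e1) ?_ (by simp [dg_fam, dv]) (by simp [e2])
  rw [List.mem_append, List.mem_singleton]
  rintro (h1 | h1)
  · exact e4 _ _ _ h1 rfl
  · exact h h1.symm

lemma pairTS (j s b x) : Long (fam E) (D + 4) (T j s b) (S x) := by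
  obtain ⟨l, e1, e2, e3, -⟩ := endT j s b (S x) (by simp)
  exact long_of_end (l := l) (by rw [dgP_fam]; exact e1) (by simp [e3]) (by simp [dg_fam, dv])
    (by simp [e2])

lemma pairSS (x x') (h : (S x : Vx E) ≠ S x') : Long (fam E) (D + 4) (S x) (S x') := by
  obtain ⟨l, e1, e2, e3⟩ := endS x (S x') (by simp)
  exact long_of_end (l := l) (by rw [dgP_fam]; exact e1) (by simpa [e3] using h.symm)
    (by simp [dg_fam, dv]) (by simp [e2])

lemma fam_long (u v : Vx E) (huv : u ≠ v) (hn : ¬ adj u v) : Long (fam E) (D + 4) u v := by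
  have hn' : ¬ adj v u := fun h => hn ((fam E).adj_symm h)
  cases u with
  | X j s b c => exact long_of_wit (pairX j s b c v hn)
  | C j a =>
    cases v with
    | C j2 a2 => exact pairCC j a j2 a2 hn
    | _ => exact pairC' j a _ hn (by simp)
  | Z j s b c =>
    cases v with
    | C j2 a2 => exact (pairC' j2 a2 _ hn' (by simp)).symm
    | _ => exact long_of_wit (pairZ j s b c _ hn (by simp))
  | T j s b =>
    cases v with
    | C j2 a2 => exact (pairC' j2 a2 _ hn' (by simp)).symm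
    | T j' s' b' => exact pairTT j s b j' s' b' huv
    | Z j' s' b' c' => exact (long_of_wit (pairZ j' s' b' c' _ hn' (by simp))).symm
    | X j' s' b' c' => exact (long_of_wit (pairX j' s' b' c' _ hn')).symm
    | S x => exact pairTS j s b x
  | S x =>
    cases v with
    | C j2 a2 => exact (pairC' j2 a2 _ hn' (by simp)).symm
    | T j' s' b' => exact (pairTS j' s' b' x).symm
    | Z j' s' b' c' => exact (long_of_wit (pairZ j' s' b' c' _ hn' (by simp))).symm
    | X j' s' b' c' => exact (long_of_wit (pairX j' s' b' c' _ hn')).symm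
    | S x' => exact pairSS x x' huv

lemma fam_good : Good (fam E) (D + 4) := by
  refine ⟨(sat_iff _ _).2 ⟨fam_bound, fam_long⟩, fun v => ?_, fun u => ?_⟩
  · rw [dg_fam]
    cases v <;> simp [dv]
  · have e : (fun w => dg (fam E) w + if w = u then 1 else 0) = fun w => dv w + rr u u w := by
      funext w
      simp [rr, dg_fam]
    rw [e]
    have hn : ¬ adj u u := (fam E).irrefl
    cases u with
    | X j s b c => exact (pairX j s b c _ hn).imp fun _ h => Or.inl h
    | Z j s b c => exact (pairZ j s b c _ hn (by simp)).imp fun _ h => Or.inl h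
    | C j a =>
      obtain ⟨j', s, hj, hs⟩ := E.key (E.sv j a) j
      exact (pairC j a _ hn j' s hj hs (by simp [hj.symm])).imp fun _ h => Or.inl h
    | T j s b =>
      obtain ⟨l, e1, e2, -⟩ := endT j s b (T j s b) (by simp)
      exact ⟨l, Or.inr ⟨e1, by simp [e2]⟩⟩
    | S x =>
      obtain ⟨l, e1, e2, -⟩ := endS x (S x) (by simp)
      exact ⟨l, Or.inr ⟨e1, by simp [e2]⟩⟩

lemma fam_card : Fintype.card (Vx E) = Fintype.card E.J * Fintype.card B.t +
    14 * (Fintype.card E.J * Fintype.card B.L) + Fintype.card E.S := by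
  rw [← Fintype.card_congr (eqv E)]
  simp only [Fintype.card_sum, Fintype.card_prod, Fintype.card_bool, Fintype.card_fin]
  ring

lemma fam_sum : ∑ v, dg (fam E) v = 4 * (Fintype.card E.J * Fintype.card B.t) +
    38 * (Fintype.card E.J * Fintype.card B.L) + 5 * Fintype.card E.S := by
  rw [dg_fam, ← (eqv E).sum_comp]
  simp only [Fintype.sum_sum_type, eqv, Equiv.coe_fn_mk, dv, Finset.sum_const, Finset.card_univ,
    Fintype.card_prod, Fintype.card_bool, Fintype.card_fin, smul_eq_mul]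
  ring

lemma ell_pos : ∀ D : ℕ, 1 ≤ ell D
  | 0 => le_rfl
  | 1 => le_rfl
  | 2 => by simp [ell]
  | 3 => by simp [ell]
  | D + 4 => by
    have := ell_pos (D + 2)
    simp only [ell]
    omega

end U

theorem ub_tree (M : ℕ) (hM : 8 ≤ M) :
    UB (M + 1) ((60 * (ell (M - 2) : ℝ) - 25) / (41 * (ell (M - 2) : ℝ) - 12)) := by
  obtain ⟨d, rfl⟩ : ∃ d, M = d + 2 + 4 := ⟨M - 6, by omega⟩
  obtain ⟨B⟩ := U.exists_bt d
  obtain ⟨E⟩ := U.exists_des B
  obtain ⟨s⟩ : Nonempty B.L := Fintype.card_pos_iff.1 (by rw [B.cL]; exact U.ell_pos _)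
  have : Nonempty (U.Vx E) := ⟨U.Vx.C (Classical.arbitrary _) (B.lf s)⟩
  refine U.ub_of_good (U.fam E) _ (by omega) U.fam_good _ ?_
  have e1 : ell (d + 2 + 4 - 2) = 2 * Fintype.card B.L := by rw [B.cL]; rfl
  have h1 : (1 : ℝ) ≤ Fintype.card B.L := by
    rw [B.cL]
    exact_mod_cast U.ell_pos _
  have h2 : (Fintype.card B.t : ℝ) = 2 * Fintype.card B.L - 2 := by
    have : (Fintype.card B.t : ℝ) + 2 = 2 * Fintype.card B.L := by exact_mod_cast B.ct
    linarith
  have h3 : (Fintype.card E.S : ℝ) = Fintype.card E.J * Fintype.card B.t / 5 := by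
    have : (5 : ℝ) * Fintype.card E.S = Fintype.card E.J * Fintype.card B.t := by
      exact_mod_cast E.cS
    linarith
  rw [U.fam_sum, U.fam_card, e1]
  push_cast
  rw [h3, h2]
  have h4 : (41 * (2 * (Fintype.card B.L : ℝ)) - 12) ≠ 0 := by linarith
  refine le_of_eq ?_
  rw [← mul_div_assoc 2, div_mul_eq_mul_div, eq_div_iff h4]
  ring

end Pool.Agent.Lib.MP_c0533c_co
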