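import Pool.Agent.Lib.MP_c0533c_co.CoreC
import Pool.Agent.Lib.MP_c0533c_co.Ub

namespace Pool.Agent.Lib.MP_c0533c_co
open Classical Finset

noncomputable def P7 : Par := ⟨0.217, 0.43, 0, 0.35, 0, 0.43, 0.95, 0.08, 0, 0.46, 0.46, 0, 0.5⟩
noncomputable def P8 : Par :=
  ⟨0.142, 0.5, -0.14, 0.28, 0.07, 0.45, 0.56, 0.36, 0.02, 0.54, 0.54, 0.29, 0.5⟩
noncomputable def P9 : Par :=
  ⟨0.12, 0.5, -0.12, 0.24, 0.06, 0.45, 0.384, 0.38, 0.16, 0.57, 0.57, 0.4, 0.5⟩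
noncomputable def PG (μ g : ℝ) : Par := ⟨μ, 0.6, (μ - 0.2) / 2, (μ - 0.2) / 2, (μ - 0.2) / 2, 0.36, g,
  0.8 - μ, 0.8 - 7 * μ, 0.6, 0.7 - 1.5 * μ, 1 - 5 * μ, 0.42⟩

open Par in
theorem ok7 : P7.OK 7 := by
  refine ⟨le_rfl, ?_, ?_, ?_, ?_, ?_, ?_⟩ <;>
    simp only [Par.Ord, Five, Pth, Sml, Big, Cor, G, ps, pd, sz, sg, u, k0, dbl, p6, y, dl, NF, N0,
      P7] <;> norm_num [min_def]

open Par in
theorem ok8 : P8.OK 8 := by
  refine ⟨by norm_num, ?_, ?_, ?_, ?_, ?_, ?_⟩ <;>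
    simp only [Par.Ord, Five, Pth, Sml, Big, Cor, G, ps, pd, sz, sg, u, k0, dbl, p6, y, dl, NF, N0,
      P8] <;> norm_num [min_def]

open Par in
theorem ok9 : P9.OK 9 := by
  refine ⟨by norm_num, ?_, ?_, ?_, ?_, ?_, ?_⟩ <;>
    simp only [Par.Ord, Five, Pth, Sml, Big, Cor, G, ps, pd, sz, sg, u, k0, dbl, p6, y, dl, NF, N0,
      P9] <;> norm_num [min_def]

open Par in
theorem ok10 : (PG 0.104 0.25).OK 10 := by
  refine ⟨by norm_num, ?_, ?_, ?_, ?_, ?_, ?_⟩ <;>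
    simp only [Par.Ord, Five, Pth, Sml, Big, Cor, G, ps, pd, sz, sg, u, k0, dbl, p6, y, dl, NF, N0,
      PG] <;> norm_num [min_def]

open Par in
theorem okG {M : ℕ} (hM : 11 ≤ M) {μ g a b c : ℝ} (h2 : μ ≤ 0.096) (h3 : 0 ≤ g)
    (h4 : 8.2 * μ = 0.6 + g) (ea : 2 ^ ((M - 3) / 2 - 1) * g = a)
    (eb : 2 ^ ((M - 2) / 2 - 1) * g = b) (ec : 2 ^ ((M - 1) / 2 - 1) * g = c) (h5 : a + b = 2.9)
    (h6 : b = a ∨ b = 2 * a) (h7 : c = 2 * a) : (PG μ g).OK M := by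
  have hm : (0 : ℝ) ≤ (M - 11) * (μ + 0.6) :=
    mul_nonneg (sub_nonneg.mpr (by exact_mod_cast hM)) (by linarith)
  refine ⟨by omega, ?_, ?_, ?_, ?_, ?_, ?_⟩ <;>
    simp only [Par.Ord, Five, Pth, Sml, Big, Cor, G, ps, pd, sz, sg, u, k0, dbl, p6, y, dl, NF, N0,
      PG, ea, eb, ec]
  · refine ⟨?_, ?_, ?_, ?_, ?_, ?_, ?_, ?_, ?_, ?_, ?_, ?_, ?_, ?_, ?_, ?_, ?_, ?_, ?_⟩ <;> linarith
  · refine ⟨?_, ?_, ?_, ?_, ?_, ?_, ?_, ?_, ?_, ?_⟩ <;> linarith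
  · refine ⟨?_, ?_, ?_, ?_, ?_, ?_, ?_, ?_, ?_⟩ <;> linarith
  · refine ⟨?_, ?_, ?_, ?_, ?_, ?_, ?_, ?_, ?_, ?_, ?_, ?_, ?_, ?_, ?_, ?_⟩ <;> linarith
  · refine ⟨h3, by linarith, by linarith, ?_, ?_⟩ <;> rcases h6 with h6 | h6 <;>
      simp only [min_def] <;> split_ifs <;> linarith
  · refine ⟨?_, ?_, ?_, ?_, ?_, ?_, ?_, ?_, ?_, ?_, ?_, ?_, ?_, ?_,
      Or.inr ⟨by omega, ?_, ?_, ?_⟩, Or.inr ⟨hM, ?_, ?_⟩⟩ <;>
    first
    | linarith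
    | (rcases h6 with h6 | h6 <;> simp only [min_def] <;> split_ifs <;> linarith)

theorem ell_eq : ∀ D, ell (D + 2) = 2 ^ (D / 2) + 2 ^ ((D + 1) / 2)
  | 0 => rfl
  | 1 => rfl
  | D + 2 => by
    rw [ell, ell_eq D, show (D + 2) / 2 = D / 2 + 1 by omega,
      show (D + 2 + 1) / 2 = (D + 1) / 2 + 1 by omega]
    ring

def LB (k : ℕ) (c : ℝ) : Prop := ∃ C : ℝ, ∀ n : ℕ, 1 ≤ n → c * n - C ≤ h n k

theorem LB_of {M : ℕ} (hM : 1 ≤ M) {μ : ℝ} (H : ∀ (n : ℕ) (s : St (Fin n)), s.M = M →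
    (3 - μ) * Fintype.card (Fin n) - 11 * 5 ^ s.M ≤ ∑ v, (s.d v : ℝ)) :
    LB (M + 1) ((3 - μ) / 2) := by
  refine ⟨11 * 5 ^ M / 2, fun n hn => ?_⟩
  obtain ⟨G, hG, e⟩ := Nat.sInf_mem (s := {m | ∃ G : SimpleGraph (Fin n), Sat G (M + 1) ∧
    G.edgeSet.ncard = m}) (let ⟨G, hG⟩ := exists_sat n (M + 1) (by omega); ⟨_, G, hG, rfl⟩)
  have : Nonempty (Fin n) := ⟨⟨0, hn⟩⟩
  obtain ⟨s, hs⟩ := exists_st (Ctx.ofSat hG)
  have h1 : s.M = M := by rw [hs]; rfl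
  have h2 := H n s h1
  have h3 : ∑ v, (s.d v : ℝ) = 2 * h n (M + 1) := by
    have : ∀ v, s.d v = dg G v := fun v => by unfold Ctx.d; rw [hs]; rfl
    simp only [this]
    unfold h; rw [← e]; exact_mod_cast U.handshake G
  rw [h3, h1, Fintype.card_fin] at h2
  linarith

theorem LB_par {M : ℕ} {P : Par} (H : P.OK M) : LB (M + 1) ((3 - P.μ) / 2) :=
  LB_of (by have := H.hM; omega) fun _ s e => St.lb_main (e ▸ H)

theorem mono_of {k : ℕ} {a b : ℝ} (h1 : UB k a) (h2 : LB (k + 1) b) (hab : a < b) :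
    ∃ n0, ∀ n ≥ n0, h n k ≤ h n (k + 1) := by
  obtain ⟨C, h1⟩ := h1
  obtain ⟨D, h2⟩ := h2
  obtain ⟨N, hN⟩ := exists_nat_ge ((C + D) / (b - a))
  refine ⟨N + 1, fun n hn => ?_⟩
  have h3 := h1 n
  have h4 := h2 n (by omega)
  have h5 : (N : ℝ) ≤ n := by exact_mod_cast (by omega : N ≤ n)
  rw [div_le_iff₀ (sub_pos.mpr hab)] at hN
  have := mul_le_mul_of_nonneg_right h5 (sub_pos.mpr hab).le
  exact_mod_cast (by linarith : (h n k : ℝ) ≤ h n (k + 1))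

theorem mono_big (j : ℕ) : ∃ n0, ∀ n ≥ n0, h n (j + 11) ≤ h n (j + 11 + 1) := by
  have hu := ub_tree (j + 10) (by omega)
  rw [show j + 10 - 2 = j + 6 + 2 by omega] at hu
  have e := ell_eq (j + 6)
  have hx : 8 ≤ 2 ^ ((j + 6) / 2) :=
    le_trans (by norm_num) (Nat.pow_le_pow_right (by norm_num) (show 3 ≤ (j + 6) / 2 by omega))
  have hy : 8 ≤ 2 ^ ((j + 6 + 1) / 2) :=
    le_trans (by norm_num) (Nat.pow_le_pow_right (by norm_num) (show 3 ≤ (j + 6 + 1) / 2 by omega))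
  have hl : (16 : ℝ) ≤ ell (j + 6 + 2) := by exact_mod_cast (by omega : 16 ≤ ell (j + 6 + 2))
  have er : (ell (j + 6 + 2) : ℝ) = 2 ^ ((j + 6) / 2) + 2 ^ ((j + 6 + 1) / 2) := by exact_mod_cast e
  generalize (ell (j + 6 + 2) : ℝ) = l at hu hl er
  obtain ⟨g, hg⟩ : ∃ g : ℝ, l * g = 2.9 := ⟨2.9 / l, by field_simp⟩
  have g0 : 0 ≤ g := by by_contra hc; nlinarith
  have g1 : g ≤ 0.182 := by nlinarith
  obtain ⟨μ, hμ⟩ : ∃ μ : ℝ, 8.2 * μ = 0.6 + g := ⟨(0.6 + g) / 8.2, by field_simp⟩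
  have H := okG (M := j + 11) (μ := μ) (g := g) (by omega) (by linarith)
    g0 hμ rfl rfl rfl (by
      rw [show (j + 11 - 3) / 2 - 1 = (j + 6) / 2 by omega,
        show (j + 11 - 2) / 2 - 1 = (j + 6 + 1) / 2 by omega, ← add_mul, ← er, hg]) (by
      rcases Nat.mod_two_eq_zero_or_one j with h | h
      · left; rw [show (j + 11 - 2) / 2 - 1 = (j + 11 - 3) / 2 - 1 by omega]
      · right; rw [show (j + 11 - 2) / 2 - 1 = (j + 11 - 3) / 2 - 1 + 1 by omega, pow_succ]; ring)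
    (by rw [show (j + 11 - 1) / 2 - 1 = (j + 11 - 3) / 2 - 1 + 1 by omega, pow_succ]; ring)
  refine mono_of hu (LB_par H) ?_
  rw [div_lt_iff₀ (by linarith)]
  simp only [PG]
  have : 8.2 * (μ * l) = 0.6 * l + 2.9 := by linear_combination l * hμ + hg
  linarith

theorem mono (k : ℕ) (hk : 2 ≤ k) : ∃ n0, ∀ n ≥ n0, h n k ≤ h n (k + 1) := by
  match k, hk with
  | 2, _ => exact ⟨0, fun n _ => by rw [h_two]; exact Nat.zero_le _⟩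
  | 3, _ => exact mono_of ub3 (LB_of (by norm_num) fun _ s e => St.lb3 e) (by norm_num)
  | 4, _ =>
    exact mono_of ub4 (LB_of (μ := 0.9) (by norm_num) fun _ s e =>
      St.lb_small e.ge (by norm_num) (Or.inl (by norm_num))) (by norm_num)
  | 5, _ =>
    exact mono_of ub5 (LB_of (μ := 0.6) (by norm_num) fun _ s e =>
      St.lb_small (by omega) (by norm_num) (Or.inr (Or.inl ⟨e.ge, by norm_num⟩))) (by norm_num)
  | 6, _ =>
    exact mono_of ub6 (LB_of (μ := 0.4) (by norm_num) fun _ s e =>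
      St.lb_small (by omega) (by norm_num) (Or.inr (Or.inr ⟨e.ge, by norm_num⟩))) (by norm_num)
  | 7, _ => exact mono_of ub7 (LB_par ok7) (by norm_num [P7])
  | 8, _ => exact mono_of ub8 (LB_par ok8) (by norm_num [P8])
  | 9, _ => exact mono_of (ub_tree 8 le_rfl) (LB_par ok9) (by norm_num [P9, ell])
  | 10, _ => exact mono_of (ub_tree 9 (by norm_num)) (LB_par ok10) (by norm_num [PG, ell])
  | j + 11, _ => exact mono_big j

end Pool.Agent.Lib.MP_c0533c_co
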