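import Pool.Agent.Lib.MP_c0533c_co.Xl

namespace Pool.Agent.Lib.MP_c0533c_co
open Classical Finset

variable {V : Type}

theorem sum_le_c {S : Finset V} {f : V → ℝ} {B : ℝ} (h : ∀ y ∈ S, f y ≤ B) :
    ∑ y ∈ S, f y ≤ S.card * B := by simpa using sum_le_card_nsmul S f B h
theorem sum_ge_c {S : Finset V} {f : V → ℝ} {B : ℝ} (h : ∀ y ∈ S, B ≤ f y) :
    S.card * B ≤ ∑ y ∈ S, f y := by simpa using card_nsmul_le_sum S f B h
theorem sum_le_1 {S : Finset V} {f : V → ℝ} {B : ℝ} {a : V} (ha : a ∈ S) (h : ∀ y ∈ S, f y ≤ B) :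
    ∑ y ∈ S, f y ≤ f a + (S.card - 1) * B := by
  rw [← add_sum_erase S f ha]
  have := sum_le_c (S := S.erase a) (fun y hy => h y (mem_of_mem_erase hy))
  rw [card_erase_of_mem ha, Nat.cast_sub (card_pos.mpr ⟨a, ha⟩)] at this
  simpa using this
theorem sum_ge_1 {S : Finset V} {f : V → ℝ} {B : ℝ} {a : V} (ha : a ∈ S) (h : ∀ y ∈ S, B ≤ f y) :
    f a + (S.card - 1) * B ≤ ∑ y ∈ S, f y := by
  have := sum_le_1 (f := fun y => - f y) (B := -B) ha (fun y hy => neg_le_neg (h y hy))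
  rw [sum_neg_distrib] at this; linarith
theorem sum_le_2 {S : Finset V} {f : V → ℝ} {B : ℝ} {a b : V} (ha : a ∈ S) (hb : b ∈ S)
    (hne : a ≠ b) (h : ∀ y ∈ S, f y ≤ B) : ∑ y ∈ S, f y ≤ f a + f b + (S.card - 2) * B := by
  rw [← add_sum_erase S f ha]
  have := sum_le_1 (S := S.erase a) (mem_erase.mpr ⟨hne.symm, hb⟩)
    (fun y hy => h y (mem_of_mem_erase hy))
  rw [card_erase_of_mem ha, Nat.cast_sub (card_pos.mpr ⟨a, ha⟩)] at this
  push_cast at this; linarith
theorem sum_ge_2 {S : Finset V} {f : V → ℝ} {B : ℝ} {a b : V} (ha : a ∈ S) (hb : b ∈ S)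
    (hne : a ≠ b) (h : ∀ y ∈ S, B ≤ f y) : f a + f b + (S.card - 2) * B ≤ ∑ y ∈ S, f y := by
  have := sum_le_2 (f := fun y => - f y) (B := -B) ha hb hne (fun y hy => neg_le_neg (h y hy))
  rw [sum_neg_distrib] at this; linarith

variable [Fintype V]
namespace St
open Ctx
variable (s : St V)

/-- payment of `a` to a lower neighbour `b` -/
noncomputable def F (pay : V → V → ℝ) (a b : V) : ℝ :=
  if s.R a then (if s.d b ≤ 1 then 2 else 1) else pay a b

noncomputable def inn (pay : V → V → ℝ) (v : V) : ℝ := ∑ y ∈ s.Up v, s.F pay y v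
noncomputable def out (pay : V → V → ℝ) (v : V) : ℝ := ∑ y ∈ s.Lo v, s.F pay v y
noncomputable def net (μ : ℝ) (pay sf : V → V → ℝ) (v : V) : ℝ :=
  s.d v - 3 + μ + s.inn pay v - s.out pay v + ∑ y ∈ s.Sd v, (sf y v - sf v y)

variable {s} {μ : ℝ} {pay sf : V → V → ℝ}

theorem F_R {a b : V} (h : s.R a) : 1 ≤ s.F pay a b := by
  unfold F; rw [if_pos h]; split_ifs <;> norm_num
theorem F_nR {a b : V} (h : ¬ s.R a) : s.F pay a b = pay a b := if_neg h
theorem F_ge {a b : V} {B : ℝ} (h1 : B ≤ 1) (h : ¬ s.R a → B ≤ pay a b) : B ≤ s.F pay a b := by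
  by_cases hR : s.R a
  · exact h1.trans (F_R hR)
  · rw [F_nR hR]; exact h hR
theorem out_nR {v : V} (h : ¬ s.R v) : s.out pay v = ∑ y ∈ s.Lo v, pay v y :=
  sum_congr rfl fun _ _ => F_nR h

theorem sum_net : ∑ v, s.net μ pay sf v = ∑ v, (s.d v : ℝ) - (3 - μ) * Fintype.card V := by
  obtain ⟨T, hT⟩ : ∃ T : V → V → ℝ, T = fun a b => if s.d b < s.d a then s.F pay a b else
    if s.d a = s.d b then sf a b else 0 := ⟨_, rfl⟩
  have h := flow_sum (c := s.toCtx) T
  have e : ∀ v, s.net μ pay sf v = (s.d v - (3 - μ)) +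
      ∑ y ∈ univ.filter (fun y => s.G.Adj v y), (T y v - T v y) := by
    intro v
    rw [sum_nb]
    have e1 : ∑ y ∈ s.Up v, (T y v - T v y) = s.inn pay v := sum_congr rfl fun y hy => by
      have := (mem_Up.mp hy).2; simp [hT, this, this.ne, this.not_gt]
    have e2 : ∑ y ∈ s.Sd v, (T y v - T v y) = ∑ y ∈ s.Sd v, (sf y v - sf v y) :=
      sum_congr rfl fun y hy => by have := (mem_Sd.mp hy).2; simp [hT, this]
    have e3 : ∑ y ∈ s.Lo v, (T y v - T v y) = - s.out pay v := by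
      unfold out; rw [← sum_neg_distrib]
      exact sum_congr rfl fun y hy => by
        have := (mem_Lo.mp hy).2; simp [hT, this, this.ne, this.not_gt]
    rw [e1, e2, e3]; unfold net; ring
  simp only [e]
  rw [sum_add_distrib, h, sum_sub_distrib]
  simp only [sum_const, card_univ, nsmul_eq_mul]
  ring

theorem rich_net (hM : 3 ≤ s.M) (hμ : 0 ≤ μ)
    (hs : ∀ v, s.R v → 0 ≤ ∑ y ∈ s.Sd v, (sf y v - sf v y)) :
    - (11 * 5 ^ s.M : ℝ) ≤ ∑ v ∈ univ.filter s.R, s.net μ pay sf v := by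
  have inn0 : ∀ v, s.R v → s.inn pay v = 0 := by
    intro v hv
    unfold inn
    rw [card_eq_zero.mp (loc_iff.mp (R_loc hv)), sum_empty]
  have h5 : (1 : ℝ) ≤ 5 ^ s.M := one_le_pow₀ (by norm_num)
  by_cases h4 : s.d s.w ≤ 4
  · have h1 := sum_ge_c (S := univ.filter s.R) (f := s.net μ pay sf) (B := -11) (by
      intro v hv
      have hv : s.R v := by simpa using hv
      have a : s.out pay v ≤ s.nl v * 2 := sum_le_c fun y _ => by
        unfold F; rw [if_pos hv]; split_ifs <;> norm_num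
      have b : (s.nl v : ℝ) ≤ 4 := by
        have := cnt (c := s.toCtx) v; have := s.wmax v
        exact_mod_cast (by omega : s.nl v ≤ 4)
      have := hs v hv
      have : (0 : ℝ) ≤ s.d v := Nat.cast_nonneg _
      unfold net; rw [inn0 v hv]; linarith)
    have h2 : ((univ.filter s.R).card : ℝ) ≤ 5 ^ s.M := by exact_mod_cast s.small h4
    linarith
  · have e : univ.filter s.R = {s.w} := by
      ext v; simp only [mem_filter, mem_univ, true_and, mem_singleton]
      exact ⟨s.big (by omega) v, fun h => h ▸ s.Rw⟩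
    rw [e, sum_singleton]
    have a : s.out pay s.w ≤ s.nl s.w + 1 := by
      have b : ∀ y, 2 ≤ s.d y → s.F pay s.w y ≤ 1 := fun y hy => by
        unfold F; rw [if_pos s.Rw, if_neg (by omega)]
      by_cases h : ∃ x ∈ s.Lo s.w, s.d x ≤ 1
      · obtain ⟨x, hx, dx⟩ := h
        unfold out
        rw [← add_sum_erase _ _ hx]
        have := sum_le_c (S := (s.Lo s.w).erase x) (f := s.F pay s.w) (B := 1) (fun y hy => b y (by
          by_contra hc
          exact (mem_erase.mp hy).1 (one_leaf hM s.wmax (by omega)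
            (mem_Lo.mp (mem_of_mem_erase hy)).1 (mem_Lo.mp hx).1 (by omega) dx)))
        rw [card_erase_of_mem hx, Nat.cast_sub (card_pos.mpr ⟨x, hx⟩)] at this
        have : s.F pay s.w x = 2 := by unfold F; rw [if_pos s.Rw, if_pos dx]
        unfold nl; push_cast at *; linarith
      · push Not at h
        have := sum_le_c (S := s.Lo s.w) (f := s.F pay s.w) (B := 1) (fun y hy => b y (h y hy))
        unfold out nl; linarith
    have b : (s.nl s.w : ℝ) ≤ s.d s.w := by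
      have := cnt (c := s.toCtx) s.w
      exact_mod_cast (by omega : s.nl s.w ≤ s.d s.w)
    have := hs _ s.Rw
    unfold net; rw [inn0 _ s.Rw]; linarith

theorem lb_of (hM : 3 ≤ s.M) (hμ : 0 ≤ μ)
    (hs : ∀ v, s.R v → 0 ≤ ∑ y ∈ s.Sd v, (sf y v - sf v y))
    (h : 0 ≤ ∑ v ∈ univ.filter (fun v => ¬ s.R v), s.net μ pay sf v) :
    (3 - μ) * Fintype.card V - 11 * 5 ^ s.M ≤ ∑ v, (s.d v : ℝ) := by
  have h1 := rich_net (pay := pay) hM hμ hs
  have h2 := sum_net (s := s) (μ := μ) (pay := pay) (sf := sf)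
  rw [← sum_filter_add_sum_filter_not univ s.R] at h2
  linarith

theorem net_eq {v : V} (hs : ∀ y, s.SA v y → sf y v = sf v y) :
    s.net μ pay sf v = s.d v - 3 + μ + s.inn pay v - s.out pay v := by
  unfold net
  rw [sum_eq_zero fun y hy => sub_eq_zero.mpr (hs y (mem_Sd.mp hy)), add_zero]

theorem out_zero {v : V} (h : s.nl v = 0) : s.out pay v = 0 := by
  unfold out; rw [card_eq_zero.mp h, sum_empty]

theorem leaf_net (hM : 4 ≤ s.M) (hμ : 0 ≤ μ) {v : V} (h1 : s.d v ≤ 1) (hR : ¬ s.R v) :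
    0 ≤ s.net μ pay sf v := by
  obtain ⟨p, hp⟩ := leaf_up (by omega) h1 hR
  have := cnt (c := s.toCtx) v
  have := nu_pos hp
  have h2 : s.Sd v = ∅ := card_eq_zero.mp (show s.ns v = 0 by omega)
  have h3 : s.inn pay v = 2 := by
    unfold inn
    obtain ⟨a, ha⟩ := card_eq_one.mp (show s.nu v = 1 by omega)
    rw [ha] at hp ⊢
    obtain rfl := mem_singleton.mp hp
    rw [sum_singleton]; unfold F
    rw [if_pos (leaf_R hM h1 (ha ▸ hp)), if_pos h1]
  unfold net
  rw [h2, h3, out_zero (by omega), show s.d v = 1 by omega]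
  simp; linarith

theorem nl_x (hM : 4 ≤ s.M) {x : V} (h2 : s.d x = 2) (hR : ¬ s.R x) : s.nl x = 0 := by
  by_contra h
  obtain ⟨y, hy⟩ := exists_lo (c := s.toCtx) (v := x) (by omega)
  exact hR (leaf_R hM (by have := (mem_Lo.mp hy).2; omega) (up_lo.mpr hy))

theorem lb3 (hM : s.M = 3) :
    (3 - 5 / 3) * Fintype.card V - 11 * 5 ^ s.M ≤ ∑ v, (s.d v : ℝ) := by
  refine lb_of (pay := fun _ _ => 1 / 3) (sf := fun _ _ => 0) hM.ge (by norm_num) (by simp)
    (sum_nonneg fun v hv => ?_)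
  have hv : ¬ s.R v := by simpa using hv
  rw [net_eq fun _ _ => rfl]
  have a : (s.nu v : ℝ) * (1 / 3) ≤ s.inn (fun _ _ => 1 / 3) v :=
    sum_ge_c fun y _ => F_ge (by norm_num) fun _ => le_rfl
  have b : s.out (fun _ _ => 1 / 3) v ≤ s.nl v * (1 / 3) := sum_le_c fun y _ => (F_nR hv).le
  have c : (s.nu v : ℝ) + s.ns v + s.nl v = s.d v := by exact_mod_cast cnt (c := s.toCtx) v
  have : (0 : ℝ) ≤ s.ns v := Nat.cast_nonneg _
  have : (0 : ℝ) ≤ s.nu v := Nat.cast_nonneg _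
  by_cases h : s.d v ≤ 1
  · obtain ⟨p, hp⟩ := leaf_up hM.ge h hv
    have : (1 : ℝ) ≤ s.nu v := by exact_mod_cast nu_pos hp
    have : (0 : ℝ) ≤ s.nl v := Nat.cast_nonneg _
    linarith
  · have : (2 : ℝ) ≤ s.d v := by exact_mod_cast (by omega : 2 ≤ s.d v)
    linarith

theorem th2_nu' {x : V} (h2 : s.d x = 2) (h : s.th2 x) : s.nu x ≤ 1 := by
  obtain ⟨y, a, b⟩ := h
  have := nonup_one a (by omega)
  have := cnt (c := s.toCtx) x
  omega

theorem nth2_nu {x : V} (h2 : s.d x = 2) (h : ¬ s.th2 x) : s.nu x = 2 := by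
  have := cnt (c := s.toCtx) x
  by_contra hc
  by_cases h1 : 1 ≤ s.ns x
  · obtain ⟨y, hy⟩ := exists_sd h1
    exact h ⟨y, hy.1, by have := hy.2; omega⟩
  · obtain ⟨y, hy⟩ := exists_lo (c := s.toCtx) (v := x) (by omega)
    exact h ⟨y, (mem_Lo.mp hy).1, by have := (mem_Lo.mp hy).2; omega⟩

theorem lb_small (hM : 4 ≤ s.M) (h1 : μ ≤ 1) (h2 : 3 / 4 ≤ μ ∨ (5 ≤ s.M ∧ 7 / 13 ≤ μ) ∨
    (6 ≤ s.M ∧ 1 / 3 ≤ μ)) :
    (3 - μ) * Fintype.card V - 11 * 5 ^ s.M ≤ ∑ v, (s.d v : ℝ) := by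
  have h3 : 1 / 3 ≤ μ := by rcases h2 with h | h | h <;> linarith [h]
  set pay : V → V → ℝ := fun a b =>
    if 4 ≤ s.d a then (1 + μ) / 4 else if s.th2 b then 1 - μ else (1 - μ) / 2 with hpay
  refine lb_of (pay := pay) (sf := fun _ _ => 0) (by omega) (by linarith) (by simp)
    (sum_nonneg fun v hv => ?_)
  have hv : ¬ s.R v := by simpa using hv
  by_cases d1 : s.d v ≤ 1
  · exact leaf_net hM (by linarith) d1 hv
  rw [net_eq fun _ _ => rfl]
  have p0 : ∀ a b, (1 - μ) / 2 ≤ s.F pay a b := fun a b => F_ge (by linarith) fun _ => by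
    simp only [hpay]; split_ifs <;> linarith
  have c := cnt (c := s.toCtx) v
  by_cases d2 : s.d v = 2
  · rw [out_zero (nl_x hM d2 hv), d2]
    by_cases h : s.th2 v
    · obtain ⟨t, ht⟩ := exists_up (c := s.toCtx) (v := v) (by
        by_contra h; exact hv (no_loc2 hM d2 (loc_iff.mpr (by omega))))
      have a := single_le_sum (f := fun y => s.F pay y v) (fun y _ => le_trans (by linarith) (p0 y v)) ht
      have : 1 - μ ≤ s.F pay t v := F_ge (by linarith) fun hR => by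
        have := (single (th2_nu' d2 h) ht hR).1
        simp only [hpay]; rw [if_neg (by omega), if_pos h]
      unfold inn; push_cast; linarith
    · have a : (s.nu v : ℝ) * _ ≤ s.inn pay v := sum_ge_c fun y _ => p0 y v
      rw [nth2_nu d2 h] at a
      push_cast at *; linarith
  by_cases d3 : s.d v = 3
  · have a : (s.nu v : ℝ) * ((1 + μ) / 4) ≤ s.inn pay v := sum_ge_c fun y hy =>
      F_ge (by linarith) fun _ => by
        have := (mem_Up.mp hy).2
        simp only [hpay]; rw [if_pos (by omega)]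
    have b : s.out pay v ≤ s.nl v * (1 - μ) := sum_le_c fun y _ => by
      rw [F_nR hv]; simp only [hpay]; rw [if_neg (by omega)]; split_ifs <;> linarith
    have b' : ¬ s.hasT2 v → s.out pay v ≤ s.nl v * ((1 - μ) / 2) := fun h => sum_le_c fun y hy => by
      rw [F_nR hv]; simp only [hpay]; rw [if_neg (by omega), if_neg fun h' => h ⟨y, hy, h'⟩]
    rw [d3]
    have t1 : 5 ≤ s.M → s.nu v = 0 → 2 ≤ s.ns v := fun h h' => tau01 h d3 (loc_iff.mpr h') hv
    have t2 : 6 ≤ s.M → s.nu v = 0 → s.ns v = 3 := fun h h' => claim1 h d3 (loc_iff.mpr h') hv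
    have t3 : 5 ≤ s.M → s.ns v = 0 → ¬ s.hasT2 v := fun h h' h'' => by
      have := t2_side h d3 hv h''; omega
    rw [d3] at c
    have e : (s.nu v = 0 ∧ s.nl v = 3) ∨ (s.nu v = 0 ∧ s.nl v = 2) ∨ (s.nu v = 0 ∧ s.nl v = 1) ∨
        s.nl v = 0 ∨ (s.nu v = 1 ∧ s.nl v = 2) ∨ (s.nu v = 1 ∧ s.nl v = 1) ∨
        (s.nu v = 2 ∧ s.nl v = 1) := by omega
    have : (0 : ℝ) ≤ s.nu v * ((1 + μ) / 4) := by positivity
    rcases h2 with h | ⟨hm, h⟩ | ⟨hm, h⟩ <;>
      rcases e with ⟨e1, e2⟩ | ⟨e1, e2⟩ | ⟨e1, e2⟩ | e2 | ⟨e1, e2⟩ | ⟨e1, e2⟩ | ⟨e1, e2⟩ <;>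
      first
      | (have := t1 (by omega) e1; omega)
      | (rw [e2] at b; push_cast at *; linarith)
      | (rw [e2] at b; rw [e1] at a; push_cast at *; linarith)
      | (have b := b' (t3 (by omega) (by omega)); rw [e2] at b; rw [e1] at a; push_cast at *; linarith)
  · have a : (0 : ℝ) ≤ s.inn pay v := sum_nonneg fun y _ => le_trans (by linarith) (p0 y v)
    have b : s.out pay v ≤ s.nl v * ((1 + μ) / 4) := sum_le_c fun y _ => by
      rw [F_nR hv]; simp only [hpay]; rw [if_pos (by omega)]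
    have : (s.nl v : ℝ) ≤ s.d v := by exact_mod_cast (by omega : s.nl v ≤ s.d v)
    have : (4 : ℝ) ≤ s.d v := by exact_mod_cast (by omega : 4 ≤ s.d v)
    nlinarith

end St

end Pool.Agent.Lib.MP_c0533c_co
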