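import Pool.Agent.Lib.MP_c0533c_co.Pay

namespace Pool.Agent.Lib.MP_c0533c_co
open Classical Finset

variable {V : Type}

theorem list_sum_ge (F : V → ℝ) (k : ℝ) (B : ℕ → ℝ) (l : List V) : ∀ A : ℕ → ℝ,
    (∀ l1 p l2, l = l1 ++ p :: l2 → k - A l1.length - B l2.length ≤ F p) →
    l.length * k - ∑ i ∈ range l.length, A i - ∑ i ∈ range l.length, B i ≤ (l.map F).sum := by
  induction l with
  | nil => simp
  | cons p l ih =>
    intro A h
    have h1 := ih (fun i => A (i + 1)) (fun l1 q l2 e => by simpa using h (p :: l1) q l2 (by simp [e]))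
    have h2 := h [] p l rfl
    simp only [List.length_cons, List.map_cons, List.sum_cons, List.length_nil] at *
    rw [sum_range_succ' A, sum_range_succ B]
    push_cast; linarith

noncomputable def Par.loss (P : Par) (j : ℕ) : ℝ :=
  if j ≤ 1 then P.s - P.r1 else if j = 2 then P.s - P.r else if j = 3 then P.s - P.semi else 0

theorem Par.loss_nonneg {P : Par} (h : P.Ord) (j : ℕ) : 0 ≤ P.loss j := by
  obtain ⟨o1, o2, o3, o4, o5, o6, o7, o8, o9, o10, o11, o12, -⟩ := h
  unfold Par.loss; split_ifs <;> linarith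

theorem Par.loss_four {P : Par} {j : ℕ} (h : 4 ≤ j) : P.loss j = 0 := by
  unfold Par.loss; rw [if_neg (by omega), if_neg (by omega), if_neg (by omega)]

theorem Par.loss_sum {P : Par} (h : P.Ord) (D n : ℕ) :
    ∑ i ∈ range n, P.loss (D + 2 + i) ≤ P.loss (D + 2) + P.loss (D + 3) := by
  refine (sum_le_sum_of_subset_of_nonneg (range_subset_range.mpr (by omega : n ≤ n + 1 + 1))
    fun _ _ _ => Par.loss_nonneg h _).trans ?_
  rw [sum_range_succ', sum_range_succ', sum_eq_zero fun i _ => Par.loss_four (by omega)]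
  rw [zero_add, add_comm]

variable [Fintype V]

theorem Ctx.sum_cmp {c : Ctx V} (f : V → ℝ) (S : Finset V) :
    (∀ v ∈ S, ∀ y, c.SA v y → y ∈ S) →
    (∀ v ∈ S, 0 ≤ ∑ y ∈ univ.filter (c.Cmp v), f y) → 0 ≤ ∑ v ∈ S, f v := by
  induction S using Finset.strongInduction with
  | H S ih =>
    intro cl h
    rcases S.eq_empty_or_nonempty with rfl | ⟨v, hv⟩
    · simp
    have hs : univ.filter (c.Cmp v) ⊆ S := fun y hy =>
      Ctx.Cmp.ind (S := fun y => y ∈ S) cl (by simpa using hy) hv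
    rw [← sum_sdiff hs]
    refine add_nonneg (ih _ (sdiff_ssubset hs ⟨v, by simpa using Ctx.Cmp.refl v⟩) ?_
      fun y hy => h y (mem_sdiff.mp hy).1) (h v hv)
    intro z hz y hy
    simp only [mem_sdiff, mem_filter, mem_univ, true_and] at hz ⊢
    exact ⟨cl z hz.1 y hy, fun h => hz.2 (h.step hy.symm)⟩

theorem Ctx.cmp_eq {c : Ctx V} {v : V} {S : Finset V} (hv : v ∈ S)
    (cl : ∀ y ∈ S, ∀ z, c.SA y z → z ∈ S) (h : ∀ y ∈ S, c.Cmp v y) : univ.filter (c.Cmp v) = S := by
  ext y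
  simp only [mem_filter, mem_univ, true_and]
  exact ⟨fun hy => Ctx.Cmp.ind (S := fun y => y ∈ S) cl hy hv, h y⟩

theorem Ctx.cmp_congr {c : Ctx V} {v p : V} (h : c.Cmp v p) :
    univ.filter (c.Cmp v) = univ.filter (c.Cmp p) := by
  ext y
  simp only [mem_filter, mem_univ, true_and]
  exact ⟨h.symm.trans, h.trans⟩

namespace St
open Ctx
variable {s : St V} {P : Par}

theorem prA_ge (h : P.Ord) (hM : 3 ≤ s.M) {x : V} {j1 j2 : ℕ}
    (H : ∀ k, s.Av x k → k + j1 ≤ s.M ∨ k + j2 ≤ s.M) :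
    P.s - P.loss j1 - P.loss j2 ≤ s.prA P x := by
  have a1 := P.loss_nonneg h j1
  have a2 := P.loss_nonneg h j2
  obtain ⟨o1, o2, o3, o4, o5, o6, o7, o8, o9, o10, o11, o12, -⟩ := h
  have b1 : ∀ j, j ≤ 1 → P.s - P.r1 ≤ P.loss j := fun j hj => by unfold Par.loss; rw [if_pos hj]
  have b2 : ∀ j, j ≤ 2 → P.s - P.r ≤ P.loss j := fun j hj => by
    unfold Par.loss; split_ifs <;> first | linarith | omega
  have b3 : ∀ j, j ≤ 3 → P.s - P.semi ≤ P.loss j := fun j hj => by
    unfold Par.loss; split_ifs <;> first | linarith | omega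
  unfold prA
  split_ifs with h1 h2 h3
  · rcases H _ h1 with h | h
    · linarith [b1 j1 (by omega)]
    · linarith [b1 j2 (by omega)]
  · rcases H _ h2 with h | h
    · linarith [b2 j1 (by omega)]
    · linarith [b2 j2 (by omega)]
  · rcases H _ h3 with h | h
    · linarith [b3 j1 (by omega)]
    · linarith [b3 j2 (by omega)]
  · linarith

theorem prA_bd (h : P.Ord) (x : V) : P.r1 ≤ s.prA P x ∧ s.prA P x ≤ P.s := by
  obtain ⟨o1, o2, o3, o4, o5, o6, o7, o8, o9, o10, o11, o12, -⟩ := h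
  unfold prA; split_ifs <;> constructor <;> linarith

theorem nin_single {v t : V} (h1 : s.nu v = 1) (ht : t ∈ s.Up v) :
    s.nin P v = s.F (s.pay P) t v := by
  obtain ⟨a, ha⟩ := card_eq_one.mp h1
  unfold nin inn
  rw [ha] at ht ⊢
  rw [sum_singleton, mem_singleton.mp ht]

theorem nin_one {v : V} {B : ℝ} (h3 : s.d v = 3) (h1 : s.nu v = 1) (hB : B ≤ 1)
    (h : ∀ t ∈ s.Up v, ¬ s.R t → B ≤ s.price P t v) : B ≤ s.nin P v := by
  obtain ⟨t, ht⟩ := exists_up h1.ge
  rw [nin_single h1 ht]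
  refine F_ge hB fun hR => ?_
  rw [pay4 (by have := (single h1.le ht hR).1; omega)]
  exact h t ht hR

theorem nin_multi (H : P.OK s.M) {v : V} {B : ℝ} (h3 : s.d v = 3) (hB : B ≤ P.u)
    (h : ∀ t, B ≤ s.price P t v) : s.nu v * B ≤ s.nin P v := by
  obtain ⟨e1, e2, e3, e4, e5, e6, -⟩ := P.eqs
  obtain ⟨o1, o2, o3, -⟩ := H.ord
  refine sum_ge_c fun t ht => F_ge (by linarith) fun _ => ?_
  have := (mem_Up.mp ht).2
  by_cases h5 : 5 ≤ s.d t
  · rw [pay5 h5]; exact hB.trans (rate_u H.five H.ord t)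
  · rw [pay4 (by omega)]; exact h t

theorem nout3 {v : V} {B : ℝ} (h3 : s.d v = 3) (hR : ¬ s.R v) (h : ∀ x ∈ s.Lo v, s.p3 P v x ≤ B) :
    s.nout P v ≤ s.nl v * B := sum_le_c fun x hx => by rw [F_nR hR, pay3 h3.le]; exact h x hx

theorem nt3_sing (H : P.OK s.M) {v : V} (h3 : s.d v = 3) (h1 : s.nu v = 1) (h2 : s.nl v ≤ 1)
    (hT : ¬ s.hasT2 v) : P.μ + s.prA P v - s.nl v * P.pd ≤ s.nt P v := by
  obtain ⟨e1, e2, e3, e4, -⟩ := P.eqs
  obtain ⟨o1, o2, o3, -⟩ := H.ord
  have := prA_bd (s := s) H.ord v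
  have a := nin_one (P := P) h3 h1 (by linarith : s.prA P v ≤ 1) fun t _ _ => by
    unfold price; rw [if_neg (by omega), if_pos h1, if_neg (by omega), if_neg hT]
  obtain ⟨t, ht⟩ := exists_up h1.ge
  have b := nout3 (P := P) (B := P.pd) h3 (nR_of_up ht) fun x hx => by
    unfold p3; rw [if_neg fun h => hT ⟨x, hx, h⟩, if_neg fun h => by have := h.2.2; omega]
  rw [nt_eq (by omega), h3]; push_cast; linarith

theorem nt3_I (H : P.OK s.M) {v : V} (h3 : s.d v = 3) (hR : ¬ s.R v) (hT : s.hasT2 v) :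
    2 * P.μ - 1 + P.rI ≤ s.nt P v := by
  obtain ⟨e1, e2, e3, e4, -⟩ := P.eqs
  obtain ⟨o1, o2, o3, o4, o5, o6, o7, o8, o9, o10, o11, o12, -⟩ := H.ord
  obtain ⟨h1, -, h2⟩ := t2_cnt (by have := H.hM; omega) h3 hR hT
  have a := nin_one (P := P) h3 h1 (by linarith : P.rI ≤ 1) fun t _ _ => by
    unfold price; rw [if_neg (by omega), if_pos h1, if_neg (by omega), if_pos hT]
  have b := nout3 (P := P) (B := 1 - P.μ) h3 hR fun x hx => by
    unfold p3; rw [if_neg (c := s.thin v) fun h => by have := h.2.2; omega]; split_ifs <;> linarith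
  rw [h2] at b
  rw [nt_eq (by omega), h3]; push_cast at *; linarith

theorem nt3_C (H : P.OK s.M) {v : V} (h3 : s.d v = 3) (h1 : s.nu v = 2) (h2 : s.nl v = 0) :
    P.μ - 2 * P.R ≤ s.nt P v ∧ (¬ s.Av v (s.M - 2) → P.μ ≤ s.nt P v) := by
  obtain ⟨e1, e2, e3, e4, e5, e6, -⟩ := P.eqs
  obtain ⟨o1, o2, o3, o4, o5, o6, o7, o8, o9, o10, o11, o12, o13, o14, -⟩ := H.ord
  have e : ∀ t, s.price P t v = if s.Av v (s.M - 2) then - P.R else 0 := fun t => by
    unfold price; rw [if_neg (by omega), if_neg (by omega), if_pos h1, if_neg (by omega)]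
  rw [nt_eq (by omega), h3]; unfold nout; rw [out_zero h2]
  constructor
  · have a := nin_multi H h3 (by linarith : - P.R ≤ P.u) fun t => by rw [e]; split_ifs <;> linarith
    rw [h1] at a; push_cast at *; linarith
  · intro h
    have a := nin_multi H h3 (by linarith : 0 ≤ P.u) fun t => by rw [e, if_neg h]
    push_cast at *; linarith

theorem nt3_pt (H : P.OK s.M) {v : V} (h3 : s.d v = 3) (hR : ¬ s.R v) (hs : s.ns v ≠ 1) :
    0 ≤ s.nt P v := by
  have hM := H.hM
  obtain ⟨e1, e2, e3, e4, e5, e6, e7, e8, -⟩ := P.eqs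
  obtain ⟨o1, o2, o3, o4, o5, o6, o7, o8, -⟩ := H.ord
  have c := cnt (c := s.toCtx) v
  have hT : ¬ s.hasT2 v := fun h => hs (t2_cnt (by omega) h3 hR h).2.1
  have c1 : s.nu v = 0 → s.ns v = 3 := fun h => claim1 (by omega) h3 (loc_iff.mpr h) hR
  have e : (s.nu v = 1 ∧ s.nl v = 0) ∨ (s.nu v = 1 ∧ s.nl v = 2) ∨ (s.nu v = 2 ∧ s.nl v = 1) ∨
      (s.nu v ≠ 1 ∧ s.nu v ≠ 2 ∧ s.nl v = 0) := by omega
  rcases e with ⟨h1, h2⟩ | ⟨h1, h2⟩ | ⟨h1, h2⟩ | ⟨h1, h1', h2⟩
  · have := nt3_sing H h3 h1 (by omega) hT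
    have := prA_bd (s := s) H.ord v
    rw [h2] at *; push_cast at *; linarith
  · have tv : s.thin v := ⟨h3, h1, h2⟩
    have b := nout3 (P := P) (B := s.tp P v) h3 hR fun x hx => by
      unfold p3; rw [if_neg fun h => hT ⟨x, hx, h⟩, if_pos tv]
    obtain ⟨t, ht⟩ := exists_up h1.ge
    have uq : ∀ Q : V → Prop, (∃ y ∈ s.Up v, Q y) ↔ Q t := fun Q =>
      ⟨fun ⟨y, a, b⟩ => up_unique h1.le ht y (mem_Up.mp a).1 (mem_Up.mp a).2 ▸ b, fun h => ⟨t, ht, h⟩⟩
    have a : 2 * s.tp P v - P.μ ≤ s.nin P v := by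
      rw [nin_single h1 ht]
      unfold tp; simp only [uq]
      by_cases rt : s.R t
      · have := F_R (pay := s.pay P) (b := v) rt
        rw [if_pos (Or.inl rt)]; linarith
      · rw [F_nR rt, pay4 (by have := (single h1.le ht rt).1; omega)]
        unfold price
        rw [if_neg (c := s.d v ≤ 2) (by omega), if_pos h1, if_pos h2]
        by_cases a1 : s.deep t <;> by_cases a2 : s.loc t <;> simp [a1, a2, rt] <;> linarith
    rw [h2] at b
    rw [nt_eq (by omega), h3]; push_cast at *; linarith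
  · have a := nin_multi H h3 (by linarith : P.dbl ≤ P.u) fun t => by
      unfold price; rw [if_neg (by omega), if_neg (by omega), if_pos h1, if_pos h2]
    have b := nout3 (P := P) (B := P.pd) h3 hR fun x hx => by
      unfold p3; rw [if_neg fun h => hT ⟨x, hx, h⟩, if_neg fun h => by have := h.2.1; omega]
    rw [h1] at a; rw [h2] at b
    rw [nt_eq (by omega), h3]; push_cast at *; linarith
  · have a := nin_multi H h3 (by linarith : 0 ≤ P.u) fun t => by
      unfold price; rw [if_neg (by omega), if_neg h1, if_neg h1']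
    rw [nt_eq (by omega), h3]; unfold nout; rw [out_zero h2]; push_cast at *; linarith

theorem path_sum (H : P.OK s.M) {p q : V} {m : List V} (pc : s.PC p m q) (h3 : s.d p = 3)
    {w1 w2 D1 D2 : ℕ} (b1 : ∀ w, s.Pre p w → w ≤ w1) (b2 : ∀ w, s.Pre q w → w ≤ w2)
    (e1 : w1 + m.length + 3 + D1 = s.M) (e2 : w2 + m.length + 3 + D2 = s.M) :
    s.nt P p + s.nt P q + m.length * (P.μ + P.s) - (P.loss (D1 + 2) + P.loss (D1 + 3)) -
      (P.loss (D2 + 2) + P.loss (D2 + 3)) ≤ ∑ y ∈ univ.filter (s.Cmp p), s.nt P y := by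
  rw [cmp_eq (S := (p :: m ++ [q]).toFinset) (by simp)
    (fun y hy z hz => List.mem_toFinset.mpr (pc.closed y (List.mem_toFinset.mp hy) z hz))
    (fun y hy => Cmp.of_mem (r := m ++ [q]) pc.1 (List.mem_toFinset.mp hy)),
    List.sum_toFinset _ pc.1.1]
  have a := list_sum_ge (s.nt P) (P.μ + P.s) (fun i => P.loss (D1 + 2 + i)) m
    (fun i => P.loss (D2 + 2 + i)) (by
      rintro l1 x l2 rfl
      obtain ⟨c1, c2, c3⟩ := pc.2.2.2 x (by simp)
      have a1 := nt3_sing H ((LP.d_eq (l := l1 ++ x :: l2 ++ [q]) pc.1 x (by simp)).trans h3) c1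
        (by omega) (fun ⟨y, hy, _⟩ => by have := nl_pos hy; omega)
      have a2 := prA_ge (s := s) (x := x) (j1 := D2 + 2 + l1.length) (j2 := D1 + 2 + l2.length)
        H.ord (by omega) (by
          intro k hk
          simp only [List.length_append, List.length_cons] at e1 e2
          rcases pc.av (l1 := p :: l1) (l2 := l2 ++ [q]) (by simp) hk with ⟨w, h1, h2⟩ | ⟨w, h1, h2⟩
          · have := b1 w h1; simp at h2; omega
          · have := b2 w h1; simp at h2; omega)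
      rw [c3] at a1; push_cast at a1; linarith)
  have := P.loss_sum H.ord D1 m.length
  have := P.loss_sum H.ord D2 m.length
  simp only [List.cons_append, List.map_cons, List.map_append, List.sum_cons, List.sum_append,
    List.map_nil, List.sum_nil] at *
  linarith

theorem end_bd (H : P.OK s.M) {p q : V} {m : List V} (pc : s.PC p m q) (h3 : s.d p = 3)
    (hT : ¬ s.hasT2 p) {w2 D2 : ℕ} (b2 : ∀ w, s.Pre q w → w ≤ w2)
    (e2 : w2 + m.length + 3 + D2 = s.M) :
    (s.nu p = 1 → s.nl p = 1 → P.μ - P.pd + P.s - P.loss (D2 + 1) ≤ s.nt P p) ∧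
    (s.nu p = 2 → s.nl p = 0 → 2 ≤ D2 → P.μ ≤ s.nt P p) := by
  have hM := H.hM
  have key : ∀ k, s.Av p k → k + (D2 + 1) ≤ s.M ∨ k + (s.M - 3) ≤ s.M := by
    intro k hk
    rcases pc.av (l1 := []) (l2 := m ++ [q]) rfl hk with ⟨w, h1, h2⟩ | ⟨w, h1, h2⟩
    · have := (pre3 (by omega) h3 h1).1; simp at h2; omega
    · have := b2 w h1; simp at h2; omega
  constructor
  · intro h1 h2
    have a1 := nt3_sing H h3 h1 h2.le hT
    have a2 := prA_ge H.ord (by omega) key
    rw [P.loss_four (by omega : 4 ≤ s.M - 3)] at a2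
    rw [h2] at a1; push_cast at a1; linarith
  · intro h1 h2 h4
    exact (nt3_C H h3 h1 h2).2 fun h => by have := key _ h; omega

theorem pc_ns {p q : V} {m : List V} (pc : s.PC p m q) : s.ns p = 1 := by
  obtain ⟨u, hu⟩ := exists_hd m q
  have h2 : s.LP (p :: hd m q :: u) := by rw [← hu]; simpa using pc.1
  have := ns_pos h2.rel0; have := pc.2.1; omega

theorem pc_sum (H : P.OK s.M) {p q : V} {m : List V} (pc : s.PC p m q) (h3 : s.d p = 3)
    (hR : ¬ s.R p) : 0 ≤ ∑ y ∈ univ.filter (s.Cmp p), s.nt P y := by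
  have hM := H.hM
  obtain ⟨dq, qR, uq⟩ := pc_top (by omega) pc h3 hR
  obtain ⟨-, -, up⟩ := pc_top (by omega) pc.rev dq qR
  have pp := post_of_not_loc fun h : s.loc p => by have := loc_iff.mp h; omega
  have pq := post_of_not_loc fun h : s.loc q => by have := loc_iff.mp h; omega
  obtain ⟨g1, g2, g3, g4, g5, g6, g7, g8, g9⟩ := H.pth
  obtain ⟨o1, o2, -⟩ := H.ord
  have l1 : P.loss 1 = P.s - P.r1 := by simp [Par.loss]
  have l2 : P.loss 2 = P.s - P.r := by simp [Par.loss]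
  have l3 : P.loss 3 = P.s - P.semi := by simp [Par.loss]
  have l4 : ∀ j, P.loss (j + 4) = 0 := fun j => P.loss_four (by omega)
  have m0 : (0 : ℝ) ≤ m.length * (P.μ + P.s) := mul_nonneg (Nat.cast_nonneg _) (by linarith)
  have ml : ∀ j : ℕ, m.length + j = s.M → (m.length : ℝ) = s.M - j := fun j h => by
    rw [← h]; push_cast; ring
  by_cases hT : s.hasT2 p
  · obtain ⟨h1, h2⟩ := t2_pc (by omega) h3 hR hT pc
    have a := path_sum H pc h3 (D1 := 0) (D2 := 0) (fun w h => (pre3 (by omega) h3 h).1)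
      (fun w h => (pre3 (by omega) dq h).1) (by omega) (by omega)
    have := nt3_I H h3 hR hT
    have := nt3_I H dq qR h2
    rw [ml 5 h1, l2, l3] at a
    push_cast at a; linarith
  have hT' : ¬ s.hasT2 q := fun h => hT (t2_pc (by omega) dq qR h pc.rev).2
  have wb : ∀ v, s.d v = 3 → ¬ s.hasT2 v → s.nl v ≤ 1 → (∀ w, s.Pre v w → w ≤ s.nl v) ∧
      s.Pre v (s.nl v) := by
    intro v dv tv hv
    by_cases h : s.nl v = 0
    · exact ⟨fun w hw => by have := pre_nl hw h; omega, h ▸ pre_zero v⟩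
    · refine ⟨fun w hw => ?_, (by omega : 1 = s.nl v) ▸ pre_of_nl (by omega)⟩
      have := pre3 (by omega) dv hw
      have : w ≠ 2 := fun e => tv (this.2 e)
      omega
  have cp := cnt (c := s.toCtx) p
  have cq := cnt (c := s.toCtx) q
  have sp := pc_ns pc
  have sq := pc_ns pc.rev
  obtain ⟨p1, p2⟩ := wb p h3 hT (by omega)
  obtain ⟨q1, q2⟩ := wb q dq hT' (by omega)
  have m1 := pc.master p2 pq
  have m2 := pc.rev.master q2 pp
  rw [List.length_reverse] at m2
  obtain ⟨D1, e1⟩ := Nat.exists_eq_add_of_le (show s.nl p + m.length + 3 ≤ s.M by omega)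
  obtain ⟨D2, e2⟩ := Nat.exists_eq_add_of_le (show s.nl q + m.length + 3 ≤ s.M by omega)
  have a := path_sum H pc h3 p1 q1 e1.symm e2.symm
  obtain ⟨a1, a2⟩ := end_bd H pc h3 hT q1 e2.symm
  obtain ⟨b1, b2⟩ := end_bd H pc.rev dq hT' p1 (by rw [List.length_reverse]; exact e1.symm)
  refine le_trans ?_ a
  by_cases tp : s.nl p = 1 <;> by_cases tq : s.nl q = 1
  · have a1 := a1 (by omega) tp
    have b1 := b1 (by omega) tq
    obtain rfl : D2 = D1 := by omega
    match D2, e1, a1, b1 with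
    | 0, e, a1, b1 => rw [ml 4 (by omega)]; simp only [Nat.zero_add, l1, l2, l3] at *; push_cast; linarith
    | 1, e, a1, b1 => rw [ml 5 (by omega)]; simp only [Nat.reduceAdd, l2, l3, l4 0] at *; push_cast; linarith
    | 2, e, a1, b1 => rw [ml 6 (by omega)]; simp only [Nat.reduceAdd, l3, l4 0, l4 1] at *; push_cast; linarith
    | D + 3, e, a1, b1 => rw [l4 D] at a1 b1; rw [l4 (D + 1), l4 (D + 2)]; linarith
  · have a1 := a1 (by omega) tp
    have b2 := b2 (by omega) (by omega)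
    have b3 := (nt3_C H dq (by omega) (by omega)).1
    obtain rfl : D2 = D1 + 1 := by omega
    match D1, e1, a1, b2 with
    | 0, e, a1, _ => rw [ml 4 (by omega)]; simp only [Nat.reduceAdd, l2, l3, l4 0] at *; push_cast; linarith
    | 1, e, a1, _ => rw [ml 5 (by omega)]; simp only [Nat.reduceAdd, l3, l4 0, l4 1] at *; push_cast; linarith
    | D + 2, e, a1, b2 =>
      have := b2 (by omega)
      rw [l4 D] at a1; rw [l4 D, l4 (D + 1), l4 (D + 2)]; linarith
  · have b1 := b1 (by omega) tq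
    have a2 := a2 (by omega) (by omega)
    have a3 := (nt3_C H h3 (by omega) (by omega)).1
    obtain rfl : D1 = D2 + 1 := by omega
    match D2, e2, b1, a2 with
    | 0, e, a1, _ => rw [ml 4 (by omega)]; simp only [Nat.reduceAdd, l2, l3, l4 0] at *; push_cast; linarith
    | 1, e, a1, _ => rw [ml 5 (by omega)]; simp only [Nat.reduceAdd, l3, l4 0, l4 1] at *; push_cast; linarith
    | D + 2, e, a1, b2 =>
      have := b2 (by omega)
      rw [l4 D] at a1; rw [l4 D, l4 (D + 1), l4 (D + 2)]; linarith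
  · have a2 := a2 (by omega) (by omega)
    have b2 := b2 (by omega) (by omega)
    have a3 := (nt3_C H h3 (by omega) (by omega)).1
    have b3 := (nt3_C H dq (by omega) (by omega)).1
    obtain rfl : D2 = D1 := by omega
    match D2, e1, a2, b2 with
    | 0, e, _, _ => rw [ml 3 (by omega)]; simp only [Nat.zero_add, l2, l3] at *; push_cast; linarith
    | 1, e, _, _ => rw [ml 4 (by omega)]; simp only [Nat.reduceAdd, l3, l4 0] at *; push_cast; linarith
    | D + 2, e, a2, b2 =>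
      have := a2 (by omega); have := b2 (by omega)
      rw [l4 D, l4 (D + 1)]; linarith

theorem lev3 (H : P.OK s.M) : 0 ≤ ∑ v ∈ univ.filter (fun v => ¬ s.R v ∧ s.d v = 3), s.nt P v := by
  have cl : ∀ v, ¬ s.R v ∧ s.d v = 3 → ∀ y, s.SA v y → ¬ s.R y ∧ s.d y = 3 :=
    fun v hv y hy => ⟨nR_sa hv.1 hy (by omega), hy.2 ▸ hv.2⟩
  refine sum_cmp _ _ (by simpa using fun v a b => cl v ⟨a, b⟩) fun v hv => ?_
  have hv : ¬ s.R v ∧ s.d v = 3 := by simpa using hv
  by_cases h : ∃ p, s.Cmp v p ∧ s.ns p = 1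
  · obtain ⟨p, h1, h2⟩ := h
    obtain ⟨a, b⟩ := h1.ind cl hv
    obtain ⟨m, q, pc⟩ := exists_pc h2 a b
    rw [cmp_congr h1]
    exact pc_sum H pc b a
  · push Not at h
    refine sum_nonneg fun y hy => ?_
    have hy : s.Cmp v y := by simpa using hy
    obtain ⟨a, b⟩ := hy.ind cl hv
    exact nt3_pt H b a (h y hy)

end St

end Pool.Agent.Lib.MP_c0533c_co
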