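import Pool.Agent.Lib.MP_c0533c_co.Path

namespace Pool.Agent.Lib.MP_c0533c_co
open Classical

variable {V : Type}
namespace Ctx
variable (c : Ctx V)

def SA (a b : V) : Prop := c.G.Adj a b ∧ c.d a = c.d b
def LP (l : List V) : Prop := l.Nodup ∧ l.IsChain c.SA
def Pre (s : V) (n : ℕ) : Prop :=
  ∃ pre, c.DP (s :: pre) ∧ (∀ x ∈ pre, c.d x < c.d s) ∧ pre.length = n
def Post (e : V) (n : ℕ) : Prop :=
  ∃ post, c.DP (post ++ [e]) ∧ (∀ x ∈ post, c.d e < c.d x) ∧ post.length = n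
def MP (t : V) (r : List V) (n : ℕ) : Prop :=
  c.LP (t :: r) ∧ c.Pre (lst t r) n ∧ c.M ≤ 1 + r.length + n
/-- a monotone path with at least `n` vertices ends at `t` -/
def Av (t : V) (n : ℕ) : Prop := ∃ l, c.DP (t :: l) ∧ n ≤ l.length + 1
/-- a monotone path with at least `n` vertices starts at `t` -/
def Bv (t : V) (n : ℕ) : Prop := ∃ l, c.DP (l ++ [t]) ∧ n ≤ l.length + 1

variable {c}

theorem SA.symm {a b : V} (h : c.SA a b) : c.SA b a := ⟨h.1.symm, h.2.symm⟩
theorem SA.ne {a b : V} (h : c.SA a b) : a ≠ b := h.1.ne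

theorem Av.mono {t : V} {n m : ℕ} (h : c.Av t n) (hm : m ≤ n) : c.Av t m := by
  obtain ⟨l, h1, h2⟩ := h; exact ⟨l, h1, by omega⟩
theorem Bv.mono {t : V} {n m : ℕ} (h : c.Bv t n) (hm : m ≤ n) : c.Bv t m := by
  obtain ⟨l, h1, h2⟩ := h; exact ⟨l, h1, by omega⟩

namespace LP
theorem left {l1 l2 : List V} (h : c.LP (l1 ++ l2)) : c.LP l1 :=
  ⟨h.1.of_append_left, h.2.left_of_append⟩
theorem right {l1 l2 : List V} (h : c.LP (l1 ++ l2)) : c.LP l2 :=
  ⟨h.1.of_append_right, h.2.right_of_append⟩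
theorem tail {a : V} {l : List V} (h : c.LP (a :: l)) : c.LP l := right (l1 := [a]) h
theorem rel {l1 l2 : List V} {a b : V} (h : c.LP (l1 ++ a :: b :: l2)) : c.SA a b :=
  List.isChain_iff_forall_rel_of_append_cons_cons.mp h.2 rfl
theorem rel0 {l2 : List V} {a b : V} (h : c.LP (a :: b :: l2)) : c.SA a b := rel (l1 := []) h
theorem single (a : V) : c.LP [a] := ⟨List.nodup_singleton a, List.isChain_singleton a⟩
theorem cons {a b : V} {l : List V} (h : c.LP (b :: l)) (hA : c.SA a b) (hn : a ∉ b :: l) :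
    c.LP (a :: b :: l) :=
  ⟨List.nodup_cons.mpr ⟨hn, h.1⟩, List.isChain_cons_cons.mpr ⟨hA, h.2⟩⟩
theorem rev {l : List V} (h : c.LP l) : c.LP l.reverse :=
  ⟨List.nodup_reverse.mpr h.1, List.isChain_reverse.mpr (h.2.imp fun _ _ h => h.symm)⟩
theorem dp {l : List V} (h : c.LP l) : c.DP l :=
  ⟨h.1, h.2.imp fun _ _ h => ⟨h.1, h.2.ge⟩⟩
theorem glue {l1 l2 : List V} {x : V} (h1 : c.LP (l1 ++ [x])) (h2 : c.LP (x :: l2))
    (hd : ∀ y ∈ l1, y ∉ l2) : c.LP (l1 ++ x :: l2) :=
  ⟨(DW.glue h1.dp h2.dp hd).1, List.isChain_split.mpr ⟨h1.2, h2.2⟩⟩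
theorem d_eq {a : V} {l : List V} (h : c.LP (a :: l)) : ∀ x ∈ l, c.d x = c.d a := by
  induction l generalizing a with
  | nil => simp
  | cons b l ih =>
    intro x hx
    rcases List.mem_cons.mp hx with rfl | hx
    · exact h.rel0.2.symm
    · exact (ih h.tail x hx).trans h.rel0.2.symm
theorem d_eq' {a : V} {l : List V} (h : c.LP (a :: l)) : ∀ x ∈ a :: l, c.d x = c.d a := by
  intro x hx
  rcases List.mem_cons.mp hx with rfl | hx
  · rfl
  · exact h.d_eq x hx
theorem snoc {l : List V} {a b : V} (h : c.LP (l ++ [a])) (hA : c.SA a b) (hn : b ∉ l ++ [a]) :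
    c.LP (l ++ [a, b]) :=
  glue h (cons (single b) hA (by simpa using hA.ne)) (by
    intro y hy; simp only [List.mem_singleton]; rintro rfl; exact hn (by simp [hy]))
end LP

theorem pre_zero (s : V) : c.Pre s 0 := ⟨[], DW.single s, by simp, rfl⟩
theorem post_zero (s : V) : c.Post s 0 := ⟨[], DW.single s, by simp, rfl⟩
theorem pre_one {s x : V} (h : c.G.Adj s x) (hd : c.d x < c.d s) : c.Pre s 1 :=
  ⟨[x], (DW.single x).cons h hd.le (by simpa using h.ne), by simpa using hd, rfl⟩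
theorem post_one {e x : V} (h : c.G.Adj e x) (hd : c.d e < c.d x) : c.Post e 1 :=
  ⟨[x], (DW.single e).cons h.symm hd.le (by simpa using h.ne.symm), by simpa using hd, rfl⟩
theorem post_of_not_loc {e : V} (h : ¬ c.loc e) : c.Post e 1 := by
  unfold loc at h; push Not at h
  obtain ⟨z, h1, h2⟩ := h
  exact post_one h1 h2

theorem pre_of_av {s x : V} {n : ℕ} (h : c.G.Adj s x) (hd : c.d x < c.d s) (ha : c.Av x n) :
    ∃ m, n ≤ m ∧ c.Pre s m := by
  obtain ⟨l, h1, h2⟩ := ha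
  have hl : ∀ y ∈ x :: l, c.d y < c.d s := by
    intro y hy
    rcases List.mem_cons.mp hy with rfl | hy
    · exact hd
    · exact lt_of_le_of_lt (h1.le_head y hy) hd
  exact ⟨l.length + 1, h2, x :: l, h1.cons h hd.le (fun hs => lt_irrefl _ (hl s hs)), hl, rfl⟩

theorem Pre.cases {s : V} {n : ℕ} (h : c.Pre s n) :
    n = 0 ∨ ∃ x, c.G.Adj s x ∧ c.d x < c.d s ∧ c.Av x n := by
  obtain ⟨pre, h1, h2, rfl⟩ := h
  cases pre with
  | nil => exact Or.inl rfl
  | cons x l => exact Or.inr ⟨x, h1.rel0.1, h2 x (by simp), l, h1.tail, by simp⟩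

theorem join {e : V} {r : List V} {n m : ℕ} (h : c.LP (e :: r)) (h1 : c.Pre (lst e r) n)
    (h2 : c.Post e m) : ∃ post pre, c.DP (post ++ e :: r ++ pre) ∧ post.length = m ∧
      pre.length = n ∧ (∀ x ∈ post, c.d e < c.d x) ∧ ∀ x ∈ pre, c.d x < c.d e := by
  obtain ⟨pre, a1, a2, rfl⟩ := h1
  obtain ⟨post, b1, b2, rfl⟩ := h2
  have hd := h.d_eq' _ (lst_mem e r)
  obtain ⟨q, hq, -⟩ := exists_lst e r
  have hq' : ∀ y ∈ q, c.d y = c.d e := fun y hy => h.d_eq' y (by rw [hq]; simp [hy])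
  have s1 : c.DP (e :: r ++ pre) := by
    rw [hq, List.append_assoc]
    refine DW.glue (hq ▸ h.dp) a1 ?_
    intro y hy hy'
    have := a2 y hy'; have := hq' y hy; omega
  refine ⟨post, pre, ?_, rfl, rfl, b2, fun x hx => hd ▸ a2 x hx⟩
  have := DW.glue b1 (show c.DP (e :: (r ++ pre)) from s1) (by
    intro y hy hy'
    have := b2 y hy
    rcases List.mem_append.mp hy' with h' | h'
    · have := h.d_eq y h'; omega
    · have := a2 y h'; omega)
  simpa using this

theorem master {e : V} {r : List V} {n m : ℕ} (h : c.LP (e :: r)) (h1 : c.Pre (lst e r) n)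
    (h2 : c.Post e m) : m + 1 + r.length + n ≤ c.M := by
  obtain ⟨post, pre, a, rfl, rfl, -⟩ := join h h1 h2
  have := c.le _ a
  simp at this; omega

theorem av_of_lp {e : V} {r : List V} {n : ℕ} (h : c.LP (e :: r)) (h1 : c.Pre (lst e r) n) :
    c.Av e (1 + r.length + n) := by
  obtain ⟨post, pre, a, h3, rfl, -⟩ := join h h1 (post_zero e)
  obtain rfl := List.length_eq_zero_iff.mp h3
  exact ⟨r ++ pre, by simpa using a, by simp; omega⟩

theorem decomp {t : V} {l : List V} (h : c.DP (t :: l)) :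
    ∃ r pre, l = r ++ pre ∧ c.LP (t :: r) ∧ c.DP (lst t r :: pre) ∧ ∀ x ∈ pre, c.d x < c.d t := by
  induction l generalizing t with
  | nil => exact ⟨[], [], rfl, LP.single t, h, by simp⟩
  | cons b l ih =>
    by_cases hb : c.d b = c.d t
    · obtain ⟨r, pre, rfl, h1, h2, h3⟩ := ih h.tail
      refine ⟨b :: r, pre, rfl, h1.cons ⟨h.rel0.1, hb.symm⟩ ?_, h2, fun x hx => hb ▸ h3 x hx⟩
      have := h.not_mem_head
      intro h4; apply this
      rcases List.mem_cons.mp h4 with h4 | h4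
      · simp [h4]
      · simp [h4]
    · refine ⟨[], b :: l, rfl, LP.single t, h, ?_⟩
      intro x hx
      have h1 := h.rel0.2
      rcases List.mem_cons.mp hx with rfl | hx
      · omega
      · have := h.tail.le_head x hx; omega

theorem decomp' {t : V} {l : List V} (h : c.DP (t :: l)) :
    ∃ r n, c.LP (t :: r) ∧ c.Pre (lst t r) n ∧ l.length = r.length + n ∧ ∀ x ∈ r, x ∈ l := by
  obtain ⟨r, pre, rfl, h1, h2, h3⟩ := decomp h
  refine ⟨r, pre.length, h1, ⟨pre, h2, ?_, rfl⟩, by simp, by simp +contextual⟩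
  intro x hx
  rw [h1.d_eq' _ (lst_mem t r)]; exact h3 x hx

theorem Av.lp {t : V} {k : ℕ} (h : c.Av t k) :
    ∃ r n, c.LP (t :: r) ∧ c.Pre (lst t r) n ∧ k ≤ 1 + r.length + n := by
  obtain ⟨l, h1, h2⟩ := h
  obtain ⟨r, n, a, b, e, -⟩ := decomp' h1
  exact ⟨r, n, a, b, by omega⟩

theorem Av.mp {t : V} (h : c.Av t c.M) : ∃ r n, c.MP t r n := h.lp

theorem decompB {t : V} {l : List V} (h : c.DP (l ++ [t])) :
    ∃ r m, c.LP (t :: r) ∧ c.Post (lst t r) m ∧ l.length = r.length + m ∧ ∀ x ∈ r, x ∈ l := by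
  induction l using List.reverseRecOn generalizing t with
  | nil => exact ⟨[], 0, LP.single t, post_zero t, rfl, by simp⟩
  | append_singleton l b ih =>
    have hr : c.G.Adj b t ∧ c.d t ≤ c.d b := DW.rel (l1 := l) (l2 := []) (by simpa using h)
    by_cases hb : c.d b = c.d t
    · obtain ⟨r, m, h1, h2, h3, h4⟩ := ih h.left
      have hn := h.1
      refine ⟨b :: r, m, h1.cons ⟨hr.1.symm, hb.symm⟩ ?_, h2, by simp; omega, ?_⟩
      · grind
      · grind
    · refine ⟨[], l.length + 1, LP.single t, ⟨l ++ [b], h, ?_, by simp⟩, by simp, by simp⟩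
      intro x hx
      show c.d t < c.d x
      rcases List.mem_append.mp hx with hx | hx
      · have := h.left.last_le x hx; omega
      · simp at hx; subst hx; omega

theorem Bv.lp {t : V} {k : ℕ} (h : c.Bv t k) :
    ∃ r m, c.LP (t :: r) ∧ c.Post (lst t r) m ∧ k ≤ 1 + r.length + m := by
  obtain ⟨l, h1, h2⟩ := h
  obtain ⟨r, n, a, b, e, -⟩ := decompB h1
  exact ⟨r, n, a, b, by omega⟩

theorem rev_cons (t : V) (r : List V) :
    ∃ r', (t :: r).reverse = lst t r :: r' ∧ lst (lst t r) r' = t ∧ r'.length = r.length := by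
  obtain ⟨q, hq, hl⟩ := exists_lst t r
  refine ⟨q.reverse, by rw [hq]; simp, ?_, by simpa using hl⟩
  cases q with
  | nil =>
    cases r with
    | nil => rfl
    | cons a r => simp at hl
  | cons a q =>
    have : t = a := by simpa using congrArg List.head? hq
    subst this
    simp

theorem master' {t : V} {r : List V} {n m : ℕ} (h : c.LP (t :: r)) (h1 : c.Pre t n)
    (h2 : c.Post (lst t r) m) : m + 1 + r.length + n ≤ c.M := by
  obtain ⟨r', e1, e2, e3⟩ := rev_cons t r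
  have := master (e1 ▸ h.rev) (e2.symm ▸ h1) h2
  omega

theorem bv_of_lp {t : V} {r : List V} {m : ℕ} (h : c.LP (t :: r)) (h2 : c.Post (lst t r) m) :
    c.Bv t (1 + r.length + m) := by
  obtain ⟨r', e1, e2, e3⟩ := rev_cons t r
  obtain ⟨post, pre, a, rfl, h3, -⟩ := join (e1 ▸ h.rev) (e2.symm ▸ pre_zero t) h2
  obtain rfl := List.length_eq_zero_iff.mp h3
  rw [List.append_nil, ← e1] at a
  exact ⟨post ++ r.reverse, by simpa using a, by simp; omega⟩

theorem pairMP {u y : V} (hu : c.loc u) (hy : c.loc y) (hne : u ≠ y) (hn : ¬ c.G.Adj u y) :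
    (∃ r n, c.MP u r n ∧ y ∉ r) ∨ (∃ r n, c.MP y r n ∧ u ∉ r) := by
  rcases pair hu hy hne hn with ⟨l, h1, h2, h3⟩ | ⟨l, h1, h2, h3⟩
  · obtain ⟨r, n, a, b, e, f⟩ := decomp' h1
    exact Or.inl ⟨r, n, ⟨a, b, by omega⟩, fun h => h2 (f _ h)⟩
  · obtain ⟨r, n, a, b, e, f⟩ := decomp' h1
    exact Or.inr ⟨r, n, ⟨a, b, by omega⟩, fun h => h2 (f _ h)⟩

namespace MP
variable {t : V} {r : List V} {n : ℕ}

theorem loc (h : c.MP t r n) : c.loc t := by
  by_contra hc
  have := master h.1 h.2.1 (post_of_not_loc hc)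
  have := h.2.2; omega

theorem mem (h : c.MP t r n) {y : V} (hy : c.SA t y) : y ∈ r := by
  by_contra hc
  have h1 : c.LP (y :: t :: r) := h.1.cons hy.symm (by
    simp only [List.mem_cons, not_or]; exact ⟨hy.ne.symm, hc⟩)
  have := master h1 h.2.1 (post_zero y)
  have := h.2.2; simp at *; omega

theorem posa {r1 r2 : List V} {p y : V} (h : c.MP t (r1 ++ p :: y :: r2) n) (hy : c.SA t y) :
    c.MP p (r1.reverse ++ t :: y :: r2) n := by
  have hn := h.1.1
  refine ⟨?_, by simpa using h.2.1, by have := h.2.2; simp at *; omega⟩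
  have h1 : c.LP ((t :: r1 ++ [p]) ++ y :: r2) := by simpa using h.1
  have h2 : c.LP ((p :: r1.reverse) ++ [t]) := by simpa using h1.left.rev
  have h3 : c.LP (t :: y :: r2) := h1.right.cons hy (by grind)
  exact h2.glue h3 (by grind)

theorem posa_loc {r1 r2 : List V} {p y : V} (h : c.MP t (r1 ++ p :: y :: r2) n) (hy : c.SA t y) :
    c.loc p := (h.posa hy).loc

end MP

theorem split_mem {y : V} {r : List V} (h : y ∈ r) :
    (∃ r2, r = y :: r2) ∨ ∃ r1 p r2, r = r1 ++ p :: y :: r2 := by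
  obtain ⟨r1, r2, rfl⟩ := List.append_of_mem h
  rcases List.eq_nil_or_concat r1 with rfl | ⟨q, p, rfl⟩
  · exact Or.inl ⟨r2, rfl⟩
  · exact Or.inr ⟨q, p, r2, by simp⟩

/-- a sub-path between two members of a level path -/
theorem LP.between {l : List V} (h : c.LP l) {p q : V} (hp : p ∈ l) (hq : q ∈ l) (hne : p ≠ q) :
    ∃ m, c.LP (p :: m ++ [q]) ∧ ∀ x ∈ m, x ∈ l := by
  obtain ⟨l1, l2, rfl⟩ := List.append_of_mem hp
  rcases List.mem_append.mp hq with h1 | h1
  · obtain ⟨a, b, rfl⟩ := List.append_of_mem h1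
    have h2 : c.LP (a ++ ((q :: b ++ [p]) ++ l2)) := by simpa using h
    refine ⟨b.reverse, by simpa using h2.right.left.rev, by simp +contextual⟩
  · rcases List.mem_cons.mp h1 with h1 | h1
    · exact absurd h1.symm hne
    obtain ⟨a, b, rfl⟩ := List.append_of_mem h1
    have h2 : c.LP (l1 ++ ((p :: a ++ [q]) ++ b)) := by simpa using h
    exact ⟨a, h2.right.left, by simp +contextual⟩

theorem confine {S Q : V → Prop} (cl : ∀ y, S y → ∀ z, c.SA y z → Q z → S z) {p : V} {r : List V}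
    (h : c.LP (p :: r)) (hp : S p) (hQ : ∀ z ∈ r, Q z) : ∀ z ∈ r, S z := by
  induction r generalizing p with
  | nil => simp
  | cons b r ih =>
    have hb := cl p hp b h.rel0 (hQ b (by simp))
    intro z hz
    rcases List.mem_cons.mp hz with rfl | hz
    · exact hb
    · exact ih h.tail hb (fun z hz => hQ z (by simp [hz])) z hz

end Ctx

end Pool.Agent.Lib.MP_c0533c_co
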