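import Pool.Agent.Lib.MP_c0533c_co.Tau

namespace Pool.Agent.Lib.MP_c0533c_co
open Classical Finset

variable {V : Type} [Fintype V]
namespace Ctx
variable {c : Ctx V}

omit [Fintype V] in
theorem pre_bv {t : V} {n k : ℕ} (h1 : c.Pre t n) (h2 : c.Bv t k) : n + k ≤ c.M := by
  obtain ⟨r, m, a, b, e⟩ := h2.lp
  have := master' a h1 b; omega

omit [Fintype V] in
theorem av_post {t : V} {n k : ℕ} (h1 : c.Av t n) (h2 : c.Post t k) : n + k ≤ c.M := by
  obtain ⟨r, m, a, b, e⟩ := h1.lp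
  have := master a b h2; omega

omit [Fintype V] in
theorem low_bv {t v : V} {n k : ℕ} (h : c.G.Adj t v) (hd : c.d v < c.d t) (h1 : c.Av v n)
    (h2 : c.Bv t k) : n + k ≤ c.M := by
  obtain ⟨m, a, b⟩ := pre_of_av h hd h1
  have := pre_bv b h2; omega

omit [Fintype V] in
theorem av_one (t : V) : c.Av t 1 := ⟨[], DW.single t, by simp⟩
omit [Fintype V] in
theorem bv_one (t : V) : c.Bv t 1 := ⟨[], DW.single t, by simp⟩

theorem nonup_two {p a b : V} (ha : c.G.Adj p a) (hb : c.G.Adj p b) (hne : a ≠ b)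
    (da : c.d a ≤ c.d p) (db : c.d b ≤ c.d p) : 2 ≤ c.ns p + c.nl p := by
  rcases adj_cases ha with h | h | h
  · have := (mem_Up.mp h).2; omega
  all_goals rcases adj_cases hb with h' | h' | h'
  · have := (mem_Up.mp h').2; omega
  · have := ns_two h h' hne; omega
  · have := ns_pos h; have := nl_pos h'; omega
  · have := (mem_Up.mp h').2; omega
  · have := nl_pos h; have := ns_pos h'; omega
  · have := nl_two h h' hne; omega

theorem nonup_one {p a : V} (ha : c.G.Adj p a) (da : c.d a ≤ c.d p) : 1 ≤ c.ns p + c.nl p := by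
  rcases adj_cases ha with h | h | h
  · have := (mem_Up.mp h).2; omega
  · have := ns_pos h; omega
  · have := nl_pos h; omega

theorem av_leaf {x e : V} {n : ℕ} (hx : x ∈ c.Lo e) (h1 : c.d x ≤ 1) (h : c.Av x n) : n ≤ 1 := by
  obtain ⟨l, a, b⟩ := h
  cases l with
  | nil => simpa using b
  | cons y l =>
    obtain rfl := leaf_nbr h1 (mem_Lo.mp hx).1.symm a.rel0.1
    have := a.rel0.2; have := (mem_Lo.mp hx).2; omega

/-- a neighbour of degree at most two -/
def th2 (c : Ctx V) (x : V) : Prop := ∃ y, c.G.Adj x y ∧ c.d y ≤ 2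
def hasT2 (c : Ctx V) (v : V) : Prop := ∃ x ∈ c.Lo v, c.th2 x

omit [Fintype V] in
theorem av_nth2 {x : V} {n : ℕ} (h2 : c.d x ≤ 2) (h1 : ¬ c.th2 x) (h : c.Av x n) : n ≤ 1 := by
  obtain ⟨l, a, b⟩ := h
  cases l with
  | nil => simpa using b
  | cons y l => exact absurd ⟨y, a.rel0.1, a.rel0.2.trans h2⟩ h1

theorem th2_nu {x v : V} (hx : x ∈ c.Lo v) (h3 : c.d v = 3) (h : c.th2 x) :
    c.nu x ≤ 1 ∧ c.d x = 2 ∧ c.Pre v 2 := by
  obtain ⟨y, a, b⟩ := h
  obtain ⟨e1, e2⟩ := mem_Lo.mp hx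
  have hyv : y ≠ v := by rintro rfl; omega
  have h2 : c.d x = 2 := by
    by_contra h
    exact hyv (leaf_nbr (by omega) e1.symm a)
  have := nonup_one a (by omega)
  have := cnt (c := c) x
  refine ⟨by omega, h2, [x, y], ((DW.single y).cons a (by omega) (by simpa using a.ne)).cons e1
    e2.le (by simpa using ⟨e1.ne, hyv.symm⟩), by simp; omega, rfl⟩

theorem half_closed {p x : V} {m : List V} (h : c.LP (p :: m ++ [x])) (hp : c.ns p ≤ 1)
    (hm : ∀ y ∈ m, c.ns y ≤ 2) : ∀ y ∈ p :: m, ∀ z, c.SA y z → z ∈ p :: m ++ [x] := by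
  intro y hy z hz
  rcases List.mem_cons.mp hy with rfl | hy
  · obtain ⟨q, hq⟩ := exists_hd m x
    have h2 : c.LP (y :: hd m x :: q) := by rw [← hq]; simpa using h
    rw [(s1_of hp h2.rel0).2 z hz]
    exact List.mem_cons_of_mem _ (hd_mem m x)
  · obtain ⟨a, b, h1, h2, h3, h4, h5⟩ := mid_nbrs h hy
    rcases (s2_of (hm y hy) h4 h5 h3).2.2.2 z hz with rfl | rfl <;> assumption

theorem mid_ns {p q y : V} {m : List V} (h : c.LP (p :: m ++ [q])) (hy : y ∈ m) : 2 ≤ c.ns y := by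
  obtain ⟨a, b, -, -, h3, h4, h5⟩ := mid_nbrs h hy
  exact ns_two h4 h5 h3

omit [Fintype V] in
theorem exists_maxLP (p : V) : ∃ r, c.LP (p :: r) ∧ ∀ z, c.SA (lst p r) z → z ∈ p :: r := by
  have key : ∀ k r, c.LP (p :: r) → c.M ≤ r.length + k →
      ∃ r, c.LP (p :: r) ∧ ∀ z, c.SA (lst p r) z → z ∈ p :: r := by
    intro k
    induction k with
    | zero => intro r h h'; have := c.le _ h.dp; simp at this; omega
    | succ k ih =>
      intro r h h'
      by_cases hc : ∀ z, c.SA (lst p r) z → z ∈ p :: r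
      · exact ⟨r, h, hc⟩
      push Not at hc
      obtain ⟨y, hs, hy⟩ := hc
      obtain ⟨q, hq, -⟩ := exists_lst p r
      have h2 := LP.snoc (hq ▸ h) hs (hq ▸ hy)
      have e : q ++ [lst p r, y] = p :: (r ++ [y]) := by
        rw [← List.cons_append, hq]; simp
      exact ih (r ++ [y]) (e ▸ h2) (by simp; omega)
  exact key c.M [] (LP.single p) (by simp)

/-- a path component without lower neighbours inside -/
def PC (c : Ctx V) (p : V) (m : List V) (q : V) : Prop :=
  c.LP (p :: m ++ [q]) ∧ c.ns p ≤ 1 ∧ c.ns q ≤ 1 ∧ ∀ x ∈ m, c.nu x = 1 ∧ c.ns x = 2 ∧ c.nl x = 0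

theorem PC.rev {p q : V} {m : List V} (h : c.PC p m q) : c.PC q m.reverse p :=
  ⟨by simpa using h.1.rev, h.2.2.1, h.2.1, fun x hx => h.2.2.2 x (List.mem_reverse.mp hx)⟩

theorem PC.left {p q x z : V} {m l1 l2 r : List V} {n : ℕ} (h : c.PC p m q)
    (e : p :: m ++ [q] = l1 ++ x :: l2) (hr : c.LP (x :: z :: r)) (hp : c.Pre (lst z r) n)
    (hz : z ∈ l1) : r.length + 1 ≤ l1.length ∧ (n = 0 ∨ lst z r = p) := by
  obtain ⟨a, m', rfl⟩ := List.exists_cons_of_ne_nil (List.ne_nil_of_mem hz)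
  simp only [List.cons_append, List.cons.injEq] at e
  obtain ⟨rfl, e⟩ := e
  have hn := h.1.1
  have hm : ∀ y ∈ m', y ∈ m := by
    intro y hy
    rcases List.eq_nil_or_concat l2 with rfl | ⟨l3, u, rfl⟩
    · rw [(List.append_inj' e rfl).1]; exact hy
    · have : m ++ [q] = (m' ++ x :: l3) ++ [u] := by simpa using e
      rw [(List.append_inj' this rfl).1]; simp [hy]
  have h1 : c.LP ((p :: m' ++ [x]) ++ l2) := by simpa [← e] using h.1
  have hc := half_closed h1.left h.2.1 (fun y hy => (h.2.2.2 y (hm y hy)).2.1.le)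
  have hn' := hr.1
  have h2 := confine (S := fun y => y ∈ p :: m') (Q := fun y => y ≠ x)
    (fun y hy z a b => by have := hc y hy z a; grind) hr.tail hz (by grind)
  have h3 : ∀ y ∈ z :: r, y ∈ p :: m' := by grind
  refine ⟨by simpa using (hr.tail.1.subperm h3).length_le, ?_⟩
  rcases List.mem_cons.mp (h3 _ (lst_mem z r)) with e | e
  · exact Or.inr e
  · exact Or.inl (pre_nl hp (h.2.2.2 _ (hm _ e)).2.2)

theorem PC.closed {p q : V} {m : List V} (h : c.PC p m q) :
    ∀ y ∈ p :: m ++ [q], ∀ z, c.SA y z → z ∈ p :: m ++ [q] := by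
  intro y hy z hz
  have h1 := half_closed h.1 h.2.1 (fun y hy => (h.2.2.2 y hy).2.1.le) y
  have h2 := half_closed h.rev.1 h.rev.2.1 (fun y hy => (h.rev.2.2.2 y hy).2.1.le) y
  grind

theorem PC.lp {p q x z : V} {m l1 l2 r : List V} {n : ℕ} (h : c.PC p m q)
    (e : p :: m ++ [q] = l1 ++ x :: l2) (hr : c.LP (x :: z :: r)) (hp : c.Pre (lst z r) n) :
    (r.length + 1 ≤ l1.length ∧ (n = 0 ∨ lst z r = p)) ∨
      (r.length + 1 ≤ l2.length ∧ (n = 0 ∨ lst z r = q)) := by
  have h1 := h.closed x (by rw [e]; simp) z hr.rel0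
  rw [e] at h1
  have := hr.rel0.ne
  by_cases hz : z ∈ l1
  · exact Or.inl (h.left e hr hp hz)
  · have e' : q :: m.reverse ++ [p] = l2.reverse ++ x :: l1.reverse := by
      simpa using congrArg List.reverse e
    exact Or.inr (by simpa using h.rev.left e' hr hp (by grind))

theorem PC.av {p q x : V} {m l1 l2 : List V} {k : ℕ} (h : c.PC p m q)
    (e : p :: m ++ [q] = l1 ++ x :: l2) (ha : c.Av x k) :
    (∃ w, c.Pre p w ∧ k ≤ w + l1.length + 1) ∨ ∃ w, c.Pre q w ∧ k ≤ w + l2.length + 1 := by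
  obtain ⟨r, n, a, b, hk⟩ := ha.lp
  cases r with
  | nil =>
    have hx : x ∈ p :: m ++ [q] := by rw [e]; simp
    simp only [List.cons_append, List.mem_cons, List.mem_append, List.not_mem_nil, or_false] at hx
    simp only [lst_nil, List.length_nil] at b hk
    rcases hx with rfl | hx | rfl
    · exact Or.inl ⟨n, b, by omega⟩
    · have := pre_nl b (h.2.2.2 x hx).2.2
      exact Or.inl ⟨0, pre_zero p, by omega⟩
    · exact Or.inr ⟨n, b, by omega⟩
  | cons z r =>
    simp only [lst_cons, List.length_cons] at b hk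
    rcases h.lp e a b with ⟨h1, h2 | h2⟩ | ⟨h1, h2 | h2⟩
    · exact Or.inl ⟨0, pre_zero p, by omega⟩
    · exact Or.inl ⟨n, h2 ▸ b, by omega⟩
    · exact Or.inr ⟨0, pre_zero q, by omega⟩
    · exact Or.inr ⟨n, h2 ▸ b, by omega⟩

theorem PC.avoid {p q z : V} {m r : List V} {n : ℕ} (h : c.PC p m q) (hr : c.LP (p :: z :: r))
    (hp : c.Pre (lst z r) n) (hq : q ∉ z :: r) : r.length + 1 ≤ m.length ∧ n = 0 := by
  have h1 := confine (S := fun y => y ∈ p :: m ++ [q]) (Q := fun _ => True)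
    (fun y hy z a _ => h.closed y hy z a) hr (by simp) (by simp)
  have hn := hr.1
  have h2 : ∀ y ∈ z :: r, y ∈ m := by grind
  exact ⟨by simpa using (hr.tail.1.subperm h2).length_le,
    pre_nl hp (h.2.2.2 _ (h2 _ (lst_mem z r))).2.2⟩

theorem PC.master {p q : V} {m : List V} {w k : ℕ} (h : c.PC p m q) (h1 : c.Pre p w)
    (h2 : c.Post q k) : k + m.length + 2 + w ≤ c.M := by
  have := master' (t := p) (r := m ++ [q]) h.1 h1 (by simpa using h2)
  simp at this; omega

end Ctx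

namespace St
open Ctx
variable {s : St V}

theorem no_loc2 (hM : 4 ≤ s.M) {u : V} (h2 : s.d u = 2) (hu : s.loc u) : s.R u := by
  have key : ∀ u, s.d u = 2 → 2 ≤ s.ns u → s.R u := by
    intro u h2 hs
    by_contra hR
    have := cnt (c := s.toCtx) u
    obtain ⟨r, n, hm⟩ := mp (loc_iff.mpr (by omega)) (by omega) hR
    obtain ⟨a, b, h⟩ := exists_s2 (c := s.toCtx) (v := u) (by omega)
    obtain ⟨-, ka, kb⟩ := hm.core h.1 h.2.1 h.2.2.1
    have := cnt (c := s.toCtx) a; have := cnt (c := s.toCtx) b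
    have := ka.ns; have := kb.ns; have := h.1.2; have := h.2.1.2
    by_cases hab : s.G.Adj a b
    · have sab : s.SA a b := ⟨hab, by omega⟩
      have a2 := s2_of (by omega) h.1.symm sab h.2.1.ne
      have b2 := s2_of (by omega) h.2.1.symm sab.symm h.1.ne
      obtain ⟨c1, c2⟩ := closed_len hm.1 [a, b] (by
        have := h.2.2.2; have := a2.2.2.2; have := b2.2.2.2; grind)
      have := c2 _ (lst_mem_of_ne (e := u) (List.ne_nil_of_mem (hm.mem h.1)))
      have := pre_nl hm.2.1 (by grind)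
      have := hm.2.2
      simp at c1; omega
    · exact both_loc h ka (loc_iff.mpr (by omega)) (loc_iff.mpr (by omega)) hab
  by_contra hR
  obtain ⟨r, n, hm⟩ := mp hu (by omega) hR
  have hn : n ≤ 1 := by
    rcases hm.2.1.cases with h | ⟨x, a, b, e⟩
    · omega
    · have := hm.1.d_eq' _ (lst_mem u r)
      exact av_leaf (mem_Lo.mpr ⟨a, b⟩) (by omega) e
  have := hm.2.2
  match r, hm with
  | [], _ => simp at this; omega
  | [_], _ => simp at this; omega
  | a :: b :: r, hm =>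
    have h3 := hm.1.rel0
    have hn := hm.1.1
    exact nR_sa hR h3 (by omega) (key a (h3.2 ▸ h2) (ns_two h3.symm hm.1.tail.rel0 (by grind)))

theorem leaf_up (hM : 3 ≤ s.M) {x : V} (h1 : s.d x ≤ 1) (hR : ¬ s.R x) : ∃ p, p ∈ s.Up x := by
  by_contra hc
  have : s.nu x = 0 := by
    by_contra h; exact hc (exists_up (by omega))
  obtain ⟨l, a, b⟩ := s.av x (loc_iff.mpr this) (by omega) hR
  match l, a with
  | [], _ => simp at b; omega
  | [_], _ => simp at b; omega
  | y :: z :: l, a =>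
    have hn := a.1
    have := leaf_nbr (a.rel0.2.trans h1) a.rel0.1.symm a.tail.rel0.1
    grind

theorem leaf_R (hM : 4 ≤ s.M) {x p : V} (h1 : s.d x ≤ 1) (hp : p ∈ s.Up x) : s.R p := by
  by_contra hR
  have := cnt (c := s.toCtx) x
  have := d_pos (mem_Up.mp hp).1
  obtain ⟨a, l, b1, b2, b3⟩ := single (by omega) hp hR
  cases l with
  | nil => simp at b3; omega
  | cons q l =>
    have := nonup_two (mem_Up.mp hp).1.symm b1.rel0.1 (by grind) (by omega) b1.rel0.2
    have := cnt (c := s.toCtx) p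
    exact hR (no_loc2 hM (by omega) (loc_iff.mpr (by omega)))

theorem av_two (hM : 4 ≤ s.M) {x v : V} {n : ℕ} (hx : x ∈ s.Lo v) (h2 : s.d x ≤ 2)
    (h : s.Av x n) : n ≤ 2 := by
  obtain ⟨l, a, b⟩ := h
  match l, a with
  | [], _ => simp at b; omega
  | [_], _ => simp at b; omega
  | y :: z :: l, a =>
    exfalso
    have hn := a.1
    have h3 := a.rel0.2
    have h4 := a.tail.rel0.2
    have h5 : s.d y = 2 := by
      by_contra h
      have := leaf_nbr (by omega) a.rel0.1.symm a.tail.rel0.1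
      grind
    have := nonup_two a.rel0.1.symm a.tail.rel0.1 (by grind) (by omega) h4
    have := cnt (c := s.toCtx) y
    exact nR_sa (nR_of_up (up_lo.mpr hx)) ⟨a.rel0.1, by omega⟩ (by omega)
      (no_loc2 hM h5 (loc_iff.mpr (by omega)))

theorem pre3 (hM : 4 ≤ s.M) {v : V} {n : ℕ} (h3 : s.d v = 3) (h : s.Pre v n) :
    n ≤ 2 ∧ (n = 2 → s.hasT2 v) := by
  rcases h.cases with h | ⟨x, a, b, e⟩
  · omega
  · refine ⟨av_two hM (mem_Lo.mpr ⟨a, b⟩) (by omega) e, fun h => ⟨x, mem_Lo.mpr ⟨a, b⟩, ?_⟩⟩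
    by_contra hc
    have := av_nth2 (by omega) hc e; omega

end St

end Pool.Agent.Lib.MP_c0533c_co
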