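import Pool.Agent.Lib.MP_c0533c_co.Star

namespace Pool.Agent.Lib.MP_c0533c_co
open Classical Finset

variable {V : Type} [Fintype V]
namespace Ctx
variable (c : Ctx V)

noncomputable def Up (v : V) : Finset V := univ.filter (fun y => c.G.Adj v y ∧ c.d v < c.d y)
noncomputable def Sd (v : V) : Finset V := univ.filter (fun y => c.SA v y)
noncomputable def Lo (v : V) : Finset V := univ.filter (fun y => c.G.Adj v y ∧ c.d y < c.d v)
noncomputable def nu (v : V) : ℕ := (c.Up v).card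
noncomputable def ns (v : V) : ℕ := (c.Sd v).card
noncomputable def nl (v : V) : ℕ := (c.Lo v).card

variable {c}

theorem mem_Up {v y : V} : y ∈ c.Up v ↔ c.G.Adj v y ∧ c.d v < c.d y := by simp [Up]
theorem mem_Sd {v y : V} : y ∈ c.Sd v ↔ c.SA v y := by simp [Sd]
theorem mem_Lo {v y : V} : y ∈ c.Lo v ↔ c.G.Adj v y ∧ c.d y < c.d v := by simp [Lo]
theorem up_lo {v y : V} : y ∈ c.Up v ↔ v ∈ c.Lo y := by
  rw [mem_Up, mem_Lo, c.G.adj_comm]

theorem adj_cases {v y : V} (h : c.G.Adj v y) : y ∈ c.Up v ∨ c.SA v y ∨ y ∈ c.Lo v := by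
  rw [mem_Up, mem_Lo, SA]
  rcases lt_trichotomy (c.d v) (c.d y) with a | a | a <;> simp [h, a]

theorem sum_nb (v : V) (f : V → ℝ) : ∑ y ∈ univ.filter (fun y => c.G.Adj v y), f y =
    ∑ y ∈ c.Up v, f y + ∑ y ∈ c.Sd v, f y + ∑ y ∈ c.Lo v, f y := by
  unfold Up Sd Lo SA
  simp only [sum_filter, ← sum_add_distrib]
  refine sum_congr rfl fun y _ => ?_
  by_cases h : c.G.Adj v y
  · rcases lt_trichotomy (c.d v) (c.d y) with a | a | a
    · simp [h, a, a.ne, a.not_gt]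
    · simp [h, a]
    · simp [h, a, a.ne', a.not_gt]
  · simp [h]

theorem cnt (v : V) : c.nu v + c.ns v + c.nl v = c.d v := by
  have := sum_nb (c := c) v (fun _ => 1)
  simp only [sum_const, nsmul_eq_mul, mul_one] at this
  rw [← dg_eq_card] at this
  unfold nu ns nl
  exact_mod_cast this.symm

theorem loc_iff {v : V} : c.loc v ↔ c.nu v = 0 := by
  unfold nu loc
  rw [card_eq_zero, eq_empty_iff_forall_notMem]
  simp only [mem_Up, not_and, not_lt]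

theorem nu_pos {v y : V} (h : y ∈ c.Up v) : 1 ≤ c.nu v := card_pos.mpr ⟨y, h⟩
theorem ns_pos {v y : V} (h : c.SA v y) : 1 ≤ c.ns v := card_pos.mpr ⟨y, mem_Sd.mpr h⟩
theorem nl_pos {v y : V} (h : y ∈ c.Lo v) : 1 ≤ c.nl v := card_pos.mpr ⟨y, h⟩
theorem nu_two {v a b : V} (h : a ∈ c.Up v) (h' : b ∈ c.Up v) (hne : a ≠ b) : 2 ≤ c.nu v :=
  one_lt_card.mpr ⟨a, h, b, h', hne⟩
theorem ns_two {v a b : V} (h : c.SA v a) (h' : c.SA v b) (hne : a ≠ b) : 2 ≤ c.ns v :=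
  one_lt_card.mpr ⟨a, mem_Sd.mpr h, b, mem_Sd.mpr h', hne⟩
theorem nl_two {v a b : V} (h : a ∈ c.Lo v) (h' : b ∈ c.Lo v) (hne : a ≠ b) : 2 ≤ c.nl v :=
  one_lt_card.mpr ⟨a, h, b, h', hne⟩
theorem ns_three {v a b e : V} (h : c.SA v a) (h' : c.SA v b) (h'' : c.SA v e) (h1 : a ≠ b)
    (h2 : a ≠ e) (h3 : b ≠ e) : 3 ≤ c.ns v :=
  two_lt_card.mpr ⟨a, mem_Sd.mpr h, b, mem_Sd.mpr h', e, mem_Sd.mpr h'', h1, h2, h3⟩
theorem ns_four {v a b e f : V} (h : c.SA v a) (h' : c.SA v b) (h'' : c.SA v e) (h''' : c.SA v f)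
    (h1 : a ≠ b) (h2 : a ≠ e) (h3 : b ≠ e) (h4 : a ≠ f) (h5 : b ≠ f) (h6 : e ≠ f) : 4 ≤ c.ns v := by
  have : ({a, b, e, f} : Finset V) ⊆ c.Sd v := by
    intro x hx
    simp only [mem_insert, mem_singleton] at hx
    rcases hx with rfl | rfl | rfl | rfl <;> exact mem_Sd.mpr ‹_›
  have h7 := card_le_card this
  rw [card_insert_of_notMem (by simp [*]), card_insert_of_notMem (by simp [*]),
    card_insert_of_notMem (by simp [*]), card_singleton] at h7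
  exact h7

theorem exists_up {v : V} (h : 1 ≤ c.nu v) : ∃ y, y ∈ c.Up v := card_pos.mp h
theorem exists_sd {v : V} (h : 1 ≤ c.ns v) : ∃ y, c.SA v y :=
  let ⟨y, hy⟩ := card_pos.mp h; ⟨y, mem_Sd.mp hy⟩
theorem exists_lo {v : V} (h : 1 ≤ c.nl v) : ∃ y, y ∈ c.Lo v := card_pos.mp h

theorem s1_of {v a : V} (h : c.ns v ≤ 1) (ha : c.SA v a) : c.S1 v a :=
  ⟨ha, fun z hz => by by_contra hne; have := ns_two hz ha hne; omega⟩
theorem s2_of {v a b : V} (h : c.ns v ≤ 2) (ha : c.SA v a) (hb : c.SA v b) (hne : a ≠ b) :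
    c.S2 v a b :=
  ⟨ha, hb, hne, fun z hz => by
    by_contra hc; push Not at hc
    have := ns_three hz ha hb hc.1 hc.2 hne; omega⟩
theorem s3_of {v a b e : V} (h : c.ns v ≤ 3) (ha : c.SA v a) (hb : c.SA v b) (he : c.SA v e)
    (h1 : a ≠ b) (h2 : a ≠ e) (h3 : b ≠ e) : c.S3 v a b e :=
  ⟨ha, hb, he, h1, h2, h3, fun z hz => by
    by_contra hc; push Not at hc
    have := ns_four ha hb he hz h1 h2 h3 hc.1.symm hc.2.1.symm hc.2.2.symm; omega⟩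

theorem other_sd {v : V} (h : 2 ≤ c.ns v) (a : V) : ∃ b, c.SA v b ∧ b ≠ a := by
  obtain ⟨x, hx, y, hy, hne⟩ := one_lt_card.mp h
  by_cases e : x = a
  · exact ⟨y, mem_Sd.mp hy, fun e' => hne (e.trans e'.symm)⟩
  · exact ⟨x, mem_Sd.mp hx, e⟩
theorem other_sd2 {v : V} (h : 3 ≤ c.ns v) (a b : V) : ∃ e, c.SA v e ∧ e ≠ a ∧ e ≠ b := by
  obtain ⟨x, hx, y, hy, z, hz, h1, h2, h3⟩ := two_lt_card.mp h
  rw [mem_Sd] at hx hy hz
  grind

theorem S1.sd {v a : V} (h : c.S1 v a) : c.Sd v = {a} := by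
  ext z; rw [mem_Sd, mem_singleton]; exact ⟨h.2 z, fun e => e ▸ h.1⟩
theorem S2.sd {v a b : V} (h : c.S2 v a b) : c.Sd v = {a, b} := by
  ext z; rw [mem_Sd, mem_insert, mem_singleton]
  exact ⟨h.2.2.2 z, fun e => by rcases e with rfl | rfl; exacts [h.1, h.2.1]⟩
theorem S3.sd {v a b e : V} (h : c.S3 v a b e) : c.Sd v = {a, b, e} := by
  ext z; rw [mem_Sd, mem_insert, mem_insert, mem_singleton]
  exact ⟨h.2.2.2.2.2.2 z, fun e => by rcases e with rfl | rfl | rfl; exacts [h.1, h.2.1, h.2.2.1]⟩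
theorem S1.ns {v a : V} (h : c.S1 v a) : c.ns v = 1 := by unfold Ctx.ns; rw [h.sd]; simp
theorem S2.ns {v a b : V} (h : c.S2 v a b) : c.ns v = 2 := by
  unfold Ctx.ns; rw [h.sd, card_pair h.2.2.1]
theorem S3.ns {v a b e : V} (h : c.S3 v a b e) : c.ns v = 3 :=
  le_antisymm (by unfold Ctx.ns; rw [h.sd]; exact card_le_three)
    (ns_three h.1 h.2.1 h.2.2.1 h.2.2.2.1 h.2.2.2.2.1 h.2.2.2.2.2.1)

theorem K.ns {v : V} (h : c.K v) : 2 ≤ c.ns v := by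
  obtain ⟨a, b, -, -, h1, h2, h3⟩ := h.nbrs
  exact ns_two h2 h3 h1

theorem exists_s2 {v : V} (h : c.ns v = 2) : ∃ a b, c.S2 v a b := by
  obtain ⟨a, ha⟩ := exists_sd (v := v) (c := c) (by omega)
  obtain ⟨b, hb, hne⟩ := other_sd (v := v) (c := c) (by omega) a
  exact ⟨a, b, s2_of h.le ha hb hne.symm⟩

theorem pre_nl {v : V} {n : ℕ} (h : c.Pre v n) (h0 : c.nl v = 0) : n = 0 := by
  rcases h.cases with h | ⟨x, a, b, -⟩
  · exact h
  · have := nl_pos (mem_Lo.mpr ⟨a, b⟩); omega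

theorem pre_of_nl {v : V} (h : 1 ≤ c.nl v) : c.Pre v 1 :=
  let ⟨_, hx⟩ := exists_lo h; pre_one (mem_Lo.mp hx).1 (mem_Lo.mp hx).2

theorem up_unique {v t : V} (h : c.nu v ≤ 1) (ht : t ∈ c.Up v) :
    ∀ z, c.G.Adj v z → c.d v < c.d z → z = t := by
  intro z h1 h2
  by_contra hne
  have := nu_two (mem_Up.mpr ⟨h1, h2⟩) ht hne; omega

theorem single_top' {p t y : V} (h : c.nu p ≤ 1) (ht : t ∈ c.Up p) (hy : c.loc y)
    (hd : c.d p < c.d y) (hne : y ≠ t) :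
    c.d t = c.d p + 1 ∧ ∃ l, c.DP (t :: l) ∧ p ∉ l ∧ y ∉ l ∧ c.M ≤ l.length + 2 :=
  single_top (mem_Up.mp ht).1 (mem_Up.mp ht).2 (up_unique h ht) hy hd hne

/-- conservation of charge -/
theorem flow_sum (F : V → V → ℝ) :
    ∑ v, ∑ y ∈ univ.filter (fun y => c.G.Adj v y), (F y v - F v y) = 0 := by
  simp only [sum_sub_distrib, sum_filter]
  rw [sum_comm, sub_eq_zero]
  refine sum_congr rfl fun a _ => sum_congr rfl fun b _ => ?_
  simp only [c.G.adj_comm]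

end Ctx

namespace St
variable {s : St V}

theorem lw : s.loc s.w := fun z _ => s.wmax z
theorem R_loc {v : V} (h : s.R v) : s.loc v := fun z _ => by rw [s.Rd v h]; exact s.wmax z
theorem nR_of_up {v y : V} (h : y ∈ s.Up v) : ¬ s.R v := fun hr => by
  have := R_loc hr y (Ctx.mem_Up.mp h).1; have := (Ctx.mem_Up.mp h).2; omega
theorem nR_sa {v y : V} (h : ¬ s.R v) (hs : s.SA v y) (h4 : s.d v ≤ 4) : ¬ s.R y :=
  fun hr => h (s.Rcl y v hr hs.symm (hs.2 ▸ h4))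
theorem mp {u : V} (hu : s.loc u) (h4 : s.d u ≤ 4) (hR : ¬ s.R u) : ∃ r n, s.MP u r n :=
  (s.av u hu h4 hR).mp

theorem single {p t : V} (h : s.nu p ≤ 1) (ht : t ∈ s.Up p) (hR : ¬ s.R t) :
    s.d t = s.d p + 1 ∧ ∃ l, s.DP (t :: l) ∧ p ∉ l ∧ s.M ≤ l.length + 2 := by
  obtain ⟨a, l, b1, b2, -, b3⟩ := Ctx.single_top' h ht lw
    (lt_of_lt_of_le (Ctx.mem_Up.mp ht).2 (s.wmax t)) (by rintro e; exact hR (e ▸ s.Rw))
  exact ⟨a, l, b1, b2, b3⟩

end St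

end Pool.Agent.Lib.MP_c0533c_co
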