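import Mathlib

namespace Pool.Agent.Lib.MP_c0533c_co

/-- parameters of the discharging -/
structure Par where
  (μ s r1 r rI semi g R k5 sm v5 NB ss : ℝ)

namespace Par
variable (P : Par)
noncomputable def pi : ℝ := (1 - P.μ) / 2
noncomputable def ps : ℝ := (P.s + P.μ) / 2
noncomputable def pd : ℝ := 1 - P.μ - P.ps
noncomputable def sz : ℝ := 1 - 2 * P.μ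
noncomputable def sg : ℝ := 2 * P.pd - P.μ
noncomputable def u : ℝ := (2 + P.μ) / 5
noncomputable def k0 : ℝ := 1 + P.μ + P.u
noncomputable def dbl : ℝ := (P.pd - P.μ) / 2
noncomputable def p6 : ℝ := (3 + P.μ) / 6
noncomputable def y : ℝ := (2 + P.μ + P.p6 - P.k5) / 3
noncomputable def dl : ℝ := P.sz - P.s
noncomputable def NF : ℝ := 1 - 5 * P.μ
noncomputable def N0 : ℝ := 2 * P.s - 1 - P.μ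
noncomputable def G (h : ℕ) : ℝ := min (2 ^ h * P.g) (2 * (P.k0 - P.pd))

theorem eqs : P.pi = (1 - P.μ) / 2 ∧ P.ps = (P.s + P.μ) / 2 ∧ P.pd = 1 - P.μ - P.ps ∧
    P.sz = 1 - 2 * P.μ ∧ P.sg = 2 * P.pd - P.μ ∧ P.u = (2 + P.μ) / 5 ∧ P.k0 = 1 + P.μ + P.u ∧
    P.dbl = (P.pd - P.μ) / 2 ∧ P.p6 = (3 + P.μ) / 6 ∧ P.y = (2 + P.μ + P.p6 - P.k5) / 3 ∧
    P.dl = P.sz - P.s ∧ P.NF = 1 - 5 * P.μ ∧ P.N0 = 2 * P.s - 1 - P.μ :=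
  ⟨rfl, rfl, rfl, rfl, rfl, rfl, rfl, rfl, rfl, rfl, rfl, rfl, rfl⟩

/-- order relations -/
def Ord : Prop := 0 ≤ P.μ ∧ P.μ ≤ P.s ∧ P.s ≤ P.sz ∧ P.ps ≤ P.u ∧ P.pd ≤ P.sz ∧ 0 ≤ P.dbl ∧
  P.dbl ≤ P.ps ∧ - P.μ ≤ P.r1 ∧ P.r1 ≤ P.rI ∧ P.rI ≤ P.r ∧ P.r ≤ P.semi ∧ P.semi ≤ P.s ∧
  0 ≤ P.semi ∧ 0 ≤ P.R ∧ - P.R ≤ P.r ∧ P.s ≤ P.sm ∧ P.pd ≤ P.sm ∧ P.sm ≤ P.sz ∧ P.dl ≤ P.pd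

/-- degree five and more -/
def Five : Prop := 0 ≤ P.k5 ∧ P.u ≤ P.v5 ∧ P.pd ≤ P.v5 ∧ P.v5 ≤ P.y ∧ P.y ≤ 1 ∧ P.k5 ≤ P.y ∧
  4 * P.v5 ≤ 2 + P.μ + P.k5 ∧ 4 * P.v5 ≤ 2 + P.μ + P.p6 ∧ 3 * P.v5 ≤ 2 + P.μ ∧
  P.pd ≤ (3 + P.μ) / 5

/-- path components of level three -/
def Pth (M : ℝ) : Prop := P.pd ≤ P.μ + P.s ∧
  0 ≤ 2 * (P.μ - P.pd + P.r1 - (P.s - P.r) - (P.s - P.semi)) + (M - 4) * (P.μ + P.s) ∧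
  0 ≤ 2 * (P.μ - P.pd + P.r - (P.s - P.semi)) + (M - 5) * (P.μ + P.s) ∧
  0 ≤ 2 * (P.μ - P.pd + P.semi) + (M - 6) * (P.μ + P.s) ∧
  0 ≤ 2 * (P.μ - 2 * P.R - (P.s - P.r) - (P.s - P.semi)) + (M - 3) * (P.μ + P.s) ∧
  0 ≤ 2 * (P.μ - 2 * P.R - (P.s - P.semi)) + (M - 4) * (P.μ + P.s) ∧
  0 ≤ (P.μ - P.pd + P.r - (P.s - P.semi)) + (P.μ - 2 * P.R - (P.s - P.r) - (P.s - P.semi)) +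
    (M - 4) * (P.μ + P.s) ∧
  0 ≤ (P.μ - P.pd + P.semi) + (P.μ - 2 * P.R - (P.s - P.semi)) + (M - 5) * (P.μ + P.s) ∧
  0 ≤ 2 * (2 * P.μ - 1 + P.rI - (P.s - P.r) - (P.s - P.semi)) + (M - 5) * (P.μ + P.s)

/-- small tree components of level four -/
def Sml : Prop := P.r1 + P.r + 2 * P.s ≤ 1 + P.μ ∧ 2 * P.rI + 2 * P.s ≤ 1 + P.μ ∧
  3 * P.s - P.R ≤ 1 + P.μ ∧ P.r + 2 * P.s ≤ P.k0 ∧ 3 * P.pd ≤ 1 + P.μ + P.y ∧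
  2 * P.sm ≤ P.k0 ∧ 2 * P.r + P.s ≤ 1 + P.μ ∧ 3 * P.ps ≤ 1 + P.μ ∧
  3 * P.s + P.r + P.sm ≤ 1 + P.μ + P.k0 ∧ 6 * P.s + P.r ≤ 2 * (1 + P.μ) + P.k0 ∧
  6 * P.s ≤ 2 * (1 + P.μ) + P.k0 ∧ 3 * P.s + P.sm ≤ 1 + P.μ + P.k0 ∧
  6 * P.s + 3 * P.semi ≤ 3 * (1 + P.μ) + P.k0 ∧ 6 * P.s + 2 * P.sm ≤ 2 * (1 + P.μ) + 2 * P.k0 ∧
  3 * P.s + 3 * P.sm ≤ 1 + P.μ + 2 * P.k0 ∧ 3 * P.sm ≤ 2 * P.k0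

/-- large trees -/
def Big (M : ℕ) : Prop := 0 ≤ P.g ∧ P.g ≤ 1 + P.μ + P.k0 - 3 * P.sz ∧ P.g ≤ P.k0 - P.sg ∧
  2 * P.k0 ≤ P.G ((M - 3) / 2 - 1) + P.G ((M - 2) / 2 - 1) + P.dl ∧
  2 * P.k0 ≤ P.G ((M - 2) / 2 - 1) + P.G ((M - 1) / 2 - 1)

/-- the core -/
def Cor (M : ℕ) : Prop := 0 ≤ P.NB ∧ P.NF ≤ P.NB ∧ 0 ≤ P.ss ∧ 3 * P.ss ≤ P.k0 ∧
  P.NB + 2 * P.ss ≤ P.k0 ∧ 2 * P.NB ≤ P.k0 ∧ P.NF ≤ P.ss + 3 * P.μ ∧ P.NF ≤ 2 * P.ss ∧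
  P.sz + P.sm ≤ 1 + P.μ + P.ss ∧ P.NF ≤ (1 + P.μ) / 2 + 3 * P.μ ∧ P.NF ≤ (1 + P.μ) / 2 + P.ss ∧
  P.sz + P.sm ≤ 3 * (1 + P.μ) / 2 ∧ 4 * P.s + 2 * P.semi ≤ 3 * (1 + P.μ) ∧
  P.NF ≤ 6 * P.μ + P.k0 - P.sg ∧
  ((2 * P.NF ≤ P.k0 - P.semi ∧ 2 * P.NF ≤ P.g + P.dl ∧ 2 * P.NF ≤ 2 * P.g) ∨
    (9 ≤ M ∧ 2 * P.N0 ≤ P.k0 - P.semi ∧ 2 * P.N0 ≤ P.g + P.dl ∧
      2 * P.NF ≤ P.G ((M - 2) / 2 - 1))) ∧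
  (P.NF ≤ 6 * P.μ ∨ (11 ≤ M ∧ P.N0 ≤ 6 * P.μ ∧ P.NF ≤ 6 * P.μ + P.G ((M - 2) / 2 - 1)))

structure OK (M : ℕ) : Prop where
  hM : 7 ≤ M
  ord : P.Ord
  five : P.Five
  pth : P.Pth M
  sml : P.Sml
  big : P.Big M
  cor : P.Cor M

end Par

end Pool.Agent.Lib.MP_c0533c_co
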