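import Pool.Agent.Lib.MP_c0533c_co.Base

namespace Pool.Agent.Lib.MP_c0533c_co
open Classical

variable {V : Type}

/-- decreasing path for an adjacency relation `A` and a weight `w` -/
def DW (A : V → V → Prop) (w : V → ℕ) (l : List V) : Prop :=
  l.Nodup ∧ l.IsChain (fun a b => A a b ∧ w b ≤ w a)

namespace DW
variable {A : V → V → Prop} {w : V → ℕ}

theorem left {l1 l2 : List V} (h : DW A w (l1 ++ l2)) : DW A w l1 :=
  ⟨h.1.of_append_left, h.2.left_of_append⟩

theorem right {l1 l2 : List V} (h : DW A w (l1 ++ l2)) : DW A w l2 :=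
  ⟨h.1.of_append_right, h.2.right_of_append⟩

theorem tail {a : V} {l : List V} (h : DW A w (a :: l)) : DW A w l :=
  right (l1 := [a]) h

theorem rel {l1 l2 : List V} {a b : V} (h : DW A w (l1 ++ a :: b :: l2)) : A a b ∧ w b ≤ w a :=
  List.isChain_iff_forall_rel_of_append_cons_cons.mp h.2 rfl

theorem rel0 {l2 : List V} {a b : V} (h : DW A w (a :: b :: l2)) : A a b ∧ w b ≤ w a :=
  rel (l1 := []) h

theorem single (a : V) : DW A w [a] := ⟨List.nodup_singleton a, List.isChain_singleton a⟩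

theorem nil : DW A w ([] : List V) := ⟨List.nodup_nil, List.isChain_nil⟩

theorem cons {a b : V} {l : List V} (h : DW A w (b :: l)) (hA : A a b) (hw : w b ≤ w a)
    (hn : a ∉ b :: l) : DW A w (a :: b :: l) :=
  ⟨List.nodup_cons.mpr ⟨hn, h.1⟩, List.isChain_cons_cons.mpr ⟨⟨hA, hw⟩, h.2⟩⟩

theorem glue {l1 l2 : List V} {x : V} (h1 : DW A w (l1 ++ [x])) (h2 : DW A w (x :: l2))
    (hd : ∀ y ∈ l1, y ∉ l2) : DW A w (l1 ++ x :: l2) := by
  refine ⟨?_, List.isChain_split.mpr ⟨h1.2, h2.2⟩⟩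
  have a1 := h1.1
  have a2 := h2.1
  rw [List.nodup_append] at a1 ⊢
  refine ⟨a1.1, a2, ?_⟩
  intro a ha b hb
  rcases List.mem_cons.mp hb with rfl | hb
  · exact a1.2.2 a ha b (by simp)
  · rintro rfl; exact hd a ha hb

theorem le_head {a : V} {l : List V} (h : DW A w (a :: l)) : ∀ x ∈ l, w x ≤ w a := by
  induction l generalizing a with
  | nil => simp
  | cons b l ih =>
    intro x hx
    rcases List.mem_cons.mp hx with rfl | hx
    · exact h.rel0.2
    · exact (ih h.tail x hx).trans h.rel0.2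

theorem last_le {a : V} {l : List V} (h : DW A w (l ++ [a])) : ∀ x ∈ l, w a ≤ w x := by
  intro x hx
  obtain ⟨l1, l2, rfl⟩ := List.append_of_mem hx
  have : DW A w (x :: (l2 ++ [a])) := by
    have h' : DW A w (l1 ++ (x :: (l2 ++ [a]))) := by simpa using h
    exact h'.right
  exact this.le_head a (by simp)

theorem change {A' : V → V → Prop} {w' : V → ℕ} {l : List V} (h : DW A w l)
    (H : ∀ l1 a b l2, l = l1 ++ a :: b :: l2 → A a b → w b ≤ w a → A' a b ∧ w' b ≤ w' a) :
    DW A' w' l := by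
  refine ⟨h.1, List.isChain_iff_forall_rel_of_append_cons_cons.mpr ?_⟩
  intro a b l1 l2 e
  have := List.isChain_iff_forall_rel_of_append_cons_cons.mp h.2 e
  exact H l1 a b l2 e this.1 this.2

theorem not_mem_head {a : V} {l : List V} (h : DW A w (a :: l)) : a ∉ l :=
  (List.nodup_cons.mp h.1).1

end DW

theorem IP.rev {A : V → V → Prop} {w : V → ℕ} {l : List V} (hs : ∀ a b, A a b → A b a)
    (h : IP A w l) : DW A w l.reverse :=
  ⟨List.nodup_reverse.mpr h.1, List.isChain_reverse.mpr (h.2.imp fun _ _ h => ⟨hs _ _ h.1, h.2⟩)⟩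

theorem DW.rev {A : V → V → Prop} {w : V → ℕ} {l : List V} (hs : ∀ a b, A a b → A b a)
    (h : DW A w l) : IP A w l.reverse :=
  ⟨List.nodup_reverse.mpr h.1, List.isChain_reverse.mpr (h.2.imp fun _ _ h => ⟨hs _ _ h.1, h.2⟩)⟩

/-- last element of `e :: r` -/
def lst (e : V) : List V → V
  | [] => e
  | x :: r => lst x r

@[simp] theorem lst_nil (e : V) : lst e [] = e := rfl
@[simp] theorem lst_cons (e x : V) (r : List V) : lst e (x :: r) = lst x r := rfl
@[simp] theorem lst_append_cons (e x : V) (r r' : List V) : lst e (r ++ x :: r') = lst x r' := by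
  induction r generalizing e with
  | nil => rfl
  | cons y r ih => exact ih y

theorem lst_mem (e : V) (r : List V) : lst e r ∈ e :: r := by
  induction r generalizing e with
  | nil => simp
  | cons y r ih => exact List.mem_cons_of_mem _ (ih y)

theorem exists_lst (e : V) (r : List V) : ∃ q, e :: r = q ++ [lst e r] ∧ q.length = r.length := by
  induction r generalizing e with
  | nil => exact ⟨[], rfl, rfl⟩
  | cons y r ih =>
    obtain ⟨q, hq, hl⟩ := ih y
    exact ⟨e :: q, by simp [hq], by simp [hl]⟩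

theorem lst_mem_of_ne {e : V} {r : List V} (h : r ≠ []) : lst e r ∈ r := by
  cases r with
  | nil => exact absurd rfl h
  | cons y r => exact lst_mem y r

/-- a saturated graph -/
structure Ctx (V : Type) where
  G : SimpleGraph V
  M : ℕ
  le : ∀ l, DW G.Adj (dg G) l → l.length ≤ M
  sat : ∀ u v, u ≠ v → ¬ G.Adj u v → ∃ l, DW (AdjP G u v) (dgP G u v) l ∧ M + 1 ≤ l.length

theorem AdjP.symm {G : SimpleGraph V} {u v a b : V} (h : AdjP G u v a b) : AdjP G u v b a := by
  rcases h with h | ⟨h1, h2⟩ | ⟨h1, h2⟩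
  · exact Or.inl h.symm
  · exact Or.inr (Or.inr ⟨h2, h1⟩)
  · exact Or.inr (Or.inl ⟨h2, h1⟩)

/-- the context of a saturated graph -/
def Ctx.ofSat [Fintype V] {G : SimpleGraph V} {M : ℕ} (h : Sat G (M + 1)) : Ctx V where
  G := G
  M := M
  le := fun l hl => by
    simpa using ((sat_iff G M).mp h).1 _ (hl.rev fun _ _ h => h.symm)
  sat := fun u v huv hn => by
    obtain ⟨l, hl, hk⟩ := ((sat_iff G M).mp h).2 u v huv hn
    exact ⟨l.reverse, hl.rev fun _ _ h => h.symm, by simpa using hk⟩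

namespace Ctx
variable (c : Ctx V)

noncomputable abbrev d (v : V) : ℕ := dg c.G v
abbrev DP (l : List V) : Prop := DW c.G.Adj c.d l
def loc (v : V) : Prop := ∀ z, c.G.Adj v z → c.d z ≤ c.d v
noncomputable def d1 (u w : V) : ℕ := c.d w + if w = u then 1 else 0

variable {c}

theorem split_new {u v : V} {w : V → ℕ} {l : List V} (h : DW (AdjP c.G u v) w l) :
    DW c.G.Adj w l ∨ ∃ l1 l2, (l = l1 ++ u :: v :: l2 ∧ DW c.G.Adj w (l1 ++ [u]) ∧
      DW c.G.Adj w (v :: l2)) ∨ (l = l1 ++ v :: u :: l2 ∧ DW c.G.Adj w (l1 ++ [v]) ∧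
      DW c.G.Adj w (u :: l2)) := by
  have old : ∀ {m : List V}, DW (AdjP c.G u v) w m → (u ∉ m ∨ v ∉ m) → DW c.G.Adj w m := by
    intro m hm hx
    refine hm.change ?_
    rintro l1 a b l2 rfl hA hw
    refine ⟨?_, hw⟩
    rcases hA with hA | ⟨rfl, rfl⟩ | ⟨rfl, rfl⟩
    · exact hA
    · simp at hx
    · simp at hx
  by_cases h1 : ∃ l1 l2, l = l1 ++ u :: v :: l2
  · obtain ⟨l1, l2, rfl⟩ := h1
    have hn := h.1
    refine Or.inr ⟨l1, l2, Or.inl ⟨rfl, old (DW.left (l2 := v :: l2) (by simpa using h)) ?_,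
      old (DW.right (l1 := l1 ++ [u]) (by simpa using h)) ?_⟩⟩
    · right; grind
    · left; grind
  by_cases h2 : ∃ l1 l2, l = l1 ++ v :: u :: l2
  · obtain ⟨l1, l2, rfl⟩ := h2
    have hn := h.1
    refine Or.inr ⟨l1, l2, Or.inr ⟨rfl, old (DW.left (l2 := u :: l2) (by simpa using h)) ?_,
      old (DW.right (l1 := l1 ++ [v]) (by simpa using h)) ?_⟩⟩
    · left; grind
    · right; grind
  left
  refine h.change ?_
  rintro l1 a b l2 rfl hA hw
  refine ⟨?_, hw⟩
  rcases hA with hA | ⟨rfl, rfl⟩ | ⟨rfl, rfl⟩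
  · exact hA
  · exact absurd ⟨l1, l2, rfl⟩ h1
  · exact absurd ⟨l1, l2, rfl⟩ h2

theorem lower2 {u y : V} (hu : c.loc u) (hy : c.loc y) {l : List V}
    (h : DW c.G.Adj (dgP c.G u y) l) : c.DP l := by
  refine h.change ?_
  rintro l1 a b l2 rfl hA hw
  refine ⟨hA, ?_⟩
  by_cases ha : a = u ∨ a = y
  · rcases ha with rfl | rfl
    · exact hu b hA
    · exact hy b hA
  · simp only [dgP, ha, if_false] at hw
    unfold d; omega

/-- two non adjacent local maxima of the same degree -/
theorem pair {u y : V} (hu : c.loc u) (hy : c.loc y) (hne : u ≠ y) (hn : ¬ c.G.Adj u y) :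
    (∃ l, c.DP (u :: l) ∧ y ∉ l ∧ c.M ≤ l.length + 1) ∨
      (∃ l, c.DP (y :: l) ∧ u ∉ l ∧ c.M ≤ l.length + 1) := by
  obtain ⟨l, hl, hk⟩ := c.sat u y hne hn
  have key : ∀ {a b : V} {l1 l2 : List V}, c.loc a → (a = u ∨ a = y) → (b = u ∨ b = y) → a ≠ b →
      (l1 ++ a :: b :: l2).Nodup → DW c.G.Adj (dgP c.G u y) (l1 ++ [a]) → l1 = [] := by
    intro a b l1 l2 ha hau hbu hab hnd h1
    rcases List.eq_nil_or_concat l1 with rfl | ⟨q, p, rfl⟩
    · rfl
    exfalso
    have h2 : DW c.G.Adj (dgP c.G u y) (q ++ p :: a :: []) := by simpa using h1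
    have h3 := h2.rel
    have h4 := ha p h3.1.symm
    have hp : ¬ (p = u ∨ p = y) := by grind
    have h5 := h3.2
    simp only [dgP, hp, hau, if_true, if_false] at h5
    unfold d at h4; omega
  rcases split_new hl with h | ⟨l1, l2, ⟨rfl, h1, h2⟩ | ⟨rfl, h1, h2⟩⟩
  · have := c.le _ (lower2 hu hy h); omega
  · obtain rfl := key hu (Or.inl rfl) (Or.inr rfl) hne hl.1 h1
    have hn := hl.1
    refine Or.inr ⟨l2, lower2 hu hy h2, by grind, by simp at hk; omega⟩
  · obtain rfl := key hy (Or.inr rfl) (Or.inl rfl) hne.symm hl.1 h1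
    have hn := hl.1
    refine Or.inl ⟨l2, lower2 hu hy h2, by grind, by simp at hk; omega⟩

/-- a vertex against a local maximum of larger degree -/
theorem top {u y : V} (hy : c.loc y) (hd : c.d u < c.d y) (hn : ¬ c.G.Adj u y) :
    (∃ l, DW c.G.Adj (c.d1 u) l ∧ c.M + 1 ≤ l.length ∧ y ∉ l.tail) ∨
      (∃ l, DW c.G.Adj (c.d1 u) (u :: l) ∧ y ∉ l ∧ c.M ≤ l.length + 1) := by
  have hne : u ≠ y := by rintro rfl; omega
  obtain ⟨l, hl, hk⟩ := c.sat u y hne hn
  have low : ∀ {m : List V}, DW c.G.Adj (dgP c.G u y) m → DW c.G.Adj (c.d1 u) m := by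
    intro m hm
    refine hm.change ?_
    rintro l1 a b l2 rfl hA hw
    refine ⟨hA, ?_⟩
    by_cases ha : a = y
    · subst ha
      have := hy b hA
      have hb : b ≠ u := by rintro rfl; exact hn hA.symm
      simp only [d1, hb, if_false]; omega
    · simp only [dgP, d1, ha, or_false] at hw ⊢
      unfold d
      split_ifs at hw ⊢ <;> first | omega | grind
  have nt : ∀ {m : List V}, DW (AdjP c.G u y) (dgP c.G u y) m → y ∉ m.tail := by
    intro m hm hy'
    cases m with
    | nil => simp at hy'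
    | cons a m =>
      obtain ⟨l1, l2, rfl⟩ := List.append_of_mem (show y ∈ m from hy')
      obtain ⟨q, hq, -⟩ := exists_lst a l1
      have h2 : DW (AdjP c.G u y) (dgP c.G u y) (q ++ lst a l1 :: y :: l2) := by
        have : q ++ lst a l1 :: y :: l2 = a :: (l1 ++ y :: l2) := by
          rw [← List.cons_append, hq]; simp
        rw [this]; exact hm
      obtain ⟨hA, hw⟩ := h2.rel
      generalize lst a l1 = p at hA hw
      rcases hA with hA | ⟨rfl, -⟩ | ⟨-, h⟩
      · have := hy p hA.symm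
        have hp : ¬ (p = u ∨ p = y) := by
          rintro (rfl | rfl)
          · exact hn hA
          · exact hA.ne rfl
        simp only [dgP, hp, if_false, or_true, if_true] at hw
        unfold d at this; omega
      · simp only [dgP, true_or, or_true, if_true] at hw
        unfold d at hd; omega
      · exact hne h.symm
  rcases split_new hl with h | ⟨l1, l2, ⟨rfl, h1, h2⟩ | ⟨rfl, h1, h2⟩⟩
  · exact Or.inl ⟨l, low h, hk, nt hl⟩
  · exfalso
    apply nt hl
    cases l1 <;> simp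
  · have h3 := nt hl
    have hn := hl.1
    cases l1 with
    | nil => exact Or.inr ⟨l2, low h2, by grind, by simp at hk; omega⟩
    | cons a l1 => exact absurd (by simp) h3

/-- a path for the degrees with `u` raised -/
theorem raise_cases {u : V} {l : List V} (h : DW c.G.Adj (c.d1 u) l) :
    c.DP l ∨ ∃ l1 t l2, l = l1 ++ u :: t :: l2 ∧ c.G.Adj u t ∧ c.d t = c.d u + 1 ∧
      c.DP (t :: l2) ∧ c.DP (l1 ++ [u]) ∧ ∀ x ∈ l1, c.d u < c.d x := by
  have low : ∀ {m : List V}, DW c.G.Adj (c.d1 u) m →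
      (∀ l1 t l2, m = l1 ++ u :: t :: l2 → c.d t ≤ c.d u) → c.DP m := by
    intro m hm H
    refine hm.change ?_
    rintro l1 a b l2 e hA hw
    refine ⟨hA, ?_⟩
    by_cases ha : a = u
    · subst ha; exact H _ _ _ e
    · simp only [d1, ha, if_false] at hw; omega
  by_cases H : ∀ l1 t l2, l = l1 ++ u :: t :: l2 → c.d t ≤ c.d u
  · exact Or.inl (low h H)
  push Not at H
  obtain ⟨l1, t, l2, rfl, ht⟩ := H
  have hn := h.1
  obtain ⟨hA, hw⟩ := h.rel
  have htu : t ≠ u := hA.ne.symm
  simp only [d1, htu, if_false, if_true] at hw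
  have h1 : DW c.G.Adj (c.d1 u) (l1 ++ [u]) := DW.left (l2 := t :: l2) (by simpa using h)
  refine Or.inr ⟨l1, t, l2, rfl, hA, by omega, ?_, ?_, ?_⟩
  · refine low (DW.right (l1 := l1 ++ [u]) (by simpa using h)) ?_
    intro m1 s m2 e
    have : u ∈ t :: l2 := by rw [e]; simp
    grind
  · refine low h1 ?_
    intro m1 s m2 e
    exfalso
    have h5 := congrArg List.getLast? e
    have : u ∈ s :: m2 := by
      apply List.mem_of_getLast?
      simpa [List.getLast?_append] using h5.symm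
    have h6 := h1.1
    rw [e] at h6
    grind
  · intro x hx
    have := h1.last_le x hx
    have hxu : x ≠ u := by grind
    simp only [d1, hxu, if_false, if_true] at this
    omega

end Ctx

end Pool.Agent.Lib.MP_c0533c_co
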