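import Pool.Agent.Lib.MP_c0533c_co.Flow
import Pool.Agent.Lib.MP_c0533c_co.Par

namespace Pool.Agent.Lib.MP_c0533c_co
open Classical Finset

variable {V : Type} [Fintype V]
namespace St
open Ctx
variable (s : St V) (P : Par)

def deep (t : V) : Prop := s.Bv t (s.M - 3)

noncomputable def rate (w : V) : ℝ :=
  if 6 ≤ s.d w then (if s.nu w + s.ns w = 0 then P.p6 else (3 + P.μ) / 5)
  else if 1 ≤ s.nu w ∧ 1 ≤ s.ns w then P.y
  else if 1 ≤ s.nu w ∨ 2 ≤ s.ns w ∨ ∃ z, s.SA w z ∧ ¬ s.loc z then P.v5 else P.u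

noncomputable def prA (v : V) : ℝ :=
  if s.Av v (s.M - 1) then P.r1 else if s.Av v (s.M - 2) then P.r
  else if s.Av v (s.M - 3) then P.semi else P.s

noncomputable def price (t v : V) : ℝ :=
  if s.d v ≤ 2 then (if ∃ z, s.G.Adj v z ∧ s.thin z then P.pd else P.ps)
  else if s.nu v = 1 then
    (if s.nl v = 2 then (if s.deep t then (if s.loc t then P.sz else P.sg) else P.s)
      else if s.hasT2 v then P.rI else s.prA P v)
  else if s.nu v = 2 then (if s.nl v = 1 then P.dbl else if s.Av v (s.M - 2) then - P.R else 0)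
  else 0

noncomputable def tp (v : V) : ℝ :=
  if ∃ t ∈ s.Up v, s.R t ∨ (s.deep t ∧ s.loc t) then P.pi
  else if ∃ t ∈ s.Up v, s.deep t then P.pd else P.ps

noncomputable def p3 (v x : V) : ℝ :=
  if s.th2 x then 1 - P.μ else if s.thin v then s.tp P v else P.pd

noncomputable def pay (a b : V) : ℝ :=
  if 5 ≤ s.d a then s.rate P a else if s.d a = 4 then s.price P a b else s.p3 P a b

noncomputable def sf (a _b : V) : ℝ := if s.d a = 5 ∧ ¬ s.loc a then P.k5 else 0

noncomputable def nt (v : V) : ℝ := s.net P.μ (s.pay P) (s.sf P) v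
noncomputable def nin (v : V) : ℝ := s.inn (s.pay P) v
noncomputable def nout (v : V) : ℝ := s.out (s.pay P) v

variable {s P}

theorem nt_eq {v : V} (h : s.d v ≠ 5) : s.nt P v = s.d v - 3 + P.μ + s.nin P v - s.nout P v :=
  net_eq fun y hy => by
    have := hy.2
    unfold sf; rw [if_neg (by omega), if_neg (by omega)]

theorem rate_u (h : P.Five) (h0 : P.Ord) (w : V) : P.u ≤ s.rate P w := by
  obtain ⟨e1, e2, e3, e4, e5, e6, e7, e8, e9, e10, -⟩ := P.eqs
  obtain ⟨f1, f2, f3, f4, -⟩ := h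
  obtain ⟨o1, o2, o3, -⟩ := h0
  unfold rate; split_ifs <;> linarith

theorem rate_p6 (h0 : P.Ord) {w : V} (h6 : 6 ≤ s.d w) : P.p6 ≤ s.rate P w := by
  obtain ⟨e1, e2, e3, e4, e5, e6, e7, e8, e9, e10, -⟩ := P.eqs
  obtain ⟨o1, -⟩ := h0
  unfold rate; rw [if_pos h6]; split_ifs <;> linarith

theorem rate_pd (h : P.Five) {w : V}
    (hw : 1 ≤ s.nu w ∨ 2 ≤ s.ns w ∨ ∃ z, s.SA w z ∧ ¬ s.loc z) : P.pd ≤ s.rate P w := by
  obtain ⟨f1, f2, f3, f4, f5, f6, f7, f8, f9, f10⟩ := h
  have : s.nu w + s.ns w ≠ 0 := by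
    rcases hw with h | h | ⟨z, h, -⟩
    · omega
    · omega
    · have := ns_pos h; omega
  unfold rate; rw [if_neg this, if_pos hw]; split_ifs <;> linarith

theorem pay5 {a b : V} (h : 5 ≤ s.d a) : s.pay P a b = s.rate P a := if_pos h
theorem pay4 {a b : V} (h : s.d a = 4) : s.pay P a b = s.price P a b := by
  unfold pay; rw [if_neg (by omega), if_pos h]
theorem pay3 {a b : V} (h : s.d a ≤ 3) : s.pay P a b = s.p3 P a b := by
  unfold pay; rw [if_neg (by omega), if_neg (by omega)]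

theorem tp_ge (h0 : P.Ord) (v : V) : P.ps ≤ s.tp P v := by
  obtain ⟨e1, e2, e3, e4, -⟩ := P.eqs
  obtain ⟨o1, o2, o3, -⟩ := h0
  unfold tp; split_ifs <;> linarith

theorem pay_x (h : P.Five) (h0 : P.Ord) (a : V) {x : V} (hx : s.d x ≤ 2) :
    P.ps ≤ s.F (s.pay P) a x := by
  have := rate_u (s := s) h h0 a
  have := tp_ge (s := s) h0 a
  obtain ⟨e1, e2, e3, e4, -⟩ := P.eqs
  obtain ⟨o1, o2, o3, o4, -⟩ := h0
  refine F_ge (by linarith) fun _ => ?_
  unfold pay price p3
  rw [if_pos hx]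
  split_ifs <;> linarith

theorem nt2 (H : P.OK s.M) {x : V} (h2 : s.d x = 2) (hR : ¬ s.R x) : 0 ≤ s.nt P x := by
  have hM := H.hM
  obtain ⟨e1, e2, e3, e4, -⟩ := P.eqs
  obtain ⟨o1, o2, o3, -⟩ := H.ord
  have px := fun a => pay_x (s := s) H.five H.ord a h2.le
  rw [nt_eq (by omega)]
  unfold nout nin
  rw [out_zero (nl_x (by omega) h2 hR), h2]
  suffices 1 - P.μ ≤ s.inn (s.pay P) x by push_cast; linarith
  by_cases h : s.th2 x
  · obtain ⟨t, ht⟩ := exists_up (c := s.toCtx) (v := x) (by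
      by_contra h; exact hR (no_loc2 (by omega) h2 (loc_iff.mpr (by omega))))
    refine le_trans ?_ (single_le_sum (f := fun y => s.F (s.pay P) y x)
      (fun y _ => le_trans (by linarith) (px y)) ht)
    refine F_ge (by linarith) fun hR => ?_
    have := (single (th2_nu' h2 h) ht hR).1
    rw [pay3 (by omega)]; unfold p3; rw [if_pos h]
  have key : ∀ a b, a ∈ s.Up x → b ∈ s.Up x → a ≠ b →
      1 - P.μ ≤ s.F (s.pay P) a x + s.F (s.pay P) b x → 1 - P.μ ≤ s.inn (s.pay P) x := by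
    intro a b ha hb hne hs
    have := sum_ge_2 ha hb hne (fun y _ => px y)
    rw [show (s.Up x).card = 2 from nth2_nu h2 h] at this
    unfold inn; push_cast at this; linarith
  have hu := nth2_nu h2 h
  have upx : ∀ y, s.G.Adj x y → y ∈ s.Up x := fun y hy =>
    mem_Up.mpr ⟨hy, by by_contra hc; exact h ⟨y, hy, by omega⟩⟩
  by_cases hr : ∃ y ∈ s.Up x, s.R y
  · obtain ⟨a, ha, ra⟩ := hr
    obtain ⟨b, hb, hne⟩ := other_nbr (c := s.toCtx) (x := x) (a := a) h2.ge
    have := F_R (pay := s.pay P) (b := x) ra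
    have := px b
    exact key a b ha (upx b hb) hne.symm (by linarith)
  push Not at hr
  obtain ⟨a, ha⟩ := exists_up (c := s.toCtx) (v := x) (by omega)
  obtain ⟨z, hz, dz⟩ := x_three h2 ha hr
  obtain ⟨t, ht, hne⟩ := other_nbr (c := s.toCtx) (x := x) (a := z) h2.ge
  refine key z t (upx z hz) (upx t ht) hne.symm ?_
  have q3 : ∀ v, s.G.Adj x v → s.d v = 3 →
      s.F (s.pay P) v x = if s.thin v then s.tp P v else P.pd := by
    intro v hv dv
    rw [F_nR (hr v (upx v hv)), pay3 dv.le]; unfold p3; rw [if_neg h]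
  have pt := px t
  have pz := px z
  by_cases tz : s.thin z
  swap
  · rw [q3 z hz dz, if_neg tz]; linarith
  suffices P.pd ≤ s.F (s.pay P) t x ∨ 1 - P.μ ≤ s.F (s.pay P) z x + s.F (s.pay P) t x by
    rcases this with h | h <;> linarith
  have rt := hr t (upx t ht)
  have dt := (mem_Up.mp (upx t ht)).2
  by_cases d5 : 5 ≤ s.d t
  · left; rw [F_nR rt, pay5 d5]
    exact rate_pd H.five (x_b5 (by omega) h2 hz ht tz (by omega) rt)
  by_cases d4 : s.d t = 4
  · left; rw [F_nR rt, pay4 d4]; unfold price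
    rw [if_pos h2.le, if_pos ⟨z, hz, tz⟩]
  by_cases tt : s.thin t
  swap
  · left; rw [q3 t ht (by omega), if_neg tt]
  right
  rw [q3 z hz dz, q3 t ht (by omega), if_pos tz, if_pos tt]
  have fin : ∀ a b ta tb, s.thin a → s.thin b → ta ∈ s.Up a → tb ∈ s.Up b → s.deep ta →
      (s.loc ta → s.deep tb) → 1 - P.μ ≤ s.tp P a + s.tp P b := by
    intro a b ta tb h1 h2 h3 h4 h5 h6
    have := tp_ge (s := s) H.ord b
    by_cases c1 : ∃ t ∈ s.Up a, s.R t ∨ (s.deep t ∧ s.loc t)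
    · obtain ⟨t, t1, t2⟩ := id c1
      obtain rfl := up_unique h1.2.1.le h3 t (mem_Up.mp t1).1 (mem_Up.mp t1).2
      have c2 : ∃ t ∈ s.Up b, s.deep t := ⟨tb, h4, h6 (t2.elim R_loc And.right)⟩
      unfold tp; rw [if_pos c1, if_pos c2]; split_ifs <;> linarith
    · have : s.tp P a = P.pd := by unfold tp; rw [if_neg c1, if_pos ⟨ta, h3, h5⟩]
      linarith
  obtain ⟨uz, huz⟩ := exists_up tz.2.1.ge
  obtain ⟨ut, hut⟩ := exists_up tt.2.1.ge
  have x1 := x_thin2 (by omega) h2 hz ht hne.symm tz tt huz hut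
  have x2 := x_thin2 (by omega) h2 ht hz hne tt tz hut huz
  rcases x1.1 with h | h
  · exact fin z t uz ut tz tt huz hut h x2.2
  · rw [add_comm]; exact fin t z ut uz tt tz hut huz h x1.2

theorem sf_R (h : P.Five) (v : V) (hv : s.R v) :
    0 ≤ ∑ y ∈ s.Sd v, (s.sf P y v - s.sf P v y) := sum_nonneg fun y _ => by
  have := h.1
  unfold sf; rw [if_neg (c := s.d v = 5 ∧ ¬ s.loc v) fun h => h.2 (R_loc hv)]
  split_ifs <;> linarith

theorem nt5 (H : P.OK s.M) {w : V} (h5 : 5 ≤ s.d w) (hR : ¬ s.R w) : 0 ≤ s.nt P w := by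
  obtain ⟨e1, e2, e3, e4, e5, e6, e7, e8, e9, e10, -⟩ := P.eqs
  obtain ⟨o1, o2, o3, -⟩ := H.ord
  obtain ⟨f1, f2, f3, f4, f5, f6, f7, f8, f9, f10⟩ := H.five
  have a : (s.nu w : ℝ) * P.p6 ≤ s.inn (s.pay P) w := sum_ge_c fun y hy =>
    F_ge (by linarith) fun _ => by
      have := (mem_Up.mp hy).2
      rw [pay5 (by omega)]; exact rate_p6 H.ord (by omega)
  have b : s.out (s.pay P) w ≤ s.nl w * s.rate P w :=
    sum_le_c fun y _ => by rw [F_nR hR, pay5 h5]
  have c := cnt (c := s.toCtx) w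
  by_cases h6 : 6 ≤ s.d w
  · rw [nt_eq (by omega)]
    unfold nin nout
    have : (0 : ℝ) ≤ s.nu w * P.p6 := mul_nonneg (Nat.cast_nonneg _) (by linarith)
    have d6 : (6 : ℝ) ≤ s.d w := by exact_mod_cast h6
    unfold rate at b; rw [if_pos h6] at b
    split_ifs at b with h
    · rw [show s.nl w = s.d w by omega] at b
      have := mul_nonneg (sub_nonneg.mpr d6) (by linarith : 0 ≤ 1 - P.p6)
      linarith
    · have h7 : (s.nl w : ℝ) ≤ s.d w - 1 := by
        rw [le_sub_iff_add_le]; exact_mod_cast (by omega : s.nl w + 1 ≤ s.d w)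
      have := mul_le_mul_of_nonneg_right h7 (by linarith : 0 ≤ (3 + P.μ) / 5)
      have := mul_nonneg (sub_nonneg.mpr d6) (by linarith : 0 ≤ 1 - (3 + P.μ) / 5)
      linarith
  have d5 : s.d w = 5 := by omega
  have s0 : ∀ y, 0 ≤ s.sf P y w := fun y => by unfold sf; split_ifs <;> linarith
  have s1 : (s.ns w : ℝ) * (- P.k5) ≤ ∑ y ∈ s.Sd w, (s.sf P y w - s.sf P w y) :=
    sum_ge_c fun y _ => by
      have := s0 y
      have : s.sf P w y ≤ P.k5 := by unfold sf; split_ifs <;> linarith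
      linarith
  have s2 : s.nu w = 0 → ∀ y, s.sf P w y = 0 := fun h y => if_neg fun h' => h'.2 (loc_iff.mpr h)
  have s3 : s.nu w = 0 → 0 ≤ ∑ y ∈ s.Sd w, (s.sf P y w - s.sf P w y) := fun h =>
    sum_nonneg fun y _ => by rw [s2 h]; simpa using s0 y
  unfold nt net
  unfold rate at b; rw [if_neg h6] at b
  have cr : (s.nu w : ℝ) + s.ns w + s.nl w = 5 := by rw [d5] at c; exact_mod_cast c
  rw [d5]; push_cast
  split_ifs at b with h1 h2
  · have u1 : (1 : ℝ) ≤ s.nu w := by exact_mod_cast h1.1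
    have u2 : (1 : ℝ) ≤ s.ns w := by exact_mod_cast h1.2
    rw [show (s.nl w : ℝ) = 5 - s.nu w - s.ns w by linarith] at b
    have := mul_nonneg (sub_nonneg.mpr u1) (by linarith : 0 ≤ P.p6 + P.y)
    have := mul_nonneg (sub_nonneg.mpr u2) (by linarith : 0 ≤ P.y - P.k5)
    linarith
  · by_cases h0 : s.nu w = 0
    · by_cases h3 : 2 ≤ s.ns w
      · have : (s.nl w : ℝ) ≤ 3 := by exact_mod_cast (by omega : s.nl w ≤ 3)
        have := mul_le_mul_of_nonneg_right this (by linarith : 0 ≤ P.v5)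
        have := s3 h0
        rw [h0] at a
        push_cast at a
        linarith
      · obtain ⟨z, z1, z2⟩ : ∃ z, s.SA w z ∧ ¬ s.loc z := by
          rcases h2 with h | h | h
          exacts [by omega, by omega, h]
        have := ns_pos z1
        rw [(s1_of (by omega) z1).sd, sum_singleton, s2 h0, show s.sf P z w = P.k5 from
          if_pos ⟨z1.2 ▸ d5, z2⟩]
        rw [h0] at a; rw [show s.nl w = 4 by omega] at b
        push_cast at *; linarith
    · have h3 : s.ns w = 0 := by omega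
      rw [h3] at s1
      have u1 : (1 : ℝ) ≤ s.nu w := by exact_mod_cast (by omega : 1 ≤ s.nu w)
      have : (s.nl w : ℝ) ≤ 4 := by exact_mod_cast (by omega : s.nl w ≤ 4)
      have := mul_le_mul_of_nonneg_right this (by linarith : 0 ≤ P.v5)
      have := mul_le_mul_of_nonneg_right u1 (by linarith : 0 ≤ P.p6)
      push_cast at s1
      linarith
  · have h0 : s.nu w = 0 := by omega
    have := s3 h0
    have : (s.nl w : ℝ) ≤ 5 := by exact_mod_cast (by omega : s.nl w ≤ 5)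
    have := mul_le_mul_of_nonneg_right this (by linarith : 0 ≤ P.u)
    rw [h0] at a
    push_cast at a
    linarith

end St

end Pool.Agent.Lib.MP_c0533c_co
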