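import Pool.Agent.Lib.MP_c0533c_co.Lev3

namespace Pool.Agent.Lib.MP_c0533c_co
open Classical Finset

variable {V : Type} [Fintype V]
namespace St
open Ctx
variable {s : St V} {P : Par}

/-- ordinary vertex of degree four -/
def T4 (s : St V) (t : V) : Prop := ¬ s.R t ∧ s.d t = 4
def sing (s : St V) (v : V) : Prop := s.d v = 3 ∧ s.nu v = 1
def act (s : St V) (t : V) : Prop := s.deep t ∧ (s.loc t ∨ ∃ v ∈ s.Lo t, s.thin v)

theorem T4.sa {t y : V} (h : s.T4 t) (hy : s.SA t y) : s.T4 y :=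
  ⟨nR_sa h.1 hy h.2.le, hy.2 ▸ h.2⟩
theorem T4.cnt {t : V} (h : s.T4 t) : s.nu t + s.ns t + s.nl t = 4 := h.2 ▸ Ctx.cnt t
theorem T4.mp {t : V} (h : s.T4 t) (lt : s.loc t) : ∃ r n, s.MP t r n := St.mp lt h.2.le h.1
theorem T4.nloc {t : V} (h : s.T4 t) (hk : ¬ s.K t) (hs : 2 ≤ s.ns t) : ¬ s.loc t := fun lt => by
  obtain ⟨r, n, hm⟩ := h.mp lt
  obtain ⟨a, ha⟩ := exists_sd (c := s.toCtx) (v := t) (by omega)
  obtain ⟨b, hb, hne⟩ := other_sd hs a
  exact hk (hm.core ha hb hne.symm).1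

theorem lo4 (hM : 4 ≤ s.M) {t v : V} (h : s.T4 t) (hv : v ∈ s.Lo t) : s.d v = 2 ∨ s.d v = 3 := by
  have := (mem_Lo.mp hv).2
  have := h.2
  by_contra hc
  exact h.1 (leaf_R hM (by omega) (up_lo.mpr hv))

theorem sing_av {t v : V} (h : s.T4 t) (hv : v ∈ s.Lo t) (h1 : s.sing v) : s.Av t (s.M - 1) := by
  obtain ⟨-, l, a, -, b⟩ := single h1.2.le (up_lo.mpr hv) h.1
  exact ⟨l, a, by omega⟩

theorem av3 (hM : 5 ≤ s.M) {t v : V} (h : s.T4 t) (hv : v ∈ s.Lo t) {k : ℕ} (hk : 3 ≤ k)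
    (ha : s.Av v k) : s.d v = 3 ∧ ((s.nu v = 1 ∧ s.nl v ≠ 2) ∨ (s.nu v = 2 ∧ s.nl v ≠ 1)) := by
  have h1 := nu_pos (up_lo.mpr hv)
  rcases lo4 (by omega) h hv with h2 | h3
  · have := av_two (by omega) hv h2.le ha; omega
  · have := cnt (c := s.toCtx) v
    have : s.ns v ≠ 0 := fun h0 => by have := av_iso3 hM h3 h0 h1 k ha; omega
    omega

theorem pr_multi (H : P.OK s.M) {t v : V} (h : s.T4 t) (hv : v ∈ s.Lo t) (h1 : ¬ s.sing v) :
    s.price P t v ≤ P.pd ∧ ((s.d v = 2 → ∀ z, s.G.Adj v z → ¬ s.thin z) → s.price P t v ≤ P.ps) := by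
  have hM := H.hM
  obtain ⟨e1, e2, e3, e4, -⟩ := P.eqs
  obtain ⟨o1, o2, o3, o4, o5, o6, o7, o8, o9, o10, o11, o12, o13, o14, -⟩ := H.ord
  unfold price
  rcases lo4 (by omega) h hv with h2 | h3
  · rw [if_pos h2.le]
    refine ⟨by split_ifs <;> linarith, fun h => ?_⟩
    rw [if_neg fun ⟨z, a, b⟩ => h h2 z a b]
  · rw [if_neg (by omega), if_neg fun h => h1 ⟨h3, h⟩]
    constructor
    · split_ifs <;> linarith
    · intro _; split_ifs <;> linarith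

theorem pr_multi' (H : P.OK s.M) {t v : V} (h : s.T4 t) (hv : v ∈ s.Lo t) (h1 : ¬ s.sing v)
    (hd : ¬ s.deep t) : s.price P t v ≤ P.ps :=
  (pr_multi H h hv h1).2 fun h2 z a b => hd ((x_bv (by have := H.hM; omega) h2 a
    (mem_Lo.mp hv).1.symm b h.2.ge h.1).mono (by omega))

theorem pr_sing (H : P.OK s.M) {t v : V} (h1 : s.sing v) :
    s.price P t v ≤ P.sg ∧ (s.loc t → s.price P t v ≤ P.sz) ∧
      (¬ s.deep t ∨ ¬ s.thin v → s.price P t v ≤ P.s) := by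
  obtain ⟨e1, e2, e3, e4, e5, -⟩ := P.eqs
  have := prA_bd (s := s) H.ord v
  obtain ⟨o1, o2, o3, o4, o5, o6, o7, o8, o9, o10, o11, o12, -⟩ := H.ord
  unfold price
  rw [if_neg (by have := h1.1; omega), if_pos h1.2]
  refine ⟨by split_ifs <;> linarith, fun h => by rw [if_pos h]; split_ifs <;> linarith, ?_⟩
  rintro (h | h)
  · rw [if_neg h]; split_ifs <;> linarith
  · rw [if_neg fun h' => h ⟨h1.1, h1.2, h'⟩]; split_ifs <;> linarith

theorem pr_all (H : P.OK s.M) {t v : V} (h : s.T4 t) (hv : v ∈ s.Lo t) :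
    s.price P t v ≤ P.sg ∧ (s.loc t → s.price P t v ≤ P.sz) ∧ (¬ s.deep t → s.price P t v ≤ P.s) ∧
      (¬ s.thin v → s.price P t v ≤ P.sm) ∧ (¬ s.Av t (s.M - 1) → s.price P t v ≤ P.pd) := by
  obtain ⟨e1, e2, e3, e4, e5, -⟩ := P.eqs
  obtain ⟨o1, o2, o3, o4, o5, o6, o7, o8, o9, o10, o11, o12, o13, o14, o15, o16, o17, -⟩ := H.ord
  by_cases h1 : s.sing v
  · obtain ⟨a, b, c⟩ := pr_sing (t := t) H h1
    exact ⟨a, b, fun h => c (Or.inl h), fun h => (c (Or.inr h)).trans o16,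
      fun h' => absurd (sing_av h hv h1) h'⟩
  · have a := (pr_multi H h hv h1).1
    exact ⟨by linarith, fun _ => by linarith, fun hd => by linarith [pr_multi' H h hv h1 hd],
      fun _ => by linarith, fun _ => a⟩

theorem pr_key (H : P.OK s.M) {t v : V} (h : s.T4 t) (hv : v ∈ s.Lo t) {k : ℕ} (hk : 3 ≤ k)
    (ha : s.Av v k) : s.price P t v ≤ P.s ∧ (¬ s.sing v → s.price P t v ≤ 0) ∧
      (s.M - 3 ≤ k → s.price P t v ≤ P.semi) ∧ (s.M - 2 ≤ k → s.price P t v ≤ P.r) ∧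
      (s.M - 2 ≤ k → ¬ s.sing v → s.price P t v ≤ - P.R) ∧
      (s.M - 1 ≤ k → s.sing v → s.price P t v ≤ P.rI) ∧
      (s.M - 1 ≤ k → s.sing v → ¬ s.hasT2 v → s.price P t v ≤ P.r1) := by
  have hM := H.hM
  obtain ⟨o1, o2, o3, o4, o5, o6, o7, o8, o9, o10, o11, o12, o13, o14, o15, -⟩ := H.ord
  obtain ⟨h3, ⟨h1, h2⟩ | ⟨h1, h2⟩⟩ := av3 (by omega) h hv hk ha
  · have hs : s.sing v := ⟨h3, h1⟩
    unfold price prA
    rw [if_neg (by omega), if_pos h1, if_neg h2]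
    refine ⟨by split_ifs <;> linarith, fun h => absurd hs h, fun h => ?_, fun h => ?_,
      fun _ h => absurd hs h, fun h _ => ?_, fun h _ h' => ?_⟩
    · rw [if_pos (ha.mono h)]; split_ifs <;> linarith
    · rw [if_pos (ha.mono h)]; split_ifs <;> linarith
    · rw [if_pos (ha.mono h)]; split_ifs <;> linarith
    · rw [if_pos (ha.mono h), if_neg h']
  · have hs : ¬ s.sing v := fun h => by have := h.2; omega
    unfold price
    rw [if_neg (by omega), if_neg (by omega), if_pos h1, if_neg h2]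
    refine ⟨by split_ifs <;> linarith, fun _ => by split_ifs <;> linarith,
      fun _ => by split_ifs <;> linarith, fun h => ?_, fun h _ => ?_,
      fun _ h => absurd h hs, fun _ h => absurd h hs⟩
    · rw [if_pos (ha.mono h)]; exact o15
    · rw [if_pos (ha.mono h)]

theorem pr_nact (H : P.OK s.M) {t v : V} (h : s.T4 t) (hv : v ∈ s.Lo t) (ha : ¬ s.act t) :
    s.price P t v ≤ P.sm ∧ (s.loc t → s.price P t v ≤ P.s) := by
  obtain ⟨-, -, a, b, -⟩ := pr_all H h hv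
  obtain ⟨o1, o2, o3, o4, o5, o6, o7, o8, o9, o10, o11, o12, o13, o14, o15, o16, -⟩ := H.ord
  refine ⟨?_, fun lt => a fun hd => ha ⟨hd, Or.inl lt⟩⟩
  by_cases hd : s.deep t
  · exact b fun h' => ha ⟨hd, Or.inr ⟨v, hv, h'⟩⟩
  · exact (a hd).trans o16

theorem nin4 (H : P.OK s.M) {t : V} (h : s.T4 t) : s.nu t * P.u ≤ s.nin P t := by
  obtain ⟨e1, e2, e3, e4, e5, e6, -⟩ := P.eqs
  obtain ⟨o1, o2, o3, -⟩ := H.ord
  refine sum_ge_c fun w hw => F_ge (by linarith) fun _ => ?_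
  have := (mem_Up.mp hw).2; have := h.2
  rw [pay5 (by omega)]; exact rate_u H.five H.ord w

theorem nt4 {t : V} (h : s.T4 t) :
    s.nt P t = 1 + P.μ + s.nin P t - ∑ v ∈ s.Lo t, s.price P t v := by
  rw [nt_eq (by have := h.2; omega), h.2]
  unfold nout; rw [out_nR h.1, sum_congr rfl fun v _ => pay4 h.2]
  push_cast; ring

theorem nt_ge (H : P.OK s.M) {t : V} (h : s.T4 t) {B : ℝ} (hB : ∀ v ∈ s.Lo t, s.price P t v ≤ B) :
    1 + P.μ + s.nu t * P.u - s.nl t * B ≤ s.nt P t := by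
  have := nin4 H h; have := sum_le_c hB
  rw [nt4 h]; unfold nl; linarith

theorem nt_ge1 (H : P.OK s.M) {t a : V} (h : s.T4 t) {A B : ℝ} (ha : a ∈ s.Lo t)
    (hA : s.price P t a ≤ A) (hB : ∀ v ∈ s.Lo t, s.price P t v ≤ B) :
    1 + P.μ + s.nu t * P.u - A - (s.nl t - 1) * B ≤ s.nt P t := by
  have := nin4 H h; have := sum_le_1 ha hB
  rw [nt4 h]; unfold nl; linarith

theorem nt_ge2 (H : P.OK s.M) {t a b : V} (h : s.T4 t) {A A' B : ℝ} (ha : a ∈ s.Lo t)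
    (hb : b ∈ s.Lo t) (hne : a ≠ b) (hA : s.price P t a ≤ A) (hA' : s.price P t b ≤ A')
    (hB : ∀ v ∈ s.Lo t, s.price P t v ≤ B) :
    1 + P.μ + s.nu t * P.u - A - A' - (s.nl t - 2) * B ≤ s.nt P t := by
  have := nin4 H h; have := sum_le_2 ha hb hne hB
  rw [nt4 h]; unfold nl; linarith

theorem head_lo {t y : V} {l : List V} {k : ℕ} (a : s.DP (t :: l)) (hy : y ∉ l)
    (hs : ∀ z, s.SA t z → z = y) (hk : k ≤ l.length) (h0 : 1 ≤ k) :
    ∃ v ∈ s.Lo t, v ∈ l ∧ s.Av v k := by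
  cases l with
  | nil => simp at hk; omega
  | cons v l =>
    rcases adj_cases a.rel0.1 with h | h | h
    · have := (mem_Up.mp h).2; have := a.rel0.2; omega
    · exact absurd (by simp [hs v h]) hy
    · exact ⟨v, h, by simp, l, a.tail, hk⟩

theorem key2 (hM : 3 ≤ s.M) {t v y : V} (hv : v ∈ s.Lo t) (h1 : s.sing v)
    (ly : s.loc y) (dy : 4 ≤ s.d y) (hne : y ≠ t) (hs : ∀ z, s.SA t z → z = y) :
    ∃ v2 ∈ s.Lo t, v2 ≠ v ∧ s.Av v2 (s.M - 2) := by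
  obtain ⟨-, l, a1, a2, a3, a4⟩ := single_top' h1.2.le (up_lo.mpr hv) ly
    (by have := h1.1; omega) hne
  obtain ⟨v2, b1, b2, b3⟩ := head_lo (k := s.M - 2) a1 a3 hs (by omega) (by omega)
  exact ⟨v2, b1, fun e => a2 (e ▸ b2), b3⟩

theorem pre_key {t : V} {n k : ℕ} (h : s.Pre t n) (hk : k ≤ n) (h0 : 1 ≤ k) :
    ∃ v ∈ s.Lo t, s.Av v k := by
  rcases h.cases with h | ⟨x, a, b, e⟩
  · omega
  · exact ⟨x, mem_Lo.mpr ⟨a, b⟩, e.mono hk⟩

theorem key_nd {t v : V} {k : ℕ} (hv : v ∈ s.Lo t) (ha : s.Av v k) (hk : 4 ≤ k) (hM : 4 ≤ s.M) :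
    ¬ s.deep t := fun hd => by
  have := low_bv (mem_Lo.mp hv).1 (mem_Lo.mp hv).2 ha hd; omega

theorem post_loc {t : V} {m : ℕ} (lt : s.loc t) (h : s.Post t m) : m = 0 := by
  obtain ⟨post, a, b, rfl⟩ := h
  rcases last_of_dp a with rfl | ⟨q, p, rfl, b1, -⟩
  · rfl
  · have := lt p b1.symm; have := b p (by simp); omega

theorem iso4 (H : P.OK s.M) {t : V} (h : s.T4 t) (h0 : s.ns t = 0) : 0 ≤ s.nt P t := by
  have hM := H.hM
  obtain ⟨e1, e2, e3, e4, e5, e6, e7, -⟩ := P.eqs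
  obtain ⟨o1, o2, o3, o4, o5, o6, o7, o8, o9, o10, o11, o12, o13, o14, o15, o16, -⟩ := H.ord
  obtain ⟨g1, g2, g3, g4, g5, g6, g7, g8, -⟩ := H.sml
  have c := h.cnt
  have hs : ∀ z, s.SA t z → z = s.w := fun z hz => by have := ns_pos hz; omega
  have k2 : ∀ v ∈ s.Lo t, s.sing v → ∃ v2 ∈ s.Lo t, v2 ≠ v ∧ s.Av v2 (s.M - 2) := fun v hv h1 =>
    key2 (by omega) hv h1 lw (h.2 ▸ s.wmax t) (by rintro e; exact h.1 (e ▸ s.Rw)) hs
  have lp : ∀ r, s.LP (t :: r) → r = [] := fun r hr => by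
    cases r with
    | nil => rfl
    | cons a r => have := ns_pos hr.rel0; omega
  by_cases u0 : s.nu t = 0
  · have lt := loc_iff.mpr u0
    have nd : ¬ s.deep t := fun hd => by
      obtain ⟨r, m, a, b, e⟩ := Bv.lp hd
      obtain rfl := lp r a
      have := post_loc lt b; simp at e; omega
    have ps : ∀ v ∈ s.Lo t, s.price P t v ≤ P.s := fun v hv => (pr_all H h hv).2.2.1 nd
    have l4 : s.nl t = 4 := by omega
    by_cases hd : ∃ v ∈ s.Lo t, s.Av v (s.M - 2) ∧ ¬ s.sing v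
    · obtain ⟨v, a, b, e⟩ := hd
      have := nt_ge1 H h a ((pr_key H h a (by omega) b).2.2.2.2.1 le_rfl e) ps
      rw [u0, l4] at this; push_cast at this; linarith
    push Not at hd
    obtain ⟨r, n, a, b, e⟩ := h.mp lt
    obtain rfl := lp r a
    obtain ⟨v, v1, v2⟩ := pre_key (t := t) (k := s.M - 1) b (by simp at e; omega) (by omega)
    have sv := hd v v1 (v2.mono (by omega))
    by_cases hT : s.hasT2 v
    · obtain ⟨l, a1, a2, a3⟩ := iend (by omega) sv.1 hT (up_lo.mpr v1) h.2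
      obtain ⟨x, x1, x2, x3⟩ := head_lo (k := s.M - 1) a1 a2
        (fun z hz => by have := ns_pos hz; omega) (by omega) (by omega)
      have := nt_ge2 H h v1 x1 (fun e => a2 (e ▸ x2))
        ((pr_key H h v1 (by omega) v2).2.2.2.2.2.1 le_rfl sv)
        ((pr_key H h x1 (by omega) x3).2.2.2.2.2.1 le_rfl (hd x x1 (x3.mono (by omega)))) ps
      rw [u0, l4] at this; push_cast at this; linarith
    · obtain ⟨x, x1, x2, x3⟩ := k2 v v1 sv
      have := nt_ge2 H h v1 x1 x2.symm ((pr_key H h v1 (by omega) v2).2.2.2.2.2.2 le_rfl sv hT)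
        ((pr_key H h x1 (by omega) x3).2.2.2.1 le_rfl) ps
      rw [u0, l4] at this; push_cast at this; linarith
  by_cases u1 : s.nu t = 1
  · have l3 : s.nl t = 3 := by omega
    by_cases h1 : ∃ v ∈ s.Lo t, s.sing v
    · obtain ⟨v, a, b⟩ := h1
      obtain ⟨x, x1, -, x3⟩ := k2 v a b
      have := nt_ge1 H h x1 ((pr_key H h x1 (by omega) x3).2.2.2.1 le_rfl)
        fun v hv => (pr_all H h hv).2.2.1 (key_nd x1 x3 (by omega) (by omega))
      rw [u1, l3] at this; push_cast at this; linarith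
    push Not at h1
    by_cases h2 : ∃ x ∈ s.Lo t, s.d x = 2 ∧ ∃ z, s.G.Adj x z ∧ s.thin z
    · obtain ⟨x, x1, x2, z, z1, z2⟩ := h2
      obtain ⟨w, hw⟩ := exists_up u1.ge
      have a : P.y ≤ s.nin P t := by
        rw [nin_single u1 hw]
        refine F_ge H.five.2.2.2.2.1 fun hR => ?_
        obtain ⟨b1, b2, b3⟩ := x_s0 (by omega) x2 z1 (mem_Lo.mp x1).1.symm z2 h.2 h0 u1 hw hR
        rw [pay5 b1.ge]; unfold rate; rw [if_neg (by omega), if_pos ⟨b2, b3⟩]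
      have b := sum_le_c fun v hv => (pr_multi H h hv (h1 v hv)).1
      rw [show (s.Lo t).card = 3 from l3] at b
      rw [nt4 h]; push_cast at b; linarith
    · push Not at h2
      have := nt_ge H h fun v hv => (pr_multi H h hv (h1 v hv)).2 (h2 v hv)
      rw [u1, l3] at this; push_cast at this; linarith
  · have := nt_ge H h fun v hv => (pr_nact H h hv (by
      rintro ⟨a, b | ⟨z, z1, z2⟩⟩
      · exact u0 (loc_iff.mp b)
      · obtain ⟨x, x1, -, x3⟩ := k2 z z1 ⟨z2.1, z2.2.1⟩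
        exact key_nd x1 x3 (by omega) (by omega) a)).1
    have a : (2 : ℝ) ≤ s.nu t := by exact_mod_cast (by omega : 2 ≤ s.nu t)
    have b : (s.nl t : ℝ) ≤ 2 := by exact_mod_cast (by omega : s.nl t ≤ 2)
    have := mul_le_mul_of_nonneg_right a (by linarith : 0 ≤ P.u)
    have := mul_le_mul_of_nonneg_right b (by linarith : 0 ≤ P.sm)
    linarith

theorem nt_sig (H : P.OK s.M) {t : V} (h : s.T4 t) (hl : ¬ s.loc t) {B : ℝ} (h0 : 0 ≤ B)
    (hB : ∀ v ∈ s.Lo t, s.price P t v ≤ B) : P.k0 - (3 - s.ns t) * B ≤ s.nt P t := by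
  obtain ⟨e1, e2, e3, e4, e5, e6, e7, -⟩ := P.eqs
  obtain ⟨o1, -⟩ := H.ord
  have := nt_ge H h hB
  have c := h.cnt
  have : s.nu t ≠ 0 := fun h => hl (loc_iff.mpr h)
  have a : (1 : ℝ) ≤ s.nu t := by exact_mod_cast (by omega : 1 ≤ s.nu t)
  have b : (s.nl t : ℝ) ≤ 3 - s.ns t := by
    rw [le_sub_iff_add_le]; exact_mod_cast (by omega : s.nl t + s.ns t ≤ 3)
  have := mul_le_mul_of_nonneg_right a (by linarith : 0 ≤ P.u)
  have := mul_le_mul_of_nonneg_right b h0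
  linarith

theorem nt_sig1 (H : P.OK s.M) {t a : V} (h : s.T4 t) (hl : ¬ s.loc t) {A B : ℝ} (h0 : 0 ≤ B)
    (ha : a ∈ s.Lo t) (hA : s.price P t a ≤ A) (hB : ∀ v ∈ s.Lo t, s.price P t v ≤ B) :
    P.k0 - A - (2 - s.ns t) * B ≤ s.nt P t := by
  obtain ⟨e1, e2, e3, e4, e5, e6, e7, -⟩ := P.eqs
  obtain ⟨o1, -⟩ := H.ord
  have := nt_ge1 H h ha hA hB
  have c := h.cnt
  have : s.nu t ≠ 0 := fun h => hl (loc_iff.mpr h)
  have a : (1 : ℝ) ≤ s.nu t := by exact_mod_cast (by omega : 1 ≤ s.nu t)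
  have b : (s.nl t : ℝ) ≤ 3 - s.ns t := by
    rw [le_sub_iff_add_le]; exact_mod_cast (by omega : s.nl t + s.ns t ≤ 3)
  have := mul_le_mul_of_nonneg_right a (by linarith : 0 ≤ P.u)
  have := mul_le_mul_of_nonneg_right b h0
  linarith

theorem nt_tau (H : P.OK s.M) {t : V} (h : s.T4 t) (hl : s.loc t) {B : ℝ}
    (hB : ∀ v ∈ s.Lo t, s.price P t v ≤ B) : 1 + P.μ - (4 - s.ns t) * B ≤ s.nt P t := by
  have a := nt_ge H h hB
  have c := h.cnt
  have := loc_iff.mp hl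
  have b : (s.nl t : ℝ) = 4 - s.ns t := by
    rw [eq_sub_iff_add_eq]; exact_mod_cast (by omega : s.nl t + s.ns t = 4)
  rw [this, b] at a; simpa using a

theorem nt_tau1 (H : P.OK s.M) {t a : V} (h : s.T4 t) (hl : s.loc t) {A B : ℝ}
    (ha : a ∈ s.Lo t) (hA : s.price P t a ≤ A) (hB : ∀ v ∈ s.Lo t, s.price P t v ≤ B) :
    1 + P.μ - A - (3 - s.ns t) * B ≤ s.nt P t := by
  have a := nt_ge1 H h ha hA hB
  have c := h.cnt
  have := loc_iff.mp hl
  have b : (s.nl t : ℝ) = 4 - s.ns t := by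
    rw [eq_sub_iff_add_eq]; exact_mod_cast (by omega : s.nl t + s.ns t = 4)
  rw [this, b] at a; push_cast at a; linarith

end St

end Pool.Agent.Lib.MP_c0533c_co
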