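import Pool.Agent.Lib.MP_c0533c_co.Core

namespace Pool.Agent.Lib.MP_c0533c_co
open Classical Finset

variable {V : Type}
namespace Ctx
variable {c : Ctx V}

theorem last_of_dp {l : List V} {v : V} (h : c.DP (l ++ [v])) :
    l = [] ∨ ∃ q p, l = q ++ [p] ∧ c.G.Adj p v ∧ c.d v ≤ c.d p ∧ c.DP (q ++ [p]) := by
  rcases List.eq_nil_or_concat l with rfl | ⟨q, p, rfl⟩
  · exact Or.inl rfl
  · have h2 : c.DP (q ++ p :: v :: []) := by simpa using h
    exact Or.inr ⟨q, p, by simp, h2.rel.1, h2.rel.2, by simpa using h.left⟩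

theorem pv {v y : V} (hv : ¬ c.loc v) (hy : c.loc y) (hd : c.d v < c.d y) (hn : ¬ c.G.Adj v y) :
    ∃ l1 t l2, c.G.Adj v t ∧ c.d t = c.d v + 1 ∧ c.DP (t :: l2) ∧ c.DP (l1 ++ [v]) ∧
      (∀ x ∈ l1, c.d v < c.d x) ∧ (l1 ++ v :: t :: l2).Nodup ∧ y ∉ (l1 ++ v :: t :: l2).tail ∧
      (c.M + 1 ≤ l1.length + 2 + l2.length ∨ (l1 = [] ∧ c.M ≤ l2.length + 2)) := by
  rcases top hy hd hn with ⟨l, h1, h2, h3⟩ | ⟨l, h1, h2, h3⟩
  · rcases raise_cases h1 with h | ⟨l1, t, l2, rfl, a1, a2, a3, a4, a5⟩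
    · have := c.le _ h; omega
    · exact ⟨l1, t, l2, a1, a2, a3, a4, a5, h1.1, h3, Or.inl (by simp at h2; omega)⟩
  · rcases raise_cases h1 with h | ⟨l1, t, l2, e, a1, a2, a3, a4, a5⟩
    · exfalso
      unfold loc at hv; push Not at hv
      obtain ⟨z, z1, z2⟩ := hv
      have := c.le _ (h.cons z1.symm z2.le (by
        intro hz
        rcases List.mem_cons.mp hz with rfl | hz
        · omega
        · have := h.le_head z hz; omega))
      simp at this; omega
    · have hn := h1.1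
      have : l1 = [] := by
        cases l1 with
        | nil => rfl
        | cons a l1 =>
          simp only [List.cons_append, List.cons.injEq] at e
          obtain ⟨rfl, rfl⟩ := e
          simp at hn
      subst this
      simp only [List.nil_append, List.cons.injEq, true_and] at e
      subst e
      exact ⟨[], t, l2, a1, a2, a3, a4, a5, hn, h2, Or.inr ⟨rfl, by simp at h3; omega⟩⟩

theorem single_top {p t y : V} (h1 : c.G.Adj p t) (h2 : c.d p < c.d t)
    (h3 : ∀ z, c.G.Adj p z → c.d p < c.d z → z = t) (hy : c.loc y) (hd : c.d p < c.d y)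
    (hne : y ≠ t) :
    c.d t = c.d p + 1 ∧ ∃ l, c.DP (t :: l) ∧ p ∉ l ∧ y ∉ l ∧ c.M ≤ l.length + 2 := by
  obtain ⟨l1, s, l2, a1, a2, a3, a4, a5, a6, a7, a8⟩ :=
    pv (v := p) (fun h => by have := h t h1; omega) hy hd (fun h => hne (h3 y h hd))
  obtain rfl := h3 s a1 (by omega)
  have : l1 = [] := by
    rcases last_of_dp a4 with h | ⟨q, x, rfl, b1, -⟩
    · exact h
    · have := h3 x b1.symm (a5 x (by simp))
      grind
  subst this
  refine ⟨a2, l2, a3, by grind, by grind, ?_⟩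
  rcases a8 with h | h
  · simp at h; omega
  · exact h.2

theorem av_of_top {u y : V} (hu : c.loc u) (hy : c.loc y) (hd : c.d u < c.d y) : c.Av u c.M := by
  have hn : ¬ c.G.Adj u y := fun h => by have := hu y h; omega
  have key : ∀ l, DW c.G.Adj (c.d1 u) l → c.DP l := by
    intro l hl
    rcases raise_cases hl with h | ⟨l1, t, l2, -, a1, a2, -⟩
    · exact h
    · have := hu t a1; omega
  rcases top hy hd hn with ⟨l, h1, h2, -⟩ | ⟨l, h1, -, h3⟩
  · have := c.le _ (key l h1); omega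
  · exact ⟨l, key _ h1, h3⟩

theorem leaf_nbr [Fintype V] {a w z : V} (ha : c.d a ≤ 1) (h1 : c.G.Adj a w) (h2 : c.G.Adj a z) :
    z = w := by
  by_contra hne
  have : 2 ≤ c.d a := by
    unfold d; rw [dg_eq_card]
    exact Finset.one_lt_card.mpr ⟨z, by simpa using h2, w, by simpa using h1, hne⟩
  omega

theorem d_pos [Fintype V] {a w : V} (h1 : c.G.Adj a w) : 1 ≤ c.d a := by
  unfold d; rw [dg_eq_card]
  exact Finset.card_pos.mpr ⟨w, by simpa using h1⟩

theorem one_leaf [Fintype V] (hM : 3 ≤ c.M) {w a b : V} (hw : ∀ v, c.d v ≤ c.d w) (h3 : 3 ≤ c.d w)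
    (ha : c.G.Adj w a) (hb : c.G.Adj w b) (da : c.d a ≤ 1) (db : c.d b ≤ 1) : a = b := by
  by_contra hne
  have aw : a ≠ w := ha.ne.symm
  have bw : b ≠ w := hb.ne.symm
  have hn : ¬ c.G.Adj a b := fun h => bw (leaf_nbr da ha.symm h)
  obtain ⟨l, hl, hk⟩ := c.sat a b hne hn
  have nb : ∀ x z, (x = a ∨ x = b) → c.G.Adj x z → z = w := by
    rintro x z (rfl | rfl) h
    · exact leaf_nbr da ha.symm h
    · exact leaf_nbr db hb.symm h
  have up : ∀ x z, (x = a ∨ x = b) → c.G.Adj x z → ¬ dgP c.G a b z ≤ dgP c.G a b x := by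
    intro x z hx h
    obtain rfl := nb x z hx h
    have : c.d x ≤ 1 := by rcases hx with rfl | rfl <;> assumption
    simp only [dgP, hx, if_true]
    unfold d at *; omega
  have low : ∀ m, DW c.G.Adj (dgP c.G a b) m → c.DP m := by
    intro m hm
    refine hm.change ?_
    rintro l1 x z l2 - hA hw
    refine ⟨hA, ?_⟩
    by_cases hx : x = a ∨ x = b
    · exact absurd hw (up x z hx hA)
    · simp only [dgP, hx, if_false] at hw
      unfold d; omega
  have key : ∀ x z l1 l2, (x = a ∨ x = b) → (z = a ∨ z = b) → DW c.G.Adj (dgP c.G a b) (l1 ++ [x]) →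
      DW c.G.Adj (dgP c.G a b) (z :: l2) → c.M + 1 ≤ (l1 ++ x :: z :: l2).length → False := by
    intro x z l1 l2 hx hz h1 h2 hk
    have : l2 = [] := by
      cases l2 with
      | nil => rfl
      | cons q l2 => exact absurd h2.rel0.2 (up z q hz h2.rel0.1)
    subst this
    rcases last_of_dp (low _ h1) with rfl | ⟨q, p, rfl, b1, -, b3⟩
    · simp at hk; omega
    obtain rfl := nb x p hx b1.symm
    rcases last_of_dp b3 with rfl | ⟨q', y, rfl, e1, e2, -⟩
    · simp at hk; omega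
    have := (single_top (p := a) (y := y) ha.symm (by omega) (fun z h _ => nb a z (Or.inl rfl) h)
      (fun z _ => (hw z).trans e2) (by omega) e1.ne).1
    omega
  rcases split_new hl with h | ⟨l1, l2, ⟨rfl, h1, h2⟩ | ⟨rfl, h1, h2⟩⟩
  · have := c.le _ (low _ h); omega
  · exact key _ _ _ _ (Or.inl rfl) (Or.inr rfl) h1 h2 hk
  · exact key _ _ _ _ (Or.inr rfl) (Or.inl rfl) h1 h2 hk

/-- level component -/
def Cmp (c : Ctx V) (w v : V) : Prop := ∃ r, c.LP (w :: r) ∧ lst w r = v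

theorem Cmp.refl (w : V) : c.Cmp w w := ⟨[], LP.single w, rfl⟩

theorem Cmp.of_mem {w v : V} {r : List V} (h : c.LP (w :: r)) (hv : v ∈ w :: r) : c.Cmp w v := by
  rcases List.mem_cons.mp hv with rfl | hv
  · exact Cmp.refl _
  · obtain ⟨a, b, rfl⟩ := List.append_of_mem hv
    have h2 : c.LP ((w :: (a ++ [v])) ++ b) := by simpa using h
    exact ⟨a ++ [v], h2.left, by simp⟩

theorem Cmp.step {w v y : V} (h : c.Cmp w v) (hs : c.SA v y) : c.Cmp w y := by
  obtain ⟨r, h1, rfl⟩ := h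
  by_cases hy : y ∈ w :: r
  · exact Cmp.of_mem h1 hy
  · obtain ⟨q, hq, -⟩ := exists_lst w r
    have h2 := LP.snoc (hq ▸ h1) hs (hq ▸ hy)
    have e : q ++ [lst w r, y] = w :: (r ++ [y]) := by
      rw [← List.cons_append, hq]; simp
    exact ⟨r ++ [y], e ▸ h2, by simp⟩

theorem Cmp.d_eq {w v : V} (h : c.Cmp w v) : c.d v = c.d w := by
  obtain ⟨r, h1, rfl⟩ := h
  exact h1.d_eq' _ (lst_mem w r)

theorem Cmp.ind {S : V → Prop} (cl : ∀ y, S y → ∀ z, c.SA y z → S z) {w v : V} (h : c.Cmp w v)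
    (hw : S w) : S v := by
  obtain ⟨r, h1, rfl⟩ := h
  rcases List.mem_cons.mp (lst_mem w r) with e | e
  · rw [e]; exact hw
  · exact confine (Q := fun _ => True) (fun y hy z a _ => cl y hy z a) h1 hw (by simp) _ e

theorem Cmp.trans {a b e : V} (h1 : c.Cmp a b) (h2 : c.Cmp b e) : c.Cmp a e :=
  h2.ind (S := c.Cmp a) (fun _ hy _ hz => hy.step hz) h1

theorem Cmp.symm {a b : V} (h : c.Cmp a b) : c.Cmp b a :=
  h.ind (S := fun y => c.Cmp y a) (fun _ hy _ hz => ((Cmp.refl _).step hz.symm).trans hy)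
    (Cmp.refl a)

theorem card_cmp [Fintype V] {w : V} (hw : c.d w ≤ 4) :
    (univ.filter (c.Cmp w)).card ≤ 5 ^ c.M := by
  have key : ∀ k, (univ.filter (fun v => ∃ r, c.LP (w :: r) ∧ lst w r = v ∧ r.length ≤ k)).card
      ≤ 5 ^ k := by
    intro k
    induction k with
    | zero =>
      refine card_le_one.mpr ?_
      intro a ha b hb
      simp only [mem_filter, mem_univ, true_and, Nat.le_zero, List.length_eq_zero_iff] at ha hb
      obtain ⟨r, -, rfl, rfl⟩ := ha
      obtain ⟨r, -, rfl, rfl⟩ := hb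
      rfl
    | succ k ih =>
      set S := univ.filter (fun v => ∃ r, c.LP (w :: r) ∧ lst w r = v ∧ r.length ≤ k) with hS
      have h1 : univ.filter (fun v => ∃ r, c.LP (w :: r) ∧ lst w r = v ∧ r.length ≤ k + 1) ⊆
          S.biUnion (fun v => insert v (univ.filter (fun z => c.G.Adj v z))) := by
        intro v hv
        simp only [mem_filter, mem_univ, true_and] at hv
        obtain ⟨r, a1, rfl, a3⟩ := hv
        simp only [mem_biUnion, hS, mem_filter, mem_univ, true_and, mem_insert]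
        rcases List.eq_nil_or_concat r with rfl | ⟨q, p, rfl⟩
        · exact ⟨w, ⟨[], a1, rfl, by simp⟩, Or.inl rfl⟩
        · have a2 : c.LP ((w :: q) ++ [p]) := by simpa using a1
          obtain ⟨u, hu, -⟩ := exists_lst w q
          have a4 : c.LP (u ++ lst w q :: p :: []) := by
            have : u ++ lst w q :: p :: [] = (w :: q) ++ [p] := by rw [hu]; simp
            rw [this]; exact a2
          exact ⟨lst w q, ⟨q, a2.left, rfl, by simp at a3; omega⟩, Or.inr (by simpa using a4.rel.1)⟩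
      refine (card_le_card h1).trans ((card_biUnion_le_card_mul _ _ 5 ?_).trans ?_)
      · intro v hv
        simp only [hS, mem_filter, mem_univ, true_and] at hv
        obtain ⟨r, a1, a2, -⟩ := hv
        have := Cmp.d_eq ⟨r, a1, a2⟩
        have h2 := card_insert_le v (univ.filter (fun z => c.G.Adj v z))
        rw [← dg_eq_card] at h2
        unfold d at *; omega
      · rw [pow_succ]; exact Nat.mul_le_mul_right 5 ih
  refine le_trans (card_le_card ?_) (key c.M)
  intro v hv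
  simp only [mem_filter, mem_univ, true_and] at hv ⊢
  obtain ⟨r, a1, a2⟩ := hv
  have := c.le _ a1.dp
  exact ⟨r, a1, a2, by simp at this; omega⟩

end Ctx

/-- a saturated graph with a chosen vertex of maximum degree and the exceptional set -/
structure St (V : Type) [Fintype V] extends Ctx V where
  w : V
  R : V → Prop
  wmax : ∀ v, toCtx.d v ≤ toCtx.d w
  Rw : R w
  Rd : ∀ v, R v → toCtx.d v = toCtx.d w
  Rcl : ∀ v y, R v → toCtx.SA v y → toCtx.d v ≤ 4 → R y
  av : ∀ u, toCtx.loc u → toCtx.d u ≤ 4 → ¬ R u → toCtx.Av u M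
  small : toCtx.d w ≤ 4 → (univ.filter R).card ≤ 5 ^ M
  big : 5 ≤ toCtx.d w → ∀ v, R v → v = w

theorem exists_st [Fintype V] [Nonempty V] (c : Ctx V) : ∃ s : St V, s.toCtx = c := by
  obtain ⟨w, hw, hw'⟩ : ∃ w, (∀ v, c.d v ≤ c.d w) ∧
      (c.Av w c.M → ∀ u, c.d u = c.d w → c.Av u c.M) := by
    obtain ⟨w0, -, h0⟩ := exists_max_image univ c.d univ_nonempty
    by_cases h : ∃ u, c.d u = c.d w0 ∧ ¬ c.Av u c.M
    · obtain ⟨u, h1, h2⟩ := h
      exact ⟨u, fun v => h1 ▸ h0 v (mem_univ v), fun h => absurd h h2⟩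
    · push Not at h
      exact ⟨w0, fun v => h0 v (mem_univ v), fun _ => h⟩
  have lw : c.loc w := fun z _ => hw z
  by_cases h4 : c.d w ≤ 4
  · refine ⟨⟨c, w, c.Cmp w, hw, Ctx.Cmp.refl w, fun v h => h.d_eq, fun v y h h' _ => h.step h', ?_,
      fun _ => Ctx.card_cmp h4, fun h => by omega⟩, rfl⟩
    intro u hu _ hR
    rcases (hw u).lt_or_eq with h | h
    · exact Ctx.av_of_top hu lw h
    · rcases Ctx.pair hu lw (by rintro rfl; exact hR (Ctx.Cmp.refl _))
        (fun a => hR ((Ctx.Cmp.refl w).step ⟨a.symm, h.symm⟩)) with ⟨l, a, -, b⟩ | ⟨l, a, -, b⟩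
      · exact ⟨l, a, b⟩
      · exact hw' ⟨l, a, b⟩ u h
  · refine ⟨⟨c, w, fun v => v = w, hw, rfl, fun v h => h ▸ rfl, ?_, ?_, fun h => absurd h h4,
      fun _ _ h => h⟩, rfl⟩
    · rintro v y rfl _ h; omega
    · intro u hu h _
      exact Ctx.av_of_top hu lw (by omega)

end Pool.Agent.Lib.MP_c0533c_co
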