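import Pool.Agent.Lib.MP_c0533c_co.Nb

namespace Pool.Agent.Lib.MP_c0533c_co
open Classical Finset

variable {V : Type}
namespace Ctx
variable {c : Ctx V}

theorem not_link {t : V} (h : c.loc t) : ¬ c.link t := fun hl => hl.2.1 h

theorem hd_mem_of_ne {L : List V} {z : V} (h : L ≠ []) : hd L z ∈ L := by
  cases L with
  | nil => exact absurd rfl h
  | cons y L => simp

theorem lemA {t z : V} {L : List V} (h : c.Ch t L z) (ht : c.K t) (lt : c.loc t) (lz : c.loc z)
    (hL : L ≠ []) (hne : z ≠ t) : c.G.Adj t z := by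
  by_contra hn
  obtain ⟨q, q1, q2, q3⟩ := ht.other (hd L z)
  obtain ⟨q', p1, p2, p3⟩ := h.2.2.2.2.1.other (lst t L)
  refine sepPair lt lz hne.symm hn (S := fun y => y ∈ L) ?_ h.sa_hd q2 (hd_mem_of_ne hL) ?_
    h.sa_lst.symm p2 (lst_mem_of_ne hL) ?_
  · intro y hy w a b e f
    rcases h.closed ht y hy w a b with h | h | h
    exacts [absurd h f, h, absurd h e]
  · intro hq
    rcases h.adj_start ht hq q2.symm with h | h
    exacts [q3 h, hne h.1]
  · intro hq
    rcases (h.rev ht (not_link lt)).adj_start h.2.2.2.2.1 (List.mem_reverse.mpr hq) p2.symm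
      with h | h
    · exact p3 (h.trans (hd_reverse _ _))
    · exact hne h.1.symm

theorem pred {t a b : V} {r : List V} {n : ℕ} (h : c.MP t (a :: r) n) (hb : c.SA t b) (hne : b ≠ a) :
    ∃ m r2, r = m ++ b :: r2 ∧ (∀ x ∈ a :: m, c.K x ∧ x ≠ t ∧ x ≠ b) ∧ c.loc (lst a m) ∧
      c.SA (lst a m) b ∧ c.MP (lst a m) (((a :: m).dropLast).reverse ++ t :: b :: r2) n := by
  have hbr : b ∈ r := by simpa [hne] using h.mem hb
  obtain ⟨m, r2, rfl⟩ := List.append_of_mem hbr
  obtain ⟨q, hq, -⟩ := exists_lst a m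
  have e : a :: (m ++ b :: r2) = q ++ lst a m :: b :: r2 := by
    rw [← List.cons_append, hq]; simp
  have hn := h.1.1
  have h1 : c.LP ((a :: m ++ [b]) ++ r2) := by simpa using h.1.tail
  have hK := core_cycle h1.left h.1.rel0 hb (by grind)
  have h2 := (e ▸ h).posa hb
  refine ⟨m, r2, rfl, fun x hx => ⟨hK x (by grind), by grind, by grind⟩, h2.loc,
    LP.rel (l1 := q) (e ▸ h.1.tail), ?_⟩
  rw [hq, List.dropLast_concat]; exact h2

theorem pred' {t a b : V} {r : List V} {n : ℕ} (h : c.MP t (a :: r) n) (hb : c.SA t b)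
    (hne : b ≠ a) : ∃ p, c.loc p ∧ c.K p ∧ c.SA b p ∧ p ≠ t ∧ p ∈ a :: r := by
  obtain ⟨m, r2, rfl, h1, h2, h3, -⟩ := pred h hb hne
  have := lst_mem a m
  exact ⟨_, h2, (h1 _ this).1, h3.symm, (h1 _ this).2.1, by grind⟩

theorem pred_eq {t a b : V} {r : List V} {n : ℕ} (h : c.MP t (a :: r) n) (hb : c.SA t b)
    (hne : b ≠ a) (H : ∀ p, c.loc p → c.K p → c.SA b p → p ≠ t → p ∈ a :: r → p = a) :
    ∃ r2, r = b :: r2 ∧ c.MP a (t :: b :: r2) n := by
  obtain ⟨m, r2, rfl, h1, h2, h3, h4⟩ := pred h hb hne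
  have hm := lst_mem a m
  have e := H _ h2 (h1 _ hm).1 h3.symm (h1 _ hm).2.1 (by grind)
  have hn := h.1.1
  cases m with
  | nil => exact ⟨r2, rfl, by simpa using h4⟩
  | cons x m => have := lst_mem x m; simp only [lst_cons] at e; grind

theorem no_loop {t a b : V} {r L : List V} {n : ℕ} (h : c.MP t (a :: r) n) (hb : c.SA t b)
    (hne : b ≠ a) (hc : c.Ch t L b) (ha : a ∈ L) (ht : c.K t) : False := by
  obtain ⟨m, r2, rfl, h1, h2, -⟩ := pred h hb hne
  have h3 : c.LP ((a :: m) ++ b :: r2) := h.1.tail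
  have h4 := confine (S := fun y => y ∈ L) (Q := fun x => c.K x ∧ x ≠ t ∧ x ≠ b)
    (fun y hy w a b => by
      rcases hc.closed ht y hy w a b.1 with h | h | h
      exacts [absurd h b.2.1, h, absurd h b.2.2]) h3.left ha (fun z hz => h1 z (by simp [hz]))
  have : lst a m ∈ L := by
    rcases List.mem_cons.mp (lst_mem a m) with e | e
    · rw [e]; exact ha
    · exact h4 _ e
  exact (hc.2.2.2.1 _ this).2.1 h2

theorem S2.mp_head {t a b : V} {r : List V} {n : ℕ} (h2 : c.S2 t a b) (h : c.MP t r n) :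
    ∃ r', r = a :: r' ∨ r = b :: r' := by
  cases r with
  | nil => exact absurd (h.mem h2.1) (by simp)
  | cons x r => rcases h2.2.2.2 x h.1.rel0 with rfl | rfl <;> simp

theorem both_loc {t a b : V} (h : c.S2 t a b) (ka : c.K a) (ha : c.loc a) (hb : c.loc b)
    (hn : ¬ c.G.Adj a b) : False := by
  obtain ⟨n, h1, h2⟩ := L1 h ha hb hn
  obtain ⟨a', -, b2, b3⟩ := ka.other t
  have : c.LP [a', a, t] := ((LP.single t).cons h.1.symm (by simpa using h.1.ne.symm)).cons b2.symm
    (by simpa using ⟨b2.ne.symm, b3⟩)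
  have := master this h1 (post_zero a')
  simp at this; omega

theorem link_chain {t a z : V} {L : List V} (hc : c.Ch t L z) (e : hd L z = a) :
    (c.link a ∧ a ∈ L) ∨ (¬ c.link a ∧ L = [] ∧ z = a) := by
  cases L with
  | nil => exact Or.inr ⟨e ▸ hc.2.2.2.2.2.1, rfl, e⟩
  | cons y L => exact Or.inl ⟨e ▸ hc.2.2.2.1 y (by simp), by simp [← e]⟩

/-- a chain with links from a non triangular level degree two local maximum ends at a branch vertex -/
theorem t2_chain {t a b z : V} {r L : List V} {n : ℕ} (h : c.S2 t a b) (hm : c.MP t r n)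
    (hn : ¬ c.G.Adj a b) (hc : c.Ch t L z) (ha : a ∈ L) (e : hd L z = a) : ¬ c.loc z := by
  intro lz
  have kt := (hm.core h.1 h.2.1 h.2.2.1).1
  have hL : L ≠ [] := List.ne_nil_of_mem ha
  have nl : ∀ p, c.loc p → p ∉ L := fun p hp h => (hc.2.2.2.1 _ h).2.1 hp
  obtain ⟨r', hr⟩ := h.mp_head hm
  by_cases hz : z = t
  · subst hz
    have hb : b ∈ L := by
      rcases h.2.2.2 _ hc.sa_lst.symm with e' | e'
      · exfalso
        obtain ⟨y, L', rfl⟩ := List.exists_cons_of_ne_nil hL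
        cases L' with
        | nil => exact hc.2.2.2.2.2.2 rfl rfl
        | cons x L' =>
          have := lst_mem x L'; have := hc.2.1
          simp only [lst_cons, hd_cons] at e e'; grind
      · exact e' ▸ lst_mem_of_ne hL
    rcases hr with rfl | rfl
    · obtain ⟨p, p1, p2, p3, p4, -⟩ := pred' hm h.2.1 h.2.2.1.symm
      rcases hc.closed kt b hb p p3 p2 with h | h | h
      exacts [p4 h, nl p p1 h, p4 h]
    · obtain ⟨p, p1, p2, p3, p4, -⟩ := pred' hm h.1 h.2.2.1
      rcases hc.closed kt a ha p p3 p2 with h | h | h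
      exacts [p4 h, nl p p1 h, p4 h]
  · have hs : c.SA t z := ⟨lemA hc kt hm.loc lz hL hz, by
      rw [← hc.sa_lst.2]; exact (hc.lp.d_eq' _ (lst_mem t L)).symm⟩
    rcases h.2.2.2 z hs with rfl | rfl
    · exact nl z lz ha
    rcases hr with rfl | rfl
    · exact no_loop hm h.2.1 h.2.2.1.symm hc ha kt
    · obtain ⟨p, p1, p2, p3, p4, -⟩ := pred' hm h.1 h.2.2.1
      rcases hc.closed kt a ha p p3 p2 with h | h | h
      exacts [p4 h, nl p p1 h, hn (h ▸ p3.1)]

theorem tri_apex {t a b e : V} {r : List V} {n : ℕ} (ht : ∀ z, c.SA t z → c.K z → z = a ∨ z = b)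
    (ha : ∀ z, c.SA a z → c.K z → z = t ∨ z = b) (hm : c.MP b r n) (h1 : c.SA b t)
    (he : c.SA b e) (h2 : e ≠ t) (h3 : e ≠ a) : False :=
  sepOne' hm (S := fun y => y = t ∨ y = a) (by rintro y (rfl | rfl) w a b e <;> grind) h1 he
    (Or.inl rfl) (by grind)

theorem no_insert {z t x y : V} {r l1 l2 : List V} {n : ℕ} (hm : c.MP z r n)
    (e : z :: r = l1 ++ x :: y :: l2) (ht : t ∉ z :: r) (h1 : c.SA x t) (h2 : c.SA t y) : False := by
  have h := hm.1
  rw [e] at h ht
  have hn := h.1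
  have a1 : c.LP ((l1 ++ [x]) ++ y :: l2) := by simpa using h
  have a2 : c.LP (l1 ++ x :: t :: y :: l2) :=
    a1.left.glue ((a1.right.cons h2 (by grind)).cons h1 (by have := h1.ne; grind)) (by grind)
  have hl := congrArg List.length e
  have e2 : lst z r = lst y l2 := by
    cases l1 with
    | nil => simp only [List.nil_append, List.cons.injEq] at e; rw [e.2]; rfl
    | cons p l1 => simp only [List.cons_append, List.cons.injEq] at e; rw [e.2]; simp
  have h3 := hm.2.2
  have h4 := e2 ▸ hm.2.1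
  cases l1 with
  | nil => have := master a2 h4 (post_zero _); simp at this hl; omega
  | cons p l1 =>
    have := master (e := p) (r := l1 ++ x :: t :: y :: l2) a2 (by simpa using h4) (post_zero _)
    simp at this hl; omega

theorem tri33 {t a b a' b' : V} (ht : c.S2 t a b) (ha : c.S3 a t b a') (hb : c.S3 b t a b')
    (lt : c.loc t) : ¬ c.loc b' := by
  intro lb
  have sb := hb.2.2.1
  have hn : ¬ c.G.Adj t b' := fun h => by
    rcases ht.2.2.2 b' ⟨h, ht.2.1.2.trans sb.2⟩ with e | e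
    exacts [hb.2.2.2.2.2.1 e.symm, sb.ne e.symm]
  rcases pairMP lt lb hb.2.2.2.2.1 hn with ⟨r, n, hm, hr⟩ | ⟨r, n, hm, hr⟩
  · obtain ⟨r', rfl | rfl⟩ := ht.mp_head hm
    · obtain ⟨r2, rfl, h2⟩ := pred_eq hm ht.2.1 ht.2.2.1.symm (by
        intro p _ _ p3 p4 p5; have := hb.2.2.2.2.2.2 p p3; grind)
      have hn := hm.1.1
      cases r2 with
      | nil => have := h2.mem ha.2.2.1; have := ha.2.2.2.2.1; have := ha.2.2.2.2.2.1; grind
      | cons q r2 => have := hb.2.2.2.2.2.2 q hm.1.tail.tail.rel0; grind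
    · have hn := hm.1.1
      cases r' with
      | nil => have := hm.mem ht.1; have := ht.2.2.1; grind
      | cons q r' =>
        have : q = a := by have := hb.2.2.2.2.2.2 q hm.1.tail.rel0; grind
        subst this
        have := (MP.posa (r1 := []) hm ht.1).mem sb
        have := hb.2.2.2.2.1; have := hb.2.2.2.2.2.1; grind
  · have htr : t ∉ b' :: r := by have := hb.2.2.2.2.1; grind
    rcases split_mem (hm.mem sb.symm) with ⟨r2, rfl⟩ | ⟨r1, p, r2, rfl⟩
    · cases r2 with
      | nil =>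
        have : c.LP [a, t, b] := ((LP.single b).cons ht.2.1 (by simpa using ht.2.1.ne)).cons
          ht.1.symm (by simpa using ⟨ht.1.ne.symm, ht.2.2.1⟩)
        have := master this hm.2.1 (post_zero a)
        have := hm.2.2
        simp at *; omega
      | cons q r2 =>
        have hn := hm.1.1
        have : q = a := by have := hb.2.2.2.2.2.2 q hm.1.tail.rel0; grind
        subst this
        exact no_insert hm (l1 := [b']) rfl htr hb.1 ht.1
    · have hn := hm.1.1
      have : p = a := by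
        have := hb.2.2.2.2.2.2 p (LP.rel (l1 := b' :: r1) hm.1).symm; grind
      subst this
      exact no_insert hm (l1 := b' :: r1) rfl htr ha.1 ht.2.1

theorem tri33_chain {t a b a' b' z : V} {r L : List V} {n : ℕ} (ht : c.S2 t a b)
    (ha : c.S3 a t b a') (hb : c.S3 b t a b') (hm : c.MP t r n) (la : c.loc a) (lb : c.loc b)
    (hne : a' ≠ b') (hc : c.Ch b L z) (hL : b' ∈ L) : ¬ c.loc z := by
  intro lz
  obtain ⟨kt, ka, kb⟩ := hm.core ht.1 ht.2.1 ht.2.2.1
  have lt := hm.loc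
  have hL' : L ≠ [] := List.ne_nil_of_mem hL
  have nl : ∀ p, c.loc p → p ∉ L := fun p hp h => (hc.2.2.2.1 _ h).2.1 hp
  have m1 := lst_mem_of_ne (e := b) hL'
  have s1 := hc.sa_lst.symm
  have na := tri33 ht.symm hb ha lt
  have nb := tri33 ht ha hb lt
  have hz : z = a := by
    by_cases e : z = b
    · subst e
      exfalso
      rcases hb.2.2.2.2.2.2 _ s1 with e | e | e
      · exact nl t lt (e ▸ m1)
      · exact nl a la (e ▸ m1)
      · rcases hb.2.2.2.2.2.2 _ hc.sa_hd with e' | e' | e'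
        · exact nl t lt (e' ▸ hd_mem_of_ne hL')
        · exact nl a la (e' ▸ hd_mem_of_ne hL')
        · obtain ⟨y, L', rfl⟩ := List.exists_cons_of_ne_nil hL'
          cases L' with
          | nil => exact hc.2.2.2.2.2.2 rfl rfl
          | cons x L' =>
            have := lst_mem x L'; have := hc.2.1
            simp only [lst_cons, hd_cons] at e e'; grind
    · have hs : c.SA b z := ⟨lemA hc kb lb lz hL' e, by
        rw [← hc.sa_lst.2]; exact (hc.lp.d_eq' _ (lst_mem b L)).symm⟩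
      rcases hb.2.2.2.2.2.2 _ hs with rfl | rfl | rfl
      · exfalso
        rcases ht.2.2.2 _ s1 with e | e
        exacts [nl a la (e ▸ m1), nl b lb (e ▸ m1)]
      · rfl
      · exact absurd lz nb
  subst hz
  have ea : a' ∈ L := by
    rcases ha.2.2.2.2.2.2 _ s1 with e | e | e
    exacts [absurd (e ▸ m1) (nl t lt), absurd (e ▸ m1) (nl b lb), e ▸ m1]
  obtain ⟨r', rfl | rfl⟩ := ht.mp_head hm
  · obtain ⟨r2, rfl, h2⟩ := pred_eq hm ht.2.1 ht.2.2.1.symm (by
      intro p _ _ p3 p4 p5; have := hb.2.2.2.2.2.2 p p3; grind)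
    obtain ⟨p, p1, p2, p3, p4, -⟩ := pred' h2 ha.2.2.1 ha.2.2.2.2.1.symm
    rcases hc.closed kb a' ea p p3 p2 with h | h | h
    · subst h
      rcases hb.2.2.2.2.2.2 _ p3.symm with e | e | e
      exacts [na (e ▸ lt), na (e ▸ la), hne e]
    exacts [nl p p1 h, p4 h]
  · obtain ⟨r2, rfl, h2⟩ := pred_eq hm ht.1 ht.2.2.1 (by
      intro p _ _ p3 p4 p5; have := ha.2.2.2.2.2.2 p p3; grind)
    obtain ⟨p, p1, p2, p3, p4, -⟩ := pred' h2 hb.2.2.1 hb.2.2.2.2.1.symm
    rcases hc.closed kb b' hL p p3 p2 with h | h | h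
    · exact p4 h
    · exact nl p p1 h
    · subst h
      rcases ha.2.2.2.2.2.2 _ p3.symm with e | e | e
      exacts [nb (e ▸ lt), nb (e ▸ lb), hne e.symm]

theorem closed_len {t : V} {r : List V} (h : c.LP (t :: r)) (S : List V)
    (cl : ∀ y, y = t ∨ y ∈ S → ∀ z, c.SA y z → z = t ∨ z ∈ S) :
    r.length ≤ S.length ∧ ∀ z ∈ r, z ∈ S := by
  have h1 := confine (S := fun y => y = t ∨ y ∈ S) (Q := fun _ => True)
    (fun y hy z a _ => cl y hy z a) h (Or.inl rfl) (by simp)
  have hn := h.1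
  have h2 : ∀ z ∈ r, z ∈ S := by grind
  exact ⟨((List.nodup_cons.mp hn).2.subperm h2).length_le, h2⟩

end Ctx

end Pool.Agent.Lib.MP_c0533c_co
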