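import Pool.Agent.Lib.MP_c0533c_co.Lev3

namespace Pool.Agent.Lib.MP_c0533c_co
open Classical Finset

variable {V : Type}
namespace Ctx
variable {c : Ctx V}

def Out (c : Ctx V) (u v : V) : Prop :=
  c.SA u v ∧ ∀ r, c.LP (u :: v :: r) → ∀ z ∈ v :: r, ¬ c.K z
def Dn (c : Ctx V) (u v y : V) : Prop := ∃ r, c.LP (u :: v :: r) ∧ lst v r = y
def Ax (c : Ctx V) (u v : V) (k : ℕ) : Prop := ∃ l, c.DP (u :: l) ∧ v ∉ l ∧ k ≤ l.length + 1
def Bx (c : Ctx V) (u v : V) (k : ℕ) : Prop := ∃ l, c.DP (l ++ [u]) ∧ v ∉ l ∧ k ≤ l.length + 1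
def Hyp (c : Ctx V) (u v : V) (h : ℕ) : Prop := ¬ c.Av v (c.M + 1 - h) ∧ c.Bx u v (h - 1)

theorem lp2 {u v : V} (h : c.SA u v) : c.LP [u, v] := (LP.single v).cons h (by simpa using h.ne)
theorem Dn.refl {u v : V} (h : c.SA u v) : c.Dn u v v := ⟨[], lp2 h, rfl⟩
theorem Dn.ne {u v y : V} (h : c.Dn u v y) : y ≠ u := by
  obtain ⟨r, h1, rfl⟩ := h
  have := lst_mem v r; have := h1.1; grind
theorem Dn.of_mem {u v y : V} {r : List V} (h : c.LP (u :: v :: r)) (hy : y ∈ v :: r) :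
    c.Dn u v y := by
  rcases List.mem_cons.mp hy with rfl | hy
  · exact Dn.refl h.rel0
  · obtain ⟨a, b, rfl⟩ := List.append_of_mem hy
    have h2 : c.LP ((u :: v :: (a ++ [y])) ++ b) := by simpa using h
    exact ⟨a ++ [y], h2.left, by simp⟩
theorem Dn.step {u v y z : V} (h : c.Dn u v y) (hs : c.SA y z) (hz : z ≠ u) : c.Dn u v z := by
  obtain ⟨r, h1, rfl⟩ := h
  by_cases hy : z ∈ v :: r
  · exact Dn.of_mem h1 hy
  · obtain ⟨q, hq, -⟩ := exists_lst v r
    have h2 := LP.snoc (l := u :: q) (by rw [List.cons_append, ← hq]; exact h1) hs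
      (by rw [List.cons_append, ← hq]; simp only [List.mem_cons] at hy ⊢; grind)
    have e : u :: q ++ [lst v r, z] = u :: v :: (r ++ [z]) := by
      rw [← List.cons_append (a := v), hq]; simp
    exact ⟨r ++ [z], e ▸ h2, by simp⟩
theorem Dn.cmp {u v y : V} (h : c.Dn u v y) : c.Cmp u y :=
  let ⟨r, h1, h2⟩ := h; ⟨v :: r, h1, h2⟩
theorem Dn.back {u v x : V} {r : List V} (hr : c.LP (x :: r)) (hu : u ∉ x :: r)
    (h : c.Dn u v (lst x r)) : c.Dn u v x := by
  induction r generalizing x with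
  | nil => exact h
  | cons y r ih => exact (ih hr.tail (by grind) h).step hr.rel0.symm (by grind)

theorem Dn.core {u v x : V} (h : c.Dn u v x) (hx : c.SA u x) (hne : x ≠ v) :
    c.K u ∧ c.K v ∧ c.K x := by
  obtain ⟨r, h1, rfl⟩ := h
  have := core_of_mem h1 h1.rel0 hx hne.symm (by simp) (lst_mem v r)
  exact ⟨this.1, this.2.1, this.2.2.1⟩

theorem Dn.disj {v a b y : V} (h1 : c.Dn v a y) (h2 : c.Dn v b y) (hne : a ≠ b) :
    c.K v ∧ c.K a := by
  obtain ⟨r, a1, rfl⟩ := h2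
  exact ((Dn.back a1.tail (List.nodup_cons.mp a1.1).1 h1).core a1.rel0 hne.symm).imp_right And.left

theorem Dn.bridge {u v y : V} (h1 : c.Dn u v y) (h2 : c.Dn v u y) : c.K u ∧ c.K v := by
  obtain ⟨r, a1, rfl⟩ := h2
  cases r with
  | nil => exact absurd rfl h1.ne
  | cons x r =>
    have hn := a1.1
    exact ((Dn.back a1.tail.tail (by grind) h1).core a1.tail.rel0 (by grind)).imp_right And.left

theorem Out.nk {u v : V} (h : c.Out u v) : ¬ c.K v := h.2 [] (lp2 h.1) v (by simp)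
theorem Out.dn {u v y : V} (h : c.Out u v) (hy : c.Dn u v y) : ¬ c.K y := by
  obtain ⟨r, h1, rfl⟩ := hy; exact h.2 r h1 _ (lst_mem v r)
theorem ext_lp {u v x : V} {r : List V} (h : c.SA u v) (hk : ¬ c.K v) (hx : x ≠ u)
    (hr : c.LP (v :: x :: r)) : c.LP (u :: v :: x :: r) :=
  hr.cons h fun hu => hk ((Dn.of_mem hr (by have := h.ne; grind)).core h.symm hx.symm).1
theorem Out.child {u v x : V} (h : c.Out u v) (hs : c.SA v x) (hx : x ≠ u) : c.Out v x :=
  ⟨hs, fun _ hr z hz => h.2 _ (ext_lp h.1 h.nk hx hr) z (List.mem_cons_of_mem _ hz)⟩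
theorem out_core {y x : V} (hy : c.K y) (hs : c.SA y x) (hx : ¬ c.K x) : c.Out y x := by
  refine ⟨hs, fun r hr z hz hk => ?_⟩
  rcases List.mem_cons.mp hz with rfl | hz
  · exact hx hk
  · obtain ⟨a, b, rfl⟩ := List.append_of_mem hz
    have h2 : c.LP ((y :: (x :: a) ++ [z]) ++ b) := by simpa using hr
    exact hx (core_path h2.left hy hk x (by simp))
theorem out_tree {u v : V} (h : ∀ z, c.Cmp u z → ¬ c.K z) (hs : c.SA u v) : c.Out u v :=
  ⟨hs, fun _ hr z hz => h z (Dn.of_mem hr hz).cmp⟩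

theorem dn_iff {u v y : V} (h : c.Out u v) :
    c.Dn u v y ↔ y = v ∨ ∃ x, c.SA v x ∧ x ≠ u ∧ c.Dn v x y := by
  constructor
  · rintro ⟨r, h1, rfl⟩
    cases r with
    | nil => exact Or.inl rfl
    | cons x r => exact Or.inr ⟨x, h1.tail.rel0, by have := h1.1; grind, r, h1.tail, rfl⟩
  · rintro (rfl | ⟨x, -, h2, r, h3, rfl⟩)
    · exact Dn.refl h.1
    · exact ⟨x :: r, ext_lp h.1 h.nk h2 h3, rfl⟩

theorem master2 {u : V} {l1 l2 : List V} {n m : ℕ} (h : c.LP (l1 ++ u :: l2))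
    (h1 : c.Pre (lst u l2) n) (h2 : c.Post (hd l1 u) m) :
    m + l1.length + 1 + l2.length + n ≤ c.M := by
  cases l1 with
  | nil => simpa using master h h1 h2
  | cons a l1 =>
    have := master (e := a) (r := l1 ++ u :: l2) h (by simpa using h1) h2
    simp at this ⊢; omega

theorem bridge_le {u v : V} {a b : ℕ} (h : c.SA u v) (hk : ¬ (c.K u ∧ c.K v)) (ha : c.Ax v u a)
    (hb : c.Bx u v b) : a + b ≤ c.M := by
  obtain ⟨l, a1, a2, a3⟩ := ha
  obtain ⟨l', b1, b2, b3⟩ := hb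
  obtain ⟨r, n, c1, c2, c3, c4⟩ := decomp' a1
  obtain ⟨r', m, d1, d2, d3, d4⟩ := decompB b1
  have e1 : c.LP (u :: v :: r) := c1.cons h (by have := h.ne; grind)
  have e2 : c.LP (v :: u :: r') := d1.cons h.symm (by have := h.ne; grind)
  have e3 : c.LP (r'.reverse ++ u :: v :: r) := LP.glue (by simpa using d1.rev) e1
    fun y hy hy' => hk ((Dn.of_mem e1 hy').bridge (Dn.of_mem e2 (by grind)))
  have := master2 e3 (by simpa using c2) (by rw [hd_reverse]; exact d2)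
  simp at this; omega

theorem av_split {u v : V} {k : ℕ} (h : c.SA u v) (hk : ¬ (c.K u ∧ c.K v)) (ha : c.Av v k) :
    c.Ax v u k ∨ c.Ax u v (k - 1) := by
  obtain ⟨l, a1, a2⟩ := ha
  by_cases hu : u ∈ l
  swap
  · exact Or.inl ⟨l, a1, hu, a2⟩
  right
  obtain ⟨r, pre, rfl, b1, -, b3⟩ := decomp a1
  have hr : u ∈ r := by
    rcases List.mem_append.mp hu with h' | h'
    · exact h'
    · have := b3 u h'; have := h.2; omega
  obtain ⟨x, r, rfl⟩ := List.exists_cons_of_ne_nil (List.ne_nil_of_mem hr)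
  have : u = x := by
    by_contra hne
    have := (Dn.of_mem b1 hr).core h.symm hne
    exact hk ⟨this.2.2, this.1⟩
  subst this
  have hn := a1.1
  exact ⟨r ++ pre, a1.tail, by grind, by simp at a2 ⊢; omega⟩

theorem lip {p q : V} {n : ℕ} (h : c.SA p q) (hk : ¬ (c.K p ∧ c.K q)) (ha : c.Av p n) :
    c.Av q (n - 1) := by
  rcases av_split h.symm (fun h => hk h.symm) ha with ⟨l, a, b, e⟩ | ⟨l, a, -, e⟩
  · exact ⟨p :: l, a.cons h.1.symm h.2.le (by have := h.ne; grind), by simp; omega⟩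
  · exact ⟨l, a, e⟩

theorem Bx.mono {u v : V} {k j : ℕ} (h : c.Bx u v k) (hj : j ≤ k) : c.Bx u v j :=
  let ⟨l, a, b, e⟩ := h; ⟨l, a, b, hj.trans e⟩

theorem hyp_of {p q : V} {bp bq h : ℕ} (hs : c.SA p q) (hk : ¬ (c.K p ∧ c.K q))
    (h1 : c.Bx p q bp) (h2 : c.Bx q p bq) (a : h ≤ bp) (b : h + 1 ≤ bq) : c.Hyp p q h := by
  refine ⟨fun ha => ?_, h1.mono (by omega)⟩
  rcases av_split hs hk ha with h | h
  · have := bridge_le hs hk h h1; omega
  · have := bridge_le hs.symm (fun h => hk h.symm) h h2; omega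

theorem dp_snoc {l : List V} {u v : V} (h : c.DP (l ++ [u])) (hs : c.SA u v) (hv : v ∉ l) :
    c.DP ((l ++ [u]) ++ [v]) := by
  simpa using DW.glue h (lp2 hs).dp (by grind)

theorem bx_step {u v x : V} {k : ℕ} (h : c.SA u v) (hk : ¬ c.K v) (hs : c.SA v x) (hx : x ≠ u)
    (hb : c.Bx u v k) : c.Bx v x (k + 1) := by
  obtain ⟨l, a1, a2, a3⟩ := hb
  refine ⟨l ++ [u], dp_snoc a1 h a2, ?_, by simp; omega⟩
  intro hx'
  have hl : x ∈ l := by simpa [hx] using hx'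
  obtain ⟨l1, l2, rfl⟩ := List.append_of_mem hl
  have b1 : c.DP (x :: (l2 ++ [u])) := DW.right (l1 := l1) (by simpa using a1)
  obtain ⟨r, pre, e, c1, -, c3⟩ := decomp b1
  have hu : u ∈ r := by
    have : u ∈ r ++ pre := by rw [← e]; simp
    rcases List.mem_append.mp this with h' | h'
    · exact h'
    · have := c3 u h'; have := h.2; have := hs.2; omega
  have hv : v ∉ r := fun h' => by
    have : v ∈ l2 ++ [u] := by rw [e]; simp [h']
    have := h.ne; grind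
  exact hk ((Dn.of_mem (c1.cons hs (by have := hs.ne; grind)) (List.mem_cons_of_mem _ hu)).core
    h.symm hx.symm).1

theorem Hyp.child {u v x : V} {h : ℕ} (ho : c.Out u v) (H : c.Hyp u v (h + 1)) (hs : c.SA v x)
    (hx : x ≠ u) : c.Hyp v x h := by
  have hb := bx_step ho.1 ho.nk hs hx H.2
  have hk : ¬ (c.K v ∧ c.K x) := fun h => ho.nk h.1
  refine ⟨fun ha => ?_, hb.mono (by omega)⟩
  rcases av_split hs hk ha with h | ⟨l, a, -, e⟩
  · have := bridge_le hs hk h hb; omega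
  · exact H.1 ⟨l, a, by omega⟩

theorem bx_of_lp {p q : V} {r : List V} {m : ℕ} (h : c.LP (p :: q :: r))
    (h2 : c.Post (lst q r) m) : c.Bx q p (1 + r.length + m) := by
  obtain ⟨r', e1, e2, e3⟩ := rev_cons q r
  obtain ⟨post, pre, a, rfl, h3, h4, -⟩ := join (e1 ▸ h.tail.rev) (e2.symm ▸ pre_zero q) h2
  obtain rfl := List.length_eq_zero_iff.mp h3
  rw [List.append_nil, ← e1] at a
  refine ⟨post ++ r.reverse, by simpa using a, ?_, by simp; omega⟩
  intro hp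
  rcases List.mem_append.mp hp with hp | hp
  · have := h4 p hp
    have := h.d_eq _ (lst_mem q r); omega
  · have := h.1; grind

theorem centre {D m : ℕ} (r : List V) : ∀ (p : V) (k : ℕ), c.LP (p :: r) → c.Post (lst p r) m →
    D ≤ k + r.length + m → (∃ l, c.DP (l ++ [p]) ∧ (∀ x ∈ r, x ∉ l) ∧ k ≤ l.length + 1) →
    c.Av p (c.M + 1 - k) → (∀ x ∈ r, ¬ c.K x) → k ≤ D / 2 → 1 ≤ k →
    ∃ r1 q q' r2, p :: r = r1 ++ q :: q' :: r2 ∧ c.Hyp q q' ((D + 1) / 2 - 1) ∧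
      c.Hyp q' q (D / 2 - 1) := by
  induction r with
  | nil =>
    rintro p k - h2 h3 ⟨l, a, -, b⟩ h5 - h7 -
    have := av_post h5 h2
    have := c.le _ a
    simp at *; omega
  | cons q r ih =>
    rintro p k h1 h2 h3 ⟨l, a, b, e⟩ h5 h6 h7 h8
    have hk : ¬ (c.K p ∧ c.K q) := fun h => h6 q (by simp) h.2
    simp only [List.length_cons] at h3
    by_cases hd : k = D / 2
    · have b1 : c.Bx p q k := ⟨l, a, b q (by simp), e⟩
      have b2 := bx_of_lp h1 h2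
      exact ⟨[], p, q, r, rfl, hyp_of h1.rel0 hk b1 b2 (by omega) (by omega),
        hyp_of h1.rel0.symm (fun h => hk h.symm) b2 b1 (by omega) (by omega)⟩
    · have hn := h1.1
      obtain ⟨r1, x, y, r2, e1, e2⟩ := ih q (k + 1) h1.tail h2 (by omega)
        ⟨l ++ [p], dp_snoc a h1.rel0 (b q (by simp)), by grind, by simp; omega⟩
        ((lip h1.rel0 hk h5).mono (by omega)) (by grind) (by omega) (by omega)
      exact ⟨p :: r1, x, y, r2, by simp [e1], e2⟩

variable [Fintype V]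

noncomputable def Ds (c : Ctx V) (u v : V) : Finset V := univ.filter (c.Dn u v)
theorem mem_Ds {u v y : V} : y ∈ c.Ds u v ↔ c.Dn u v y := by simp [Ds]
noncomputable def W (c : Ctx V) (k : ℝ) (f : V → ℝ) (u v : V) : ℝ := k + ∑ y ∈ c.Ds u v, f y
noncomputable def adj (c : Ctx V) (k : ℝ) (f : V → ℝ) (v : V) : ℝ := f v - k * (c.ns v - 2)

theorem Ds_eq {u v : V} (h : c.Out u v) :
    c.Ds u v = insert v (((c.Sd v).erase u).biUnion (c.Ds v)) := by
  ext y
  simp only [mem_Ds, dn_iff h, mem_insert, mem_biUnion, mem_erase, mem_Sd]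
  grind

theorem card_ch {u v : V} (h : c.SA u v) : (((c.Sd v).erase u).card : ℝ) = c.ns v - 1 := by
  rw [card_erase_of_mem (mem_Sd.mpr h.symm), Nat.cast_sub (card_pos.mpr ⟨u, mem_Sd.mpr h.symm⟩)]
  simp [ns]

theorem W_rec {u v : V} (k : ℝ) (f : V → ℝ) (h : c.Out u v) :
    c.W k f u v = c.adj k f v + ∑ x ∈ (c.Sd v).erase u, c.W k f v x := by
  unfold W adj
  rw [Ds_eq h, sum_insert, sum_biUnion, sum_add_distrib, sum_const, nsmul_eq_mul, card_ch h.1]
  · ring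
  · intro a _ b _ hne
    exact disjoint_left.mpr fun y h1 h2 => h.nk ((mem_Ds.mp h1).disj (mem_Ds.mp h2) hne).1
  · simp only [mem_biUnion, mem_Ds, not_exists, not_and]
    exact fun x _ hx => hx.ne rfl

theorem Out.ind {Q : V → V → Prop}
    (H : ∀ u v, c.Out u v → (∀ x, c.SA v x → x ≠ u → Q v x) → Q u v) {u v : V}
    (h : c.Out u v) : Q u v := by
  induction hn : (c.Ds u v).card using Nat.strong_induction_on generalizing u v with
  | _ n ih =>
    refine H u v h fun x hs hx => ih _ ?_ (h.child hs hx) rfl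
    rw [← hn]
    refine card_lt_card ⟨fun y hy => ?_, fun hc => ?_⟩
    · exact mem_Ds.mpr ((dn_iff h).mpr (Or.inr ⟨x, hs, hx, mem_Ds.mp hy⟩))
    · exact (mem_Ds.mp (hc (mem_Ds.mpr (Dn.refl h.1)))).ne rfl

theorem W_ge {u v : V} {k B : ℝ} {f : V → ℝ} (h : c.Out u v)
    (hB : ∀ x, c.SA v x → x ≠ u → B ≤ c.W k f v x) :
    c.adj k f v + (c.ns v - 1) * B ≤ c.W k f u v := by
  rw [W_rec k f h, ← card_ch h.1]
  have := sum_ge_c (S := (c.Sd v).erase u) (f := c.W k f v) (B := B)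
    fun x hx => hB x (mem_Sd.mp (mem_erase.mp hx).2) (mem_erase.mp hx).1
  linarith

theorem W_base {k B : ℝ} {f : V → ℝ} {Z : V → Prop} (cl : ∀ y, Z y → ∀ z, c.SA y z → Z z)
    (h0 : 0 ≤ B) (hB : ∀ y, Z y → ¬ c.K y → 1 ≤ c.ns y →
      0 ≤ c.adj k f y ∧ (c.ns y = 1 → B ≤ c.adj k f y)) {u v : V} (h : c.Out u v) :
    Z v → B ≤ c.W k f u v := by
  refine h.ind (Q := fun u v => Z v → B ≤ c.W k f u v) fun u v h ih hz => ?_
  have a := W_ge (k := k) (f := f) (B := B) h fun x hs hx => ih x hs hx (cl v hz x hs)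
  have b := ns_pos h.1.symm
  obtain ⟨b1, b2⟩ := hB v hz h.nk b
  by_cases e : c.ns v = 1
  · rw [e] at a; have := b2 e; push_cast at a; linarith
  · have : (1 : ℝ) ≤ c.ns v - 1 := by
      rw [le_sub_iff_add_le]; exact_mod_cast (by omega : 1 + 1 ≤ c.ns v)
    nlinarith

theorem W_mono {k : ℝ} {f : V → ℝ} {Z : V → Prop} (cl : ∀ y, Z y → ∀ z, c.SA y z → Z z)
    (hB : ∀ y, Z y → ¬ c.K y → 1 ≤ c.ns y → 0 ≤ c.adj k f y) (r1 : List V) :
    ∀ {p q x y : V} {r r2 : List V}, c.Out p q → Z q → c.LP (p :: q :: r) →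
      p :: q :: r = r1 ++ x :: y :: r2 → c.Out x y ∧ Z y ∧ c.W k f x y ≤ c.W k f p q := by
  induction r1 with
  | nil =>
    intro p q x y r r2 h hz _ e
    simp only [List.nil_append, List.cons.injEq] at e
    obtain ⟨rfl, rfl, -⟩ := e
    exact ⟨h, hz, le_rfl⟩
  | cons a r1 ih =>
    intro p q x y r r2 h hz hl e
    simp only [List.cons_append, List.cons.injEq] at e
    obtain ⟨rfl, e⟩ := e
    cases r with
    | nil => cases r1 <;> simp at e
    | cons z r =>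
      have hs := hl.tail.rel0
      have hne : z ≠ p := by have := hl.1; grind
      obtain ⟨a1, a2, a3⟩ := ih (h.child hs hne) (cl q hz z hs) hl.tail e
      refine ⟨a1, a2, a3.trans ?_⟩
      rw [W_rec k f h]
      have := single_le_sum (s := (c.Sd q).erase p) (f := c.W k f q) (fun x hx =>
        W_base cl le_rfl (fun y a b e => ⟨hB y a b e, fun _ => hB y a b e⟩)
          (h.child (mem_Sd.mp (mem_erase.mp hx).2) (mem_erase.mp hx).1)
          (cl q hz x (mem_Sd.mp (mem_erase.mp hx).2))) (mem_erase.mpr ⟨hne, mem_Sd.mpr hs⟩)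
      have := hB q hz h.nk (ns_pos h.1.symm)
      linarith

theorem cmp_edge {u v : V} (k : ℝ) (f : V → ℝ) (h : c.SA u v) (hk : ¬ c.K u) :
    ∑ y ∈ univ.filter (c.Cmp u), f y = c.W k f u v + c.W k f v u - 2 * k := by
  rw [cmp_eq (S := c.Ds u v ∪ c.Ds v u) (by simpa [mem_Ds] using Or.inr (Dn.refl h.symm)),
    sum_union (disjoint_left.mpr fun y h1 h2 => hk ((mem_Ds.mp h1).bridge (mem_Ds.mp h2)).1)]
  · unfold W; ring
  · intro y hy z hz
    simp only [mem_union, mem_Ds] at hy ⊢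
    rcases hy with hy | hy
    · by_cases e : z = u
      · rw [e]; exact Or.inr (Dn.refl h.symm)
      · exact Or.inl (hy.step hz e)
    · by_cases e : z = v
      · rw [e]; exact Or.inl (Dn.refl h)
      · exact Or.inr (hy.step hz e)
  · intro y hy
    simp only [mem_union, mem_Ds] at hy
    exact hy.elim Dn.cmp fun hy => ((Cmp.refl u).step h).trans hy.cmp

theorem core_sum (f : V → ℝ) {Z : V → Prop} (cl : ∀ y, Z y → ∀ z, c.SA y z → Z z) :
    ∑ v ∈ univ.filter (fun v => Z v ∧ ∃ y, c.Cmp v y ∧ c.K y), f v =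
      ∑ y ∈ univ.filter (fun y => Z y ∧ c.K y),
        (f y + ∑ x ∈ (c.Sd y).filter (fun x => ¬ c.K x), ∑ z ∈ c.Ds y x, f z) := by
  rw [sum_add_distrib, ← sum_filter_add_sum_filter_not _ c.K]
  congr 1
  · refine sum_congr ?_ fun _ _ => rfl
    ext y
    simp only [mem_filter, mem_univ, true_and]
    exact ⟨fun h => ⟨h.1.1, h.2⟩, fun h => ⟨⟨h.1, y, Cmp.refl y, h.2⟩, h.2⟩⟩
  have e : ∀ y, ∑ x ∈ (c.Sd y).filter (fun x => ¬ c.K x), ∑ z ∈ c.Ds y x, f z =
      ∑ z ∈ ((c.Sd y).filter (fun x => ¬ c.K x)).biUnion (c.Ds y), f z := fun y => by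
    rw [sum_biUnion]
    intro a ha b _ hne
    exact disjoint_left.mpr fun y h1 h2 => (mem_filter.mp ha).2
      ((mem_Ds.mp h1).disj (mem_Ds.mp h2) hne).2
  simp only [e]
  rw [← sum_biUnion]
  · refine sum_congr ?_ fun _ _ => rfl
    ext z
    simp only [mem_filter, mem_univ, true_and, mem_biUnion, mem_Ds, mem_Sd]
    constructor
    · rintro ⟨⟨hz, y, h1, h2⟩, h3⟩
      have key : ∀ v, c.Cmp y v → Z v ∧ (c.K v ∨ ∃ a, (Z a ∧ c.K a) ∧ ∃ x, (c.SA a x ∧ ¬ c.K x) ∧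
          c.Dn a x v) := by
        intro v hv
        refine hv.ind (S := fun v => Z v ∧ (c.K v ∨ ∃ a, (Z a ∧ c.K a) ∧
          ∃ x, (c.SA a x ∧ ¬ c.K x) ∧ c.Dn a x v)) ?_ ⟨h1.ind cl hz, Or.inl h2⟩
        rintro p ⟨p1, p2⟩ q hq
        refine ⟨cl p p1 q hq, ?_⟩
        by_cases kq : c.K q
        · exact Or.inl kq
        rcases p2 with p2 | ⟨a, a1, x, a2, a3⟩
        · exact Or.inr ⟨p, ⟨p1, p2⟩, q, ⟨hq, kq⟩, Dn.refl hq⟩
        · exact Or.inr ⟨a, a1, x, a2, a3.step hq (by rintro rfl; exact kq a1.2)⟩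
      exact (key z h1.symm).2.resolve_left h3
    · rintro ⟨a, a1, x, a2, a3⟩
      exact ⟨⟨a3.cmp.ind cl a1.1, a, a3.cmp.symm, a1.2⟩, (out_core a1.2 a2.1 a2.2).dn a3⟩
  · intro a ha b hb hne
    refine disjoint_left.mpr fun z h1 h2 => ?_
    simp only [coe_filter, mem_univ, true_and, Set.mem_ofPred_eq] at ha hb
    simp only [mem_filter, mem_biUnion, mem_Ds, mem_Sd] at h1 h2
    obtain ⟨x, ⟨x1, x2⟩, x3⟩ := h1
    obtain ⟨y, ⟨y1, y2⟩, r, y3, rfl⟩ := h2
    exact (out_core ha.2 x1 x2).dn ((Dn.back y3.tail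
      (fun h => (out_core hb.2 y1 y2).2 r y3 a h ha.2) x3).step y1.symm hne.symm) hb.2

end Ctx

end Pool.Agent.Lib.MP_c0533c_co
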