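import Pool.Agent.Lib.MP_c0533c_co.Tree
import Pool.Agent.Lib.MP_c0533c_co.Price

namespace Pool.Agent.Lib.MP_c0533c_co
open Classical Finset

variable {V : Type} [Fintype V]
namespace St
open Ctx
variable {s : St V} {P : Par}

def VB (s : St V) (P : Par) (f : V → ℝ) : Prop := ∀ y, s.T4 y → ¬ s.K y → 1 ≤ s.ns y →
  (s.ns y = 1 → P.g ≤ s.adj P.k0 f y) ∧ (¬ s.loc y → (3 - s.ns y) * P.g ≤ s.adj P.k0 f y ∧
    (¬ s.Av y (s.M - 1) → (3 - s.ns y) * (P.k0 - P.pd) ≤ s.adj P.k0 f y))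

theorem T4.cl : ∀ y, s.T4 y → ∀ z, s.SA y z → s.T4 z := fun _ h _ hz => h.sa hz

theorem T4.ns3 {y : V} (h : s.T4 y) (hl : ¬ s.loc y) : (0 : ℝ) ≤ 3 - s.ns y := by
  have := h.cnt
  have : s.nu y ≠ 0 := fun h => hl (loc_iff.mpr h)
  rw [sub_nonneg]; exact_mod_cast (by omega : s.ns y ≤ 3)

theorem vb_gen (H : P.OK s.M) {e : V → ℝ}
    (he : ∀ y, e y = 0 ∨ (e y = P.dl ∧ ∃ v ∈ s.Lo y, s.Av v 3)) :
    s.VB P (fun y => s.nt P y - e y) := by
  intro y h hk h1
  obtain ⟨e1, e2, e3, e4, e5, e6, e7, e8, e9, e10, e11, -⟩ := P.eqs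
  obtain ⟨o1, o2, o3, o4, o5, o6, o7, o8, o9, o10, o11, o12, o13, o14, o15, o16, o17, o18, o19⟩ :=
    H.ord
  obtain ⟨g1, g2, g3, -⟩ := H.big
  have sg : ¬ s.loc y → (3 - s.ns y) * P.g ≤ s.adj P.k0 (fun y => s.nt P y - e y) y := by
    intro hl
    have := mul_le_mul_of_nonneg_left g3 (h.ns3 hl)
    unfold adj
    rcases he y with h0 | ⟨h0, v, v1, v2⟩
    · have := nt_sig H h hl (by linarith) fun v hv => (pr_all H h hv).1
      simp only [h0]; linarith
    · have := nt_sig1 H h hl (by linarith) v1 (pr_key H h v1 le_rfl v2).1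
        fun v hv => (pr_all H h hv).1
      simp only [h0]; linarith
  refine ⟨fun h2 => ?_, fun hl => ⟨sg hl, fun ha => ?_⟩⟩
  · by_cases hl : s.loc y
    · unfold adj
      rcases he y with h0 | ⟨h0, v, v1, v2⟩
      · have := nt_tau H h hl fun v hv => (pr_all H h hv).2.1 hl
        simp only [h0, h2] at *; push_cast at *; linarith
      · have := nt_tau1 H h hl v1 (pr_key H h v1 le_rfl v2).1 fun v hv => (pr_all H h hv).2.1 hl
        simp only [h0, h2] at *; push_cast at *; linarith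
    · have := sg hl
      rw [h2] at this; push_cast at this; linarith
  · unfold adj
    rcases he y with h0 | ⟨h0, v, v1, v2⟩
    · have := nt_sig H h hl (by linarith) fun v hv => (pr_all H h hv).2.2.2.2 ha
      simp only [h0]; linarith
    · have := nt_sig1 H h hl (by linarith) v1
        ((pr_key H h v1 le_rfl v2).2.1 fun h' => ha (sing_av h v1 h'))
        fun v hv => (pr_all H h hv).2.2.2.2 ha
      simp only [h0]; linarith

theorem vb_nt (H : P.OK s.M) : s.VB P (s.nt P) := by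
  simpa using vb_gen H (e := fun _ => 0) fun _ => Or.inl rfl

theorem vb_dl (H : P.OK s.M) {z : V} (hz : ∃ v ∈ s.Lo z, s.Av v 3) :
    s.VB P (fun y => s.nt P y - if y = z then P.dl else 0) :=
  vb_gen H fun y => by
    by_cases e : y = z
    · exact Or.inr ⟨if_pos e, e ▸ hz⟩
    · exact Or.inl (if_neg e)

omit [Fintype V] in
theorem sum_dl {S : Finset V} {f : V → ℝ} {z : V} {a : ℝ} (hz : z ∈ S) :
    ∑ y ∈ S, (f y - if y = z then a else 0) = ∑ y ∈ S, f y - a := by
  rw [sum_sub_distrib, sum_ite_eq' S z, if_pos hz]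

theorem VB.nonneg (H : P.OK s.M) {f : V → ℝ} (hf : s.VB P f) (y : V) (h : s.T4 y) (hk : ¬ s.K y)
    (h1 : 1 ≤ s.ns y) : 0 ≤ s.adj P.k0 f y := by
  obtain ⟨a, b⟩ := hf y h hk h1
  by_cases e : s.ns y = 1
  · exact H.big.1.trans (a e)
  · have hl := h.nloc hk (by omega)
    exact (mul_nonneg (h.ns3 hl) H.big.1).trans (b hl).1

theorem W_g (H : P.OK s.M) {f : V → ℝ} (hf : s.VB P f) {u v : V} (ho : s.Out u v) (h : s.T4 v) :
    P.g ≤ s.W P.k0 f u v :=
  W_base T4.cl H.big.1 (fun y a b e => ⟨hf.nonneg H y a b e, (hf y a b e).1⟩) ho h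

theorem W_G (H : P.OK s.M) {f : V → ℝ} (hf : s.VB P f) (n : ℕ) : ∀ {u v : V}, s.Out u v → s.T4 v →
    s.Hyp u v n → P.G n ≤ s.W P.k0 f u v := by
  obtain ⟨e1, e2, e3, e4, e5, e6, e7, -⟩ := P.eqs
  obtain ⟨o1, o2, o3, -⟩ := H.ord
  induction n with
  | zero => intro u v ho h _; exact (min_le_left _ _).trans (by simpa using W_g H hf ho h)
  | succ n ih =>
    intro u v ho h hy
    have hl : ¬ s.loc v := fun hl => hy.1 ((s.av v hl h.2.le h.1).mono (by omega))
    have a := W_ge (k := P.k0) (f := f) (B := P.G n) ho fun x hs hx =>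
      ih (ho.child hs hx) (h.sa hs) (hy.child ho hs hx)
    obtain ⟨b1, b2⟩ := (hf v h ho.nk (ns_pos ho.1.symm)).2 hl
    have h3 := h.ns3 hl
    have h1 : (0 : ℝ) ≤ s.ns v - 1 := by
      rw [sub_nonneg]; exact_mod_cast ns_pos ho.1.symm
    set x := min (2 ^ n * P.g) (P.k0 - P.pd) with hx
    have c1 : (3 - s.ns v) * x ≤ s.adj P.k0 f v := by
      cases n with
      | zero => exact (mul_le_mul_of_nonneg_left (by simp [hx]) h3).trans b1
      | succ n =>
        exact (mul_le_mul_of_nonneg_left (min_le_right _ _) h3).trans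
          (b2 fun ha => hy.1 (ha.mono (by omega)))
    have c2 : x ≤ P.G n := min_le_min le_rfl (by linarith)
    have c3 : P.G (n + 1) = 2 * x := by
      unfold Par.G; rw [hx, mul_min_of_nonneg _ _ (by norm_num), pow_succ]; congr 1; ring
    have := mul_le_mul_of_nonneg_left c2 h1
    linarith

theorem centre_tree (H : P.OK s.M) {f : V → ℝ} (hf : s.VB P f) {t : V} (h : s.T4 t)
    (ht : ∀ z, s.Cmp t z → ¬ s.K z) {r l : List V} {D m k : ℕ} (h1 : s.LP (t :: r))
    (h2 : s.Post (lst t r) m) (h3 : D ≤ k + r.length + m) (h4 : s.DP (l ++ [t]))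
    (h5 : ∀ x ∈ r, x ∉ l) (h6 : k ≤ l.length + 1) (h7 : s.Av t (s.M + 1 - k)) (h8 : k ≤ D / 2)
    (h9 : 1 ≤ k) : P.G (D / 2 - 1) + P.G ((D + 1) / 2 - 1) - 2 * P.k0 ≤
      ∑ y ∈ univ.filter (s.Cmp t), f y := by
  obtain ⟨r1, q, q', r2, e, a, b⟩ := centre r t k h1 h2 h3 ⟨l, h4, h5, h6⟩ h7
    (fun x hx => ht x (Cmp.of_mem h1 (by simp [hx]))) h8 h9
  have c1 : s.Cmp t q := Cmp.of_mem h1 (by rw [e]; simp)
  have c2 : s.SA q q' := LP.rel (e ▸ h1)
  have c3 := c1.ind T4.cl h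
  have := W_G H hf _ (out_tree (fun z hz => ht z (c1.trans hz)) c2) (c3.sa c2) a
  have := W_G H hf _ (out_tree (fun z hz => ht z ((c1.step c2).trans hz)) c2.symm) c3 b
  rw [cmp_congr c1, cmp_edge P.k0 f c2 (ht q c1)]
  linarith

theorem tree_act (H : P.OK s.M) {t : V} (h : s.T4 t) (ht : ∀ z, s.Cmp t z → ¬ s.K z)
    (ha : s.act t) : 0 ≤ ∑ y ∈ univ.filter (s.Cmp t), s.nt P y := by
  have hM := H.hM
  obtain ⟨-, -, -, g4, g5⟩ := H.big
  by_cases lt : s.loc t
  · have av : s.Av t (s.M + 1 - 1) := s.av t lt h.2.le h.1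
    by_cases h2 : s.Bv t (s.M - 2)
    · obtain ⟨r, m, a, b, e⟩ := h2.lp
      have := centre_tree H (vb_nt H) h ht (l := []) a b e (DW.single t) (by simp) (by simp) av
        (by omega) le_rfl
      rw [show s.M - 2 + 1 = s.M - 1 by omega] at this
      linarith
    · obtain ⟨r, m, a, b, e⟩ := Bv.lp ha.1
      obtain ⟨r0, n, hm⟩ := h.mp lt
      have h3 : 1 + r0.length + 0 < s.M - 2 := by
        by_contra hc
        exact h2 ((bv_of_lp hm.1 (post_zero _)).mono (by omega))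
      have := centre_tree H (vb_dl H (pre_key hm.2.1 (by have := hm.2.2; omega) (by omega))) h ht
        (l := []) a b e (DW.single t) (by simp) (by simp) av (by omega) le_rfl
      rw [show s.M - 3 + 1 = s.M - 2 by omega,
        sum_dl (by simpa using Cmp.of_mem hm.1 (lst_mem t r0))] at this
      linarith
  · obtain ⟨z, z1, z2⟩ := ha.2.resolve_left lt
    obtain ⟨r, m, a, b, e⟩ := Bv.lp ha.1
    obtain ⟨w, hw⟩ := exists_up (c := s.toCtx) (v := t) (by
      by_contra hc; exact lt (loc_iff.mpr (by omega)))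
    obtain ⟨w1, w2⟩ := mem_Up.mp hw
    have := centre_tree H (vb_nt H) h ht (l := [w]) (D := s.M - 2) (k := 2) a b (by omega)
      ((DW.single t).cons w1.symm w2.le (by simpa using w1.ne.symm))
      (fun x hx => by have := a.d_eq x hx; simp only [List.mem_singleton]; rintro rfl; omega)
      (by simp) ((sing_av h z1 ⟨z2.1, z2.2.1⟩).mono (by omega)) (by omega) (by omega)
    rw [show s.M - 2 + 1 = s.M - 1 by omega] at this
    linarith

theorem star_sum {p : V} (f : V → ℝ) (h : ∀ a, s.SA p a → s.ns a ≤ 1) :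
    ∑ y ∈ univ.filter (s.Cmp p), f y = f p + ∑ y ∈ s.Sd p, f y := by
  rw [cmp_eq (S := insert p (s.Sd p)) (by simp), sum_insert fun hp => (mem_Sd.mp hp).ne rfl]
  · intro y hy z hz
    simp only [mem_insert, mem_Sd] at hy ⊢
    rcases hy with rfl | hy
    · exact Or.inr hz
    · exact Or.inl ((s1_of (h y hy) hy.symm).2 z hz)
  · intro y hy
    simp only [mem_insert, mem_Sd] at hy
    rcases hy with rfl | hy
    exacts [Cmp.refl _, (Cmp.refl p).step hy]

theorem star_mp {p a : V} {r : List V} {n : ℕ} (h : ∀ a, s.SA p a → s.ns a ≤ 1) (ha : s.SA p a)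
    (hm : s.MP a r n) : (s.Pre p n ∧ s.M ≤ n + 2) ∨
      ∃ b, s.SA p b ∧ b ≠ a ∧ b ∈ r ∧ s.Pre b n ∧ s.M ≤ n + 3 := by
  have h1 := hm.mem ha.symm
  have h2 := hm.2.2
  have hn := hm.1.1
  match r, hm with
  | [], _ => simp at h1
  | [x], hm =>
    obtain rfl : p = x := by simpa using h1
    exact Or.inl ⟨hm.2.1, by simp at h2; omega⟩
  | x :: b :: r, hm =>
    obtain rfl := (s1_of (h a ha) ha.symm).2 x hm.1.rel0
    have h3 := hm.1.tail.rel0
    cases r with
    | nil => exact Or.inr ⟨b, h3, by grind, by simp, hm.2.1, by simp at h2; omega⟩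
    | cons y r => have := (s1_of (h b h3) h3.symm).2 y hm.1.tail.tail.rel0; grind

theorem leaf_bd (H : P.OK s.M) {a : V} (h : s.T4 a) (h1 : s.ns a = 1) (ha : ¬ s.act a) :
    (s.loc a → 1 + P.μ - 3 * P.s ≤ s.nt P a) ∧ (¬ s.loc a → P.k0 - 2 * P.sm ≤ s.nt P a) := by
  obtain ⟨o1, o2, o3, o4, o5, o6, o7, o8, o9, o10, o11, o12, o13, o14, o15, o16, -⟩ := H.ord
  constructor
  · intro hl
    have := nt_tau H h hl fun v hv => (pr_nact H h hv ha).2 hl
    rw [h1] at this; push_cast at this; linarith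
  · intro hl
    have := nt_sig H h hl (by linarith) fun v hv => (pr_nact H h hv ha).1
    rw [h1] at this; push_cast at this; linarith

theorem k2_tau (H : P.OK s.M) {t y : V} (h : s.T4 t) (h1 : s.S1 t y) (lt : s.loc t) (ly : s.loc y)
    (ha : ¬ s.act t) : 0 ≤ s.nt P t := by
  have hM := H.hM
  obtain ⟨o1, o2, -⟩ := H.ord
  obtain ⟨g1, g2, g3, g4, g5, g6, g7, g8, -⟩ := H.sml
  have nd : ¬ s.deep t := fun hd => ha ⟨hd, Or.inl lt⟩
  have ps : ∀ v ∈ s.Lo t, s.price P t v ≤ P.s := fun v hv => (pr_all H h hv).2.2.1 nd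
  have k2 : ∀ v ∈ s.Lo t, s.sing v → ∃ v2 ∈ s.Lo t, v2 ≠ v ∧ s.Av v2 (s.M - 2) := fun v hv h2 =>
    key2 (by omega) hv h2 ly (h.sa h1.1).2.ge h1.1.ne.symm h1.2
  by_cases h2 : ∃ v ∈ s.Lo t, s.sing v
  · obtain ⟨v, a, b⟩ := h2
    obtain ⟨x, x1, -, x3⟩ := k2 v a b
    by_cases sx : s.sing x
    · obtain ⟨z, z1, z2, z3⟩ := k2 x x1 sx
      have := nt_ge2 H h z1 x1 z2 ((pr_key H h z1 (by omega) z3).2.2.2.1 le_rfl)
        ((pr_key H h x1 (by omega) x3).2.2.2.1 le_rfl) ps
      have c := h.cnt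
      have c2 := h1.ns
      have u0 := loc_iff.mp lt
      rw [u0, show s.nl t = 3 by omega] at this; push_cast at this; linarith
    · have := nt_tau1 H h lt x1 ((pr_key H h x1 (by omega) x3).2.2.2.2.1 le_rfl sx) ps
      rw [h1.ns] at this; push_cast at this; linarith
  · push Not at h2
    have := nt_tau H h lt fun v hv => pr_multi' H h hv (h2 v hv) nd
    rw [h1.ns] at this; push_cast at this; linarith

theorem star_ge (H : P.OK s.M) {p : V} (h : s.T4 p) (hk : ¬ s.K p) (h0 : 1 ≤ s.ns p)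
    (hs : ∀ a, s.SA p a → s.ns a ≤ 1) (ha : ∀ a, s.Cmp p a → ¬ s.act a) :
    0 ≤ ∑ y ∈ univ.filter (s.Cmp p), s.nt P y := by
  have hM := H.hM
  obtain ⟨o1, o2, o3, o4, o5, o6, o7, o8, o9, o10, o11, o12, o13, o14, o15, o16, -⟩ := H.ord
  obtain ⟨g1, g2, g3, g4, g5, g6, g7, g8, g9, g10, g11, g12, g13, g14, g15, g16⟩ := H.sml
  rw [star_sum _ hs]
  have np := ha p (Cmp.refl p)
  have na := fun a (h : s.SA p a) => ha a ((Cmp.refl p).step h)
  have lb := fun a (h' : s.SA p a) => leaf_bd H (h.sa h')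
    (le_antisymm (hs a h') (ns_pos h'.symm)) (na a h')
  have sigkey : ∀ t, s.T4 t → ¬ s.loc t → ¬ s.act t → ∀ n, s.Pre t n → s.M ≤ n + 2 →
      P.k0 - P.r - (2 - s.ns t) * P.sm ≤ s.nt P t := by
    intro t h hl ha n a b
    obtain ⟨v, v1, v2⟩ := pre_key (k := s.M - 2) a (by omega) (by omega)
    exact nt_sig1 H h hl (by linarith) v1 ((pr_key H h v1 (by omega) v2).2.2.2.1 le_rfl)
      fun v hv => (pr_nact H h hv ha).1
  have nadj : ∀ a b, s.SA p a → s.SA p b → ¬ s.G.Adj a b := fun a b h1 h2 h3 =>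
    h2.ne ((s1_of (hs a h1) h1.symm).2 b ⟨h3, h1.2.symm.trans h2.2⟩).symm
  by_cases h1 : s.ns p = 1
  · obtain ⟨a, sa⟩ := exists_sd h0
    have s1 := s1_of h1.le sa
    have s2 := s1_of (hs a sa) sa.symm
    rw [s1.sd, sum_singleton]
    have mix : ∀ t y, s.T4 t → s.S1 t y → s.S1 y t → s.loc t → ¬ s.loc y → ¬ s.act t →
        ¬ s.act y → 0 ≤ s.nt P t + s.nt P y := by
      intro t y h a b lt ly c d
      obtain ⟨r, n, hm⟩ := h.mp lt
      have := (leaf_bd H h a.ns c).1 lt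
      rcases star_mp (p := y) (fun z hz => by rw [b.2 z hz]; exact a.ns.le) b.1 hm with
        ⟨e1, e2⟩ | ⟨z, e1, e2, -⟩
      · have := sigkey y (h.sa a.1) ly d n e1 e2
        rw [b.ns] at this; push_cast at this; linarith
      · exact absurd (b.2 z e1) e2
    by_cases lp : s.loc p <;> by_cases la : s.loc a
    · exact add_nonneg (k2_tau H h s1 lp la np) (k2_tau H (h.sa sa) s2 la lp (na a sa))
    · exact mix p a h s1 s2 lp la np (na a sa)
    · rw [add_comm]; exact mix a p (h.sa sa) s2 s1 la lp (na a sa) np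
    · have := (leaf_bd H h h1 np).2 lp
      have := (lb a sa).2 la
      linarith
  have lp := h.nloc hk (by omega)
  have bp := nt_sig H h lp (by linarith) fun v hv => (pr_nact H h hv np).1
  by_cases h2 : s.ns p = 2
  · obtain ⟨a, b, s2⟩ := exists_s2 h2
    rw [s2.sd, sum_pair s2.2.2.1]
    rw [h2] at bp; push_cast at bp
    obtain ⟨a1, a2⟩ := lb a s2.1
    obtain ⟨b1, b2⟩ := lb b s2.2.1
    by_cases la : s.loc a <;> by_cases lb : s.loc b
    · have key : ∀ a b r n, s.S2 p a b → s.MP a r n → b ∉ r → P.k0 - P.r ≤ s.nt P p := by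
        intro a b r n s2 hm hb
        rcases star_mp hs s2.1 hm with ⟨e1, e2⟩ | ⟨z, e1, e2, e3, -⟩
        · have := sigkey p h lp np n e1 e2
          rw [h2] at this; push_cast at this; linarith
        · have := s2.2.2.2 z e1; grind
      have := a1 la; have := b1 lb
      rcases pairMP la lb s2.2.2.1 (nadj a b s2.1 s2.2.1) with ⟨r, n, c1, c2⟩ | ⟨r, n, c1, c2⟩
      · linarith [key a b r n s2 c1 c2]
      · linarith [key b a r n s2.symm c1 c2]
    · linarith [a1 la, b2 lb]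
    · linarith [a2 la, b1 lb]
    · linarith [a2 la, b2 lb]
  have c := h.cnt
  have u0 : s.nu p ≠ 0 := fun h => lp (loc_iff.mpr h)
  have h3 : s.ns p = 3 := by omega
  rw [h3] at bp; push_cast at bp
  obtain ⟨a, sa⟩ := exists_sd h0
  obtain ⟨b, sb, ba⟩ := other_sd (c := s.toCtx) (v := p) (by omega) a
  obtain ⟨e, se, ea, eb⟩ := other_sd2 h3.ge a b
  have s3 := s3_of h3.le sa sb se ba.symm ea.symm eb.symm
  rw [s3.sd, sum_insert (by simp [ba.symm, ea.symm]), sum_pair eb.symm]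
  have key : ∀ a b e, s.SA p a → s.SA p b → s.SA p e → a ≠ b → s.loc a → s.loc b → s.loc e →
      (∀ z, s.SA p z → z = a ∨ z = b ∨ z = e) → 1 + P.μ - P.semi - 2 * P.s ≤ s.nt P e := by
    intro a b e sa sb se ab la lb le hz
    have k : ∀ a b r n, s.SA p a → s.MP a r n → b ∉ r → (∀ z, s.SA p z → z = a ∨ z = b ∨ z = e) →
        ∃ n, s.Pre e n ∧ s.M ≤ n + 3 := by
      intro a b r n sa hm hb hz
      rcases star_mp hs sa hm with ⟨e1, e2⟩ | ⟨z, e1, e2, e3, e4⟩
      · have := pre_nl e1 (by omega); omega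
      · have : z = e := by have := hz z e1; grind
        exact ⟨n, this ▸ e4⟩
    obtain ⟨n, c1, c2⟩ : ∃ n, s.Pre e n ∧ s.M ≤ n + 3 := by
      rcases pairMP la lb ab (nadj a b sa sb) with ⟨r, n, c1, c2⟩ | ⟨r, n, c1, c2⟩
      · exact k a b r n sa c1 c2 hz
      · exact k b a r n sb c1 c2 (by grind)
    obtain ⟨v, v1, v2⟩ := pre_key (k := s.M - 3) c1 (by omega) (by omega)
    have := nt_tau1 H (h.sa se) le v1 ((pr_key H (h.sa se) v1 (by omega) v2).2.2.1 le_rfl)
      fun v hv => (pr_nact H (h.sa se) hv (na e se)).2 le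
    rw [le_antisymm (hs e se) (ns_pos se.symm)] at this; push_cast at this; linarith
  obtain ⟨a1, a2⟩ := lb a sa
  obtain ⟨b1, b2⟩ := lb b sb
  obtain ⟨e1, e2⟩ := lb e se
  have hz := s3.2.2.2.2.2.2
  by_cases la : s.loc a <;> by_cases lb : s.loc b <;> by_cases le : s.loc e
  · linarith [key a b e sa sb se ba.symm la lb le hz, key a e b sa se sb ea.symm la le lb (by grind),
      key b e a sb se sa eb.symm lb le la (by grind)]
  · linarith [a1 la, b1 lb, e2 le]
  · linarith [a1 la, b2 lb, e1 le]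
  · linarith [a1 la, b2 lb, e2 le]
  · linarith [a2 la, b1 lb, e1 le]
  · linarith [a2 la, b1 lb, e2 le]
  · linarith [a2 la, b2 lb, e1 le]
  · linarith [a2 la, b2 lb, e2 le]

theorem tree_sum (H : P.OK s.M) {t : V} (h : s.T4 t) (ht : ∀ z, s.Cmp t z → ¬ s.K z) :
    0 ≤ ∑ y ∈ univ.filter (s.Cmp t), s.nt P y := by
  have t4 : ∀ z, s.Cmp t z → s.T4 z := fun z hz => hz.ind T4.cl h
  by_cases h1 : ∃ z, s.Cmp t z ∧ s.act z
  · obtain ⟨z, a, b⟩ := h1
    rw [cmp_congr a]
    exact tree_act H (t4 z a) (fun y hy => ht y (a.trans hy)) b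
  push Not at h1
  by_cases h0 : s.ns t = 0
  · rw [star_sum _ fun a ha => by have := ns_pos ha; omega, card_eq_zero.mp h0]
    simpa using iso4 H h h0
  by_cases h2 : ∃ p q, s.Cmp t p ∧ s.SA p q ∧ 2 ≤ s.ns p ∧ 2 ≤ s.ns q
  · obtain ⟨p, q, a, b, c, d⟩ := h2
    obtain ⟨o1, o2, o3, o4, o5, o6, o7, o8, o9, o10, o11, o12, o13, o14, o15, o16, -⟩ := H.ord
    obtain ⟨g1, g2, g3, g4, g5, g6, g7, g8, g9, g10, g11, g12, g13, g14, g15, g16⟩ := H.sml
    set B := min (1 + P.μ + P.k0 - 3 * P.s) (2 * (P.k0 - P.sm)) with hB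
    have sg : ∀ y, s.Cmp t y → ¬ s.loc y → (3 - s.ns y) * (P.k0 - P.sm) ≤ s.adj P.k0 (s.nt P) y := by
      intro y hy hl
      have := nt_sig H (t4 y hy) hl (by linarith) fun v hv => (pr_nact H (t4 y hy) hv (h1 y hy)).1
      unfold adj; linarith
    have B0 : 0 ≤ B := le_min (by linarith) (by linarith)
    have base : ∀ u v, s.Out u v → s.Cmp t v → B ≤ s.W P.k0 (s.nt P) u v := fun u v ho =>
      W_base (Z := s.Cmp t) (fun y hy z hz => hy.step hz) B0 (fun y hy hk _ => by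
        have e1 : s.ns y = 1 → B ≤ s.adj P.k0 (s.nt P) y := fun e => by
          by_cases hl : s.loc y
          · have := (leaf_bd H (t4 y hy) e (h1 y hy)).1 hl
            refine (min_le_left _ _).trans ?_
            unfold adj; rw [e]; push_cast; linarith
          · have := sg y hy hl
            rw [e] at this; push_cast at this
            exact (min_le_right _ _).trans (by linarith)
        refine ⟨?_, e1⟩
        by_cases e : s.ns y = 1
        · exact B0.trans (e1 e)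
        · have hl := (t4 y hy).nloc hk (by omega)
          exact (mul_nonneg ((t4 y hy).ns3 hl) (by linarith)).trans (sg y hy hl)) ho
    have nl : ∀ u v, s.Cmp t u → s.SA u v → 2 ≤ s.ns v → P.k0 ≤ s.W P.k0 (s.nt P) u v := by
      intro u v hu hs h2
      have ho := out_tree (fun z hz => ht z (hu.trans hz)) hs
      have hv := hu.step hs
      have a := W_ge (k := P.k0) (f := s.nt P) (B := B) ho
        fun x hx hne => base v x (ho.child hx hne) (hv.step hx)
      have hl := (t4 v hv).nloc ho.nk h2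
      have b := sg v hv hl
      have c := (t4 v hv).cnt
      have : s.nu v ≠ 0 := fun h => hl (loc_iff.mpr h)
      have e : s.ns v = 2 ∨ s.ns v = 3 := by omega
      rcases e with e | e <;> rw [e] at a b <;> push_cast at a b <;>
        rcases min_choice (1 + P.μ + P.k0 - 3 * P.s) (2 * (P.k0 - P.sm)) with h | h <;>
        rw [← hB] at h <;> linarith
    rw [cmp_congr a, cmp_edge P.k0 _ b (ht p a)]
    linarith [nl p q a b d, nl q p (a.step b) b.symm c]
  push Not at h2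
  by_cases h3 : ∃ p, s.Cmp t p ∧ 2 ≤ s.ns p
  · obtain ⟨p, a, b⟩ := h3
    rw [cmp_congr a]
    exact star_ge H (t4 p a) (ht p a) (by omega) (fun q hq => by have := h2 p q a hq b; omega)
      fun z hz => h1 z (a.trans hz)
  · push Not at h3
    exact star_ge H h (ht t (Cmp.refl t)) (by omega)
      (fun q hq => by have := h3 q ((Cmp.refl t).step hq); omega) h1

end St

end Pool.Agent.Lib.MP_c0533c_co
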