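import Pool.Agent.Lib.MP_c0533c_co.Base

namespace Pool.Agent.Lib.MP_c0533c_co
open Classical

def ell : ℕ → ℕ
  | 0 => 1
  | 1 => 1
  | 2 => 2
  | 3 => 3
  | (D + 4) => 2 * ell (D + 2)

def UB (k : ℕ) (c : ℝ) : Prop := ∃ C : ℝ, ∀ n : ℕ, (h n k : ℝ) ≤ c * n + C

namespace U

variable {V W : Type}

lemma dg_of_list (G : SimpleGraph V) (v : V) (l : List V) (h1 : l.Nodup)
    (h2 : ∀ z, G.Adj v z ↔ z ∈ l) : dg G v = l.length := by
  unfold dg
  have : G.neighborSet v = (l.toFinset : Set V) := by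
    ext z; simp [h2]
  rw [this, Set.ncard_coe_finset, List.toFinset_card_of_nodup h1]

lemma dg_mono [Fintype V] {G H : SimpleGraph V} (h : G ≤ H) (v : V) : dg G v ≤ dg H v :=
  Set.ncard_le_ncard (fun _ hz => h hz) (Set.toFinite _)

lemma dg_le_card [Fintype V] (G : SimpleGraph V) (v : V) : dg G v ≤ Fintype.card V := by
  rw [dg_eq_card]
  exact Finset.card_le_univ _

lemma handshake [Fintype V] (G : SimpleGraph V) : ∑ v, dg G v = 2 * G.edgeSet.ncard := by
  have h1 := G.sum_degrees_eq_twice_card_edges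
  have h2 : G.edgeSet.ncard = G.edgeFinset.card := by
    rw [← Set.ncard_coe_finset, SimpleGraph.coe_edgeFinset]
  rw [h2, ← h1]
  refine Finset.sum_congr rfl fun v _ => ?_
  unfold dg
  rw [← SimpleGraph.card_neighborFinset_eq_degree, ← Set.ncard_coe_finset,
    SimpleGraph.coe_neighborFinset]

lemma exists_sat_above [Fintype V] (G0 : SimpleGraph V) (k : ℕ) (h0 : mp G0 < k) :
    ∃ G : SimpleGraph V, G0 ≤ G ∧ Sat G k := by
  obtain ⟨G, hG⟩ := (Set.toFinite {G : SimpleGraph V | G0 ≤ G ∧ mp G < k}).exists_maximal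
    ⟨G0, le_rfl, h0⟩
  refine ⟨G, hG.1.1, hG.1.2, fun u v huv hn => ?_⟩
  by_contra hc
  have h1 : G ⊔ SimpleGraph.edge u v ≤ G :=
    hG.2 ⟨hG.1.1.trans le_sup_left, not_le.1 hc⟩ le_sup_left
  exact hn (h1 (Or.inr ((SimpleGraph.edge_adj u v u v).2 ⟨Or.inl ⟨rfl, rfl⟩, huv⟩)))

lemma mp_lt [Fintype V] (G : SimpleGraph V) (M : ℕ)
    (h : ∀ l, IP G.Adj (dg G) l → l.length ≤ M) : mp G < M + 1 := by
  rw [← not_le, le_mp_iff]
  rintro ⟨l, hl, hk⟩
  have := h l hl
  omega

/-- `f` identifies `H` with a union of components of `G` -/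
def Emb (H : SimpleGraph W) (G : SimpleGraph V) (f : W → V) : Prop :=
  Function.Injective f ∧ ∀ a v, G.Adj (f a) v ↔ ∃ b, v = f b ∧ H.Adj a b

lemma Emb.deg {H : SimpleGraph W} {G : SimpleGraph V} {f : W → V} (h : Emb H G f) (a : W) :
    dg G (f a) = dg H a := by
  unfold dg
  have : G.neighborSet (f a) = f '' H.neighborSet a := by
    ext z
    simp only [SimpleGraph.mem_neighborSet, Set.mem_image, h.2]
    constructor
    · rintro ⟨b, h1, h2⟩
      exact ⟨b, h2, h1.symm⟩
    · rintro ⟨b, h1, h2⟩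
      exact ⟨b, h2.symm, h1⟩
  rw [this, Set.ncard_image_of_injective _ h.1]

lemma Emb.adj {H : SimpleGraph W} {G : SimpleGraph V} {f : W → V} (h : Emb H G f) {a b : W} :
    G.Adj (f a) (f b) ↔ H.Adj a b := by
  rw [h.2]
  constructor
  · rintro ⟨c, h1, h2⟩
    rwa [h.1 h1]
  · exact fun h1 => ⟨b, rfl, h1⟩

lemma ip_push {A : W → W → Prop} {d : W → ℕ} {A' : V → V → Prop} {d' : V → ℕ} {f : W → V}
    (hf : Function.Injective f) (hA : ∀ a b, A a b → A' (f a) (f b)) (hd : ∀ a, d' (f a) = d a)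
    {l : List W} (h : IP A d l) : IP A' d' (l.map f) := by
  refine ⟨h.1.map hf, ?_⟩
  rw [List.isChain_map]
  exact h.2.imp fun a b hab => ⟨hA a b hab.1, by rw [hd, hd]; exact hab.2⟩

lemma Emb.pull {H : SimpleGraph W} {G : SimpleGraph V} {f : W → V} (h : Emb H G f) :
    ∀ (l : List V) (a : W), (f a :: l).IsChain (fun x y => G.Adj x y ∧ dg G x ≤ dg G y) →
      ∃ l' : List W, l = l'.map f
  | [], _, _ => ⟨[], rfl⟩
  | v :: l, a, hc => by
    rw [List.isChain_cons_cons] at hc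
    obtain ⟨b, rfl, -⟩ := (h.2 a v).1 hc.1.1
    obtain ⟨l', rfl⟩ := Emb.pull h l b hc.2
    exact ⟨b :: l', rfl⟩

lemma Emb.bound {H : SimpleGraph W} {G : SimpleGraph V} {f : W → V} (h : Emb H G f) {M : ℕ}
    (hH : ∀ l, IP H.Adj (dg H) l → l.length ≤ M) (a : W) (l : List V)
    (hl : IP G.Adj (dg G) (f a :: l)) : (f a :: l).length ≤ M := by
  obtain ⟨l', rfl⟩ := h.pull l a hl.2
  have e : f a :: l'.map f = (a :: l').map f := rfl
  rw [e] at hl ⊢
  rw [List.length_map]
  refine hH _ ⟨hl.1.of_map _, ?_⟩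
  have := hl.2
  rw [List.isChain_map] at this
  exact this.imp fun x y hxy => ⟨h.adj.1 hxy.1, by rw [← h.deg, ← h.deg]; exact hxy.2⟩

/-- a long increasing path exists after adding the edge `u v` -/
def Long (G : SimpleGraph V) (M : ℕ) (u v : V) : Prop :=
  ∃ l, IP (AdjP G u v) (dgP G u v) l ∧ M + 1 ≤ l.length

lemma Long.symm {G : SimpleGraph V} {M : ℕ} {u v : V} (h : Long G M u v) : Long G M v u := by
  obtain ⟨l, h1, h2⟩ := h
  have e1 : AdjP G v u = AdjP G u v := by
    funext a b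
    unfold AdjP
    rw [or_comm (a := a = v ∧ b = u)]
  have e2 : dgP G v u = dgP G u v := by
    funext a
    unfold dgP
    simp only [or_comm]
  exact ⟨l, by rw [e1, e2]; exact h1, h2⟩

lemma Emb.long {H : SimpleGraph W} {G : SimpleGraph V} {f : W → V} (h : Emb H G f) {M : ℕ}
    {a b : W} (hl : Long H M a b) : Long G M (f a) (f b) := by
  obtain ⟨l, h1, h2⟩ := hl
  refine ⟨l.map f, ip_push h.1 ?_ ?_ h1, by simpa using h2⟩
  · rintro x y (h3 | ⟨rfl, rfl⟩ | ⟨rfl, rfl⟩)
    · exact Or.inl (h.adj.2 h3)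
    · exact Or.inr (Or.inl ⟨rfl, rfl⟩)
    · exact Or.inr (Or.inr ⟨rfl, rfl⟩)
  · intro x
    unfold dgP
    rw [h.deg, h.1.eq_iff, h.1.eq_iff]

lemma ip_snoc {A : V → V → Prop} {d : V → ℕ} {l : List V} {u w : V} (h : IP A d (l ++ [u]))
    (hw : w ∉ l ++ [u]) (h1 : A u w) (h2 : d u ≤ d w) : IP A d (l ++ [u] ++ [w]) := by
  refine ⟨?_, ?_⟩
  · rw [List.nodup_append]
    refine ⟨h.1, List.nodup_singleton _, fun a ha b hb => ?_⟩
    rw [List.mem_singleton] at hb
    rintro rfl
    exact hw (hb ▸ ha)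
  · rw [List.isChain_append]
    refine ⟨h.2, List.isChain_singleton _, fun x hx y hy => ?_⟩
    simp only [List.getLast?_append, List.getLast?_singleton, Option.some_or, Option.mem_def,
      Option.some.injEq, List.head?_cons] at hx hy
    subst hx hy
    exact ⟨h1, h2⟩

lemma ip_adjP {G : SimpleGraph V} {u v : V} {d : V → ℕ} {l : List V} (h : IP G.Adj d l) :
    IP (AdjP G u v) d l := ⟨h.1, h.2.imp fun _ _ h => ⟨Or.inl h.1, h.2⟩⟩

/-- append the new neighbour to a path ending at `u` -/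
lemma long_of_end {G : SimpleGraph V} {M : ℕ} {u y : V} {l : List V}
    (h : IP G.Adj (dgP G u y) (l ++ [u])) (hy : y ∉ l ++ [u]) (hd : dg G u ≤ dg G y)
    (hM : M ≤ (l ++ [u]).length) : Long G M u y := by
  refine ⟨l ++ [u] ++ [y], ip_snoc (ip_adjP h) hy (Or.inr (Or.inl ⟨rfl, rfl⟩)) ?_, ?_⟩
  · unfold dgP
    simp [hd]
  · rw [List.length_append (bs := [y])]
    simpa using hM

/-- building blocks -/
def Good (G : SimpleGraph V) (M : ℕ) : Prop :=
  Sat G (M + 1) ∧ (∀ v, dg G v ≤ 5) ∧ ∀ u, ∃ l,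
    (IP G.Adj (fun w => dg G w + if w = u then 1 else 0) l ∧ M + 1 ≤ l.length) ∨
    (IP G.Adj (fun w => dg G w + if w = u then 1 else 0) (l ++ [u]) ∧ M ≤ (l ++ [u]).length)

lemma Emb.cross {H : SimpleGraph W} {G : SimpleGraph V} {f : W → V} (h : Emb H G f) {M : ℕ}
    (hH : Good H M) (a : W) (y : V) (hy : ∀ b, f b ≠ y) (hd : dg G (f a) ≤ dg G y) :
    Long G M (f a) y := by
  have hd' : ∀ x, dgP G (f a) y (f x) = dg H x + if x = a then 1 else 0 := by
    intro x
    unfold dgP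
    rw [h.deg, h.1.eq_iff]
    simp [hy x]
  obtain ⟨l, ⟨h1, h2⟩ | ⟨h1, h2⟩⟩ := hH.2.2 a
  · exact ⟨l.map f, ip_adjP (ip_push h.1 (fun _ _ => h.adj.2) hd' h1), by simpa using h2⟩
  · have h3 := ip_push (A' := G.Adj) h.1 (fun _ _ => h.adj.2) hd' h1
    rw [List.map_append, List.map_singleton] at h3
    refine long_of_end h3 ?_ hd (by simpa using h2)
    rw [← List.map_singleton, ← List.map_append, List.mem_map]
    rintro ⟨b, -, hb⟩
    exact hy b hb

lemma h_le [Fintype V] (G : SimpleGraph V) (M : ℕ) (hG : Sat G (M + 1)) :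
    2 * h (Fintype.card V) (M + 1) ≤ ∑ v, dg G v := by
  set e := (Fintype.equivFin V).symm with he
  have hE : Emb (G.comap e) G e := by
    refine ⟨e.injective, fun a v => ⟨fun h => ⟨e.symm v, by simp, by simpa using h⟩, ?_⟩⟩
    rintro ⟨b, rfl, hb⟩
    exact hb
  have hE' : Emb G (G.comap e) e.symm := by
    refine ⟨e.symm.injective, fun a v => ⟨fun h => ⟨e v, by simp, by simpa using h⟩, ?_⟩⟩
    rintro ⟨b, rfl, hb⟩
    simpa using hb
  rw [sat_iff] at hG
  have hS : Sat (G.comap e) (M + 1) := by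
    rw [sat_iff]
    refine ⟨fun l hl => ?_, fun u v huv hn => ?_⟩
    · have := hG.1 _ (ip_push (A' := G.Adj) (d' := dg G) e.injective (fun _ _ h => h) hE.deg hl)
      simpa using this
    · have := hE'.long (hG.2 (e u) (e v) (e.injective.ne huv) hn)
      rw [e.symm_apply_apply, e.symm_apply_apply] at this
      exact this
  have h1 : h (Fintype.card V) (M + 1) ≤ (G.comap e).edgeSet.ncard :=
    Nat.sInf_le ⟨_, hS, rfl⟩
  have h2 := handshake (G.comap e)
  have h3 : ∑ v, dg (G.comap e) v = ∑ v, dg G v := by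
    rw [← e.sum_comp (dg G)]
    exact Finset.sum_congr rfl fun v _ => (hE.deg v).symm
  omega

lemma sum_dg_le [Fintype V] (G : SimpleGraph V) :
    ∑ v, dg G v ≤ Fintype.card V * Fintype.card V := by
  have := Finset.sum_le_card_nsmul Finset.univ (dg G) (Fintype.card V) fun v _ => dg_le_card G v
  simpa using this

lemma mp_bot [Fintype V] : mp (⊥ : SimpleGraph V) < 2 := by
  refine mp_lt _ 1 fun l hl => ?_
  match l, hl with
  | [], _ => simp
  | [_], _ => simp
  | _ :: _ :: _, hl =>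
    have := hl.2
    rw [List.isChain_cons_cons] at this
    exact absurd this.1.1 (by simp)

/-- complete bipartite graph with five vertices on one side -/
def kb (r : ℕ) : SimpleGraph (Fin r) where
  Adj x y := (x.1 < 5 ∧ 5 ≤ y.1) ∨ (5 ≤ x.1 ∧ y.1 < 5)
  symm := ⟨fun _ _ h => by omega⟩
  loopless := ⟨fun _ h => by omega⟩

lemma kb_hi (r : ℕ) (hr : 11 ≤ r) (x : Fin r) (hx : x.1 < 5) : 6 ≤ dg (kb r) x := by
  have h1 : ((fun i : Fin 6 => (⟨i.1 + 5, by omega⟩ : Fin r)) '' Set.univ) ⊆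
      (kb r).neighborSet x := by
    rintro _ ⟨i, -, rfl⟩
    exact Or.inl ⟨hx, by simp⟩
  have h2 := Set.ncard_le_ncard h1 (Set.toFinite _)
  rw [Set.ncard_image_of_injective _ (fun i j hij => by
    simp only [Fin.mk.injEq] at hij; exact Fin.ext (by omega))] at h2
  simpa [Set.ncard_univ, dg] using h2

lemma kb_lo (r : ℕ) (x : Fin r) (hx : 5 ≤ x.1) : dg (kb r) x = 5 := by
  have h1 : (kb r).neighborSet x =
      ((fun i : Fin 5 => (⟨i.1, by omega⟩ : Fin r)) '' Set.univ) := by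
    ext y
    simp only [SimpleGraph.mem_neighborSet, kb, Set.mem_image, Set.mem_univ, true_and]
    constructor
    · intro h
      exact ⟨⟨y.1, by omega⟩, rfl⟩
    · rintro ⟨i, rfl⟩
      exact Or.inr ⟨hx, i.2⟩
  unfold dg
  rw [h1, Set.ncard_image_of_injective _ (fun i j hij => by
    simp only [Fin.mk.injEq] at hij; exact Fin.ext hij)]
  simp [Set.ncard_univ]

lemma exists_rest (r M : ℕ) (hr : 11 ≤ r) (hM : 2 ≤ M) :
    ∃ X : SimpleGraph (Fin r), Sat X (M + 1) ∧ ∀ v, 5 ≤ dg X v := by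
  have h0 : mp (kb r) < M + 1 := by
    refine mp_lt _ M fun l hl => ?_
    match l, hl with
    | [], _ => simp
    | [_], _ => simp; omega
    | [_, _], _ => simpa using hM
    | a :: b :: c :: _, hl =>
      have := hl.2
      rw [List.isChain_cons_cons, List.isChain_cons_cons] at this
      obtain ⟨⟨h1, h2⟩, ⟨h3, h4⟩, -⟩ := this
      exfalso
      by_cases hb : b.1 < 5
      · have h5 : 5 ≤ c.1 := by rcases h3 with h | h <;> omega
        have := kb_hi r hr b hb
        have := kb_lo r c h5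
        omega
      · have h5 : a.1 < 5 := by rcases h1 with h | h <;> omega
        have := kb_hi r hr a h5
        have := kb_lo r b (by omega)
        omega
  obtain ⟨X, h1, h2⟩ := exists_sat_above (kb r) _ h0
  refine ⟨X, h2, fun v => le_trans ?_ (dg_mono h1 v)⟩
  by_cases hv : v.1 < 5
  · have := kb_hi r hr v hv
    omega
  · exact (kb_lo r v (by omega)).ge

/-- `q` copies of `G` and one copy of `X` -/
def un (q : ℕ) (G : SimpleGraph V) (X : SimpleGraph W) : SimpleGraph ((Fin q × V) ⊕ W) where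
  Adj
    | .inl a, .inl b => a.1 = b.1 ∧ G.Adj a.2 b.2
    | .inr a, .inr b => X.Adj a b
    | _, _ => False
  symm := ⟨fun u v h => by
    cases u <;> cases v
    · exact ⟨h.1.symm, h.2.symm⟩
    · exact h
    · exact h
    · exact X.adj_symm h⟩
  loopless := ⟨fun u h => by
    cases u
    · exact G.irrefl h.2
    · exact X.irrefl h⟩

lemma un_l (q : ℕ) (G : SimpleGraph V) (X : SimpleGraph W) (i : Fin q) :
    Emb G (un q G X) (fun a => .inl (i, a)) := by
  refine ⟨fun a b h => by simpa using h, fun a v => ?_⟩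
  rcases v with ⟨j, b⟩ | w
  · constructor
    · rintro ⟨h1, h2⟩
      exact ⟨b, by simp only at h1; rw [h1], h2⟩
    · rintro ⟨c, h1, h2⟩
      simp only [Sum.inl.injEq, Prod.mk.injEq] at h1
      exact ⟨h1.1.symm, h1.2 ▸ h2⟩
  · simp [un]

lemma un_r (q : ℕ) (G : SimpleGraph V) (X : SimpleGraph W) : Emb X (un q G X) .inr := by
  refine ⟨Sum.inr_injective, fun a v => ?_⟩
  rcases v with p | w
  · simp [un]
  · simp [un]

lemma un_sat [Fintype V] [Fintype W] (q : ℕ) (G : SimpleGraph V) (X : SimpleGraph W) (M : ℕ)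
    (hG : Good G M) (hX : Sat X (M + 1)) (h5 : ∀ v, 5 ≤ dg X v) : Sat (un q G X) (M + 1) := by
  have hG1 := (sat_iff G M).1 hG.1
  rw [sat_iff] at hX ⊢
  have cr : ∀ (i : Fin q) (a : V) (w : W), Long (un q G X) M (.inl (i, a)) (.inr w) := by
    intro i a w
    refine (un_l q G X i).cross hG a _ (by simp) ?_
    rw [(un_l q G X i).deg, (un_r q G X).deg]
    exact (hG.2.1 a).trans (h5 w)
  refine ⟨fun l hl => ?_, fun u v huv hn => ?_⟩
  · rcases l with _ | ⟨⟨i, a⟩ | w, l⟩
    · simp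
    · exact (un_l q G X i).bound hG1.1 a l hl
    · exact (un_r q G X).bound hX.1 w l hl
  · rcases u with ⟨i, a⟩ | w <;> rcases v with ⟨j, b⟩ | z
    · by_cases hij : i = j
      · subst hij
        exact (un_l q G X i).long (hG1.2 a b (by simpa using huv) fun h => hn ⟨rfl, h⟩)
      · rcases le_total (dg (un q G X) (.inl (i, a))) (dg (un q G X) (.inl (j, b))) with h | h
        · exact (un_l q G X i).cross hG a _ (by simp [hij]) h
        · exact ((un_l q G X j).cross hG b _ (by simp [Ne.symm hij]) h).symm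
    · exact cr i a z
    · exact (cr j b w).symm
    · exact (un_r q G X).long (hX.2 w z (by simpa using huv) hn)

end U

theorem exists_sat (n k : ℕ) (hk : 2 ≤ k) : ∃ G : SimpleGraph (Fin n), Sat G k := by
  obtain ⟨G, -, h⟩ := U.exists_sat_above (⊥ : SimpleGraph (Fin n)) k (U.mp_bot.trans_le hk)
  exact ⟨G, h⟩

theorem h_two (n : ℕ) : h n 2 = 0 := by
  refine Nat.eq_zero_of_le_zero (Nat.sInf_le ⟨⊥, ?_, by simp⟩)
  rw [sat_iff]
  refine ⟨fun l hl => ?_, fun u v huv _ => ⟨[u, v], ⟨by simpa using huv, ?_⟩, by simp⟩⟩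
  · by_contra hc
    have := (le_mp_iff (⊥ : SimpleGraph (Fin n)) 2).2 ⟨l, hl, by omega⟩
    exact absurd U.mp_bot (not_lt.2 this)
  · rw [List.isChain_pair]
    refine ⟨Or.inr (Or.inl ⟨rfl, rfl⟩), ?_⟩
    simp [dgP, dg]

namespace U

theorem ub_of_good {V : Type} [Fintype V] [Nonempty V] (G : SimpleGraph V) (M : ℕ) (hM : 2 ≤ M)
    (hG : Good G M) (c : ℝ) (hc : ((∑ v, dg G v : ℕ) : ℝ) ≤ 2 * c * Fintype.card V) :
    UB (M + 1) c := by
  have n0 : 0 < Fintype.card V := Fintype.card_pos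
  have n1 : (0 : ℝ) < Fintype.card V := by exact_mod_cast n0
  have c0 : 0 ≤ c := by
    have : (0 : ℝ) ≤ 2 * c * Fintype.card V := le_trans (Nat.cast_nonneg _) hc
    by_contra hn
    nlinarith [not_le.1 hn]
  refine ⟨((11 + Fintype.card V) * (11 + Fintype.card V) : ℕ), fun n => ?_⟩
  by_cases hn : n < 11
  · obtain ⟨X, hX⟩ := exists_sat n (M + 1) (by omega)
    have h1 := (h_le X M hX).trans (sum_dg_le X)
    rw [Fintype.card_fin] at h1
    have h2 : n * n ≤ (11 + Fintype.card V) * (11 + Fintype.card V) :=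
      Nat.mul_le_mul (by omega) (by omega)
    have h3 : (h n (M + 1) : ℝ) ≤ ((11 + Fintype.card V) * (11 + Fintype.card V) : ℕ) := by
      exact_mod_cast (by omega : h n (M + 1) ≤ _)
    have : 0 ≤ c * n := by positivity
    linarith
  · set q := (n - 11) / Fintype.card V with hq
    set r := 11 + (n - 11) % Fintype.card V with hr
    have e1 : q * Fintype.card V + r = n := by
      have := Nat.div_add_mod (n - 11) (Fintype.card V)
      rw [mul_comm, ← hq] at this
      omega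
    have e2 : r ≤ 11 + Fintype.card V := by
      have := Nat.mod_lt (n - 11) n0
      omega
    obtain ⟨X, hX, h5⟩ := exists_rest r M (by omega) hM
    have h1 := h_le _ M (un_sat q G X M hG hX h5)
    rw [Fintype.card_sum, Fintype.card_prod, Fintype.card_fin, Fintype.card_fin, e1,
      Fintype.sum_sum_type, Fintype.sum_prod_type] at h1
    have h2 : ∑ i : Fin q, ∑ a : V, dg (un q G X) (.inl (i, a)) = q * ∑ v, dg G v := by
      rw [Finset.sum_congr rfl fun i _ => Finset.sum_congr rfl fun a _ => (un_l q G X i).deg a]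
      simp
    have h3 : ∑ w, dg (un q G X) (.inr w) ≤ (11 + Fintype.card V) * (11 + Fintype.card V) := by
      rw [Finset.sum_congr rfl fun a _ => (un_r q G X).deg a]
      refine (sum_dg_le X).trans ?_
      rw [Fintype.card_fin]
      exact Nat.mul_le_mul e2 e2
    have h4 : 2 * h n (M + 1) ≤ q * ∑ v, dg G v +
        (11 + Fintype.card V) * (11 + Fintype.card V) := by omega
    have h5 : (2 : ℝ) * h n (M + 1) ≤ q * ((∑ v, dg G v : ℕ) : ℝ) +
        ((11 + Fintype.card V) * (11 + Fintype.card V) : ℕ) := by exact_mod_cast h4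
    have h6 : (q : ℝ) * Fintype.card V ≤ n := by exact_mod_cast (by omega : q * Fintype.card V ≤ n)
    have h7 : (q : ℝ) * ((∑ v, dg G v : ℕ) : ℝ) ≤ q * (2 * c * Fintype.card V) :=
      mul_le_mul_of_nonneg_left hc (Nat.cast_nonneg _)
    have h8 : c * (q * Fintype.card V) ≤ c * n := mul_le_mul_of_nonneg_left h6 c0
    have h9 : (0 : ℝ) ≤ ((11 + Fintype.card V) * (11 + Fintype.card V) : ℕ) := Nat.cast_nonneg _
    nlinarith

end U

end Pool.Agent.Lib.MP_c0533c_co
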