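import Pool.Agent.Lib.MP_c0533c_co.UbA

namespace Pool.Agent.Lib.MP_c0533c_co
namespace U

section
variable {V : Type} [DecidableEq V]

/-- search for an increasing path with `k` more vertices whose last vertex satisfies `fin` -/
def ext (nb : V → List V) (d : V → ℕ) (fin : V → Bool) : ℕ → List V → V → Bool
  | 0, _, v => fin v
  | k + 1, vis, v =>
    (nb v).any fun y => decide (d v ≤ d y) && !(vis.contains y) && ext nb d fin k (y :: vis) y

lemma ext_sound (nb : V → List V) (d : V → ℕ) (fin : V → Bool) :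
    ∀ (k : ℕ) (vis : List V) (v : V), ext nb d fin k vis v = true →
      ∃ l : List V, l.length = k ∧ l.Nodup ∧ (∀ y ∈ l, y ∉ vis) ∧
        (v :: l).IsChain (fun a b => b ∈ nb a ∧ d a ≤ d b) ∧
        fin ((v :: l).getLast (List.cons_ne_nil _ _)) = true
  | 0, _, v, h => ⟨[], rfl, List.nodup_nil, by simp, List.isChain_singleton _, h⟩
  | k + 1, vis, v, h => by
    simp only [ext, List.any_eq_true, Bool.and_eq_true, decide_eq_true_eq, Bool.not_eq_eq_eq_not,
      Bool.not_true, List.contains_eq_mem, decide_eq_false_iff_not] at h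
    obtain ⟨y, hy, ⟨h1, h2⟩, h3⟩ := h
    obtain ⟨l, e1, e2, e3, e4, e5⟩ := ext_sound nb d fin k (y :: vis) y h3
    refine ⟨y :: l, by simp [e1], ?_, ?_, ?_, ?_⟩
    · exact List.nodup_cons.2 ⟨fun hm => e3 y hm (by simp), e2⟩
    · intro z hz
      rcases List.mem_cons.1 hz with rfl | hz
      · exact h2
      · exact fun hv => e3 z hz (List.mem_cons_of_mem _ hv)
    · exact List.isChain_cons_cons.2 ⟨⟨hy, h1⟩, e4⟩
    · rw [List.getLast_cons (List.cons_ne_nil _ _)]
      exact e5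

lemma ext_complete (nb : V → List V) (d : V → ℕ) :
    ∀ (k : ℕ) (vis : List V) (v : V) (l : List V), k ≤ l.length → l.Nodup → (∀ y ∈ l, y ∉ vis) →
      (v :: l).IsChain (fun a b => b ∈ nb a ∧ d a ≤ d b) →
      ext nb d (fun _ => true) k vis v = true
  | 0, _, _, _, _, _, _, _ => rfl
  | k + 1, _, _, [], h, _, _, _ => by simp at h
  | k + 1, vis, v, y :: l, h, h1, h2, h3 => by
    rw [List.isChain_cons_cons] at h3
    rw [List.nodup_cons] at h1
    simp only [ext, List.any_eq_true, Bool.and_eq_true, decide_eq_true_eq, Bool.not_eq_eq_eq_not,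
      Bool.not_true, List.contains_eq_mem, decide_eq_false_iff_not]
    refine ⟨y, h3.1.1, ⟨h3.1.2, h2 y (by simp)⟩, ext_complete nb d k (y :: vis) y l
      (by simpa using h) h1.2 (fun z hz hv => ?_) h3.2⟩
    rcases List.mem_cons.1 hv with rfl | hv
    · exact h1.1 hz
    · exact h2 z (List.mem_cons_of_mem _ hz) hv

lemma ext_ip (nb : V → List V) (d : V → ℕ) (fin : V → Bool) (k : ℕ) (v : V)
    (h : ext nb d fin k [v] v = true) (A : V → V → Prop) (d' : V → ℕ)
    (hA : ∀ a b, b ∈ nb a → A a b) (hd : ∀ a, d' a = d a) :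
    ∃ l u, IP A d' (l ++ [u]) ∧ l.length = k ∧ fin u = true := by
  obtain ⟨l, e1, e2, e3, e4, e5⟩ := ext_sound nb d fin k [v] v h
  refine ⟨(v :: l).dropLast, _, ?_, by simp [e1], e5⟩
  rw [List.dropLast_append_getLast]
  refine ⟨List.nodup_cons.2 ⟨fun hm => e3 v hm (by simp), e2⟩, e4.imp fun a b hab => ?_⟩
  exact ⟨hA a b hab.1, by rw [hd, hd]; exact hab.2⟩

end

/-- the graph of a list of neighbour lists -/
def gr {n : ℕ} (nb : Fin n → List (Fin n)) : SimpleGraph (Fin n) where
  Adj u v := v ∈ nb u ∧ u ∈ nb v ∧ u ≠ v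
  symm := ⟨fun _ _ h => ⟨h.2.1, h.1, h.2.2.symm⟩⟩
  loopless := ⟨fun _ h => h.2.2 rfl⟩

/-- the Boolean test of a building block -/
def check {n : ℕ} (nb : Fin n → List (Fin n)) (m D : ℕ) : Bool :=
  let vs := List.finRange n
  let d : Fin n → ℕ := fun v => (nb v).length
  vs.all (fun u => decide (nb u).Nodup && decide (d u ≤ 5) &&
    (nb u).all fun v => (nb v).contains u && !(decide (u = v))) &&
  decide ((vs.map d).sum = D) &&
  vs.all (fun v => !(ext nb d (fun _ => true) (m + 1) [v] v)) &&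
  vs.all (fun u => vs.all fun v => decide (v.1 ≤ u.1) || (nb u).contains v ||
    vs.any fun s => ext (fun w => if w = u then v :: nb w else if w = v then u :: nb w else nb w)
      (fun w => d w + if w = u ∨ w = v then 1 else 0) (fun _ => true) (m + 1) [s] s) &&
  vs.all (fun u => vs.any fun s =>
    ext nb (fun w => d w + if w = u then 1 else 0) (fun w => decide (w = u)) m [s] s ||
    ext nb (fun w => d w + if w = u then 1 else 0) (fun _ => true) (m + 1) [s] s)

lemma good_of_check {n : ℕ} (nb : Fin n → List (Fin n)) (m D : ℕ) (h : check nb m D = true) :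
    Good (gr nb) (m + 1) ∧ ∑ v, dg (gr nb) v = D := by
  simp only [check, Bool.and_eq_true, List.all_eq_true, List.mem_finRange, true_imp_iff,
    decide_eq_true_eq, Bool.not_eq_eq_eq_not, Bool.not_true, List.contains_eq_mem,
    decide_eq_false_iff_not, Bool.or_eq_true, List.any_eq_true, true_and] at h
  obtain ⟨⟨⟨⟨h1, h2⟩, h3⟩, h4⟩, h5⟩ := h
  have hadj : ∀ u v, (gr nb).Adj u v ↔ v ∈ nb u := fun u v =>
    ⟨fun h => h.1, fun h => ⟨h, ((h1 u).2 v h).1, ((h1 u).2 v h).2⟩⟩
  have hd : ∀ u, dg (gr nb) u = (nb u).length := fun u =>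
    dg_of_list _ u _ (h1 u).1.1 (hadj u)
  have hlt : ∀ u v : Fin n, u.1 < v.1 → ¬ (gr nb).Adj u v → Long (gr nb) (m + 1) u v := by
    intro u v huv hn
    rcases h4 u v with (h | h) | ⟨s, hs⟩
    · omega
    · exact absurd ((hadj u v).2 h) hn
    · obtain ⟨l, z, e1, e2, -⟩ := ext_ip _ _ _ _ _ hs (AdjP (gr nb) u v) (dgP (gr nb) u v)
        (fun a b hab => by
          split_ifs at hab with c1 c2
          · rcases List.mem_cons.1 hab with rfl | hab
            · exact Or.inr (Or.inl ⟨c1, rfl⟩)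
            · exact Or.inl ((hadj a b).2 hab)
          · rcases List.mem_cons.1 hab with rfl | hab
            · exact Or.inr (Or.inr ⟨c2, rfl⟩)
            · exact Or.inl ((hadj a b).2 hab)
          · exact Or.inl ((hadj a b).2 hab))
        (fun a => by unfold dgP; rw [hd]; split_ifs <;> rfl)
      exact ⟨_, e1, by simp [e2]⟩
  refine ⟨⟨?_, fun v => by rw [hd]; exact (h1 v).1.2, fun u => ?_⟩, ?_⟩
  · rw [sat_iff]
    refine ⟨fun l hl => ?_, fun u v huv hn => ?_⟩
    · rcases l with _ | ⟨v, l⟩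
      · simp
      · by_contra hc
        have h6 := List.nodup_cons.1 hl.1
        have := ext_complete nb (fun v => (nb v).length) (m + 1) [v] v l
          (by simp only [List.length_cons] at hc; omega) h6.2
          (fun y hy hv => h6.1 (by rw [List.mem_singleton] at hv; exact hv ▸ hy))
          (hl.2.imp fun a b hab => ⟨(hadj a b).1 hab.1, by rw [← hd, ← hd]; exact hab.2⟩)
        rw [h3 v] at this
        exact absurd this (by simp)
    · rcases lt_or_gt_of_ne (fun e => huv (Fin.ext e) : u.1 ≠ v.1) with h | h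
      · exact hlt u v h hn
      · exact (hlt v u h fun h => hn h.symm).symm
  · obtain ⟨s, hs | hs⟩ := h5 u
    · obtain ⟨l, z, e1, e2, e3⟩ := ext_ip _ _ _ _ _ hs (gr nb).Adj
        (fun w => dg (gr nb) w + @ite _ (w = u) (Classical.propDecidable _) 1 0)
        (fun a b hab => (hadj a b).2 hab) (fun a => by rw [hd]; split_ifs <;> rfl)
      rw [decide_eq_true_eq] at e3
      subst e3
      exact ⟨l, Or.inr ⟨e1, by simp [e2]⟩⟩
    · obtain ⟨l, z, e1, e2, -⟩ := ext_ip _ _ _ _ _ hs (gr nb).Adj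
        (fun w => dg (gr nb) w + @ite _ (w = u) (Classical.propDecidable _) 1 0)
        (fun a b hab => (hadj a b).2 hab) (fun a => by rw [hd]; split_ifs <;> rfl)
      exact ⟨_, Or.inl ⟨e1, by simp [e2]⟩⟩
  · rw [← h2, Finset.sum_congr rfl fun v _ => hd v, Fin.sum_univ_def]

lemma ub_of_check (n : ℕ) (A : List (List (Fin (n + 1)))) (m D : ℕ) (hm : 1 ≤ m)
    (h : check (fun v : Fin (n + 1) => A.getD v.1 []) m D = true) (c : ℝ)
    (hc : (D : ℝ) ≤ 2 * c * (n + 1)) : UB (m + 2) c := by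
  obtain ⟨h1, h2⟩ := good_of_check _ m D h
  refine ub_of_good _ (m + 1) (by omega) h1 c ?_
  rw [h2, Fintype.card_fin]
  exact_mod_cast hc

end U

theorem ub3 : UB 3 (1 / 2) :=
  U.ub_of_check 1 [[1], [0]] 1 2 le_rfl (by decide +kernel) _ (by norm_num)

theorem ub4 : UB 4 1 :=
  U.ub_of_check 2 [[1, 2], [0, 2], [0, 1]] 2 6 (by norm_num) (by decide +kernel) _ (by norm_num)

theorem ub5 : UB 5 (7 / 6) :=
  U.ub_of_check 5 [[1,3,4],[0,2,5],[1,3],[0,2],[0,5],[1,4]] 3 14 (by norm_num)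
    (by decide +kernel) _ (by norm_num)

theorem ub6 : UB 6 (5 / 4) :=
  U.ub_of_check 11
    [[1,2,9],[0,2,11],[0,1,6],[4,5,7],[3,5,10],[3,4,8],[2,7],[3,6],[5,9],[0,8],[4,11],[1,10]]
    4 30 (by norm_num) (by decide +kernel) _ (by norm_num)

theorem ub7 : UB 7 (32 / 23) :=
  U.ub_of_check 22
    [[1,13,21],[0,2,22],[1,15,21],[4,16,20],[3,5,21],[4,12,22],[7,18,22],[6,8,20],[7,14,21],
      [10,19,22],[9,11,20],[10,17,20],[5,13],[0,12],[8,15],[2,14],[3,17],[11,16],[6,19],[9,18],
      [3,7,10,11],[0,2,4,8],[1,5,6,9]]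
    5 64 (by norm_num) (by decide +kernel) _ (by norm_num)

theorem ub8 : UB 8 (10 / 7) :=
  U.ub_of_check 20
    [[1,13,19],[0,2,19],[1,3,20],[2,14,18],[5,16,18],[4,6,19],[5,7,20],[6,15,20],[9,12,19],
      [8,10,18],[9,11,18],[10,17,20],[8,13],[0,12],[3,15],[7,14],[4,17],[11,16],[3,4,9,10],
      [0,1,5,8],[2,6,7,11]]
    6 60 (by norm_num) (by decide +kernel) _ (by norm_num)

end Pool.Agent.Lib.MP_c0533c_co
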