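import Pool.Agent.Lib.MP_c0533c_co.UbA

namespace Pool.Agent.Lib.MP_c0533c_co
namespace U
open Classical

/-- balanced trees with `D` vertices on a diameter -/
structure BT (D : ℕ) where
  t : Type
  L : Type
  [ft : Fintype t]
  [fL : Fintype L]
  T : SimpleGraph t
  lf : L → t
  inj : Function.Injective lf
  d1 : ∀ s, dg T (lf s) = 1
  d3 : ∀ y, (∀ s, lf s ≠ y) → dg T y = 3
  bd : ∀ p : List t, p.Nodup → p.IsChain T.Adj → p.length ≤ D
  wit : ∀ s, ∃ (s' : L) (m : List t), (lf s' :: m ++ [lf s]).Nodup ∧
    (lf s' :: m ++ [lf s]).IsChain T.Adj ∧ m.length + 2 = D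
  cL : Fintype.card L = ell D
  ct : Fintype.card t + 2 = 2 * Fintype.card L

attribute [instance] BT.ft BT.fL

/-- one edge -/
def bt2 : BT 2 where
  t := Bool
  L := Bool
  T := ⊤
  lf := id
  inj := Function.injective_id
  d1 := fun s => dg_of_list _ s [!s] (by simp) (by cases s <;> simp)
  d3 := fun y h => absurd rfl (h y)
  bd := fun p h _ => by simpa using h.length_le_card
  wit := fun s => ⟨!s, [], by cases s <;> simp, by cases s <;> simp, rfl⟩
  cL := by simp [ell]
  ct := by simp

/-- the star with three leaves -/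
def star : SimpleGraph (Option (Fin 3)) where
  Adj a b := (a = none ∧ b ≠ none) ∨ (a ≠ none ∧ b = none)
  symm := ⟨fun _ _ h => by tauto⟩
  loopless := ⟨fun _ h => by tauto⟩

/-- the star as a balanced tree -/
def bt3 : BT 3 where
  t := Option (Fin 3)
  L := Fin 3
  T := star
  lf := some
  inj := Option.some_injective _
  d1 := fun s => dg_of_list _ _ [none] (by simp) (by simp [star])
  d3 := fun y h => by
    rcases y with _ | y
    · refine dg_of_list _ _ [some 0, some 1, some 2] (by decide) fun z => ?_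
      rcases z with _ | z
      · simp [star]
      · fin_cases z <;> simp [star]
    · exact absurd rfl (h y)
  bd := fun p h1 h2 => by
    match p, h1, h2 with
    | [], _, _ => simp
    | [_], _, _ => simp
    | [_, _], _, _ => simp
    | [_, _, _], _, _ => simp
    | a :: b :: c :: d :: _, h1, h2 =>
      exfalso
      simp only [List.isChain_cons_cons, star] at h2
      simp only [List.nodup_cons, List.mem_cons, not_or] at h1
      obtain ⟨e1, -, e3, -⟩ := h2
      rcases e1 with ⟨rfl, -⟩ | ⟨-, rfl⟩ <;> rcases e3 with ⟨rfl, -⟩ | ⟨-, rfl⟩ <;> tauto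
  wit := fun s => ⟨s + 1, [none], by fin_cases s <;> decide, by simp [star], rfl⟩
  cL := by simp [ell]
  ct := by simp

namespace BT
variable {D : ℕ} (B : BT D)

lemma leaf_nb (s : B.L) : ∃ a, ∀ z, B.T.Adj (B.lf s) z ↔ z = a := by
  obtain ⟨a, ha⟩ := Set.ncard_eq_one.1 (B.d1 s)
  exact ⟨a, fun z => by rw [← SimpleGraph.mem_neighborSet, ha, Set.mem_singleton_iff]⟩

/-- attach two leaves to every leaf -/
def grow : SimpleGraph (B.t ⊕ (B.L × Bool)) where
  Adj
    | .inl a, .inl b => B.T.Adj a b
    | .inl a, .inr x => a = B.lf x.1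
    | .inr x, .inl a => a = B.lf x.1
    | .inr _, .inr _ => False
  symm := ⟨fun u v h => by
    cases u <;> cases v
    · exact B.T.adj_symm h
    · exact h
    · exact h
    · exact h⟩
  loopless := ⟨fun u h => by
    cases u
    · exact B.T.irrefl h
    · exact h⟩

lemma grow_start : ∀ (l : List (B.t ⊕ (B.L × Bool))) (y : B.t), (Sum.inl y :: l).Nodup →
    (Sum.inl y :: l).IsChain B.grow.Adj → ∃ p : List B.t, (y :: p).Nodup ∧
      (y :: p).IsChain B.T.Adj ∧ l.length ≤ p.length + 1 ∧ ∀ z ∈ p, Sum.inl z ∈ l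
  | [], y, _, _ => ⟨[], by simp, by simp, by simp, by simp⟩
  | .inl a :: l, y, h1, h2 => by
    rw [List.isChain_cons_cons] at h2
    rw [List.nodup_cons] at h1
    obtain ⟨p, e1, e2, e3, e4⟩ := grow_start l a h1.2 h2.2
    refine ⟨a :: p, List.nodup_cons.2 ⟨fun hm => h1.1 ?_, e1⟩,
      List.isChain_cons_cons.2 ⟨h2.1, e2⟩, by simpa using e3, fun z hz => ?_⟩
    · rcases List.mem_cons.1 hm with rfl | hm
      · simp
      · exact List.mem_cons_of_mem _ (e4 _ hm)
    · rcases List.mem_cons.1 hz with rfl | hz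
      · simp
      · exact List.mem_cons_of_mem _ (e4 _ hz)
  | [.inr _], y, _, _ => ⟨[], by simp, by simp, by simp, by simp⟩
  | .inr x :: .inl a :: l, y, h1, h2 => by
    simp only [List.isChain_cons_cons, grow] at h2
    obtain ⟨rfl, rfl, -⟩ := h2
    simp at h1
  | .inr x :: .inr a :: l, y, h1, h2 => by
    simp [List.isChain_cons_cons, grow] at h2

/-- the next balanced tree -/
noncomputable def next (hD : 2 ≤ D) : BT (D + 2) where
  t := B.t ⊕ (B.L × Bool)
  L := B.L × Bool
  T := B.grow
  lf := .inr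
  inj := Sum.inr_injective
  d1 := fun s => dg_of_list _ _ [.inl (B.lf s.1)] (by simp) fun z => by
    cases z <;> simp [grow]
  d3 := fun y h => by
    rcases y with y | y
    · by_cases hy : ∃ s, B.lf s = y
      · obtain ⟨s, rfl⟩ := hy
        obtain ⟨a, ha⟩ := B.leaf_nb s
        refine dg_of_list _ _ [.inl a, .inr (s, false), .inr (s, true)] (by simp) fun z => ?_
        rcases z with z | ⟨s', b⟩
        · simp [grow, ha]
        · cases b <;> simp [grow, B.inj.eq_iff, eq_comm]
      · push Not at hy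
        rw [← B.d3 y hy]
        unfold dg
        rw [← Set.ncard_image_of_injective (B.T.neighborSet y)
          (Sum.inl_injective (β := B.L × Bool))]
        congr 1
        ext z
        rcases z with z | z
        · simp [grow]
        · simp [grow, (hy _).symm]
    · exact absurd rfl (h y)
  bd := fun p h1 h2 => by
    have key : ∀ (l : List (B.t ⊕ (B.L × Bool))) (y : B.t), (Sum.inl y :: l).Nodup →
        (Sum.inl y :: l).IsChain B.grow.Adj → l.length ≤ D := by
      intro l y e1 e2
      obtain ⟨q, f1, f2, f3, -⟩ := B.grow_start l y e1 e2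
      have := B.bd _ f1 f2
      simp only [List.length_cons] at this
      omega
    match p, h1, h2 with
    | [], _, _ => simp
    | .inl y :: l, h1, h2 =>
      have := key l y h1 h2
      simp only [List.length_cons]
      omega
    | [.inr _], _, _ => simp
    | .inr _ :: .inl y :: l, h1, h2 =>
      have := key l y (List.nodup_cons.1 h1).2 (List.isChain_cons_cons.1 h2).2
      simp only [List.length_cons]
      omega
    | .inr _ :: .inr _ :: l, _, h2 => simp [List.isChain_cons_cons, grow] at h2
  wit := fun s => by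
    obtain ⟨s', m, h1, h2, h3⟩ := B.wit s.1
    have hs : s' ≠ s.1 := by
      rintro rfl
      simp at h1
    refine ⟨(s', false), (B.lf s' :: m ++ [B.lf s.1]).map .inl, ?_, ?_, by simp; omega⟩
    · rw [List.cons_append, List.nodup_cons, List.nodup_append]
      refine ⟨?_, h1.map Sum.inl_injective, by simp, ?_⟩
      · simp [Prod.ext_iff, hs]
      · intro a ha b hb
        obtain ⟨z, -, rfl⟩ := List.mem_map.1 ha
        rw [List.mem_singleton.1 hb]
        simp
    · have h4 : ((B.lf s' :: m ++ [B.lf s.1]).map Sum.inl).IsChain B.grow.Adj := by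
        rw [List.isChain_map]
        exact h2
      rw [List.cons_append, List.isChain_cons, List.isChain_append]
      refine ⟨?_, h4, by simp, ?_⟩
      · simp [grow]
      · intro x hx y hy
        rw [List.map_append, List.map_singleton, List.getLast?_append] at hx
        simp only [List.getLast?_singleton, Option.some_or, Option.mem_def, Option.some.injEq,
          List.head?_cons] at hx hy
        subst hx hy
        rfl
  cL := by
    obtain ⟨E, rfl⟩ : ∃ E, D = E + 2 := ⟨D - 2, by omega⟩
    rw [Fintype.card_prod, B.cL, Fintype.card_bool, mul_comm]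
    rfl
  ct := by
    have := B.ct
    rw [Fintype.card_sum, Fintype.card_prod, Fintype.card_bool]
    omega

end BT

lemma exists_bt : ∀ D : ℕ, Nonempty (BT (D + 2))
  | 0 => ⟨bt2⟩
  | 1 => ⟨bt3⟩
  | D + 2 => by
    obtain ⟨B⟩ := exists_bt D
    exact ⟨B.next (by omega)⟩

/-- the gluing data of the trees -/
structure Des {D : ℕ} (B : BT D) where
  J : Type
  S : Type
  [fJ : Fintype J]
  [fS : Fintype S]
  [ne : Nonempty J]
  sv : J → B.t → S
  nx : J ≃ J
  hnx : ∀ j, nx j ≠ j
  five : ∀ x, {p : J × B.t | sv p.1 p.2 = x}.ncard = 5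
  inj : ∀ j, Function.Injective (sv j)
  one : ∀ j j' a a' b b', j ≠ j' → sv j a = sv j' a' → sv j b = sv j' b' → a = b
  key : ∀ x j, ∃ j' s, j' ≠ j ∧ sv j' (B.lf s) = x
  cS : 5 * Fintype.card S = Fintype.card J * Fintype.card B.t

attribute [instance] Des.fJ Des.fS Des.ne

lemma exists_perm {D : ℕ} (B : BT D) :
    ∃ σ : Equiv.Perm B.t, ∀ y, (∀ s, B.lf s ≠ y) → ∃ s, B.lf s = σ y := by
  have h1 : Fintype.card {y : B.t // y ∈ Set.range B.lf} = Fintype.card B.L :=
    (Fintype.card_congr (Equiv.ofInjective _ B.inj)).symm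
  have h2 := Fintype.card_subtype_compl (fun y : B.t => y ∈ Set.range B.lf)
  have h3 := B.ct
  obtain ⟨e⟩ := Function.Embedding.nonempty_of_card_le
    (α := {y : B.t // ¬ y ∈ Set.range B.lf}) (β := B.L) (by omega)
  obtain ⟨σ, hσ⟩ := Equiv.Perm.exists_extending_pair
    (f := fun y : {y : B.t // ¬ y ∈ Set.range B.lf} => y.1) (g := fun y => B.lf (e y))
    Subtype.val_injective (B.inj.comp e.injective)
  exact ⟨σ, fun y hy => ⟨e ⟨y, fun ⟨s, hs⟩ => hy s hs⟩, (hσ ⟨y, _⟩).symm⟩⟩

lemma exists_des {D : ℕ} (B : BT D) : Nonempty (Des B) := by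
  obtain ⟨σ, hσ⟩ := exists_perm B
  let sg : ZMod 5 → Equiv.Perm B.t := fun f => if f = 0 ∨ f = 1 then 1 else σ
  let sv : ZMod 5 × (B.t → ZMod 5) → B.t → (B.t → ZMod 5) × B.t := fun j y =>
    (j.2 - Pi.single ((sg j.1).symm y) j.1, (sg j.1).symm y)
  have hsv : ∀ f g y, sv (f, g + Pi.single y f) (sg f y) = (g, y) := by
    intro f g y
    simp [sv]
  refine ⟨{ J := ZMod 5 × (B.t → ZMod 5), S := (B.t → ZMod 5) × B.t, sv := sv,
            nx := (Equiv.addRight 1).prodCongr (Equiv.refl _), hnx := ?_, five := ?_, inj := ?_,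
            one := ?_, key := ?_, cS := ?_ }⟩
  · rintro ⟨f, g⟩ h
    have : f + 1 = f := congrArg Prod.fst h
    have h2 : (1 : ZMod 5) = 0 := by simpa using this
    exact absurd h2 (by decide)
  · rintro ⟨g, y⟩
    have : {p : (ZMod 5 × (B.t → ZMod 5)) × B.t | sv p.1 p.2 = (g, y)} =
        (fun f : ZMod 5 => ((f, g + Pi.single y f), sg f y)) '' Set.univ := by
      ext ⟨⟨f, γ⟩, a⟩
      simp only [Set.mem_ofPred_eq, Set.image_univ, Set.mem_range]
      constructor
      · intro h
        simp only [sv, Prod.mk.injEq] at h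
        obtain ⟨h1, rfl⟩ := h
        exact ⟨f, by simp [← h1]⟩
      · rintro ⟨f', h⟩
        simp only [Prod.mk.injEq] at h
        obtain ⟨⟨rfl, rfl⟩, rfl⟩ := h
        exact hsv _ _ _
    rw [this, Set.ncard_image_of_injective _ (fun f f' h => congrArg (fun p => p.1.1) h)]
    simp [Set.ncard_univ]
  · intro j a b h
    exact (sg j.1).symm.injective (congrArg Prod.snd h)
  · rintro ⟨f, γ⟩ ⟨f', γ'⟩ a a' b b' hj h1 h2
    simp only [sv, Prod.mk.injEq] at h1 h2
    obtain ⟨h1, h3⟩ := h1
    obtain ⟨h2, h4⟩ := h2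
    rw [← h3] at h1
    rw [← h4] at h2
    by_contra hab
    have hne : (sg f).symm a ≠ (sg f).symm b := fun h => hab ((sg f).symm.injective h)
    have e1 := congrFun h1 ((sg f).symm a)
    have e2 := congrFun h2 ((sg f).symm a)
    simp only [Pi.sub_apply, Pi.single_eq_same, Pi.single_eq_of_ne hne, sub_zero] at e1 e2
    rw [e2] at e1
    have hf : f = f' := sub_right_injective e1
    subst hf
    exact hj (by rw [sub_left_injective h1])
  · rintro ⟨g, y⟩ ⟨f, γ⟩
    by_cases hy : ∃ s, B.lf s = y
    · obtain ⟨s, rfl⟩ := hy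
      by_cases hf : f = 0
      · refine ⟨(1, g + Pi.single (B.lf s) 1), s, fun h => ?_, ?_⟩
        · have : (1 : ZMod 5) = f := congrArg Prod.fst h
          rw [hf] at this
          exact absurd this (by decide)
        · simpa [sg] using hsv 1 g (B.lf s)
      · refine ⟨(0, g + Pi.single (B.lf s) 0), s, fun h => hf (congrArg Prod.fst h).symm, ?_⟩
        simpa [sg] using hsv 0 g (B.lf s)
    · push Not at hy
      obtain ⟨s, hs⟩ := hσ y hy
      have g2 : sg 2 = σ := if_neg (by decide)
      have g3 : sg 3 = σ := if_neg (by decide)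
      by_cases hf : f = 2
      · refine ⟨(3, g + Pi.single y 3), s, fun h => ?_, ?_⟩
        · have : (3 : ZMod 5) = f := congrArg Prod.fst h
          rw [hf] at this
          exact absurd this (by decide)
        · rw [hs, ← g3]
          exact hsv 3 g y
      · refine ⟨(2, g + Pi.single y 2), s, fun h => hf (congrArg Prod.fst h).symm, ?_⟩
        rw [hs, ← g2]
        exact hsv 2 g y
  · simp only [Fintype.card_prod, ZMod.card]
    ring

end U
end Pool.Agent.Lib.MP_c0533c_co
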