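import Pool.Agent.Lib.MP_c0533c_co.F3

namespace Pool.Agent.Lib.MP_c0533c_co
open Classical Finset

variable {V : Type} [Fintype V]

namespace Ctx
variable {c : Ctx V}

def thin (c : Ctx V) (v : V) : Prop := c.d v = 3 ∧ c.nu v = 1 ∧ c.nl v = 2

theorem two_nbrs {x a b y : V} (h2 : c.d x ≤ 2) (ha : c.G.Adj x a) (hb : c.G.Adj x b) (hne : a ≠ b)
    (hy : c.G.Adj x y) : y = a ∨ y = b := by
  by_contra hc; push Not at hc
  have : 3 ≤ c.d x := by
    unfold d; rw [dg_eq_card]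
    exact two_lt_card.mpr ⟨y, by simpa using hy, a, by simpa using ha, b, by simpa using hb,
      hc.1, hc.2, hne⟩
  omega

theorem other_nbr {x a : V} (h2 : 2 ≤ c.d x) : ∃ b, c.G.Adj x b ∧ b ≠ a := by
  unfold d at h2; rw [dg_eq_card] at h2
  obtain ⟨p, hp, q, hq, hne⟩ := one_lt_card.mp h2
  by_cases e : p = a
  · exact ⟨q, by simpa using hq, fun e' => hne (e.trans e'.symm)⟩
  · exact ⟨p, by simpa using hp, e⟩

theorem xw (hM : 4 ≤ c.M) {x z t y : V} (h2 : c.d x = 2) (hz : c.G.Adj x z) (ht : c.G.Adj x t)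
    (hne : z ≠ t) (dz : 3 ≤ c.d z) (az : ∀ n, c.Av z n → n ≤ 2)
    (aT : c.d t = 3 → ∀ n, c.Av t n → n ≤ 2) (ly : c.loc y) (dy : 3 ≤ c.d y) (hn : ¬ c.G.Adj x y) :
    (∃ l, c.DP (l ++ [t]) ∧ y ∉ (l ++ [t]).tail ∧ c.M ≤ l.length + 3) ∨
      (c.d t = 3 ∧ ∃ l, c.DP (l ++ [z]) ∧ y ∉ (l ++ [z]).tail ∧ c.M ≤ l.length + 3) := by
  obtain ⟨l1, u, l2, a1, a2, a3, a4, a5, a6, a7, a8⟩ :=
    pv (v := x) (fun h => by have := h z hz; omega) ly (by omega) hn
  have hu := two_nbrs h2.le hz ht hne a1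
  have : l2.length + 1 ≤ 2 := by
    rcases hu with rfl | rfl
    · exact az _ ⟨l2, a3, le_rfl⟩
    · exact aT (by omega) _ ⟨l2, a3, le_rfl⟩
  rcases last_of_dp a4 with rfl | ⟨q, p, rfl, b1, -, b3⟩
  · simp at a8; omega
  have hp := two_nbrs h2.le hz ht hne b1.symm
  have b4 : y ∉ (q ++ [p]).tail := by cases q <;> grind
  have b5 : c.M ≤ q.length + 3 := by simp at a8; omega
  have b6 : p ≠ u := by grind
  rcases hu with rfl | rfl <;> rcases hp with rfl | rfl
  · exact absurd rfl b6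
  · exact Or.inl ⟨q, b3, b4, b5⟩
  · exact Or.inr ⟨by omega, q, b3, b4, b5⟩
  · exact absurd rfl b6

theorem pred_of {l : List V} {t : V} {k : ℕ} (h : c.DP (l ++ [t])) (hk : k + 1 ≤ l.length) :
    ∃ q p, l = q ++ [p] ∧ (p ∈ c.Up t ∨ c.SA t p) ∧ c.DP (q ++ [p]) ∧ k ≤ q.length := by
  rcases last_of_dp h with rfl | ⟨q, p, rfl, b1, b2, b3⟩
  · simp at hk
  refine ⟨q, p, rfl, ?_, b3, by simpa using hk⟩
  rcases adj_cases b1.symm with h | h | h
  exacts [Or.inl h, Or.inr h, by have := (mem_Lo.mp h).2; omega]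

end Ctx

namespace St
open Ctx
variable {s : St V}

theorem av_iso3 (hM : 5 ≤ s.M) {v : V} (h3 : s.d v = 3) (h0 : s.ns v = 0) (hu : 1 ≤ s.nu v)
    (n : ℕ) (h : s.Av v n) : n ≤ 2 := by
  obtain ⟨t, ht⟩ := exists_up hu
  obtain ⟨l, a, b⟩ := h
  cases l with
  | nil => simp at b; omega
  | cons y l =>
    rcases adj_cases a.rel0.1 with h | h | h
    · have := (mem_Up.mp h).2; have := a.rel0.2; omega
    · have := ns_pos h; omega
    · have := av_nth2 (by have := (mem_Lo.mp h).2; omega)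
        (fun h' => by have := t2_side hM h3 (nR_of_up ht) ⟨y, h, h'⟩; omega) ⟨l, a.tail, le_rfl⟩
      simp at b; omega

theorem thin_ns {v : V} (h : s.thin v) : s.ns v = 0 := by
  have := cnt (c := s.toCtx) v; have := h.1; have := h.2.1; have := h.2.2; omega

theorem thin_nR {v : V} (h : s.thin v) : ¬ s.R v :=
  let ⟨_, ht⟩ := exists_up h.2.1.ge; nR_of_up ht

theorem av_thin (hM : 5 ≤ s.M) {v : V} (h : s.thin v) (n : ℕ) (ha : s.Av v n) : n ≤ 2 :=
  av_iso3 hM h.1 (thin_ns h) h.2.1.ge n ha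

theorem x_top (hM : 5 ≤ s.M) {x z t y : V} (h2 : s.d x = 2) (hz : s.G.Adj x z) (ht : s.G.Adj x t)
    (tz : s.thin z) (dt : 4 ≤ s.d t) (ly : s.loc y) (dy : 3 ≤ s.d y) (h1 : y ≠ z) (h3 : y ≠ t) :
    ∃ l, s.DP (l ++ [t]) ∧ y ∉ (l ++ [t]).tail ∧ s.M ≤ l.length + 3 := by
  have hne : z ≠ t := by rintro rfl; have := tz.1; omega
  rcases xw (by omega) h2 hz ht hne tz.1.ge (av_thin hM tz) (by omega) ly dy
    (fun h => by have := two_nbrs h2.le hz ht hne h; grind) with h | h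
  · exact h
  · omega

theorem x_bv (hM : 5 ≤ s.M) {x z t : V} (h2 : s.d x = 2) (hz : s.G.Adj x z) (ht : s.G.Adj x t)
    (tz : s.thin z) (dt : 4 ≤ s.d t) (hR : ¬ s.R t) : s.Bv t (s.M - 2) := by
  obtain ⟨l, a, -, b⟩ := x_top hM h2 hz ht tz dt lw (by have := s.wmax t; omega)
    (by rintro e; exact thin_nR tz (e ▸ s.Rw)) (by rintro e; exact hR (e ▸ s.Rw))
  exact ⟨l, a, by omega⟩

theorem x_b5 (hM : 5 ≤ s.M) {x z t : V} (h2 : s.d x = 2) (hz : s.G.Adj x z) (ht : s.G.Adj x t)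
    (tz : s.thin z) (dt : 4 ≤ s.d t) (hR : ¬ s.R t) :
    1 ≤ s.nu t ∨ 2 ≤ s.ns t ∨ ∃ y, s.SA t y ∧ ¬ s.loc y := by
  by_contra hc
  push Not at hc
  obtain ⟨c1, c2, c3⟩ := hc
  obtain ⟨l, a, b⟩ := x_bv hM h2 hz ht tz dt hR
  obtain ⟨q, p, rfl, b1 | b1, -⟩ := pred_of (k := 0) a (by omega)
  · have := nu_pos b1; omega
  obtain ⟨l, a, a', b⟩ := x_top hM h2 hz ht tz dt (c3 p b1) (by have := b1.2; omega)
    (by rintro rfl; have := b1.2; have := tz.1; omega) b1.ne.symm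
  obtain ⟨q, p', rfl, b2 | b2, -, b3⟩ := pred_of (k := 1) a (by omega)
  · have := nu_pos b2; omega
  obtain rfl := (s1_of (by omega) b1).2 p' b2
  cases q with
  | nil => simp at b3
  | cons u q => simp at a'

theorem x_s0 (hM : 6 ≤ s.M) {x z t w : V} (h2 : s.d x = 2) (hz : s.G.Adj x z) (ht : s.G.Adj x t)
    (tz : s.thin z) (dt : s.d t = 4) (h0 : s.ns t = 0) (h1 : s.nu t = 1) (hw : w ∈ s.Up t)
    (hR : ¬ s.R w) : s.d w = 5 ∧ 1 ≤ s.nu w ∧ 1 ≤ s.ns w := by
  obtain ⟨dw, l, a1, -, a2⟩ := single h1.le hw hR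
  have key : ∀ l, s.DP (l ++ [t]) → s.M ≤ l.length + 3 →
      ∃ q, l = q ++ [w] ∧ s.DP (q ++ [w]) ∧ s.M ≤ q.length + 4 := by
    intro l a b
    obtain ⟨q, p, rfl, b1 | b1, b2, b3⟩ := pred_of (k := s.M - 4) a (by omega)
    · obtain rfl := up_unique h1.le hw p (mem_Up.mp b1).1 (mem_Up.mp b1).2
      exact ⟨q, rfl, b2, by omega⟩
    · have := ns_pos b1; omega
  refine ⟨by omega, ?_, ?_⟩
  · by_contra hc
    obtain ⟨l, a, a', b⟩ := x_top (by omega) h2 hz ht tz dt.ge (loc_iff.mpr (by omega : s.nu w = 0))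
      (by omega) (by rintro rfl; have := tz.1; omega) (by rintro rfl; omega)
    obtain ⟨q, rfl, -, b3⟩ := key l a b
    cases q with
    | nil => simp at b3; omega
    | cons u q => simp at a'
  · by_contra hc
    obtain ⟨l', a, b⟩ := x_bv (by omega) h2 hz ht tz dt.ge (nR_of_up hw)
    obtain ⟨q, rfl, b2, b3⟩ := key l' a (by omega)
    obtain ⟨r, n, c1, c2, c3⟩ := Av.lp ⟨l, a1, le_rfl⟩
    cases r with
    | nil => have := pre_bv c2 ⟨q, b2, le_rfl⟩; simp at c3; omega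
    | cons u r => have := ns_pos c1.rel0; omega

theorem thin_bv (hM : 5 ≤ s.M) {v t : V} {l : List V} (tv : s.thin v) (ht : t ∈ s.Up v)
    (a : s.DP (l ++ [v])) (b : s.M ≤ l.length + 3) :
    ∃ q, l = q ++ [t] ∧ q ≠ [] ∧ s.Bv t (s.M - 3) := by
  obtain ⟨q, p, rfl, b1 | b1, b2, b3⟩ := pred_of (k := s.M - 4) a (by omega)
  · obtain rfl := up_unique tv.2.1.le ht p (mem_Up.mp b1).1 (mem_Up.mp b1).2
    exact ⟨q, rfl, by rintro rfl; simp at b3; omega, q, b2, by omega⟩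
  · have := ns_pos b1; have := thin_ns tv; omega

theorem x_thin2 (hM : 5 ≤ s.M) {x v z tv tz : V} (h2 : s.d x = 2) (hv : s.G.Adj x v)
    (hz : s.G.Adj x z) (hne : v ≠ z) (a : s.thin v) (b : s.thin z) (h1 : tv ∈ s.Up v)
    (h3 : tz ∈ s.Up z) :
    (s.Bv tv (s.M - 3) ∨ s.Bv tz (s.M - 3)) ∧ (s.loc tz → s.Bv tv (s.M - 3)) := by
  have key : ∀ y, s.loc y → 4 ≤ s.d y → _ := fun y ly dy =>
    xw (y := y) (by omega) h2 hz hv hne.symm b.1.ge (av_thin hM b) (fun _ => av_thin hM a) ly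
      (by omega) (fun h => by have := two_nbrs h2.le hz hv hne.symm h; have := a.1; have := b.1; grind)
  have d3 : 4 ≤ s.d tz := by have := (mem_Up.mp h3).2; have := b.1; omega
  constructor
  · rcases key s.w lw (d3.trans (s.wmax tz)) with ⟨l, c1, -, c2⟩ | ⟨-, l, c1, -, c2⟩
    · exact Or.inl (thin_bv hM a h1 c1 c2).choose_spec.2.2
    · exact Or.inr (thin_bv hM b h3 c1 c2).choose_spec.2.2
  · intro lz
    rcases key tz lz d3 with ⟨l, c1, -, c2⟩ | ⟨-, l, c1, c3, c2⟩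
    · exact (thin_bv hM a h1 c1 c2).choose_spec.2.2
    · obtain ⟨q, rfl, c4, -⟩ := thin_bv hM b h3 c1 c2
      cases q with
      | nil => exact absurd rfl c4
      | cons u q => simp at c3

theorem x_three {x a : V} (h2 : s.d x = 2) (ha : a ∈ s.Up x) (hR : ∀ y ∈ s.Up x, ¬ s.R y) :
    ∃ t, s.G.Adj x t ∧ s.d t = 3 := by
  have := (mem_Up.mp ha).2
  have := s.wmax a
  obtain ⟨l1, t, l2, a1, a2, -⟩ := pv (v := x) (fun h => by have := h a (mem_Up.mp ha).1; omega) lw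
    (by omega) (fun h => hR _ (mem_Up.mpr ⟨h, by omega⟩) s.Rw)
  exact ⟨t, a1, by omega⟩

theorem iend (hM : 6 ≤ s.M) {q t : V} (h3 : s.d q = 3) (h : s.hasT2 q) (ht : t ∈ s.Up q)
    (dt : s.d t = 4) : ∃ l, s.DP (t :: l) ∧ q ∉ l ∧ s.M ≤ l.length + 1 := by
  have hR := nR_of_up ht
  have cq := t2_cnt hM h3 hR h
  obtain ⟨m', p, pc'⟩ := exists_pc cq.2.1 hR h3
  obtain ⟨hm, hp⟩ := t2_pc hM h3 hR h pc'
  obtain ⟨dp, pR, -⟩ := pc_top hM pc' h3 hR
  have cp := t2_cnt hM dp pR hp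
  have pc := pc'.rev
  rw [← List.length_reverse] at hm
  generalize m'.reverse = m at pc hm
  obtain ⟨x, hx, hx2⟩ := hp
  obtain ⟨x1, x2, x3⟩ := th2_nu hx dp hx2
  have hpq : p ≠ q := by have := pc.1.1; grind
  have upx := up_unique x1 (up_lo.mpr hx)
  have upq := up_unique cq.1.le ht
  have hxq : x ≠ q := by rintro rfl; omega
  have hn : ¬ s.G.Adj x q := fun h => hpq (upx q h (by omega)).symm
  have wx : dgP s.G x q x = 3 := by simp [dgP]; exact x2
  have wq : dgP s.G x q q = 4 := by simp [dgP]; exact h3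
  have wo : ∀ y, y ≠ x → y ≠ q → dgP s.G x q y = s.d y := by intro y a b; simp [dgP, a, b]
  have low : ∀ l, DW s.G.Adj (dgP s.G x q) l → (∀ l1 l2, l ≠ l1 ++ x :: p :: l2) →
      (∀ l1 l2, l ≠ l1 ++ q :: t :: l2) → s.DP l := by
    intro l hl a1 a2
    refine hl.change ?_
    rintro l1 a b l2 rfl hA hw
    refine ⟨hA, ?_⟩
    by_contra hc
    by_cases e1 : a = x
    · subst e1; exact a1 l1 l2 (by rw [upx b hA (by omega)])
    by_cases e2 : a = q
    · subst e2; exact a2 l1 l2 (by rw [upq b hA (by omega)])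
    rw [wo a e1 e2] at hw
    have : s.d b ≤ dgP s.G x q b := by simp [dgP]
    omega
  have low' : ∀ l, DW s.G.Adj (dgP s.G x q) l → x ∉ l → q ∉ l → s.DP l := fun l hl a b =>
    low l hl (by rintro l1 l2 rfl; simp at a) (by rintro l1 l2 rfl; simp at b)
  have fx : ∀ l, DW s.G.Adj (dgP s.G x q) (x :: l) → l.length ≤ m.length + 1 := by
    intro l hl
    have hq : q ∉ l := fun h => by have := hl.le_head q h; omega
    have hd := low' l hl.tail hl.not_mem_head hq
    cases l with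
    | nil => simp
    | cons y l =>
      by_cases e : y = p
      · subst e
        obtain ⟨r, pre, rfl, b1, b2, b3⟩ := decomp hd
        have hx' := hl.not_mem_head
        cases r with
        | nil =>
          cases pre with
          | nil => simp
          | cons u pre =>
            have := nl_two hx (mem_Lo.mpr ⟨b2.rel0.1, b3 u (by simp)⟩) (by grind); omega
        | cons z r =>
          have := pc.avoid b1 (n := pre.length) ⟨pre, b2, fun x hx => by
            rw [b1.d_eq _ (lst_mem z r)]; exact b3 x hx, rfl⟩ (by grind)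
          simp only [List.cons_append, List.length_cons, List.length_append]; omega
      · have hy : s.d y ≤ s.d x := by
          by_contra h; exact e (upx y hl.rel0.1 (by omega))
        have := av_two (by omega) hx x2.le ⟨_, hd.cons hl.rel0.1 hy hl.not_mem_head, le_rfl⟩
        simp only [List.length_cons] at this ⊢; omega
  have hx0 : ∀ l1 y, DW s.G.Adj (dgP s.G x q) (l1 ++ y :: x :: []) → y = p := by
    intro l1 y hl
    obtain ⟨a, b⟩ := hl.rel
    have hyq : y ≠ q := by rintro rfl; exact hn a.symm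
    rw [wo y a.ne hyq] at b
    exact upx y a.symm (by omega)
  have hq0 : ∀ l1 y, DW s.G.Adj (dgP s.G x q) (l1 ++ y :: q :: []) → y = t := by
    intro l1 y hl
    obtain ⟨a, b⟩ := hl.rel
    have hyx : y ≠ x := by rintro rfl; exact hn a
    rw [wo y hyx a.ne] at b
    exact upq y a.symm (by omega)
  have headx : ∀ l1 l2, DW s.G.Adj (dgP s.G x q) (l1 ++ x :: p :: l2) → l1 = [] := by
    intro l1 l2 hl
    rcases List.eq_nil_or_concat l1 with rfl | ⟨u, y, rfl⟩
    · rfl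
    have := hx0 u y (DW.left (l2 := p :: l2) (by simpa using hl))
    have := hl.1
    grind
  obtain ⟨l, hl, hk⟩ := s.sat x q hxq hn
  rcases split_new hl with h | ⟨l1, l2, ⟨rfl, -⟩ | ⟨rfl, h1, h2⟩⟩
  · by_cases e1 : ∃ l1 l2, l = l1 ++ x :: p :: l2
    · obtain ⟨l1, l2, rfl⟩ := e1
      obtain rfl := headx l1 l2 h
      have := fx _ h
      simp at this hk; omega
    by_cases e2 : ∃ l1 l2, l = l1 ++ q :: t :: l2
    · obtain ⟨l1, l2, rfl⟩ := e2
      have hnd := h.1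
      rcases List.eq_nil_or_concat l1 with rfl | ⟨u, y, rfl⟩
      · refine ⟨l2, low _ h.tail ?_ ?_, by grind, by simp at hk; omega⟩
        · intro l3 l4 e; exact e1 ⟨q :: l3, l4, by simp [e]⟩
        · intro l3 l4 e
          have : q ∈ t :: l2 := by rw [e]; simp
          grind
      · have := hq0 u y (DW.left (l2 := t :: l2) (by simpa using h))
        grind
    · push Not at e1 e2
      have := s.le _ (low l h e1 e2); omega
  · have := hl.rel.2; omega
  · exfalso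
    have := fx _ h2
    have hnd := hl.1
    rcases List.eq_nil_or_concat l1 with rfl | ⟨u, y, rfl⟩
    · simp at hk; omega
    obtain rfl := hq0 u y (by simpa using h1)
    have h4 := low' _ (DW.left h1) (by grind) (by grind)
    have h5 := av_of_lp (e := q) (r := m.reverse ++ [p]) pc.rev.1 (by simpa using x3)
    have := low_bv (mem_Up.mp ht).1.symm (mem_Up.mp ht).2 h5 ⟨u, by simpa using h4, le_rfl⟩
    simp at this hk; omega

end St

end Pool.Agent.Lib.MP_c0533c_co
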